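import Mathlib

/-!
# CarT/Conc : finite and infinite concatenation of paths

* `concat_seq`: let `P i` be a path in `S i` from `x i` to `x (i+1)`. Put
  `γ t = (P ⌊t⌋₊).extend (t - ⌊t⌋₊)` for `t ≥ 0`. On every `Icc i (i+1)` this is
  `(P i).extend (t - i)` (also at `t = i + 1`, where both are `x (i+1)`), so it is continuous there; the
  sets `Icc i (i+1)` are closed and locally finite, so `γ` is continuous on `Ici 0`
  (alternatively: prove continuity on `Icc 0 n` by induction on `n`, gluing two closed sets, and use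
  that every point of `[0, n)` has a neighbourhood in `Ici 0` contained in `Icc 0 n`).
* `joinedIn_of_seq`: by `concat_seq` for `S' i = S ∩ ball p ((1/2)^i)` there is `γ` on `Ici 0` with
  `γ t ∈ S` and `dist (γ t) p < (1/2)^⌊t⌋₊` for all `t ≥ 0`. Define `g t = γ (1/t - 1)` for `0 < t ≤ 1` and
  `g 0 = p`. Continuous on `(0, 1]`, and at `0` because `(1/2)^⌊1/t - 1⌋₊ → 0`. `g 1 = γ 0 = y 0`.
-/

open Set Metric

namespace CarT

theorem concat_seq {x : ℕ → ℂ} {S : ℕ → Set ℂ} (h : ∀ i, JoinedIn (S i) (x i) (x (i + 1))) :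
    ∃ γ : ℝ → ℂ, ContinuousOn γ (Ici 0) ∧ (∀ i : ℕ, γ i = x i) ∧
      ∀ i : ℕ, ∀ t ∈ Icc (i : ℝ) (i + 1), γ t ∈ S i := by
  let P : ∀ i : ℕ, Path (x i) (x (i + 1)) := fun i => (h i).somePath
  have hP : ∀ i t, P i t ∈ S i := fun i t => (h i).somePath_mem t
  let γ : ℝ → ℂ := fun t => (P ⌊t⌋₊).extend (t - ⌊t⌋₊)
  have key : ∀ i : ℕ, ∀ t ∈ Icc (i : ℝ) (i + 1), γ t = (P i).extend (t - i) := by
    intro i t ht
    rcases lt_or_eq_of_le ht.2 with h1 | h1
    · have h2 : ⌊t⌋₊ = i := by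
        rw [Nat.floor_eq_iff (le_trans (Nat.cast_nonneg i) ht.1)]
        exact ⟨ht.1, h1⟩
      simp only [γ]
      rw [h2]
    · have h2 : ⌊t⌋₊ = i + 1 := by
        rw [h1]
        exact_mod_cast Nat.floor_natCast (i + 1)
      simp only [γ]
      rw [h2, h1]
      push_cast
      simp
  have hc : ∀ i : ℕ, ContinuousOn γ (Icc (i : ℝ) (i + 1)) := by
    intro i
    refine ContinuousOn.congr ?_ (key i)
    exact ((P i).continuous_extend.comp (by fun_prop)).continuousOn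
  have hc2 : ∀ n : ℕ, ContinuousOn γ (Icc (0 : ℝ) n) := by
    intro n
    induction n with
    | zero =>
      have : Icc (0 : ℝ) ((0 : ℕ) : ℝ) = {0} := by simp
      rw [this]
      exact continuousOn_singleton _ _
    | succ n ih =>
      have : Icc (0 : ℝ) ((n + 1 : ℕ) : ℝ) = Icc (0 : ℝ) n ∪ Icc (n : ℝ) (n + 1) := by
        push_cast
        rw [Icc_union_Icc_eq_Icc (Nat.cast_nonneg n) (by linarith)]
      rw [this]
      exact ih.union_of_isClosed (hc n) isClosed_Icc isClosed_Icc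
  refine ⟨γ, ?_, ?_, ?_⟩
  · intro t ht
    obtain ⟨n, hn⟩ := exists_nat_gt t
    have h1 : ContinuousWithinAt γ (Icc (0 : ℝ) n) t := hc2 n t ⟨ht, hn.le⟩
    refine h1.mono_of_mem_nhdsWithin ?_
    rw [mem_nhdsWithin]
    refine ⟨Iio (n : ℝ), isOpen_Iio, hn, ?_⟩
    rintro u ⟨hu1, hu2⟩
    exact ⟨hu2, le_of_lt hu1⟩
  · intro i
    rw [key i i ⟨le_rfl, by linarith⟩]
    simp
  · intro i t ht
    rw [key i t ht]
    have h1 : (P i).extend (t - i) ∈ range (P i) := by
      rw [← Path.extend_range]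
      exact mem_range_self _
    obtain ⟨s, hs⟩ := h1
    rw [← hs]
    exact hP i s

theorem joinedIn_of_seq {S : Set ℂ} {p : ℂ} {y : ℕ → ℂ}
    (h : ∀ k : ℕ, JoinedIn (S ∩ ball p ((1 / 2) ^ k)) (y k) (y (k + 1))) :
    JoinedIn (S ∪ {p}) p (y 0) := by
  obtain ⟨γ, hγ, hγi, hγS⟩ := concat_seq h
  let g : ℝ → ℂ := fun t => if t ≤ 0 then p else γ (1 / t - 1)
  have hg0 : g 0 = p := if_pos le_rfl
  have hgp : ∀ t : ℝ, 0 < t → g t = γ (1 / t - 1) := fun t ht => if_neg (not_le.mpr ht)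
  have hnn : ∀ t ∈ Ioc (0 : ℝ) 1, 0 ≤ 1 / t - 1 := by
    intro t ht
    have : 1 ≤ 1 / t := by
      rw [le_div_iff₀ ht.1]
      linarith [ht.2]
    linarith
  have hfl : ∀ t ∈ Ioc (0 : ℝ) 1, g t ∈ S ∩ ball p ((1 / 2) ^ ⌊1 / t - 1⌋₊) := by
    intro t ht
    rw [hgp t ht.1]
    exact hγS ⌊1 / t - 1⌋₊ _ ⟨Nat.floor_le (hnn t ht), (Nat.lt_floor_add_one _).le⟩
  have hcI : ContinuousOn g (Ioc 0 1) := by
    have h1 : ContinuousOn (fun t : ℝ => γ (1 / t - 1)) (Ioc 0 1) := by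
      refine hγ.comp ?_ (fun t ht => hnn t ht)
      refine ContinuousOn.sub (ContinuousOn.div continuousOn_const continuousOn_id ?_)
        continuousOn_const
      intro t ht
      exact ht.1.ne'
    exact h1.congr (fun t ht => hgp t ht.1)
  have hc : ContinuousOn g (Icc 0 1) := by
    intro t ht
    rcases lt_or_eq_of_le ht.1 with h0 | h0
    · refine (hcI t ⟨h0, ht.2⟩).mono_of_mem_nhdsWithin ?_
      rw [mem_nhdsWithin]
      exact ⟨Ioi 0, isOpen_Ioi, h0, fun u hu => ⟨hu.1, hu.2.2⟩⟩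
    · rw [← h0]
      rw [Metric.continuousWithinAt_iff]
      intro ε hε
      obtain ⟨N, hN⟩ := exists_pow_lt_of_lt_one hε (by norm_num : (1 / 2 : ℝ) < 1)
      refine ⟨1 / ((N : ℝ) + 1), by positivity, ?_⟩
      intro u hu hu2
      rw [hg0]
      rcases lt_or_eq_of_le hu.1 with h1 | h1
      · have h2 := (hfl u ⟨h1, hu.2⟩).2
        rw [mem_ball] at h2
        refine h2.trans (lt_of_le_of_lt ?_ hN)
        apply pow_le_pow_of_le_one (by norm_num) (by norm_num)
        apply Nat.le_floor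
        rw [Real.dist_eq, sub_zero, abs_of_pos h1] at hu2
        rw [lt_div_iff₀ (by positivity)] at hu2
        have h3 : (N : ℝ) + 1 ≤ 1 / u := by
          rw [le_div_iff₀ h1]
          linarith
        linarith
      · rw [← h1, hg0, dist_self]
        exact hε
  refine JoinedIn.ofLine hc hg0 ?_ ?_
  · rw [hgp 1 one_pos]
    have : (1 : ℝ) / 1 - 1 = ((0 : ℕ) : ℝ) := by norm_num
    rw [this, hγi 0]
  · rintro _ ⟨t, ht, rfl⟩
    rcases lt_or_eq_of_le ht.1 with h0 | h0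
    · exact Or.inl (hfl t ⟨h0, ht.2⟩).1
    · rw [← h0, hg0]
      exact Or.inr rfl

end CarT
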