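import Pool.Agent.CarT.OutA
import Pool.Agent.CarT.Conc

/-!
# CarT/Acc : accessibility

`D` is open, saturated and preconnected; `p` is a point with arbitrarily small open saturated
neighbourhoods `U` such that `U ∩ D` is preconnected and nonempty. Then `p` can be joined to every
`x ∈ D ∩ T` in `(D ∩ T) ∪ {p}`.

Proof. Choose `U 0` with `U 0 ⊆ ball p 1`, and recursively `U (k+1) ⊆ ball p r` where `r ≤ (1/2)^(k+1)` is
such that `ball p r ⊆ U k` (`U k` is open and contains `p`); all with `U k ∩ D` preconnected and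
nonempty. `U k ∩ D` is open, saturated (`sat_inter`), so it contains a point `y k ∈ T`
(`h.dense`). `y k` and `y (k+1)` are in `U k ∩ D ∩ T`, so `h.path` joins them in
`U k ∩ D ∩ T ⊆ (D ∩ T) ∩ ball p ((1/2)^k)`. `joinedIn_of_seq` joins `p` to `y 0` in `(D ∩ T) ∪ {p}`.
Finally `y 0` and `x` are joined in `D ∩ T` by `h.path`.
-/

open Set Metric

namespace CarT

theorem access {W T : Set ℂ} {c : ℂ → Set ℂ} (h : Sys W T c) {D : Set ℂ} (hD : IsOpen D)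
    (hDs : IsSat c D) (hDW : D ⊆ W) (hDc : IsPreconnected D) {p : ℂ}
    (hp : ∀ r > 0, ∃ U : Set ℂ, IsOpen U ∧ IsSat c U ∧ p ∈ U ∧ U ⊆ ball p r ∧ U ⊆ W ∧
      IsPreconnected (U ∩ D) ∧ (U ∩ D).Nonempty) {x : ℂ} (hx : x ∈ D ∩ T) :
    JoinedIn ((D ∩ T) ∪ {p}) p x := by
  let St : Type := {U : Set ℂ // IsOpen U ∧ IsSat c U ∧ p ∈ U ∧ U ⊆ W ∧ IsPreconnected (U ∩ D) ∧
    (U ∩ D).Nonempty}
  have hstep : ∀ (k : ℕ) (U : St), ∃ U' : St, U'.1 ⊆ U.1 ∧ U'.1 ⊆ ball p ((1 / 2) ^ k) := by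
    intro k U
    obtain ⟨ε, hε, hball⟩ := Metric.isOpen_iff.1 U.2.1 p U.2.2.2.1
    obtain ⟨U', h1, h2, h3, h4, h5, h6, h7⟩ := hp (min ε ((1 / 2) ^ k)) (lt_min hε (by positivity))
    exact ⟨⟨U', h1, h2, h3, h5, h6, h7⟩,
      (h4.trans (ball_subset_ball (min_le_left _ _))).trans hball,
      h4.trans (ball_subset_ball (min_le_right _ _))⟩
  obtain ⟨U0, h1, h2, h3, h4, h5, h6, h7⟩ := hp 1 one_pos
  choose nxt hn1 hn2 using hstep
  let S : ℕ → St := fun n =>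
    Nat.rec ⟨U0, h1, h2, h3, h5, h6, h7⟩ (fun k U => nxt (k + 1) U) n
  have hS0 : (S 0).1 = U0 := rfl
  have hSs : ∀ k, S (k + 1) = nxt (k + 1) (S k) := fun k => rfl
  have hball : ∀ k, (S k).1 ⊆ ball p ((1 / 2) ^ k) := by
    intro k
    cases k with
    | zero =>
      rw [hS0, pow_zero]
      exact h4
    | succ k =>
      rw [hSs]
      exact hn2 (k + 1) (S k)
  have hsub : ∀ k, (S (k + 1)).1 ⊆ (S k).1 := by
    intro k
    rw [hSs]
    exact hn1 (k + 1) (S k)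
  have hG1 : ∀ k, IsOpen ((S k).1 ∩ D) := fun k => (S k).2.1.inter hD
  have hG2 : ∀ k, IsSat c ((S k).1 ∩ D) := fun k => sat_inter (S k).2.2.1 hDs
  have hG3 : ∀ k, (S k).1 ∩ D ⊆ W := fun k => inter_subset_right.trans hDW
  have hy : ∀ k, ∃ y, y ∈ (S k).1 ∩ D ∩ T := fun k =>
    h.dense _ (hG1 k) (hG2 k) (hG3 k) (S k).2.2.2.2.2.2
  choose y hy using hy
  have hjoin : ∀ k, JoinedIn ((D ∩ T) ∩ ball p ((1 / 2) ^ k)) (y k) (y (k + 1)) := by
    intro k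
    have h8 : y (k + 1) ∈ (S k).1 ∩ D ∩ T := by
      have h9 := hy (k + 1)
      exact ⟨⟨hsub k h9.1.1, h9.1.2⟩, h9.2⟩
    have h10 := h.path _ (hG1 k) (hG2 k) (hG3 k) (S k).2.2.2.2.2.1 (y k) (hy k) (y (k + 1)) h8
    refine h10.mono ?_
    rintro z ⟨⟨hz1, hz2⟩, hz3⟩
    exact ⟨⟨hz2, hz3⟩, hball k hz1⟩
  have h8 := joinedIn_of_seq hjoin
  have h9 : JoinedIn (D ∩ T) (y 0) x :=
    h.path D hD hDs hDW hDc (y 0) ⟨(hy 0).1.2, (hy 0).2⟩ x hx
  exact h8.trans (h9.mono subset_union_left)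

end CarT
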