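import Mathlib

/-!
# CarT/ArcE1 : loop erasure, first part (Zorn)

`γ : [0, 1] → ℂ` is continuous. Consider the closed sets `K ⊆ [0, 1]` containing `0` and `1` with

(P) for all `s < t` in `K` with `Ioo s t` disjoint from `K` one has `γ s = γ t`.

`K = [0, 1]` is one of them. Order by inclusion; we find a minimal one by Zorn
(`zorn_superset` / `zorn_superset_nonempty`).

*Chains.* Let `𝒞` be a nonempty chain and `K∞ = ⋂ 𝒞`; it is closed and contains `0, 1`. Let
`a < b` be in `K∞` with `Ioo a b` disjoint from `K∞`. Let `0 < η < (b - a) / 2`. The compact sets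
`K ∩ [a + η, b - η]`, `K ∈ 𝒞`, form a chain with empty intersection, so one of them is empty
(`IsCompact.elim_directed_family_closed_of_isCompact` or
`IsCompact.nonempty_sInter_of_directed_nonempty_isCompact_isClosed`). For this `K` let
`a' = sSup (K ∩ [a, a + η])`, `b' = sInf (K ∩ [b - η, b])`: both are in `K`
and `Ioo a' b'` is disjoint from `K`, so `γ a' = γ b'` and
`dist (γ a) (γ b) ≤ dist (γ a) (γ a') + dist (γ b') (γ b)`, where `|a - a'| ≤ η`, `|b - b'| ≤ η`.
Let `η → 0` and use continuity of `γ` at `a` and `b`: `γ a = γ b`.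

*Minimal `K`.* Let `s < t` be in `K`. If `Ioo s t` is disjoint from `K` then `γ s = γ t` by (P).
Conversely let `γ s = γ t` and suppose that `Ioo s t` meets `K`. Then `K' = K \ Ioo s t` is closed,
contains `0, 1` (`s, t ∈ [0, 1]`), is strictly smaller than `K`, and satisfies (P): let `a < b` be in
`K'` with `Ioo a b` disjoint from `K'`. If `Ioo a b` is disjoint from `K`, (P) for `K`. Otherwise
`Ioo a b` contains a point `u` of `K \ K'`, so `s < u < t`, `a < u < b`. Since `s, t ∈ K'` are not in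
`Ioo a b`, `s ≤ a` and `b ≤ t`; since `a, b ∉ Ioo s t`, `a ≤ s` and `t ≤ b`. So `a = s`, `b = t` and
`γ a = γ b`. This contradicts the minimality.
-/

open Set Metric

namespace CarT

private def PP (γ : ℝ → ℂ) (K : Set ℝ) : Prop :=
  IsClosed K ∧ K ⊆ Icc 0 1 ∧ (0 : ℝ) ∈ K ∧ (1 : ℝ) ∈ K ∧
    ∀ s ∈ K, ∀ t ∈ K, s < t → Disjoint (Ioo s t) K → γ s = γ t

private theorem chain_gap {𝒞 : Set (Set ℝ)} (hne : 𝒞.Nonempty)
    (hch : IsChain (fun x y => x ⊆ y) 𝒞) (hcl : ∀ K ∈ 𝒞, IsClosed K) {l r : ℝ}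
    (hd : ∀ x ∈ Icc l r, x ∉ ⋂₀ 𝒞) : ∃ K ∈ 𝒞, ∀ x ∈ Icc l r, x ∉ K := by
  by_contra hno
  push Not at hno
  haveI : Nonempty 𝒞 := hne.to_subtype
  have h1 : (⋂ K : 𝒞, (K.1 ∩ Icc l r)).Nonempty := by
    apply IsCompact.nonempty_iInter_of_directed_nonempty_isCompact_isClosed
    · intro K1 K2
      rcases hch.total K1.2 K2.2 with h | h
      · exact ⟨K1, subset_refl _, inter_subset_inter_left _ h⟩
      · exact ⟨K2, inter_subset_inter_left _ h, subset_refl _⟩
    · intro K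
      obtain ⟨x, hx, hxK⟩ := hno K.1 K.2
      exact ⟨x, hxK, hx⟩
    · intro K
      exact isCompact_Icc.inter_left (hcl K.1 K.2)
    · intro K
      exact (hcl K.1 K.2).inter isClosed_Icc
  obtain ⟨x, hx⟩ := h1
  obtain ⟨K0, hK0⟩ := hne
  have hx1 : x ∈ Icc l r := (mem_iInter.1 hx ⟨K0, hK0⟩).2
  exact hd x hx1 (mem_sInter.2 fun K hK => (mem_iInter.1 hx ⟨K, hK⟩).1)

private theorem chain_PP {γ : ℝ → ℂ} (hγ : ContinuousOn γ (Icc 0 1)) {𝒞 : Set (Set ℝ)}
    (hsub : ∀ K ∈ 𝒞, PP γ K) (hch : IsChain (fun x y => x ⊆ y) 𝒞) (hne : 𝒞.Nonempty) :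
    PP γ (⋂₀ 𝒞) := by
  obtain ⟨K0, hK0⟩ := hne
  refine ⟨isClosed_sInter fun K hK => (hsub K hK).1,
    (sInter_subset_of_mem hK0).trans (hsub K0 hK0).2.1,
    mem_sInter.2 fun K hK => (hsub K hK).2.2.1,
    mem_sInter.2 fun K hK => (hsub K hK).2.2.2.1, ?_⟩
  intro a ha b hb hab hdis
  have ha01 : a ∈ Icc (0 : ℝ) 1 := (hsub K0 hK0).2.1 (mem_sInter.1 ha K0 hK0)
  have hb01 : b ∈ Icc (0 : ℝ) 1 := (hsub K0 hK0).2.1 (mem_sInter.1 hb K0 hK0)
  by_contra hneq
  have hdist : 0 < dist (γ a) (γ b) := dist_pos.2 hneq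
  set ε := dist (γ a) (γ b) / 2 with hε
  have hε0 : 0 < ε := by positivity
  obtain ⟨δ, hδ, h1⟩ := Metric.continuousWithinAt_iff.1 (hγ a ha01) ε hε0
  obtain ⟨δ', hδ', h2⟩ := Metric.continuousWithinAt_iff.1 (hγ b hb01) ε hε0
  set η := min (min δ δ') (b - a) / 3 with hη
  have hba : 0 < b - a := by linarith
  have hη0 : 0 < η := by positivity
  have hη1 : 3 * η ≤ δ := by
    have : min (min δ δ') (b - a) ≤ δ := (min_le_left _ _).trans (min_le_left _ _)
    linarith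
  have hη2 : 3 * η ≤ δ' := by
    have : min (min δ δ') (b - a) ≤ δ' := (min_le_left _ _).trans (min_le_right _ _)
    linarith
  have hη3 : 3 * η ≤ b - a := by
    have : min (min δ δ') (b - a) ≤ b - a := min_le_right _ _
    linarith
  obtain ⟨K, hK, hKgap⟩ := chain_gap (l := a + η) (r := b - η) ⟨K0, hK0⟩ hch
    (fun K hK => (hsub K hK).1) (by
      intro x hx hx2
      exact (Set.disjoint_left.1 hdis) ⟨by linarith [hx.1], by linarith [hx.2]⟩ hx2)
  obtain ⟨hKc, hK01, hKz, hKo, hKP⟩ := hsub K hK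
  have haK : a ∈ K := mem_sInter.1 ha K hK
  have hbK : b ∈ K := mem_sInter.1 hb K hK
  have cA : IsCompact (K ∩ Icc a (a + η)) := isCompact_Icc.inter_left hKc
  have cB : IsCompact (K ∩ Icc (b - η) b) := isCompact_Icc.inter_left hKc
  have nA : (K ∩ Icc a (a + η)).Nonempty := ⟨a, haK, le_refl a, by linarith⟩
  have nB : (K ∩ Icc (b - η) b).Nonempty := ⟨b, hbK, by linarith, le_refl b⟩
  set a' := sSup (K ∩ Icc a (a + η)) with ha'
  set b' := sInf (K ∩ Icc (b - η) b) with hb'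
  have mA : a' ∈ K ∩ Icc a (a + η) := cA.sSup_mem nA
  have mB : b' ∈ K ∩ Icc (b - η) b := cB.sInf_mem nB
  have hlt : a' < b' := by
    have h3 := mA.2.2
    have h4 := mB.2.1
    linarith
  have hgap : Disjoint (Ioo a' b') K := by
    rw [Set.disjoint_left]
    intro x hx hxK
    rcases le_or_gt x (a + η) with h3 | h3
    · have : x ≤ a' := le_csSup cA.bddAbove ⟨hxK, mA.2.1.trans hx.1.le, h3⟩
      exact absurd hx.1 (not_lt.2 this)
    · rcases le_or_gt (b - η) x with h4 | h4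
      · have : b' ≤ x := csInf_le cB.bddBelow ⟨hxK, h4, hx.2.le.trans mB.2.2⟩
        exact absurd hx.2 (not_lt.2 this)
      · exact hKgap x ⟨h3.le, h4.le⟩ hxK
  have heq := hKP a' mA.1 b' mB.1 hlt hgap
  have d1 : dist (γ a') (γ a) < ε := by
    apply h1 (hK01 mA.1)
    rw [Real.dist_eq, abs_of_nonneg (by linarith [mA.2.1])]
    linarith [mA.2.2]
  have d2 : dist (γ b') (γ b) < ε := by
    apply h2 (hK01 mB.1)
    rw [Real.dist_eq, abs_of_nonpos (by linarith [mB.2.2])]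
    linarith [mB.2.1]
  have d3 : dist (γ a) (γ b) ≤ dist (γ a') (γ a) + dist (γ b') (γ b) := by
    have := dist_triangle (γ a) (γ a') (γ b)
    rw [dist_comm (γ a) (γ a')] at this
    rw [heq] at this ⊢
    exact this
  linarith

theorem exists_min_closed {γ : ℝ → ℂ} (hγ : ContinuousOn γ (Icc 0 1)) :
    ∃ K : Set ℝ, IsClosed K ∧ K ⊆ Icc 0 1 ∧ (0 : ℝ) ∈ K ∧ (1 : ℝ) ∈ K ∧
      ∀ s ∈ K, ∀ t ∈ K, s < t → (γ s = γ t ↔ Disjoint (Ioo s t) K) := by
  have hstart : PP γ (Icc 0 1) := by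
    refine ⟨isClosed_Icc, subset_refl _, ⟨le_refl 0, zero_le_one⟩, ⟨zero_le_one, le_refl 1⟩, ?_⟩
    intro s hs t ht hst hdis
    exfalso
    obtain ⟨u, hu⟩ := exists_between hst
    exact (Set.disjoint_left.1 hdis) hu ⟨hs.1.trans hu.1.le, hu.2.le.trans ht.2⟩
  obtain ⟨K, -, hKmin⟩ := zorn_superset_nonempty {K | PP γ K} (by
    intro c hc hch hne
    exact ⟨⋂₀ c, chain_PP hγ hc hch hne, fun s hs => sInter_subset_of_mem hs⟩)
    (Icc 0 1) hstart
  have hKP : PP γ K := hKmin.prop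
  obtain ⟨hKc, hK01, hKz, hKo, hKg⟩ := hKP
  refine ⟨K, hKc, hK01, hKz, hKo, ?_⟩
  intro s hs t ht hst
  refine ⟨fun heq => ?_, hKg s hs t ht hst⟩
  by_contra hnd
  obtain ⟨u, hu, huK⟩ := Set.not_disjoint_iff.1 hnd
  have hs01 := hK01 hs
  have ht01 := hK01 ht
  have hnew : PP γ (K \ Ioo s t) := by
    refine ⟨hKc.sdiff isOpen_Ioo, fun x hx => hK01 hx.1, ⟨hKz, ?_⟩, ⟨hKo, ?_⟩, ?_⟩
    · intro h
      exact absurd h.1 (not_lt.2 hs01.1)
    · intro h
      exact absurd h.2 (not_lt.2 ht01.2)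
    · intro a ha b hb hab hdis
      by_cases hd : Disjoint (Ioo a b) K
      · exact hKg a ha.1 b hb.1 hab hd
      · obtain ⟨v, hv, hvK⟩ := Set.not_disjoint_iff.1 hd
        have hv2 : v ∈ Ioo s t := by
          by_contra hvn
          exact (Set.disjoint_left.1 hdis) hv ⟨hvK, hvn⟩
        have hs' : s ∈ K \ Ioo s t := ⟨hs, fun h => lt_irrefl _ h.1⟩
        have ht' : t ∈ K \ Ioo s t := ⟨ht, fun h => lt_irrefl _ h.2⟩
        have e1 : s ≤ a := by
          by_contra hc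
          push Not at hc
          exact (Set.disjoint_left.1 hdis) ⟨hc, hv2.1.trans hv.2⟩ hs'
        have e2 : b ≤ t := by
          by_contra hc
          push Not at hc
          exact (Set.disjoint_left.1 hdis) ⟨hv.1.trans hv2.2, hc⟩ ht'
        have e3 : a ≤ s := by
          by_contra hc
          push Not at hc
          exact ha.2 ⟨hc, hv.1.trans hv2.2⟩
        have e4 : t ≤ b := by
          by_contra hc
          push Not at hc
          exact hb.2 ⟨hv2.1.trans hv.2, hc⟩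
        rw [le_antisymm e3 e1, le_antisymm e2 e4]
        exact heq
  have hle := hKmin.le_of_le hnew sdiff_subset
  exact (hle huK).2 hu

end CarT
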