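import Mathlib

/-!
# CarT/ArcE2 : loop erasure, second part (the monotone map collapsing the gaps)

`K ⊆ [0, 1]` is closed, contains `0, 1`, and for `s < t` in `K`: `γ s = γ t` if and only if
`Ioo s t` is disjoint from `K` (call then `s, t` adjacent). Note: if `r < s < t` are in `K`, then `r, t` are
not adjacent. For `q ∈ [0, 1]` put `M q t = Metric.diam (γ '' (K ∩ Icc q t))`.

1. `M q` is monotone (the set is bounded: contained in the compact set `γ '' [0,1]`),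
   `0 ≤ M q t ≤ D = diam (γ '' [0, 1])`, and `M q 0 = 0` (at most one point).
2. Modulus of continuity: let `ω > 0`, `δ > 0` be such that `dist (γ u) (γ v) ≤ ω` for `u, v ∈ [0,1]`,
   `|u - v| ≤ δ`. If `t ≤ t' ≤ t + δ` in `[0, 1]`, then `M q t' ≤ M q t + 2 ω`. Proof. If
   `K ∩ Ioc t t'` is empty the sets are equal. Otherwise every `u ∈ K ∩ [q, t']` has a point
   `u'` with `γ u' ∈ γ '' (K ∩ [q, t])` and `dist (γ u) (γ u') ≤ ω`, or `K ∩ [q, t] = ∅`. Namely: if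
   `K ∩ [q, t]` is empty, `K ∩ [q, t'] ⊆ Ioc t t'` has image of diameter `≤ ω`. Otherwise let
   `a = sSup (K ∩ [q, t]) ∈ K`, `b = sInf (K ∩ [t, t'])` (closed nonempty). If
   `b = t` then `t ∈ K`, `a = t` and `u' = t` for `u > t`. If `b > t` then `a, b` are adjacent
   (`a ≤ t < b`), so `γ a = γ b`, and `u' = a` works for `u ∈ K ∩ (t, t']`
   (`dist (γ u) (γ a) = dist (γ u) (γ b) ≤ ω` as `t ≤ b ≤ u ≤ t'`). So for `u, v ∈ K ∩ [q, t']`:
   `dist (γ u) (γ v) ≤ ω + M q t + ω` (`Metric.diam_le_of_forall_dist_le`).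
3. Let `q_k` be an enumeration of the rational numbers in `[0, 1]` (or of all rationals, clipped), and
   `L t = ∑' k, (1/2)^k * M (q_k) t`. `L` is monotone, continuous on `[0, 1]`
   (`continuousOn_tsum`, bound `(1/2)^k * D`), `L 0 = 0`.
4. If `s < t` in `K` are adjacent then `M q s = M q t` for all `q`: the set `K ∩ [q, t]` is
   `(K ∩ [q, s]) ∪ {t}` (if `q ≤ t`) and `γ t = γ s`; for `q ≤ s` the images are equal; for
   `s < q ≤ t` they are empty and a single point; for `q > t` both empty. So `L s = L t`.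
5. If `s < t` in `K` are not adjacent, then `L s < L t`. There is `r ∈ K ∩ (s, t)` which is not adjacent
   to `t`: take `r₀ ∈ K ∩ (s, t)`; if it is adjacent to `t`, then it is not adjacent to `s` (else
   `γ s = γ r₀ = γ t` would make `s, t` adjacent), so there is `r ∈ K ∩ (s, r₀)`, and `r₀ ∈ (r, t)`.
   Choose a rational `q` with `s < q < r`. `M q s = 0` (empty set), `M q t ≥ dist (γ r) (γ t) > 0`.
   All other terms are monotone, so `L s < L t` (`Summable.tsum_lt_tsum`).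
6. `0, 1` are not adjacent because `γ 0 ≠ γ 1`; so `L 1 > 0`. Take `l = L / L 1`.
-/

set_option linter.all false

open Set Metric

namespace CarT

/-- the diameter of the image of the part of `K` between `q` and `t` -/
noncomputable def MD (γ : ℝ → ℂ) (K : Set ℝ) (q t : ℝ) : ℝ :=
  Metric.diam (γ '' (K ∩ Icc q t))

theorem MD_nonneg (γ : ℝ → ℂ) (K : Set ℝ) (q t : ℝ) : 0 ≤ MD γ K q t := Metric.diam_nonneg

theorem MD_bdd {γ : ℝ → ℂ} (hγ : ContinuousOn γ (Icc 0 1)) : 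
    Bornology.IsBounded (γ '' (Icc 0 1)) :=
  (isCompact_Icc.image_of_continuousOn hγ).isBounded

theorem MD_bddS {γ : ℝ → ℂ} (hγ : ContinuousOn γ (Icc 0 1)) {K : Set ℝ} (hK1 : K ⊆ Icc 0 1)
    (q t : ℝ) : Bornology.IsBounded (γ '' (K ∩ Icc q t)) :=
  (MD_bdd hγ).subset (image_mono (inter_subset_left.trans hK1))

theorem MD_le {γ : ℝ → ℂ} (hγ : ContinuousOn γ (Icc 0 1)) {K : Set ℝ} (hK1 : K ⊆ Icc 0 1)
    (q t : ℝ) : MD γ K q t ≤ Metric.diam (γ '' (Icc 0 1)) :=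
  Metric.diam_mono (image_mono (inter_subset_left.trans hK1)) (MD_bdd hγ)

theorem MD_mono {γ : ℝ → ℂ} (hγ : ContinuousOn γ (Icc 0 1)) {K : Set ℝ} (hK1 : K ⊆ Icc 0 1)
    (q : ℝ) {t t' : ℝ} (h : t ≤ t') : MD γ K q t ≤ MD γ K q t' :=
  Metric.diam_mono (image_mono (inter_subset_inter_right _ (Icc_subset_Icc_right h)))
    (MD_bddS hγ hK1 q t')

theorem MD_step {γ : ℝ → ℂ} (hγ : ContinuousOn γ (Icc 0 1))
    {K : Set ℝ} (hK : IsClosed K) (hK1 : K ⊆ Icc 0 1)
    (h : ∀ s ∈ K, ∀ t ∈ K, s < t → (γ s = γ t ↔ Disjoint (Ioo s t) K)) {ω δ : ℝ} (hω : 0 < ω)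
    (hδ : ∀ u ∈ Icc (0:ℝ) 1, ∀ v ∈ Icc (0:ℝ) 1, |u - v| ≤ δ → dist (γ u) (γ v) ≤ ω)
    (q : ℝ) {t t' : ℝ} (htt : t ≤ t') (htd : t' ≤ t + δ) :
    MD γ K q t' ≤ MD γ K q t + 2 * ω := by
  have hM := MD_nonneg γ K q t
  refine Metric.diam_le_of_forall_dist_le (by positivity) ?_
  rcases (K ∩ Icc q t).eq_empty_or_nonempty with hE | hE
  · rintro _ ⟨u, hu, rfl⟩ _ ⟨v, hv, rfl⟩
    have hut : t < u := by
      by_contra hc
      have : u ∈ K ∩ Icc q t := ⟨hu.1, hu.2.1, not_lt.1 hc⟩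
      rw [hE] at this
      exact this
    have hvt : t < v := by
      by_contra hc
      have : v ∈ K ∩ Icc q t := ⟨hv.1, hv.2.1, not_lt.1 hc⟩
      rw [hE] at this
      exact this
    have h1 := hu.2.2
    have h2 := hv.2.2
    have := hδ u (hK1 hu.1) v (hK1 hv.1) (abs_le.2 ⟨by linarith, by linarith⟩)
    linarith
  · have key : ∀ u ∈ K ∩ Icc q t', ∃ u' ∈ K ∩ Icc q t, dist (γ u) (γ u') ≤ ω := by
      intro u hu
      by_cases hut : u ≤ t
      · exact ⟨u, ⟨hu.1, hu.2.1, hut⟩, by rw [dist_self]; exact hω.le⟩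
      push Not at hut
      have hcA : IsCompact (K ∩ Icc q t) := isCompact_Icc.inter_left hK
      have hcB : IsCompact (K ∩ Icc t u) := isCompact_Icc.inter_left hK
      have hBn : (K ∩ Icc t u).Nonempty := ⟨u, hu.1, hut.le, le_refl u⟩
      have ha := hcA.sSup_mem hE
      have hb := hcB.sInf_mem hBn
      set a := sSup (K ∩ Icc q t) with had
      set b := sInf (K ∩ Icc t u) with hbd
      have hu2 := hu.2.2
      refine ⟨a, ha, ?_⟩
      have hab : γ a = γ b := by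
        rcases eq_or_lt_of_le (ha.2.2.trans hb.2.1) with he | hl
        · rw [he]
        · refine (h a ha.1 b hb.1 hl).2 ?_
          rw [Set.disjoint_left]
          rintro x ⟨hx1, hx2⟩ hxK
          rcases le_or_gt x t with hxt | hxt
          · have : x ≤ a := le_csSup hcA.bddAbove ⟨hxK, ha.2.1.trans hx1.le, hxt⟩
            linarith
          · have : b ≤ x := csInf_le hcB.bddBelow ⟨hxK, hxt.le, hx2.le.trans hb.2.2⟩
            linarith
      rw [hab]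
      have hb1 := hb.2.1
      have hb2 := hb.2.2
      exact hδ u (hK1 hu.1) b (hK1 hb.1) (abs_le.2 ⟨by linarith, by linarith⟩)
    rintro _ ⟨u, hu, rfl⟩ _ ⟨v, hv, rfl⟩
    obtain ⟨u', hu', hu1⟩ := key u hu
    obtain ⟨v', hv', hv1⟩ := key v hv
    have h1 : dist (γ u') (γ v') ≤ MD γ K q t :=
      Metric.dist_le_diam_of_mem (MD_bddS hγ hK1 q t) (mem_image_of_mem _ hu')
        (mem_image_of_mem _ hv')
    have h2 := dist_triangle4 (γ u) (γ u') (γ v') (γ v)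
    rw [dist_comm (γ v') (γ v)] at h2
    linarith

theorem MD_cont {γ : ℝ → ℂ} (hγ : ContinuousOn γ (Icc 0 1))
    {K : Set ℝ} (hK : IsClosed K) (hK1 : K ⊆ Icc 0 1)
    (h : ∀ s ∈ K, ∀ t ∈ K, s < t → (γ s = γ t ↔ Disjoint (Ioo s t) K)) (q : ℝ) :
    ContinuousOn (MD γ K q) (Icc 0 1) := by
  have hu : UniformContinuousOn γ (Icc 0 1) := isCompact_Icc.uniformContinuousOn_of_continuous hγ
  rw [Metric.uniformContinuousOn_iff] at hu
  rw [Metric.continuousOn_iff]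
  intro t ht ε hε
  obtain ⟨δ, hδ0, hδ⟩ := hu (ε / 4) (by positivity)
  have hδ' : ∀ u ∈ Icc (0:ℝ) 1, ∀ v ∈ Icc (0:ℝ) 1, |u - v| ≤ δ / 2 →
      dist (γ u) (γ v) ≤ ε / 4 := by
    intro u hu v hv huv
    refine (hδ u hu v hv ?_).le
    rw [Real.dist_eq]
    linarith
  refine ⟨δ / 2, by positivity, fun t' ht' hd => ?_⟩
  rw [Real.dist_eq] at hd ⊢
  have hd2 := abs_lt.1 hd
  rcases le_total t t' with hl | hl
  · have h1 := MD_step hγ hK hK1 h (by positivity : 0 < ε / 4) hδ' q hl (by linarith)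
    have h2 := MD_mono hγ hK1 q hl
    rw [abs_lt]
    constructor <;> linarith
  · have h1 := MD_step hγ hK hK1 h (by positivity : 0 < ε / 4) hδ' q hl (by linarith)
    have h2 := MD_mono hγ hK1 q hl
    rw [abs_lt]
    constructor <;> linarith

theorem MD_zero {γ : ℝ → ℂ} {K : Set ℝ} (hK1 : K ⊆ Icc 0 1) (q : ℝ) : MD γ K q 0 = 0 := by
  refine Metric.diam_subsingleton ?_
  rintro _ ⟨u, hu, rfl⟩ _ ⟨v, hv, rfl⟩
  have h1 : u = 0 := le_antisymm hu.2.2 (hK1 hu.1).1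
  have h2 : v = 0 := le_antisymm hv.2.2 (hK1 hv.1).1
  rw [h1, h2]

theorem MD_adj {γ : ℝ → ℂ} (hγ : ContinuousOn γ (Icc 0 1)) {K : Set ℝ} (hK1 : K ⊆ Icc 0 1)
    (q : ℝ) {s t : ℝ} (hs : s ∈ K) (ht : t ∈ K) (hst : s < t) (hd : Disjoint (Ioo s t) K)
    (he : γ s = γ t) : MD γ K q s = MD γ K q t := by
  refine le_antisymm (MD_mono hγ hK1 q hst.le) ?_
  have key : ∀ u ∈ K ∩ Icc q t, u ∈ K ∩ Icc q s ∨ u = t := by
    intro u hu
    by_cases h1 : u ≤ s
    · exact Or.inl ⟨hu.1, hu.2.1, h1⟩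
    · right
      push Not at h1
      by_contra h2
      exact Set.disjoint_left.1 hd ⟨h1, lt_of_le_of_ne hu.2.2 h2⟩ hu.1
  rcases le_or_gt q s with hq | hq
  · refine Metric.diam_mono ?_ (MD_bddS hγ hK1 q s)
    rintro _ ⟨u, hu, rfl⟩
    rcases key u hu with h1 | h1
    · exact ⟨u, h1, rfl⟩
    · exact ⟨s, ⟨hs, hq, le_refl s⟩, by rw [h1, he]⟩
  · have h0 : MD γ K q t = 0 := by
      refine Metric.diam_subsingleton ?_
      rintro _ ⟨u, hu, rfl⟩ _ ⟨v, hv, rfl⟩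
      have h1 : u = t := (key u hu).resolve_left fun hc => by
        have := hc.2.1
        have := hc.2.2
        linarith
      have h2 : v = t := (key v hv).resolve_left fun hc => by
        have := hc.2.1
        have := hc.2.2
        linarith
      rw [h1, h2]
    rw [h0]
    exact MD_nonneg γ K q s

theorem MD_nonadj {γ : ℝ → ℂ} (hγ : ContinuousOn γ (Icc 0 1)) {K : Set ℝ} (hK1 : K ⊆ Icc 0 1)
    (h : ∀ s ∈ K, ∀ t ∈ K, s < t → (γ s = γ t ↔ Disjoint (Ioo s t) K))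
    {s t : ℝ} (hs : s ∈ K) (ht : t ∈ K) (hst : s < t) (hd : ¬ Disjoint (Ioo s t) K) :
    ∃ q : ℚ, MD γ K q s < MD γ K q t := by
  have hne : γ s ≠ γ t := fun hc => hd ((h s hs t ht hst).1 hc)
  have hr : ∃ r ∈ K, s < r ∧ r < t ∧ γ r ≠ γ t := by
    rw [Set.not_disjoint_iff] at hd
    obtain ⟨r0, hr0, hr0K⟩ := hd
    by_cases h1 : γ r0 = γ t
    · have h2 : γ s ≠ γ r0 := by rw [h1]; exact hne
      have h3 : ¬ Disjoint (Ioo s r0) K := fun hc => h2 ((h s hs r0 hr0K hr0.1).2 hc)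
      rw [Set.not_disjoint_iff] at h3
      obtain ⟨r, hr, hrK⟩ := h3
      refine ⟨r, hrK, hr.1, hr.2.trans hr0.2, fun hc => ?_⟩
      have := (h r hrK t ht (hr.2.trans hr0.2)).1 hc
      exact Set.disjoint_left.1 this ⟨hr.2, hr0.2⟩ hr0K
    · exact ⟨r0, hr0K, hr0.1, hr0.2, h1⟩
  obtain ⟨r, hrK, hsr, hrt, hrne⟩ := hr
  obtain ⟨q, hq1, hq2⟩ := exists_rat_btwn hsr
  refine ⟨q, ?_⟩
  have h0 : MD γ K q s = 0 := by
    refine Metric.diam_subsingleton ?_
    rintro _ ⟨u, hu, rfl⟩ 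
    have := hu.2.1
    have := hu.2.2
    linarith
  rw [h0]
  refine lt_of_lt_of_le (dist_pos.2 hrne) ?_
  exact Metric.dist_le_diam_of_mem (MD_bddS hγ hK1 q t) (mem_image_of_mem _ ⟨hrK, hq2.le, hrt.le⟩)
    (mem_image_of_mem _ ⟨ht, (hq2.trans hrt).le, le_refl t⟩)

theorem exists_collapse {γ : ℝ → ℂ} (hγ : ContinuousOn γ (Icc 0 1)) (h01 : γ 0 ≠ γ 1)
    {K : Set ℝ} (hK : IsClosed K) (hK1 : K ⊆ Icc 0 1) (h0 : (0 : ℝ) ∈ K) (h1 : (1 : ℝ) ∈ K)
    (h : ∀ s ∈ K, ∀ t ∈ K, s < t → (γ s = γ t ↔ Disjoint (Ioo s t) K)) :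
    ∃ l : ℝ → ℝ, ContinuousOn l (Icc 0 1) ∧ MonotoneOn l (Icc 0 1) ∧ l 0 = 0 ∧ l 1 = 1 ∧
      ∀ s ∈ K, ∀ t ∈ K, s < t → (l s = l t ↔ Disjoint (Ioo s t) K) := by
  obtain ⟨q, hq⟩ := exists_surjective_nat ℚ
  set D : ℝ := Metric.diam (γ '' (Icc 0 1)) with hD
  set f : ℕ → ℝ → ℝ := fun k t => (1 / 2 : ℝ) ^ k * MD γ K (q k) t with hf
  have hsum0 : Summable (fun k : ℕ => (1 / 2 : ℝ) ^ k * D) := summable_geometric_two.mul_right D
  have hf0 : ∀ k t, 0 ≤ f k t := fun k t => mul_nonneg (by positivity) (MD_nonneg γ K _ t)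
  have hf1 : ∀ k t, f k t ≤ (1 / 2 : ℝ) ^ k * D := fun k t =>
    mul_le_mul_of_nonneg_left (MD_le hγ hK1 _ t) (by positivity)
  have hsum : ∀ t, Summable (fun k => f k t) := fun t =>
    Summable.of_nonneg_of_le (fun k => hf0 k t) (fun k => hf1 k t) hsum0
  set L : ℝ → ℝ := fun t => ∑' k, f k t with hL
  have hfm : ∀ k, ∀ {t t' : ℝ}, t ≤ t' → f k t ≤ f k t' := fun k t t' htt =>
    mul_le_mul_of_nonneg_left (MD_mono hγ hK1 _ htt) (by positivity)
  have hLm : ∀ {t t' : ℝ}, t ≤ t' → L t ≤ L t' := fun {t t'} htt =>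
    Summable.tsum_le_tsum (fun k => hfm k htt) (hsum t) (hsum t')
  have hLc : ContinuousOn L (Icc 0 1) := by
    refine continuousOn_tsum (fun k => continuousOn_const.mul (MD_cont hγ hK hK1 h _)) hsum0 ?_
    intro k t ht
    rw [Real.norm_eq_abs, abs_of_nonneg (hf0 k t)]
    exact hf1 k t
  have hL0 : L 0 = 0 := by
    have : ∀ k, f k 0 = 0 := fun k => by
      simp only [hf]
      rw [MD_zero hK1, mul_zero]
    simp only [hL, this, tsum_zero]
  have hLadj : ∀ s ∈ K, ∀ t ∈ K, s < t → Disjoint (Ioo s t) K → L s = L t := by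
    intro s hs t ht hst hd
    have : ∀ k, f k s = f k t := fun k => by
      simp only [hf]
      rw [MD_adj hγ hK1 _ hs ht hst hd ((h s hs t ht hst).2 hd)]
    simp only [hL, this]
  have hLnon : ∀ s ∈ K, ∀ t ∈ K, s < t → ¬ Disjoint (Ioo s t) K → L s < L t := by
    intro s hs t ht hst hd
    obtain ⟨r, hr⟩ := MD_nonadj hγ hK1 h hs ht hst hd
    obtain ⟨k, hk⟩ := hq r
    refine Summable.tsum_lt_tsum (i := k) (fun j => hfm j hst.le) ?_ (hsum s) (hsum t)
    simp only [hf]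
    rw [hk]
    exact mul_lt_mul_of_pos_left hr (by positivity)
  have hL1 : 0 < L 1 := by
    rw [← hL0]
    refine hLnon 0 h0 1 h1 zero_lt_one fun hc => ?_
    exact h01 ((h 0 h0 1 h1 zero_lt_one).2 hc)
  refine ⟨fun t => L t / L 1, hLc.div_const _, ?_, ?_, ?_, ?_⟩
  · intro s _ t _ hst
    exact div_le_div_of_nonneg_right (hLm hst) hL1.le
  · simp only [hL0, zero_div]
  · exact div_self hL1.ne'
  · intro s hs t ht hst
    have e : (L s / L 1 = L t / L 1) ↔ L s = L t := by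
      constructor
      · intro he
        field_simp at he
        exact he
      · intro he
        rw [he]
    show (L s / L 1 = L t / L 1) ↔ _
    rw [e]
    constructor
    · intro he
      by_contra hd
      have := hLnon s hs t ht hst hd
      linarith
    · exact hLadj s hs t ht hst

end CarT
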