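import Pool.Agent.CarT.JorA
import Pool.Agent.CarT.ArcE1
import Pool.Agent.CarT.ArcE2

/-!
# CarT/ArcE3 : loop erasure, third part (from a path to an arc)

Let `K` be from `exists_min_closed` and `l` from `exists_collapse`.
* For every `t ∈ [0, 1]` there are `a ≤ t ≤ b` in `K` with `l a = l t = l b` and `γ a = γ b`: if
  `t ∈ K` take `a = b = t`; otherwise `a = sSup (K ∩ [0, t])`, `b = sInf (K ∩ [t, 1])` are in `K`,
  `Ioo a b` is disjoint from `K`, so `γ a = γ b` and `l a = l b`, and `l` is monotone.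
* `l` maps `[0, 1]` onto `[0, 1]` (intermediate values), so every `r ∈ [0, 1]` is `l t` with
  `t ∈ K`. If `l t = l t'` with `t, t' ∈ K` then `γ t = γ t'` (both properties say adjacent or
  equal). Define `α r = γ t` for some `t ∈ K` with `l t = r`; so `α (l t) = γ t` for all `t ∈ K`.
* `α` is injective on `[0, 1]`: `γ t = γ t'`, `t < t'` in `K`, gives adjacent, so `l t = l t'`.
* `α` is continuous on `[0, 1]`: for a closed set `F ⊆ ℂ`,
  `[0,1] ∩ α ⁻¹' F = l '' (K ∩ γ ⁻¹' F)` is the image of a compact set, so closed (or with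
  sequences: `r_n → r`, `r_n = l t_n`, a subsequence of `t_n ∈ K` converges to `t ∈ K`, `l t = r`).
* `arc_extract`: for `t ∈ [0, 1]` take `a, b` from the first point: `γ a = α (l a) = α (l t)`.
* `exists_arc`: parametrise the path on `ℝ` (`Path.extend`); image of `α` is contained in image of `γ`.
-/

open Set Metric

namespace CarT

theorem ae3_near {γ : ℝ → ℂ} {K : Set ℝ} (hK : IsClosed K) (hK1 : K ⊆ Icc 0 1)
    (h0 : (0 : ℝ) ∈ K) (h1 : (1 : ℝ) ∈ K)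
    (h : ∀ s ∈ K, ∀ t ∈ K, s < t → (γ s = γ t ↔ Disjoint (Ioo s t) K)) {l : ℝ → ℝ}
    (hlm : MonotoneOn l (Icc 0 1))
    (hl : ∀ s ∈ K, ∀ t ∈ K, s < t → (l s = l t ↔ Disjoint (Ioo s t) K)) {t : ℝ}
    (ht : t ∈ Icc (0 : ℝ) 1) :
    ∃ a ∈ K, ∃ b ∈ K, a ≤ t ∧ t ≤ b ∧ l a = l t ∧ l b = l t ∧ γ a = γ b := by
  by_cases htK : t ∈ K
  · exact ⟨t, htK, t, htK, le_refl t, le_refl t, rfl, rfl, rfl⟩
  have hcA : IsCompact (K ∩ Icc 0 t) := isCompact_Icc.inter_left hK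
  have hcB : IsCompact (K ∩ Icc t 1) := isCompact_Icc.inter_left hK
  have ha := hcA.sSup_mem ⟨0, h0, le_refl 0, ht.1⟩
  have hb := hcB.sInf_mem ⟨1, h1, ht.2, le_refl 1⟩
  obtain ⟨a, hadef⟩ : ∃ a, a = sSup (K ∩ Icc 0 t) := ⟨_, rfl⟩
  obtain ⟨b, hbdef⟩ : ∃ b, b = sInf (K ∩ Icc t 1) := ⟨_, rfl⟩
  rw [← hadef] at ha
  rw [← hbdef] at hb
  have hat : a < t := lt_of_le_of_ne ha.2.2 (fun hc => htK (hc ▸ ha.1))
  have htb : t < b := lt_of_le_of_ne hb.2.1 (fun hc => htK (hc ▸ hb.1))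
  have hab : a < b := hat.trans htb
  have hdis : Disjoint (Ioo a b) K := by
    rw [Set.disjoint_left]
    rintro x ⟨hx1, hx2⟩ hxK
    rcases le_or_gt x t with hxt | hxt
    · have : x ≤ a := by
        rw [hadef]
        exact le_csSup hcA.bddAbove ⟨hxK, ha.2.1.trans hx1.le, hxt⟩
      linarith
    · have : b ≤ x := by
        rw [hbdef]
        exact csInf_le hcB.bddBelow ⟨hxK, hxt.le, hx2.le.trans hb.2.2⟩
      linarith
  have hlab : l a = l b := (hl a ha.1 b hb.1 hab).2 hdis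
  have hla : l a ≤ l t := hlm (hK1 ha.1) ht hat.le
  have hlb : l t ≤ l b := hlm ht (hK1 hb.1) htb.le
  refine ⟨a, ha.1, b, hb.1, hat.le, htb.le, ?_, ?_, (h a ha.1 b hb.1 hab).2 hdis⟩
  · linarith
  · linarith

theorem arc_extract {γ : ℝ → ℂ} (hγ : ContinuousOn γ (Icc 0 1)) (h01 : γ 0 ≠ γ 1) :
    ∃ (α : ℝ → ℂ) (l : ℝ → ℝ), ContinuousOn α (Icc 0 1) ∧ InjOn α (Icc 0 1) ∧
      ContinuousOn l (Icc 0 1) ∧ MonotoneOn l (Icc 0 1) ∧ l 0 = 0 ∧ l 1 = 1 ∧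
      α 0 = γ 0 ∧ α 1 = γ 1 ∧
      ∀ t ∈ Icc (0 : ℝ) 1, ∃ a ∈ Icc 0 t, ∃ b ∈ Icc t 1, γ a = α (l t) ∧ γ b = α (l t) := by
  classical
  obtain ⟨K, hK, hK1, h0, h1, h⟩ := exists_min_closed hγ
  obtain ⟨l, hlc, hlm, hl0, hl1, hl⟩ := exists_collapse hγ h01 hK hK1 h0 h1 h
  have hnear : ∀ t ∈ Icc (0 : ℝ) 1, ∃ a ∈ K, ∃ b ∈ K, a ≤ t ∧ t ≤ b ∧ l a = l t ∧ l b = l t ∧
      γ a = γ b := fun t ht => ae3_near hK hK1 h0 h1 h hlm hl ht
  have hkey : ∀ s ∈ K, ∀ t ∈ K, (l s = l t ↔ γ s = γ t) := by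
    intro s hs t ht
    rcases lt_trichotomy s t with hst | hst | hst
    · rw [hl s hs t ht hst, h s hs t ht hst]
    · rw [hst]
      exact ⟨fun _ => rfl, fun _ => rfl⟩
    · have e1 := hl t ht s hs hst
      have e2 := h t ht s hs hst
      constructor
      · intro e
        exact (e2.2 (e1.1 e.symm)).symm
      · intro e
        exact (e1.2 (e2.1 e.symm)).symm
  have hsurj : ∀ r ∈ Icc (0 : ℝ) 1, ∃ t ∈ K, l t = r := by
    intro r hr
    have hr' : r ∈ Icc (l 0) (l 1) := by rw [hl0, hl1]; exact hr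
    obtain ⟨t, ht, rfl⟩ := intermediate_value_Icc zero_le_one hlc hr'
    obtain ⟨a, ha, -, -, -, -, hla, -⟩ := hnear t ht
    exact ⟨a, ha, hla⟩
  obtain ⟨α, hα⟩ : ∃ α : ℝ → ℂ, ∀ t ∈ K, α (l t) = γ t := by
    refine ⟨fun r => if h : ∃ t ∈ K, l t = r then γ (Classical.choose h) else 0, ?_⟩
    intro t ht
    have hex : ∃ t' ∈ K, l t' = l t := ⟨t, ht, rfl⟩
    simp only
    rw [dif_pos hex]
    have hsp := Classical.choose_spec hex
    exact (hkey _ hsp.1 t ht).1 hsp.2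
  have hKc : IsCompact K := isCompact_Icc.of_isClosed_subset hK hK1
  have hαc : ContinuousOn α (Icc 0 1) := by
    rw [continuousOn_iff_isClosed]
    intro F hF
    have hc1 : IsClosed (K ∩ γ ⁻¹' F) := (hγ.mono hK1).preimage_isClosed_of_isClosed hK hF
    have hc2 : IsCompact (K ∩ γ ⁻¹' F) := hKc.of_isClosed_subset hc1 inter_subset_left
    have hc3 : IsCompact (l '' (K ∩ γ ⁻¹' F)) :=
      hc2.image_of_continuousOn (hlc.mono (inter_subset_left.trans hK1))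
    refine ⟨l '' (K ∩ γ ⁻¹' F), hc3.isClosed, ?_⟩
    ext r
    constructor
    · rintro ⟨hr1, hr2⟩
      obtain ⟨t, ht, rfl⟩ := hsurj r hr2
      refine ⟨⟨t, ⟨ht, ?_⟩, rfl⟩, hr2⟩
      have hr3 : α (l t) ∈ F := hr1
      rw [hα t ht] at hr3
      exact hr3
    · rintro ⟨⟨t, ⟨ht, ht2⟩, rfl⟩, hr2⟩
      refine ⟨?_, hr2⟩
      show α (l t) ∈ F
      rw [hα t ht]
      exact ht2
  have hαi : InjOn α (Icc 0 1) := by
    intro r hr r' hr' hrr
    obtain ⟨t, ht, rfl⟩ := hsurj r hr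
    obtain ⟨t', ht', rfl⟩ := hsurj r' hr'
    rw [hα t ht, hα t' ht'] at hrr
    exact (hkey t ht t' ht').2 hrr
  refine ⟨α, l, hαc, hαi, hlc, hlm, hl0, hl1, ?_, ?_, ?_⟩
  · have := hα 0 h0
    rwa [hl0] at this
  · have := hα 1 h1
    rwa [hl1] at this
  · intro t ht
    obtain ⟨a, ha, b, hb, hat, htb, hla, hlb, -⟩ := hnear t ht
    refine ⟨a, ⟨(hK1 ha).1, hat⟩, b, ⟨htb, (hK1 hb).2⟩, ?_, ?_⟩
    · rw [← hla, hα a ha]
    · rw [← hlb, hα b hb]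

theorem exists_arc {S : Set ℂ} {x y : ℂ} (h : JoinedIn S x y) (hxy : x ≠ y) :
    ∃ A : Set ℂ, IsArc A x y ∧ A ⊆ S := by
  obtain ⟨p, hp⟩ := h
  have hc : ContinuousOn p.extend (Icc 0 1) := p.continuous_extend.continuousOn
  have e0 : p.extend 0 = x := p.extend_zero
  have e1 : p.extend 1 = y := p.extend_one
  obtain ⟨α, l, hαc, hαi, hlc, hlm, hl0, hl1, hα0, hα1, hα⟩ :=
    arc_extract hc (by rw [e0, e1]; exact hxy)
  refine ⟨α '' Icc 0 1, ⟨α, hαc, hαi, rfl, hα0.trans e0, hα1.trans e1⟩, ?_⟩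
  rintro _ ⟨r, hr, rfl⟩
  have hr' : r ∈ Icc (l 0) (l 1) := by rw [hl0, hl1]; exact hr
  obtain ⟨t, ht, rfl⟩ := intermediate_value_Icc zero_le_one hlc hr'
  obtain ⟨a, ha, -, -, hae, -⟩ := hα t ht
  rw [← hae]
  have ha' : a ∈ Icc (0 : ℝ) 1 := ⟨ha.1, ha.2.trans ht.2⟩
  have e2 : p.extend a = p ⟨a, ha'⟩ := p.extend_apply ha'
  rw [e2]
  exact hp _

end CarT
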