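import Pool.Agent.CarT.Sys

/-!
# CarT/JorA : arcs and Jordan curves, parametrisations

`IsArc A x y`: `A = f '' [0, 1]`, `f` continuous injective, `f 0 = x`, `f 1 = y`.
`IsJordan J`: `J = range g`, `g` continuous, periodic with period `1`, injective on `[0, 1)`; then `g` is
injective on every `[a, a + 1)` and `t ↦ g (t + a)` is another parametrisation of the same kind.

* `isJordan_of_arcs`: `f_A (2 t)` on `[0, 1/2]`, `f_B (2 - 2 t)` on `[1/2, 1]`, extended
  periodically: `ContinuousOn.comp_fract''` (Mathlib) gives continuity of `f ∘ Int.fract` when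
  `f 0 = f 1`.
* `arcs_of_isJordan`: `A = g '' [0, 1/2]`, `B = g '' [1/2, 1]`.
* `jordan_split`: `p = g a`. There is `δ < 1/2` with `g (a - δ, a + δ) ⊆ ball p r`; the arc is
  `g '' [a + δ, a + 1 - δ]`; it does not contain `p` by injectivity.
-/

open Set Metric

namespace CarT

theorem IsArc.isCompact {A : Set ℂ} {x y : ℂ} (h : IsArc A x y) : IsCompact A := by
  obtain ⟨f, hf, -, rfl, -, -⟩ := h
  exact isCompact_Icc.image_of_continuousOn hf

theorem IsArc.isPreconnected {A : Set ℂ} {x y : ℂ} (h : IsArc A x y) : IsPreconnected A := by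
  obtain ⟨f, hf, -, rfl, -, -⟩ := h
  exact isPreconnected_Icc.image f hf

theorem IsArc.left_mem {A : Set ℂ} {x y : ℂ} (h : IsArc A x y) : x ∈ A := by
  obtain ⟨f, hf, -, rfl, rfl, -⟩ := h
  exact mem_image_of_mem f (by norm_num)

theorem IsArc.right_mem {A : Set ℂ} {x y : ℂ} (h : IsArc A x y) : y ∈ A := by
  obtain ⟨f, hf, -, rfl, -, rfl⟩ := h
  exact mem_image_of_mem f (by norm_num)

theorem IsArc.ne {A : Set ℂ} {x y : ℂ} (h : IsArc A x y) : x ≠ y := by
  obtain ⟨f, hf, hi, rfl, rfl, rfl⟩ := h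
  intro h
  have := hi (by norm_num) (by norm_num) h
  norm_num at this

theorem IsArc.symm {A : Set ℂ} {x y : ℂ} (h : IsArc A x y) : IsArc A y x := by
  obtain ⟨f, hf, hi, rfl, rfl, rfl⟩ := h
  have hm : ∀ t ∈ Icc (0 : ℝ) 1, 1 - t ∈ Icc (0 : ℝ) 1 := fun t ht =>
    ⟨by linarith [ht.2], by linarith [ht.1]⟩
  refine ⟨fun t => f (1 - t), ?_, ?_, ?_, ?_, ?_⟩
  · exact hf.comp (continuous_const.sub continuous_id).continuousOn hm
  · intro s hs t ht hst
    have h1 := hi (hm s hs) (hm t ht) hst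
    linarith
  · ext z
    constructor
    · rintro ⟨t, ht, rfl⟩
      exact ⟨1 - t, hm t ht, rfl⟩
    · rintro ⟨t, ht, rfl⟩
      refine ⟨1 - t, hm t ht, ?_⟩
      show f (1 - (1 - t)) = f t
      rw [sub_sub_cancel]
  · show f (1 - 0) = f 1
    rw [sub_zero]
  · show f (1 - 1) = f 0
    rw [sub_self]

theorem IsArc.joined {A : Set ℂ} {x y : ℂ} (h : IsArc A x y) : JoinedIn A x y := by
  have hx := h.left_mem
  have hy := h.right_mem
  obtain ⟨f, hf, -, rfl, -, -⟩ := h
  have h1 : IsPathConnected (Icc (0 : ℝ) 1) :=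
    (convex_Icc 0 1).isPathConnected ⟨0, by norm_num⟩
  exact (h1.image' hf).joinedIn _ hx _ hy

/-- extension of a path to the real line -/
noncomputable def jorExt (f : ℝ → ℂ) (t : ℝ) : ℂ := f (max 0 (min 1 t))

theorem jorExt_cont {f : ℝ → ℂ} (hf : ContinuousOn f (Icc 0 1)) : Continuous (jorExt f) := by
  unfold jorExt
  refine hf.comp_continuous (continuous_const.max (continuous_const.min continuous_id)) ?_
  intro t
  exact ⟨le_max_left _ _, max_le zero_le_one (min_le_left _ _)⟩

theorem jorExt_eq (f : ℝ → ℂ) {t : ℝ} (ht : t ∈ Icc (0 : ℝ) 1) : jorExt f t = f t := by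
  unfold jorExt
  rw [min_eq_right ht.2, max_eq_right ht.1]

theorem isJordan_of_arcs {A B : Set ℂ} {x y : ℂ} (hA : IsArc A x y) (hB : IsArc B x y)
    (h : A ∩ B = {x, y}) : IsJordan (A ∪ B) := by
  obtain ⟨f, hf, hfi, hfA, hf0, hf1⟩ := hA
  obtain ⟨e, he, hei, heB, he0, he1⟩ := hB
  obtain ⟨k, hk⟩ : ∃ k : ℝ → ℂ, k = fun t => if t ≤ 1 / 2 then jorExt f (2 * t) else
    jorExt e (2 - 2 * t) := ⟨_, rfl⟩
  have hkc : Continuous k := by
    rw [hk]
    refine Continuous.if_le ((jorExt_cont hf).comp (continuous_const.mul continuous_id))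
      ((jorExt_cont he).comp (continuous_const.sub (continuous_const.mul continuous_id)))
      continuous_id continuous_const ?_
    intro t ht
    have ht' : t = 1 / 2 := ht
    rw [ht']
    show jorExt f (2 * (1 / 2)) = jorExt e (2 - 2 * (1 / 2))
    have e1 : (2 : ℝ) * (1 / 2) = 1 := by norm_num
    have e2 : (2 : ℝ) - 1 = 1 := by norm_num
    rw [e1, e2, jorExt_eq f ⟨zero_le_one, le_refl 1⟩, jorExt_eq e ⟨zero_le_one, le_refl 1⟩, hf1,
      he1]
  have hkA : ∀ t, 0 ≤ t → t ≤ 1 / 2 → k t = f (2 * t) := by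
    intro t h0 h1
    rw [hk]
    show (if t ≤ 1 / 2 then jorExt f (2 * t) else jorExt e (2 - 2 * t)) = f (2 * t)
    rw [if_pos h1, jorExt_eq f ⟨by linarith, by linarith⟩]
  have hkB : ∀ t, 1 / 2 < t → t ≤ 1 → k t = e (2 - 2 * t) := by
    intro t h0 h1
    rw [hk]
    show (if t ≤ 1 / 2 then jorExt f (2 * t) else jorExt e (2 - 2 * t)) = e (2 - 2 * t)
    rw [if_neg (not_le.2 h0), jorExt_eq e ⟨by linarith, by linarith⟩]
  have hk0 : k 0 = x := by
    rw [hkA 0 le_rfl (by norm_num), mul_zero, hf0]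
  have hk1 : k 1 = x := by
    rw [hkB 1 (by norm_num) le_rfl]
    norm_num
    exact he0
  have hkinj : ∀ s ∈ Ico (0 : ℝ) 1, ∀ t ∈ Ico (0 : ℝ) 1, s ≤ t → k s = k t → s = t := by
    intro s hs t ht hst hkk
    by_cases ht2 : t ≤ 1 / 2
    · rw [hkA s hs.1 (hst.trans ht2), hkA t ht.1 ht2] at hkk
      have := hfi (show 2 * s ∈ Icc (0 : ℝ) 1 from ⟨by linarith [hs.1], by linarith⟩)
        (show 2 * t ∈ Icc (0 : ℝ) 1 from ⟨by linarith [ht.1], by linarith⟩) hkk
      linarith
    · push Not at ht2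
      by_cases hs2 : s ≤ 1 / 2
      · exfalso
        rw [hkA s hs.1 hs2, hkB t ht2 ht.2.le] at hkk
        have m1 : f (2 * s) ∈ A := by
          rw [← hfA]
          exact mem_image_of_mem f ⟨by linarith [hs.1], by linarith⟩
        have m2 : e (2 - 2 * t) ∈ B := by
          rw [← heB]
          exact mem_image_of_mem e ⟨by linarith [ht.2], by linarith⟩
        have m3 : e (2 - 2 * t) ∈ A ∩ B := ⟨by rw [← hkk]; exact m1, m2⟩
        rw [h] at m3
        rcases m3 with m3 | m3
        · rw [← he0] at m3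
          have := hei (show 2 - 2 * t ∈ Icc (0 : ℝ) 1 from ⟨by linarith [ht.2], by linarith⟩)
            (show (0 : ℝ) ∈ Icc (0 : ℝ) 1 from ⟨le_rfl, zero_le_one⟩) m3
          linarith [ht.2]
        · rw [mem_singleton_iff, ← he1] at m3
          have := hei (show 2 - 2 * t ∈ Icc (0 : ℝ) 1 from ⟨by linarith [ht.2], by linarith⟩)
            (show (1 : ℝ) ∈ Icc (0 : ℝ) 1 from ⟨zero_le_one, le_rfl⟩) m3
          linarith
      · push Not at hs2
        rw [hkB s hs2 hs.2.le, hkB t ht2 ht.2.le] at hkk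
        have := hei (show 2 - 2 * s ∈ Icc (0 : ℝ) 1 from ⟨by linarith [hs.2], by linarith⟩)
          (show 2 - 2 * t ∈ Icc (0 : ℝ) 1 from ⟨by linarith [ht.2], by linarith⟩) hkk
        linarith
  refine ⟨k ∘ Int.fract, hkc.continuousOn.comp_fract'' (by rw [hk0, hk1]), ?_, ?_, ?_⟩
  · intro t
    show k (Int.fract (t + 1)) = k (Int.fract t)
    rw [Int.fract_add_one]
  · intro s hs t ht hst
    have e1 : Int.fract s = s := Int.fract_eq_self.2 hs
    have e2 : Int.fract t = t := Int.fract_eq_self.2 ht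
    have hst' : k (Int.fract s) = k (Int.fract t) := hst
    rw [e1, e2] at hst'
    rcases le_total s t with hle | hle
    · exact hkinj s hs t ht hle hst'
    · exact (hkinj t ht s hs hle hst'.symm).symm
  · ext z
    constructor
    · rintro ⟨t, rfl⟩
      show k (Int.fract t) ∈ A ∪ B
      have h0 := Int.fract_nonneg t
      have h1 := Int.fract_lt_one t
      by_cases h2 : Int.fract t ≤ 1 / 2
      · left
        rw [hkA _ h0 h2, ← hfA]
        exact mem_image_of_mem f ⟨by linarith, by linarith⟩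
      · push Not at h2
        right
        rw [hkB _ h2 h1.le, ← heB]
        exact mem_image_of_mem e ⟨by linarith, by linarith⟩
    · rintro (hz | hz)
      · rw [← hfA] at hz
        obtain ⟨t, ht, rfl⟩ := hz
        refine ⟨t / 2, ?_⟩
        show k (Int.fract (t / 2)) = f t
        have e1 : Int.fract (t / 2) = t / 2 :=
          Int.fract_eq_self.2 ⟨by linarith [ht.1], by linarith [ht.2]⟩
        rw [e1, hkA _ (by linarith [ht.1]) (by linarith [ht.2])]
        congr 1
        ring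
      · rw [← heB] at hz
        obtain ⟨t, ht, rfl⟩ := hz
        by_cases ht0 : t = 0
        · refine ⟨0, ?_⟩
          show k (Int.fract 0) = e t
          rw [Int.fract_zero, hk0, ht0, he0]
        by_cases ht1 : t = 1
        · refine ⟨1 / 2, ?_⟩
          show k (Int.fract (1 / 2)) = e t
          have e1 : Int.fract (1 / 2 : ℝ) = 1 / 2 :=
            Int.fract_eq_self.2 ⟨by norm_num, by norm_num⟩
          rw [e1, hkA _ (by norm_num) le_rfl, ht1, he1, ← hf1]
          norm_num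
        · have hlt : t < 1 := lt_of_le_of_ne ht.2 ht1
          have hgt : 0 < t := lt_of_le_of_ne ht.1 (Ne.symm ht0)
          refine ⟨1 - t / 2, ?_⟩
          show k (Int.fract (1 - t / 2)) = e t
          have e1 : Int.fract (1 - t / 2) = 1 - t / 2 :=
            Int.fract_eq_self.2 ⟨by linarith, by linarith⟩
          rw [e1, hkB _ (by linarith) (by linarith)]
          congr 1
          ring

theorem jor_fract {g : ℝ → ℂ} (hp : Function.Periodic g 1) (t : ℝ) : g (Int.fract t) = g t := by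
  have h1 := hp.sub_int_mul_eq (x := t) ⌊t⌋
  rw [mul_one] at h1
  exact h1

theorem jor_inj {g : ℝ → ℂ} (hp : Function.Periodic g 1) (hi : InjOn g (Ico 0 1)) {s t : ℝ}
    (h : g s = g t) : ∃ n : ℤ, s - t = n := by
  rw [← jor_fract hp s, ← jor_fract hp t] at h
  exact Int.fract_eq_fract.1 (hi ⟨Int.fract_nonneg s, Int.fract_lt_one s⟩
    ⟨Int.fract_nonneg t, Int.fract_lt_one t⟩ h)

theorem jor_inj_eq {g : ℝ → ℂ} (hp : Function.Periodic g 1) (hi : InjOn g (Ico 0 1)) {s t : ℝ}
    (h : g s = g t) (h1 : |s - t| < 1) : s = t := by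
  obtain ⟨n, hn⟩ := jor_inj hp hi h
  rw [hn] at h1
  have h2 : |n| < 1 := by exact_mod_cast h1
  have h3 : n = 0 := Int.abs_lt_one_iff.1 h2
  rw [h3, Int.cast_zero] at hn
  linarith

theorem arcs_of_isJordan {J : Set ℂ} (hJ : IsJordan J) :
    ∃ A B x y, IsArc A x y ∧ IsArc B x y ∧ A ∩ B = {x, y} ∧ A ∪ B = J := by
  obtain ⟨g, hg, hp, hi, rfl⟩ := hJ
  have h01 : g 1 = g 0 := by
    have := hp 0
    rwa [zero_add] at this
  refine ⟨g '' Icc 0 (1 / 2), g '' Icc (1 / 2) 1, g 0, g (1 / 2), ?_, ?_, ?_, ?_⟩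
  · refine ⟨fun t => g (t / 2), ?_, ?_, ?_, ?_, ?_⟩
    · exact (hg.comp (continuous_id.div_const 2)).continuousOn
    · intro s hs t ht hst
      have := jor_inj_eq hp hi hst (by
        rw [abs_lt]
        exact ⟨by linarith [hs.1, ht.2], by linarith [hs.2, ht.1]⟩)
      linarith
    · ext z
      constructor
      · rintro ⟨t, ht, rfl⟩
        exact ⟨t / 2, ⟨by linarith [ht.1], by linarith [ht.2]⟩, rfl⟩
      · rintro ⟨t, ht, rfl⟩
        refine ⟨2 * t, ⟨by linarith [ht.1], by linarith [ht.2]⟩, ?_⟩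
        show g (2 * t / 2) = g t
        congr 1
        ring
    · show g (0 / 2) = g 0
      rw [zero_div]
    · rfl
  · refine ⟨fun t => g (1 - t / 2), ?_, ?_, ?_, ?_, ?_⟩
    · exact (hg.comp (continuous_const.sub (continuous_id.div_const 2))).continuousOn
    · intro s hs t ht hst
      have := jor_inj_eq hp hi hst (by
        rw [abs_lt]
        exact ⟨by linarith [hs.2, ht.1], by linarith [hs.1, ht.2]⟩)
      linarith
    · ext z
      constructor
      · rintro ⟨t, ht, rfl⟩
        exact ⟨1 - t / 2, ⟨by linarith [ht.2], by linarith [ht.1]⟩, rfl⟩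
      · rintro ⟨t, ht, rfl⟩
        refine ⟨2 - 2 * t, ⟨by linarith [ht.2], by linarith [ht.1]⟩, ?_⟩
        show g (1 - (2 - 2 * t) / 2) = g t
        congr 1
        ring
    · show g (1 - 0 / 2) = g 0
      rw [zero_div, sub_zero, h01]
    · show g (1 - 1 / 2) = g (1 / 2)
      congr 1
      norm_num
  · ext z
    constructor
    · rintro ⟨⟨s, hs, rfl⟩, ⟨t, ht, hst⟩⟩
      by_cases h1 : |t - s| < 1
      · have h2 := jor_inj_eq hp hi hst h1
        have h3 : s = 1 / 2 := le_antisymm hs.2 (by rw [← h2]; exact ht.1)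
        right
        rw [h3]
        rfl
      · rw [not_lt, le_abs] at h1
        left
        have h3 : s = 0 := by
          rcases h1 with h1 | h1
          · linarith [hs.1, ht.2]
          · linarith [hs.1, hs.2, ht.1]
        rw [h3]
    · rintro (rfl | rfl)
      · exact ⟨⟨0, ⟨le_rfl, by norm_num⟩, rfl⟩, ⟨1, ⟨by norm_num, le_rfl⟩, h01⟩⟩
      · exact ⟨⟨1 / 2, ⟨by norm_num, le_rfl⟩, rfl⟩, ⟨1 / 2, ⟨le_rfl, by norm_num⟩, rfl⟩⟩
  · ext z
    constructor
    · rintro (⟨t, _, rfl⟩ | ⟨t, _, rfl⟩) <;> exact mem_range_self t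
    · rintro ⟨t, rfl⟩
      rw [← jor_fract hp t]
      have h0 := Int.fract_nonneg t
      have h1 := Int.fract_lt_one t
      rcases le_total (Int.fract t) (1 / 2) with h2 | h2
      · exact Or.inl (mem_image_of_mem g ⟨h0, h2⟩)
      · exact Or.inr (mem_image_of_mem g ⟨h2, h1.le⟩)

theorem IsJordan.isCompact {J : Set ℂ} (hJ : IsJordan J) : IsCompact J := by
  obtain ⟨A, B, x, y, hA, hB, -, rfl⟩ := arcs_of_isJordan hJ
  exact hA.isCompact.union hB.isCompact

theorem IsJordan.nonempty {J : Set ℂ} (hJ : IsJordan J) : J.Nonempty := by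
  obtain ⟨g, -, -, -, rfl⟩ := hJ
  exact range_nonempty g

theorem jordan_split {J : Set ℂ} (hJ : IsJordan J) {p : ℂ} (hp : p ∈ J) {r : ℝ} (hr : 0 < r) :
    ∃ A x y, IsArc A x y ∧ A ⊆ J ∧ p ∉ A ∧ J \ ball p r ⊆ A := by
  obtain ⟨g, hg, hper, hi, rfl⟩ := hJ
  obtain ⟨a, rfl⟩ := hp
  obtain ⟨δ, hδ, hball⟩ := Metric.continuousAt_iff.1 (hg.continuousAt (x := a)) r hr
  obtain ⟨d, hd⟩ : ∃ d, d = min (δ / 2) (1 / 4) := ⟨_, rfl⟩
  have hd0 : 0 < d := by
    rw [hd]
    exact lt_min (by linarith) (by norm_num)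
  have hd1 : d ≤ δ / 2 := by rw [hd]; exact min_le_left _ _
  have hd2 : d ≤ 1 / 4 := by rw [hd]; exact min_le_right _ _
  refine ⟨g '' Icc (a + d) (a + 1 - d), g (a + d), g (a + 1 - d), ?_, ?_, ?_, ?_⟩
  · refine ⟨fun t => g (a + d + t * (1 - 2 * d)), ?_, ?_, ?_, ?_, ?_⟩
    · exact (hg.comp (continuous_const.add (continuous_id.mul continuous_const))).continuousOn
    · intro s hs t ht hst
      have hc : 0 < 1 - 2 * d := by linarith
      have h1 := jor_inj_eq hper hi hst (by
        have e1 : a + d + s * (1 - 2 * d) - (a + d + t * (1 - 2 * d)) =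
          (s - t) * (1 - 2 * d) := by ring
        rw [e1, abs_mul, abs_of_pos hc]
        have h2 : |s - t| ≤ 1 := by
          rw [abs_le]
          exact ⟨by linarith [hs.1, ht.2], by linarith [hs.2, ht.1]⟩
        calc |s - t| * (1 - 2 * d) ≤ 1 * (1 - 2 * d) := mul_le_mul_of_nonneg_right h2 hc.le
          _ < 1 := by linarith)
      have h2 : s * (1 - 2 * d) = t * (1 - 2 * d) := by linarith
      exact mul_right_cancel₀ hc.ne' h2
    · ext z
      constructor
      · rintro ⟨t, ht, rfl⟩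
        refine ⟨_, ⟨?_, ?_⟩, rfl⟩
        · nlinarith [ht.1]
        · nlinarith [ht.2]
      · rintro ⟨t, ht, rfl⟩
        have hc : 0 < 1 - 2 * d := by linarith
        refine ⟨(t - (a + d)) / (1 - 2 * d), ⟨?_, ?_⟩, ?_⟩
        · exact div_nonneg (by linarith [ht.1]) hc.le
        · rw [div_le_one hc]
          linarith [ht.2]
        · show g (a + d + (t - (a + d)) / (1 - 2 * d) * (1 - 2 * d)) = g t
          rw [div_mul_cancel₀ _ hc.ne']
          congr 1
          ring
    · show g (a + d + 0 * (1 - 2 * d)) = g (a + d)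
      congr 1
      ring
    · show g (a + d + 1 * (1 - 2 * d)) = g (a + 1 - d)
      congr 1
      ring
  · rintro _ ⟨t, _, rfl⟩
    exact mem_range_self t
  · rintro ⟨t, ht, hta⟩
    have := jor_inj_eq hper hi hta (by
      rw [abs_lt]
      exact ⟨by linarith [ht.1], by linarith [ht.2]⟩)
    linarith [ht.1]
  · rintro _ ⟨⟨t, rfl⟩, hball'⟩
    have h0 := Int.fract_nonneg (t - a)
    have h1 := Int.fract_lt_one (t - a)
    have e1 : g (a + Int.fract (t - a)) = g t := by
      have h2 := hper.sub_int_mul_eq (x := t) ⌊t - a⌋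
      rw [← h2]
      congr 1
      have h3 : Int.fract (t - a) = t - a - ⌊t - a⌋ := rfl
      rw [h3]
      ring
    obtain ⟨u, hu⟩ : ∃ u, u = Int.fract (t - a) := ⟨_, rfl⟩
    rw [← hu] at h0 h1 e1
    rw [← e1] at hball' ⊢
    by_cases h2 : u < d
    · exfalso
      apply hball'
      rw [mem_ball]
      apply hball
      rw [Real.dist_eq, abs_lt]
      exact ⟨by linarith, by linarith⟩
    by_cases h3 : 1 - d < u
    · exfalso
      apply hball'
      have e2 : g (a + u - 1) = g (a + u) := hper.sub_eq (a + u)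
      rw [← e2, mem_ball]
      apply hball
      rw [Real.dist_eq, abs_lt]
      exact ⟨by linarith, by linarith⟩
    · push Not at h2 h3
      exact mem_image_of_mem g ⟨by linarith, by linarith⟩

end CarT
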