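import Pool.Agent.CarT.Net
import Pool.Agent.CarT.JorA

/-!
# CarT/Bd : the boundary of a rectangle

`R = ((a, b), (c, e))`, `a < b`, `c < e`, `a < m < b`. The path `cpath m (a - m) c e` on `[0,1]` runs
from `(m, c)` along the bottom side to `(a, c)` (first third), along the left side to
`(a, e)` (second third), along the top side to `(m, e)` (last third): on `[0, 1/3]`
`cl1 (3u) = 3u`, `cl1 (3u-1) = cl1 (3u-2) = 0`; on `[1/3, 2/3]`: `1, 3u-1, 0`; on `[2/3, 1]`: `1, 1, 3u-2`.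
It is continuous, injective on `[0,1]`, and its image is the part `{p ∈ bd R | p.1 ≤ m}` of the
boundary. Similarly `cpath m (b - m) c e` for `{p ∈ bd R | m ≤ p.1}`.

* `bd_left`: `bd (leftR m R) = {p ∈ bd R | p.1 ≤ m} ∪ {m} × [c, e]`; `bd_right` similarly.
  (`bd R` = points of the closed rectangle with `p.1 = a ∨ p.1 = b ∨ p.2 = c ∨ p.2 = e`.)
* `arc_left`: the image under `φ` (continuous and injective on `bd R`) is an arc; `arc_inter`: the two arcs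
  have exactly their ends in common (injectivity of `φ`; `{p ∈ bd R | p.1 = m} = {(m,c), (m,e)}`).
* `bd_jordan`: `isJordan_of_arcs` for these two arcs (take `m = (a + b)/2`).
-/

open Set Metric

namespace CarT

theorem mem_bd_iff {R : Rect} {p : ℝ × ℝ} :
    p ∈ bd R ↔ p ∈ cl R ∧ (p.1 = R.1.1 ∨ p.1 = R.1.2 ∨ p.2 = R.2.1 ∨ p.2 = R.2.2) := by
  constructor
  · rintro ⟨h1, h2⟩
    refine ⟨h1, ?_⟩
    by_contra h3
    push Not at h3
    obtain ⟨⟨h4, h5⟩, ⟨h6, h7⟩⟩ := h1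
    exact h2 ⟨⟨lt_of_le_of_ne h4 (Ne.symm h3.1), lt_of_le_of_ne h5 h3.2.1⟩,
      ⟨lt_of_le_of_ne h6 (Ne.symm h3.2.2.1), lt_of_le_of_ne h7 h3.2.2.2⟩⟩
  · rintro ⟨h1, h2⟩
    refine ⟨h1, ?_⟩
    rintro ⟨⟨h4, h5⟩, ⟨h6, h7⟩⟩
    rcases h2 with h2 | h2 | h2 | h2
    · exact absurd h2 h4.ne'
    · exact absurd h2 h5.ne
    · exact absurd h2 h6.ne'
    · exact absurd h2 h7.ne

theorem isCompact_bd (R : Rect) : IsCompact (bd R) :=
  (isCompact_Icc.prod isCompact_Icc).diff (isOpen_Ioo.prod isOpen_Ioo)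

private theorem bd_mem {R : Rect} {x y : ℝ} :
    (x, y) ∈ bd R ↔ (R.1.1 ≤ x ∧ x ≤ R.1.2 ∧ R.2.1 ≤ y ∧ y ≤ R.2.2) ∧
      (x = R.1.1 ∨ x = R.1.2 ∨ y = R.2.1 ∨ y = R.2.2) := by
  rw [mem_bd_iff]
  constructor
  · rintro ⟨⟨⟨h1, h2⟩, ⟨h3, h4⟩⟩, h5⟩
    exact ⟨⟨h1, h2, h3, h4⟩, h5⟩
  · rintro ⟨⟨h1, h2, h3, h4⟩, h5⟩
    exact ⟨⟨⟨h1, h2⟩, ⟨h3, h4⟩⟩, h5⟩

private theorem cl1_zero {u : ℝ} (h : u ≤ 0) : cl1 u = 0 := by
  unfold cl1
  rw [min_eq_left (h.trans zero_le_one), max_eq_left h]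

private theorem cl1_one {u : ℝ} (h : 1 ≤ u) : cl1 u = 1 := by
  unfold cl1
  rw [min_eq_right h, max_eq_right zero_le_one]

private theorem cl1_mid {u : ℝ} (h0 : 0 ≤ u) (h1 : u ≤ 1) : cl1 u = u := by
  unfold cl1
  rw [min_eq_left h1, max_eq_right h0]

private theorem cl1_cont : Continuous cl1 :=
  continuous_const.max (continuous_id.min continuous_const)

theorem continuous_cpath (m d c e : ℝ) : Continuous (cpath m d c e) := by
  unfold cpath
  have h1 : Continuous fun u : ℝ => cl1 (3 * u) :=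
    cl1_cont.comp (continuous_const.mul continuous_id)
  have h2 : Continuous fun u : ℝ => cl1 (3 * u - 2) :=
    cl1_cont.comp ((continuous_const.mul continuous_id).sub continuous_const)
  have h3 : Continuous fun u : ℝ => cl1 (3 * u - 1) :=
    cl1_cont.comp ((continuous_const.mul continuous_id).sub continuous_const)
  exact (continuous_const.add (continuous_const.mul (h1.sub h2))).prodMk
    (continuous_const.add (continuous_const.mul h3))

private theorem cpath_a (m d c e : ℝ) {u : ℝ} (h0 : 0 ≤ u) (h1 : u ≤ 1 / 3) :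
    cpath m d c e u = (m + d * (3 * u), c) := by
  unfold cpath
  rw [cl1_mid (u := 3 * u) (by linarith) (by linarith), cl1_zero (u := 3 * u - 2) (by linarith),
    cl1_zero (u := 3 * u - 1) (by linarith), mul_zero, add_zero, sub_zero]

private theorem cpath_b (m d c e : ℝ) {u : ℝ} (h0 : 1 / 3 ≤ u) (h1 : u ≤ 2 / 3) :
    cpath m d c e u = (m + d, c + (e - c) * (3 * u - 1)) := by
  unfold cpath
  rw [cl1_one (u := 3 * u) (by linarith), cl1_zero (u := 3 * u - 2) (by linarith),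
    cl1_mid (u := 3 * u - 1) (by linarith) (by linarith), sub_zero, mul_one]

private theorem cpath_c (m d c e : ℝ) {u : ℝ} (h0 : 2 / 3 ≤ u) (h1 : u ≤ 1) :
    cpath m d c e u = (m + d * (3 - 3 * u), e) := by
  unfold cpath
  rw [cl1_one (u := 3 * u) (by linarith),
    cl1_mid (u := 3 * u - 2) (by linarith) (by linarith), cl1_one (u := 3 * u - 1) (by linarith)]
  congr 1
  · ring
  · ring

private theorem cpath_le {m d c e : ℝ} (hd : d ≠ 0) (hce : c < e) {s t : ℝ} (hs : 0 ≤ s)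
    (hst : s ≤ t) (ht : t ≤ 1) (h : cpath m d c e s = cpath m d c e t) : s = t := by
  have hce' : 0 < e - c := by linarith
  have key : ∀ u v : ℝ, m + d * u = m + d * v → u = v := fun u v huv =>
    mul_left_cancel₀ hd (by linarith)
  rcases le_total s (1 / 3) with a1 | a1
  · rw [cpath_a m d c e hs a1] at h
    rcases le_total t (1 / 3) with a2 | a2
    · rw [cpath_a m d c e (hs.trans hst) a2] at h
      have h1 := key _ _ (Prod.ext_iff.mp h).1
      linarith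
    rcases le_total t (2 / 3) with a3 | a3
    · rw [cpath_b m d c e a2 a3] at h
      have h1 : m + d * (3 * s) = m + d := (Prod.ext_iff.mp h).1
      have h2 : c = c + (e - c) * (3 * t - 1) := (Prod.ext_iff.mp h).2
      have h3 := key (3 * s) 1 (by rw [mul_one]; exact h1)
      have h4 : (e - c) * (3 * t - 1) = 0 := by linarith
      have h5 : 3 * t - 1 = 0 := (mul_eq_zero.mp h4).resolve_left hce'.ne'
      linarith
    · rw [cpath_c m d c e a3 ht] at h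
      have h2 : c = e := (Prod.ext_iff.mp h).2
      linarith
  rcases le_total s (2 / 3) with b1 | b1
  · rw [cpath_b m d c e a1 b1] at h
    rcases le_total t (2 / 3) with a3 | a3
    · rw [cpath_b m d c e (a1.trans hst) a3] at h
      have h2 : c + (e - c) * (3 * s - 1) = c + (e - c) * (3 * t - 1) := (Prod.ext_iff.mp h).2
      have h3 : 3 * s - 1 = 3 * t - 1 := mul_left_cancel₀ hce'.ne' (by linarith)
      linarith
    · rw [cpath_c m d c e a3 ht] at h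
      have h1 : m + d = m + d * (3 - 3 * t) := (Prod.ext_iff.mp h).1
      have h2 : c + (e - c) * (3 * s - 1) = e := (Prod.ext_iff.mp h).2
      have h3 := key 1 (3 - 3 * t) (by rw [mul_one]; exact h1)
      have h4 : (e - c) * (3 * s - 1) = (e - c) * 1 := by linarith
      have h5 : 3 * s - 1 = 1 := mul_left_cancel₀ hce'.ne' h4
      linarith
  · rw [cpath_c m d c e b1 (hst.trans ht), cpath_c m d c e (b1.trans hst) ht] at h
    have h1 := key _ _ (Prod.ext_iff.mp h).1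
    linarith

theorem injOn_cpath {m d c e : ℝ} (hd : d ≠ 0) (hce : c < e) :
    InjOn (cpath m d c e) (Icc 0 1) := by
  intro s hs t ht h
  rcases le_total s t with hst | hst
  · exact cpath_le hd hce hs.1 hst ht.2 h
  · exact (cpath_le hd hce ht.1 hst hs.2 h.symm).symm

theorem cpath_zero (m d c e : ℝ) : cpath m d c e 0 = (m, c) := by
  rw [cpath_a m d c e le_rfl (by norm_num), mul_zero, mul_zero, add_zero]

theorem cpath_one (m d c e : ℝ) : cpath m d c e 1 = (m, e) := by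
  rw [cpath_c m d c e (by norm_num) le_rfl, mul_one, sub_self, mul_zero, add_zero]

private theorem cpath_image (m d c e : ℝ) (p : ℝ × ℝ) :
    p ∈ cpath m d c e '' Icc 0 1 ↔ ∃ v : ℝ, 0 ≤ v ∧ v ≤ 1 ∧
      (p = (m + d * v, c) ∨ p = (m + d, c + (e - c) * v) ∨ p = (m + d * v, e)) := by
  constructor
  · rintro ⟨u, ⟨hu0, hu1⟩, rfl⟩
    rcases le_total u (1 / 3) with a1 | a1
    · exact ⟨3 * u, by linarith, by linarith, Or.inl (cpath_a m d c e hu0 a1)⟩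
    rcases le_total u (2 / 3) with a2 | a2
    · exact ⟨3 * u - 1, by linarith, by linarith, Or.inr (Or.inl (cpath_b m d c e a1 a2))⟩
    · exact ⟨3 - 3 * u, by linarith, by linarith, Or.inr (Or.inr (cpath_c m d c e a2 hu1))⟩
  · rintro ⟨v, hv0, hv1, (rfl | rfl | rfl)⟩
    · refine ⟨v / 3, ⟨by linarith, by linarith⟩, ?_⟩
      rw [cpath_a m d c e (by linarith) (by linarith)]
      congr 1
      ring
    · refine ⟨(v + 1) / 3, ⟨by linarith, by linarith⟩, ?_⟩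
      rw [cpath_b m d c e (by linarith) (by linarith)]
      congr 1
      ring
    · refine ⟨(3 - v) / 3, ⟨by linarith, by linarith⟩, ?_⟩
      rw [cpath_c m d c e (by linarith) (by linarith)]
      congr 1
      ring

theorem cpath_left {R : Rect} (h2 : R.2.1 < R.2.2) {m : ℝ} (hm : R.1.1 < m)
    (hm2 : m < R.1.2) :
    cpath m (R.1.1 - m) R.2.1 R.2.2 '' Icc 0 1 = {p | p ∈ bd R ∧ p.1 ≤ m} := by
  obtain ⟨⟨a, b⟩, ⟨c, e⟩⟩ := R
  simp only at h2 hm hm2 ⊢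
  ext ⟨x, y⟩
  rw [cpath_image, mem_setOf_eq, bd_mem]
  simp only [Prod.mk.injEq]
  constructor
  · rintro ⟨v, hv0, hv1, (⟨hx, hy⟩ | ⟨hx, hy⟩ | ⟨hx, hy⟩)⟩
    · have e1 : x = a * v + m * (1 - v) := by rw [hx]; ring
      have e2 : a ≤ x := by rw [e1]; nlinarith
      have e3 : x ≤ m := by rw [e1]; nlinarith
      exact ⟨⟨⟨e2, by linarith, by linarith, by linarith⟩, Or.inr (Or.inr (Or.inl hy))⟩, e3⟩
    · have e1 : c ≤ y := by rw [hy]; nlinarith
      have e2 : y ≤ e := by rw [hy]; nlinarith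
      have e3 : x = a := by rw [hx]; ring
      exact ⟨⟨⟨by linarith, by linarith, e1, e2⟩, Or.inl e3⟩, by linarith⟩
    · have e1 : x = a * v + m * (1 - v) := by rw [hx]; ring
      have e2 : a ≤ x := by rw [e1]; nlinarith
      have e3 : x ≤ m := by rw [e1]; nlinarith
      exact ⟨⟨⟨e2, by linarith, by linarith, by linarith⟩, Or.inr (Or.inr (Or.inr hy))⟩, e3⟩
  · rintro ⟨⟨⟨h3, h4, h5, h6⟩, h7⟩, h8⟩
    have hd : 0 < m - a := by linarith
    have hce : 0 < e - c := by linarith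
    rcases h7 with h7 | h7 | h7 | h7
    · refine ⟨(y - c) / (e - c), div_nonneg (by linarith) hce.le,
        (div_le_one hce).mpr (by linarith), Or.inr (Or.inl ⟨by rw [h7]; ring, ?_⟩)⟩
      rw [mul_div_cancel₀ _ hce.ne']
      ring
    · exfalso; linarith
    · refine ⟨(m - x) / (m - a), div_nonneg (by linarith) hd.le,
        (div_le_one hd).mpr (by linarith), Or.inl ⟨?_, h7⟩⟩
      have : (a - m) * ((m - x) / (m - a)) = -((m - a) * ((m - x) / (m - a))) := by ring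
      rw [this, mul_div_cancel₀ _ hd.ne']
      ring
    · refine ⟨(m - x) / (m - a), div_nonneg (by linarith) hd.le,
        (div_le_one hd).mpr (by linarith), Or.inr (Or.inr ⟨?_, h7⟩)⟩
      have : (a - m) * ((m - x) / (m - a)) = -((m - a) * ((m - x) / (m - a))) := by ring
      rw [this, mul_div_cancel₀ _ hd.ne']
      ring

theorem cpath_right {R : Rect} (h2 : R.2.1 < R.2.2) {m : ℝ} (hm : R.1.1 < m)
    (hm2 : m < R.1.2) :
    cpath m (R.1.2 - m) R.2.1 R.2.2 '' Icc 0 1 = {p | p ∈ bd R ∧ m ≤ p.1} := by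
  obtain ⟨⟨a, b⟩, ⟨c, e⟩⟩ := R
  simp only at h2 hm hm2 ⊢
  ext ⟨x, y⟩
  rw [cpath_image, mem_setOf_eq, bd_mem]
  simp only [Prod.mk.injEq]
  constructor
  · rintro ⟨v, hv0, hv1, (⟨hx, hy⟩ | ⟨hx, hy⟩ | ⟨hx, hy⟩)⟩
    · have e1 : x = b * v + m * (1 - v) := by rw [hx]; ring
      have e2 : x ≤ b := by rw [e1]; nlinarith
      have e3 : m ≤ x := by rw [e1]; nlinarith
      exact ⟨⟨⟨by linarith, e2, by linarith, by linarith⟩, Or.inr (Or.inr (Or.inl hy))⟩, e3⟩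
    · have e1 : c ≤ y := by rw [hy]; nlinarith
      have e2 : y ≤ e := by rw [hy]; nlinarith
      have e3 : x = b := by rw [hx]; ring
      exact ⟨⟨⟨by linarith, by linarith, e1, e2⟩, Or.inr (Or.inl e3)⟩, by linarith⟩
    · have e1 : x = b * v + m * (1 - v) := by rw [hx]; ring
      have e2 : x ≤ b := by rw [e1]; nlinarith
      have e3 : m ≤ x := by rw [e1]; nlinarith
      exact ⟨⟨⟨by linarith, e2, by linarith, by linarith⟩, Or.inr (Or.inr (Or.inr hy))⟩, e3⟩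
  · rintro ⟨⟨⟨h3, h4, h5, h6⟩, h7⟩, h8⟩
    have hd : 0 < b - m := by linarith
    have hce : 0 < e - c := by linarith
    rcases h7 with h7 | h7 | h7 | h7
    · exfalso; linarith
    · refine ⟨(y - c) / (e - c), div_nonneg (by linarith) hce.le,
        (div_le_one hce).mpr (by linarith), Or.inr (Or.inl ⟨by rw [h7]; ring, ?_⟩)⟩
      rw [mul_div_cancel₀ _ hce.ne']
      ring
    · refine ⟨(x - m) / (b - m), div_nonneg (by linarith) hd.le,
        (div_le_one hd).mpr (by linarith), Or.inl ⟨?_, h7⟩⟩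
      rw [mul_div_cancel₀ _ hd.ne']
      ring
    · refine ⟨(x - m) / (b - m), div_nonneg (by linarith) hd.le,
        (div_le_one hd).mpr (by linarith), Or.inr (Or.inr ⟨?_, h7⟩)⟩
      rw [mul_div_cancel₀ _ hd.ne']
      ring

theorem bd_left {R : Rect} (h2 : R.2.1 < R.2.2) {m : ℝ} (hm : R.1.1 < m) (hm2 : m < R.1.2) :
    bd (leftR m R) = {p | p ∈ bd R ∧ p.1 ≤ m} ∪ {m} ×ˢ Icc R.2.1 R.2.2 := by
  obtain ⟨⟨a, b⟩, ⟨c, e⟩⟩ := R
  simp only at h2 hm hm2 ⊢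
  ext ⟨x, y⟩
  rw [mem_union, mem_setOf_eq, bd_mem, bd_mem, mem_prod, mem_singleton_iff, mem_Icc]
  simp only [leftR]
  constructor
  · rintro ⟨⟨h3, h4, h5, h6⟩, h7⟩
    rcases h7 with h7 | h7 | h7 | h7
    · exact Or.inl ⟨⟨⟨h3, by linarith, h5, h6⟩, Or.inl h7⟩, h4⟩
    · exact Or.inr ⟨h7, h5, h6⟩
    · exact Or.inl ⟨⟨⟨h3, by linarith, h5, h6⟩, Or.inr (Or.inr (Or.inl h7))⟩, h4⟩
    · exact Or.inl ⟨⟨⟨h3, by linarith, h5, h6⟩, Or.inr (Or.inr (Or.inr h7))⟩, h4⟩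
  · rintro (⟨⟨⟨h3, h4, h5, h6⟩, h7⟩, h8⟩ | ⟨h7, h5, h6⟩)
    · rcases h7 with h7 | h7 | h7 | h7
      · exact ⟨⟨h3, h8, h5, h6⟩, Or.inl h7⟩
      · exfalso; linarith
      · exact ⟨⟨h3, h8, h5, h6⟩, Or.inr (Or.inr (Or.inl h7))⟩
      · exact ⟨⟨h3, h8, h5, h6⟩, Or.inr (Or.inr (Or.inr h7))⟩
    · exact ⟨⟨by linarith, by linarith, h5, h6⟩, Or.inr (Or.inl h7)⟩

theorem bd_right {R : Rect} (h2 : R.2.1 < R.2.2) {m : ℝ} (hm : R.1.1 < m) (hm2 : m < R.1.2) :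
    bd (rightR m R) = {p | p ∈ bd R ∧ m ≤ p.1} ∪ {m} ×ˢ Icc R.2.1 R.2.2 := by
  obtain ⟨⟨a, b⟩, ⟨c, e⟩⟩ := R
  simp only at h2 hm hm2 ⊢
  ext ⟨x, y⟩
  rw [mem_union, mem_setOf_eq, bd_mem, bd_mem, mem_prod, mem_singleton_iff, mem_Icc]
  simp only [rightR]
  constructor
  · rintro ⟨⟨h3, h4, h5, h6⟩, h7⟩
    rcases h7 with h7 | h7 | h7 | h7
    · exact Or.inr ⟨h7, h5, h6⟩
    · exact Or.inl ⟨⟨⟨by linarith, h4, h5, h6⟩, Or.inr (Or.inl h7)⟩, h3⟩
    · exact Or.inl ⟨⟨⟨by linarith, h4, h5, h6⟩, Or.inr (Or.inr (Or.inl h7))⟩, h3⟩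
    · exact Or.inl ⟨⟨⟨by linarith, h4, h5, h6⟩, Or.inr (Or.inr (Or.inr h7))⟩, h3⟩
  · rintro (⟨⟨⟨h3, h4, h5, h6⟩, h7⟩, h8⟩ | ⟨h7, h5, h6⟩)
    · rcases h7 with h7 | h7 | h7 | h7
      · exfalso; linarith
      · exact ⟨⟨h8, h4, h5, h6⟩, Or.inr (Or.inl h7)⟩
      · exact ⟨⟨h8, h4, h5, h6⟩, Or.inr (Or.inr (Or.inl h7))⟩
      · exact ⟨⟨h8, h4, h5, h6⟩, Or.inr (Or.inr (Or.inr h7))⟩
    · exact ⟨⟨by linarith, by linarith, h5, h6⟩, Or.inl h7⟩

theorem arc_left {R : Rect} (h2 : R.2.1 < R.2.2) {m : ℝ} (hm : R.1.1 < m) (hm2 : m < R.1.2)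
    {φ : ℝ × ℝ → ℂ} (hφ : ContinuousOn φ (bd R)) (hi : InjOn φ (bd R)) :
    IsArc (φ '' {p | p ∈ bd R ∧ p.1 ≤ m}) (φ (m, R.2.1)) (φ (m, R.2.2)) := by
  have him := cpath_left h2 hm hm2
  have hmaps : MapsTo (cpath m (R.1.1 - m) R.2.1 R.2.2) (Icc 0 1) (bd R) := by
    intro u hu
    have : cpath m (R.1.1 - m) R.2.1 R.2.2 u ∈ {p | p ∈ bd R ∧ p.1 ≤ m} := by
      rw [← him]
      exact mem_image_of_mem _ hu
    exact this.1
  refine ⟨fun u => φ (cpath m (R.1.1 - m) R.2.1 R.2.2 u), ?_, ?_, ?_, ?_, ?_⟩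
  · exact hφ.comp (continuous_cpath _ _ _ _).continuousOn hmaps
  · exact hi.comp (injOn_cpath (by linarith) h2) hmaps
  · rw [← him, image_image]
  · simp only [cpath_zero]
  · simp only [cpath_one]

theorem arc_right {R : Rect} (h2 : R.2.1 < R.2.2) {m : ℝ} (hm : R.1.1 < m) (hm2 : m < R.1.2)
    {φ : ℝ × ℝ → ℂ} (hφ : ContinuousOn φ (bd R)) (hi : InjOn φ (bd R)) :
    IsArc (φ '' {p | p ∈ bd R ∧ m ≤ p.1}) (φ (m, R.2.1)) (φ (m, R.2.2)) := by
  have him := cpath_right h2 hm hm2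
  have hmaps : MapsTo (cpath m (R.1.2 - m) R.2.1 R.2.2) (Icc 0 1) (bd R) := by
    intro u hu
    have : cpath m (R.1.2 - m) R.2.1 R.2.2 u ∈ {p | p ∈ bd R ∧ m ≤ p.1} := by
      rw [← him]
      exact mem_image_of_mem _ hu
    exact this.1
  refine ⟨fun u => φ (cpath m (R.1.2 - m) R.2.1 R.2.2 u), ?_, ?_, ?_, ?_, ?_⟩
  · exact hφ.comp (continuous_cpath _ _ _ _).continuousOn hmaps
  · exact hi.comp (injOn_cpath (by linarith) h2) hmaps
  · rw [← him, image_image]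
  · simp only [cpath_zero]
  · simp only [cpath_one]

theorem arc_inter {R : Rect} (h2 : R.2.1 < R.2.2) {m : ℝ} (hm : R.1.1 < m) (hm2 : m < R.1.2)
    {φ : ℝ × ℝ → ℂ} (hi : InjOn φ (bd R)) :
    φ '' {p | p ∈ bd R ∧ p.1 ≤ m} ∩ φ '' {p | p ∈ bd R ∧ m ≤ p.1} =
      {φ (m, R.2.1), φ (m, R.2.2)} := by
  rw [← hi.image_inter (fun p hp => hp.1) (fun p hp => hp.1)]
  have : {p : ℝ × ℝ | p ∈ bd R ∧ p.1 ≤ m} ∩ {p | p ∈ bd R ∧ m ≤ p.1} =
      {(m, R.2.1), (m, R.2.2)} := by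
    obtain ⟨⟨a, b⟩, ⟨c, e⟩⟩ := R
    simp only at h2 hm hm2 ⊢
    ext ⟨x, y⟩
    rw [mem_inter_iff, mem_setOf_eq, mem_setOf_eq, bd_mem, mem_insert_iff, mem_singleton_iff]
    simp only [Prod.mk.injEq]
    constructor
    · rintro ⟨⟨⟨⟨h3, h4, h5, h6⟩, h7⟩, h8⟩, ⟨-, h9⟩⟩
      have hx : x = m := le_antisymm h8 h9
      rcases h7 with h7 | h7 | h7 | h7
      · exfalso; linarith
      · exfalso; linarith
      · exact Or.inl ⟨hx, h7⟩
      · exact Or.inr ⟨hx, h7⟩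
    · rintro (⟨hx, hy⟩ | ⟨hx, hy⟩)
      · have h3 : (a ≤ x ∧ x ≤ b ∧ c ≤ y ∧ y ≤ e) ∧ (x = a ∨ x = b ∨ y = c ∨ y = e) :=
          ⟨⟨by linarith, by linarith, by linarith, by linarith⟩, Or.inr (Or.inr (Or.inl hy))⟩
        exact ⟨⟨h3, hx.le⟩, ⟨h3, hx.ge⟩⟩
      · have h3 : (a ≤ x ∧ x ≤ b ∧ c ≤ y ∧ y ≤ e) ∧ (x = a ∨ x = b ∨ y = c ∨ y = e) :=
          ⟨⟨by linarith, by linarith, by linarith, by linarith⟩, Or.inr (Or.inr (Or.inr hy))⟩
        exact ⟨⟨h3, hx.le⟩, ⟨h3, hx.ge⟩⟩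
  rw [this, image_pair]

theorem arc_union {R : Rect} (m : ℝ) (φ : ℝ × ℝ → ℂ) :
    φ '' {p | p ∈ bd R ∧ p.1 ≤ m} ∪ φ '' {p | p ∈ bd R ∧ m ≤ p.1} = φ '' bd R := by
  rw [← image_union]
  congr 1
  ext p
  constructor
  · rintro (h | h)
    · exact h.1
    · exact h.1
  · intro h
    rcases le_total p.1 m with h1 | h1
    · exact Or.inl ⟨h, h1⟩
    · exact Or.inr ⟨h, h1⟩

theorem bd_jordan {R : Rect} (h1 : R.1.1 < R.1.2) (h2 : R.2.1 < R.2.2)
    {φ : ℝ × ℝ → ℂ} (hφ : ContinuousOn φ (bd R)) (hi : InjOn φ (bd R)) :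
    IsJordan (φ '' bd R) := by
  have hm : R.1.1 < (R.1.1 + R.1.2) / 2 := by linarith
  have hm2 : (R.1.1 + R.1.2) / 2 < R.1.2 := by linarith
  have := isJordan_of_arcs (arc_left h2 hm hm2 hφ hi) (arc_right h2 hm hm2 hφ hi)
    (arc_inter h2 hm hm2 hi)
  rwa [arc_union] at this

end CarT
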