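import Pool.Agent.CarT.Net

/-!
# CarT/CellA : the squares of the carpet

* `good_succ`: `t ∈ Good (n+1) ↔ t = kidN s o` with `s ∈ Good n`, `o ∈ off` (definition).
* `carpet_good`: induction on `n`. `n = 0`: `p ∈ [0,1]²`. Step: let `s = (i, j) ∈ Good n` with
  `3^n p ∈ [i, i+1] × [j, j+1]`. Then `q = 3^(n+1) p ∈ [3i, 3i+3] × [3j, 3j+3]`. Choose `a ∈ {0,1,2}` with
  `q.1 ∈ [3i + a, 3i + a + 1]` and `b` similarly. If `(a, b) ≠ (1, 1)` the square `kidN s (a, b)` works. If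
  `a = b = 1`: if `q` is in the open middle square, then `p` is in the removed open square with indices
  `n`, `i`, `j` (divide by `3^(n+1)`), contradiction. Otherwise `q.1 = 3i+1` (then `a = 0` is also
  possible), or `q.1 = 3i+2` (`a = 2`), or the same for `q.2`.
* `cl_parent`: if `3^(n+1) p ∈ cl (sqN (kidN s o))` then `3^n p ∈ cl (sqN s)` (divide by `3`, `o.1, o.2 ≤ 2`).
* `adj_of_close`, `not_adj_of_far`: elementary.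
* `isCompact_Carpet`: closed (complement of open sets) and bounded.
-/

open Set Metric

namespace CarT

/-- neighbouring (or equal) squares -/
def Adj (s t : ℕ × ℕ) : Prop :=
  s.1 ≤ t.1 + 1 ∧ t.1 ≤ s.1 + 1 ∧ s.2 ≤ t.2 + 1 ∧ t.2 ≤ s.2 + 1

/-- scaling of a point by `3^n` -/
noncomputable def sc (n : ℕ) (p : ℝ × ℝ) : ℝ × ℝ := (3 ^ n * p.1, 3 ^ n * p.2)

theorem mem_cl_sqN {p : ℝ × ℝ} {s : ℕ × ℕ} : p ∈ cl (sqN s) ↔
    ((s.1 : ℝ) ≤ p.1 ∧ p.1 ≤ s.1 + 1) ∧ ((s.2 : ℝ) ≤ p.2 ∧ p.2 ≤ s.2 + 1) := Iff.rfl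

theorem mem_op_sqN {p : ℝ × ℝ} {s : ℕ × ℕ} : p ∈ op (sqN s) ↔
    ((s.1 : ℝ) < p.1 ∧ p.1 < s.1 + 1) ∧ ((s.2 : ℝ) < p.2 ∧ p.2 < s.2 + 1) := Iff.rfl

theorem mem_off {o : ℕ × ℕ} : o ∈ off ↔ o ≠ (1, 1) ∧ o.1 < 3 ∧ o.2 < 3 := by
  simp [off]

theorem good_succ {n : ℕ} {t : ℕ × ℕ} :
    t ∈ Good (n + 1) ↔ ∃ s ∈ Good n, ∃ o ∈ off, t = kidN s o := by
  simp only [Good, Finset.mem_biUnion, Finset.mem_image]
  constructor
  · rintro ⟨s, hs, o, ho, h⟩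
    exact ⟨s, hs, o, ho, h.symm⟩
  · rintro ⟨s, hs, o, ho, h⟩
    exact ⟨s, hs, o, ho, h.symm⟩

theorem pick3 {x i : ℝ} (h1 : 3 * i ≤ x) (h2 : x ≤ 3 * i + 3) :
    ∃ a : ℕ, a < 3 ∧ 3 * i + a ≤ x ∧ x ≤ 3 * i + a + 1 ∧
      (a = 1 → 3 * i + 1 < x ∧ x < 3 * i + 2) := by
  by_cases ha : x ≤ 3 * i + 1
  · refine ⟨0, by norm_num, ?_, ?_, fun h => absurd h (by norm_num)⟩
    · push_cast; linarith
    · push_cast; linarith
  · push Not at ha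
    by_cases hb : 3 * i + 2 ≤ x
    · refine ⟨2, by norm_num, ?_, ?_, fun h => absurd h (by norm_num)⟩
      · push_cast; linarith
      · push_cast; linarith
    · push Not at hb
      refine ⟨1, by norm_num, ?_, ?_, fun _ => ⟨ha, hb⟩⟩
      · push_cast; linarith
      · push_cast; linarith

theorem carpet_good {p : ℝ × ℝ} (hp : p ∈ Carpet) (n : ℕ) :
    ∃ s ∈ Good n, sc n p ∈ cl (sqN s) := by
  induction n with
  | zero =>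
    refine ⟨(0, 0), by simp [Good], ?_⟩
    rw [mem_cl_sqN]
    obtain ⟨h1, h2, -⟩ := hp
    simp only [Set.mem_Icc] at h1 h2
    simp only [sc, pow_zero, one_mul, Nat.cast_zero, zero_add]
    exact ⟨h1, h2⟩
  | succ n ih =>
    obtain ⟨s, hs, hc⟩ := ih
    rw [mem_cl_sqN] at hc
    obtain ⟨⟨h1, h2⟩, h3, h4⟩ := hc
    simp only [sc] at h1 h2 h3 h4
    have e1 : (3 : ℝ) ^ (n + 1) * p.1 = 3 * (3 ^ n * p.1) := by ring
    have e2 : (3 : ℝ) ^ (n + 1) * p.2 = 3 * (3 ^ n * p.2) := by ring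
    obtain ⟨a, ha, ha1, ha2, ha3⟩ := pick3 (x := (3 : ℝ) ^ (n + 1) * p.1) (i := (s.1 : ℝ))
      (by rw [e1]; linarith) (by rw [e1]; linarith)
    obtain ⟨b, hb, hb1, hb2, hb3⟩ := pick3 (x := (3 : ℝ) ^ (n + 1) * p.2) (i := (s.2 : ℝ))
      (by rw [e2]; linarith) (by rw [e2]; linarith)
    refine ⟨kidN s (a, b), good_succ.2 ⟨s, hs, (a, b), mem_off.2 ⟨?_, ha, hb⟩, rfl⟩, ?_⟩
    · intro hab
      have hA : a = 1 := congrArg Prod.fst hab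
      have hB : b = 1 := congrArg Prod.snd hab
      obtain ⟨hx1, hx2⟩ := ha3 hA
      obtain ⟨hy1, hy2⟩ := hb3 hB
      have hpos : (0 : ℝ) < 3 ^ (n + 1) := by positivity
      refine hp.2.2 n s.1 s.2 ⟨⟨?_, ?_⟩, ⟨?_, ?_⟩⟩
      · rw [div_lt_iff₀ hpos]; linarith
      · rw [lt_div_iff₀ hpos]; linarith
      · rw [div_lt_iff₀ hpos]; linarith
      · rw [lt_div_iff₀ hpos]; linarith
    · rw [mem_cl_sqN]
      simp only [sc, kidN]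
      push_cast
      exact ⟨⟨ha1, ha2⟩, hb1, hb2⟩

theorem cl_parent {p : ℝ × ℝ} {n : ℕ} {s o : ℕ × ℕ} (ho : o ∈ off)
    (h : sc (n + 1) p ∈ cl (sqN (kidN s o))) : sc n p ∈ cl (sqN s) := by
  rw [mem_cl_sqN] at h ⊢
  obtain ⟨-, ho1, ho2⟩ := mem_off.1 ho
  have e1 : (3 : ℝ) ^ (n + 1) * p.1 = 3 * (3 ^ n * p.1) := by ring
  have e2 : (3 : ℝ) ^ (n + 1) * p.2 = 3 * (3 ^ n * p.2) := by ring
  simp only [sc, kidN] at h ⊢
  push_cast at h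
  rw [e1, e2] at h
  obtain ⟨⟨h1, h2⟩, h3, h4⟩ := h
  have q1 : (o.1 : ℝ) ≤ 2 := by exact_mod_cast Nat.lt_succ_iff.1 ho1
  have q2 : (o.2 : ℝ) ≤ 2 := by exact_mod_cast Nat.lt_succ_iff.1 ho2
  have q3 : (0 : ℝ) ≤ o.1 := Nat.cast_nonneg _
  have q4 : (0 : ℝ) ≤ o.2 := Nat.cast_nonneg _
  refine ⟨⟨?_, ?_⟩, ?_, ?_⟩ <;> linarith

theorem le_of_near {a b : ℕ} {x y : ℝ} (h1 : (a : ℝ) ≤ x) (h2 : y ≤ b + 1) (h : x < y + 1) :
    a ≤ b + 1 := by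
  have h3 : (a : ℝ) < ((b + 2 : ℕ) : ℝ) := by push_cast; linarith
  have h4 : a < b + 2 := by exact_mod_cast h3
  omega

theorem scale_close {x y : ℝ} {n : ℕ} (h : |x - y| < (1 / 3) ^ n) :
    3 ^ n * x < 3 ^ n * y + 1 ∧ 3 ^ n * y < 3 ^ n * x + 1 := by
  have hpos : (0 : ℝ) < 3 ^ n := by positivity
  have h1 : 3 ^ n * |x - y| < 1 := by
    have h2 := mul_lt_mul_of_pos_left h hpos
    have h3 : (3 : ℝ) ^ n * (1 / 3) ^ n = 1 := by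
      rw [← mul_pow]; norm_num
    rwa [h3] at h2
  have h4 : |3 ^ n * (x - y)| < 1 := by
    rw [abs_mul, abs_of_pos hpos]; exact h1
  rw [abs_lt] at h4
  obtain ⟨h5, h6⟩ := h4
  rw [mul_sub] at h5 h6
  exact ⟨by linarith, by linarith⟩

theorem adj_of_close {p q : ℝ × ℝ} {n : ℕ} {s t : ℕ × ℕ} (hs : sc n p ∈ cl (sqN s))
    (ht : sc n q ∈ cl (sqN t)) (h : dist p q < (1 / 3) ^ n) : Adj s t := by
  rw [mem_cl_sqN] at hs ht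
  simp only [sc] at hs ht
  obtain ⟨⟨h1, h2⟩, h3, h4⟩ := hs
  obtain ⟨⟨k1, k2⟩, k3, k4⟩ := ht
  have d1 : |p.1 - q.1| < (1 / 3) ^ n := by
    rw [← Real.dist_eq]
    exact lt_of_le_of_lt (by rw [Prod.dist_eq]; exact le_max_left _ _) h
  have d2 : |p.2 - q.2| < (1 / 3) ^ n := by
    rw [← Real.dist_eq]
    exact lt_of_le_of_lt (by rw [Prod.dist_eq]; exact le_max_right _ _) h
  obtain ⟨c1, c2⟩ := scale_close d1
  obtain ⟨c3, c4⟩ := scale_close d2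
  exact ⟨le_of_near h1 k2 c1, le_of_near k1 h2 c2, le_of_near h3 k4 c3, le_of_near k3 h4 c4⟩

theorem far_aux {x y : ℝ} (h : x ≠ y) : ∃ N : ℕ, ∀ n ≥ N, 2 < |3 ^ n * x - 3 ^ n * y| := by
  have hpos : 0 < |x - y| := abs_pos.2 (sub_ne_zero.2 h)
  obtain ⟨N, hN⟩ := pow_unbounded_of_one_lt (2 / |x - y|) (by norm_num : (1 : ℝ) < 3)
  refine ⟨N, fun n hn => ?_⟩
  have h1 : (3 : ℝ) ^ N ≤ 3 ^ n := pow_le_pow_right₀ (by norm_num) hn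
  have h2 : 2 / |x - y| < 3 ^ n := lt_of_lt_of_le hN h1
  rw [div_lt_iff₀ hpos] at h2
  rw [← mul_sub, abs_mul, abs_of_pos (by positivity : (0 : ℝ) < 3 ^ n)]
  exact h2

theorem near_of_adj1 {a b : ℕ} {x y : ℝ} (h1 : (a : ℝ) ≤ x) (h2 : x ≤ a + 1) (k1 : (b : ℝ) ≤ y)
    (k2 : y ≤ b + 1) (h : a ≤ b + 1) (h' : b ≤ a + 1) : |x - y| ≤ 2 := by
  have e1 : (a : ℝ) ≤ b + 1 := by exact_mod_cast h
  have e2 : (b : ℝ) ≤ a + 1 := by exact_mod_cast h'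
  rw [abs_le]
  constructor <;> linarith

theorem not_adj_of_far {p q : ℝ × ℝ} (h : p ≠ q) :
    ∃ N : ℕ, ∀ n ≥ N, ∀ s t : ℕ × ℕ, sc n p ∈ cl (sqN s) → sc n q ∈ cl (sqN t) → ¬ Adj s t := by
  by_cases h1 : p.1 = q.1
  · have h2 : p.2 ≠ q.2 := fun h2 => h (Prod.ext h1 h2)
    obtain ⟨N, hN⟩ := far_aux h2
    refine ⟨N, fun n hn s t hs ht hA => ?_⟩
    rw [mem_cl_sqN] at hs ht
    simp only [sc] at hs ht
    have := near_of_adj1 hs.2.1 hs.2.2 ht.2.1 ht.2.2 hA.2.2.1 hA.2.2.2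
    exact absurd this (not_le.2 (hN n hn))
  · obtain ⟨N, hN⟩ := far_aux h1
    refine ⟨N, fun n hn s t hs ht hA => ?_⟩
    rw [mem_cl_sqN] at hs ht
    simp only [sc] at hs ht
    have := near_of_adj1 hs.1.1 hs.1.2 ht.1.1 ht.1.2 hA.1 hA.2.1
    exact absurd this (not_le.2 (hN n hn))

theorem isCompact_Carpet : IsCompact Carpet := by
  have hC : Carpet = (Icc (0 : ℝ) 1 ×ˢ Icc (0 : ℝ) 1) ∩ ⋂ (n : ℕ) (a : ℕ) (b : ℕ),
      (Set.Ioo ((3 * (a:ℝ) + 1) / 3 ^ (n + 1)) ((3 * (a:ℝ) + 2) / 3 ^ (n + 1)) ×ˢ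
      Set.Ioo ((3 * (b:ℝ) + 1) / 3 ^ (n + 1)) ((3 * (b:ℝ) + 2) / 3 ^ (n + 1)))ᶜ := by
    ext p
    simp only [Carpet, Set.mem_ofPred_eq, Set.mem_inter_iff, Set.mem_iInter, Set.mem_compl_iff]
    constructor
    · rintro ⟨h1, h2, h3⟩
      exact ⟨⟨h1, h2⟩, h3⟩
    · rintro ⟨⟨h1, h2⟩, h3⟩
      exact ⟨h1, h2, h3⟩
  rw [hC]
  refine IsCompact.inter_right (isCompact_Icc.prod isCompact_Icc) ?_
  refine isClosed_iInter fun n => isClosed_iInter fun a => isClosed_iInter fun b => ?_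
  exact (isOpen_Ioo.prod isOpen_Ioo).isClosed_compl

theorem no_nat_between {a b : ℕ} (h1 : (a : ℝ) < b) (h2 : (b : ℝ) < a + 1) : False := by
  have e1 : a < b := by exact_mod_cast h1
  have e2 : b < a + 1 := by exact_mod_cast h2
  omega

theorem corner_mem {s c : ℕ × ℕ} (h1 : s.1 ≤ c.1) (h2 : c.1 ≤ s.1 + 1) (h3 : s.2 ≤ c.2)
    (h4 : c.2 ≤ s.2 + 1) : ((c.1 : ℝ), (c.2 : ℝ)) ∈ bd (sqN s) := by
  refine ⟨mem_cl_sqN.2 ⟨⟨?_, ?_⟩, ?_, ?_⟩, fun h => ?_⟩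
  · show (s.1 : ℝ) ≤ c.1
    exact_mod_cast h1
  · show (c.1 : ℝ) ≤ s.1 + 1
    exact_mod_cast h2
  · show (s.2 : ℝ) ≤ c.2
    exact_mod_cast h3
  · show (c.2 : ℝ) ≤ s.2 + 1
    exact_mod_cast h4
  · obtain ⟨⟨k1, k2⟩, -⟩ := mem_op_sqN.1 h
    exact no_nat_between k1 k2

/-- neighbouring squares have a common corner -/
theorem adj_bd {s t : ℕ × ℕ} (h : Adj s t) : (bd (sqN s) ∩ bd (sqN t)).Nonempty := by
  obtain ⟨h1, h2, h3, h4⟩ := h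
  refine ⟨(((max s.1 t.1 : ℕ) : ℝ), ((max s.2 t.2 : ℕ) : ℝ)), ?_, ?_⟩
  · exact corner_mem (s := s) (c := (max s.1 t.1, max s.2 t.2)) (le_max_left _ _)
      (max_le (by omega) h2) (le_max_left _ _) (max_le (by omega) h4)
  · exact corner_mem (s := t) (c := (max s.1 t.1, max s.2 t.2)) (le_max_right _ _)
      (max_le h1 (by omega)) (le_max_right _ _) (max_le h3 (by omega))

theorem not_adj_bd {s t : ℕ × ℕ} (h : ¬ Adj s t) : Disjoint (bd (sqN s)) (bd (sqN t)) := by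
  rw [Set.disjoint_left]
  intro p hp hq
  obtain ⟨⟨h1, h2⟩, h3, h4⟩ := mem_cl_sqN.1 hp.1
  obtain ⟨⟨k1, k2⟩, k3, k4⟩ := mem_cl_sqN.1 hq.1
  refine h ⟨?_, ?_, ?_, ?_⟩
  · exact_mod_cast h1.trans k2
  · exact_mod_cast k1.trans h2
  · exact_mod_cast h3.trans k4
  · exact_mod_cast k3.trans h4

end CarT
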