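import Pool.Agent.CarT.Net
import Pool.Agent.CarT.CellA

/-!
# CarT/CellB : the carpet from a system of cells

`D n s` (`s ∈ Good n`) are compact, decreasing, neighbouring cells meet, other cells are
disjoint, and the diameters tend to zero (for every `ε` there is ONE level with all diameters
`< ε`; then by `hn` all later levels have diameters `< ε`, since the discs are decreasing and
every `t ∈ Good (n+1)` is a child).

For `p ∈ Carpet` let `E n p = ⋃ {D n s | s ∈ Good n, sc n p ∈ cl (sqN s)}`: a finite union, compact,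
nonempty (`carpet_good`), decreasing in `n` (`good_succ`, `cl_parent`, `hn`). The squares occurring in
`E n p` are pairwise `Adj` (`adj_of_close` with `p = q`), so any two of the cells meet, and two points
of `E n p` have distance `≤ 2 δ` if all cells of level `n` have diameter `≤ δ`. So `⋂ n, E n p` is one point
`f p` (nonempty by `IsCompact.nonempty_iInter_of_sequence_nonempty_isCompact_isClosed`).
* Last statement: `f p ∈ E n p`.
* Continuity: `dist p q < (1/3)^n`, `p, q ∈ Carpet`: `f p ∈ D n s`, `f q ∈ D n t`, `Adj s t`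
  (`adj_of_close`), so `D n s ∩ D n t ≠ ∅` and `dist (f p) (f q) ≤ 2 δ`.
* Injectivity: `p ≠ q`: for large `n`, `not_adj_of_far`: `f p ∈ D n s`, `f q ∈ D n t` are in disjoint sets.
-/

open Set Metric

namespace CarT

/-- the union of the cells of level `n` whose squares contain the point `p` -/
def EE (D : ℕ → ℕ × ℕ → Set ℂ) (n : ℕ) (p : ℝ × ℝ) : Set ℂ :=
  ⋃ s ∈ {s : ℕ × ℕ | s ∈ Good n ∧ sc n p ∈ cl (sqN s)}, D n s

theorem mem_EE {D : ℕ → ℕ × ℕ → Set ℂ} {n : ℕ} {p : ℝ × ℝ} {z : ℂ} :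
    z ∈ EE D n p ↔ ∃ s ∈ Good n, sc n p ∈ cl (sqN s) ∧ z ∈ D n s := by
  simp only [EE, Set.mem_iUnion, Set.mem_ofPred_eq]
  constructor
  · rintro ⟨s, ⟨h1, h2⟩, h3⟩
    exact ⟨s, h1, h2, h3⟩
  · rintro ⟨s, h1, h2, h3⟩
    exact ⟨s, ⟨h1, h2⟩, h3⟩

theorem isCompact_EE {D : ℕ → ℕ × ℕ → Set ℂ} (hc : ∀ n, ∀ s ∈ Good n, IsCompact (D n s))
    (n : ℕ) (p : ℝ × ℝ) : IsCompact (EE D n p) := by
  refine Set.Finite.isCompact_biUnion ?_ fun s hs => hc n s hs.1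
  exact (Good n).finite_toSet.subset fun s hs => hs.1

theorem nonempty_EE {D : ℕ → ℕ × ℕ → Set ℂ} (hne : ∀ n, ∀ s ∈ Good n, (D n s).Nonempty)
    {p : ℝ × ℝ} (hp : p ∈ Carpet) (n : ℕ) : (EE D n p).Nonempty := by
  obtain ⟨s, hs, h⟩ := carpet_good hp n
  obtain ⟨z, hz⟩ := hne n s hs
  exact ⟨z, mem_EE.2 ⟨s, hs, h, hz⟩⟩

theorem EE_anti {D : ℕ → ℕ × ℕ → Set ℂ}
    (hn : ∀ n, ∀ s ∈ Good n, ∀ o ∈ off, D (n + 1) (kidN s o) ⊆ D n s) (n : ℕ) (p : ℝ × ℝ) :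
    EE D (n + 1) p ⊆ EE D n p := by
  intro z hz
  obtain ⟨t, ht, h1, h2⟩ := mem_EE.1 hz
  obtain ⟨s, hs, o, ho, rfl⟩ := good_succ.1 ht
  exact mem_EE.2 ⟨s, hs, cl_parent ho h1, hn n s hs o ho h2⟩

theorem small_levels {D : ℕ → ℕ × ℕ → Set ℂ}
    (hn : ∀ n, ∀ s ∈ Good n, ∀ o ∈ off, D (n + 1) (kidN s o) ⊆ D n s)
    (hdiam : ∀ ε > 0, ∃ n, ∀ s ∈ Good n, ∀ p ∈ D n s, ∀ q ∈ D n s, dist p q < ε)
    {ε : ℝ} (hε : 0 < ε) :
    ∃ N : ℕ, ∀ n ≥ N, ∀ s ∈ Good n, ∀ p ∈ D n s, ∀ q ∈ D n s, dist p q < ε := by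
  obtain ⟨N, hN⟩ := hdiam ε hε
  refine ⟨N, fun n hn' => ?_⟩
  induction n, hn' using Nat.le_induction with
  | base => exact hN
  | succ n _ ih =>
    intro t ht p hp q hq
    obtain ⟨s, hs, o, ho, rfl⟩ := good_succ.1 ht
    exact ih s hs p (hn n s hs o ho hp) q (hn n s hs o ho hq)

theorem carpet_of_cells {D : ℕ → ℕ × ℕ → Set ℂ} (hc : ∀ n, ∀ s ∈ Good n, IsCompact (D n s))
    (hne : ∀ n, ∀ s ∈ Good n, (D n s).Nonempty)
    (hn : ∀ n, ∀ s ∈ Good n, ∀ o ∈ off, D (n + 1) (kidN s o) ⊆ D n s)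
    (hmeet : ∀ n, ∀ s ∈ Good n, ∀ t ∈ Good n, Adj s t → (D n s ∩ D n t).Nonempty)
    (hdisj : ∀ n, ∀ s ∈ Good n, ∀ t ∈ Good n, ¬ Adj s t → Disjoint (D n s) (D n t))
    (hdiam : ∀ ε > 0, ∃ n, ∀ s ∈ Good n, ∀ p ∈ D n s, ∀ q ∈ D n s, dist p q < ε) :
    ∃ f : ℝ × ℝ → ℂ, ContinuousOn f Carpet ∧ InjOn f Carpet ∧
      ∀ p ∈ Carpet, ∀ n, ∃ s ∈ Good n, f p ∈ D n s := by
  have key : ∀ p ∈ Carpet, ∃ z : ℂ, ∀ n, z ∈ EE D n p := by
    intro p hp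
    obtain ⟨z, hz⟩ := IsCompact.nonempty_iInter_of_sequence_nonempty_isCompact_isClosed
      (fun n => EE D n p) (fun n => EE_anti hn n p) (fun n => nonempty_EE hne hp n)
      (isCompact_EE hc 0 p) (fun n => (isCompact_EE hc n p).isClosed)
    exact ⟨z, fun n => Set.mem_iInter.1 hz n⟩
  classical
  choose! f hf using key
  refine ⟨f, ?_, ?_, ?_⟩
  · rw [Metric.continuousOn_iff]
    intro p hp ε hε
    obtain ⟨n, hsm⟩ := hdiam (ε / 2) (by linarith)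
    refine ⟨(1 / 3) ^ n, by positivity, fun q hq hqp => ?_⟩
    obtain ⟨s, hs, h1, h2⟩ := mem_EE.1 (hf q hq n)
    obtain ⟨t, ht, k1, k2⟩ := mem_EE.1 (hf p hp n)
    obtain ⟨z, hz1, hz2⟩ := hmeet n s hs t ht (adj_of_close h1 k1 hqp)
    calc dist (f q) (f p) ≤ dist (f q) z + dist z (f p) := dist_triangle _ _ _
      _ < ε / 2 + ε / 2 := add_lt_add (hsm s hs _ h2 _ hz1) (hsm t ht _ hz2 _ k2)
      _ = ε := by ring
  · intro p hp q hq hpq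
    by_contra hne'
    obtain ⟨N, hN⟩ := not_adj_of_far hne'
    obtain ⟨s, hs, h1, h2⟩ := mem_EE.1 (hf p hp N)
    obtain ⟨t, ht, k1, k2⟩ := mem_EE.1 (hf q hq N)
    have hA := hN N le_rfl s t h1 k1
    rw [← hpq] at k2
    exact Set.disjoint_left.1 (hdisj N s hs t ht hA) h2 k2
  · intro p hp n
    obtain ⟨s, hs, -, h2⟩ := mem_EE.1 (hf p hp n)
    exact ⟨s, hs, h2⟩

end CarT
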