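import Pool.Agent.CarT.EarT
import Pool.Agent.CarT.ArcE3

/-!
# CarT/Ear : an arc in the inside following an injective path in a Jordan curve

Let `δ₀ > 0` be such that `dist (π s) (π t) ≤ ε / 4` for `|s - t| ≤ δ₀`. By compactness and
injectivity of `π` there is `ε₁ > 0`, `ε₁ ≤ ε / 8`, such that `dist (π a) (π b) < 2 ε₁` implies
`|a - b| ≤ δ₀` (the continuous function `dist (π a) (π b)` is positive on the compact set
`{(a, b) ∈ [0,1]² | |a - b| ≥ δ₀}`). Let `γ` be from `track_path` with `ε₁`, and `α₀, l` from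
`arc_extract` for `γ` (`γ 0 = π 0 ≠ π 1 = γ 1`). Choose `η ∈ (0, 1)` such that
`dist (α₀ r) (α₀ r') ≤ ε / 4` for `|r - r'| ≤ η`. Put `θ t = (1 - η) * l t + η * t`: continuous, strictly
monotone on `[0,1]`, `θ 0 = 0`, `θ 1 = 1`, `|θ t - l t| ≤ η`. Put `α t = α₀ (θ t)`: continuous,
injective, right ends.

* Distance: let `a ≤ t ≤ b` be from `arc_extract`, `γ a = γ b = α₀ (l t)`. Then
  `dist (π a) (π b) ≤ dist (π a) (γ a) + dist (γ b) (π b) < 2 ε₁`, so `|a - t| ≤ |a - b| ≤ δ₀` and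
  `dist (α t) (π t) ≤ dist (α₀ (θ t)) (α₀ (l t)) + dist (γ a) (π a) + dist (π a) (π t)
  ≤ ε/4 + ε₁ + ε/4 < ε`.
* Interior: for `t ∈ (0, 1)` the number `r = θ t` is in `(0, 1)`; `r = l t'` for some `t' ∈ [0,1]`
  (intermediate values), so `α₀ r = γ a'` for some `a'`, which is in `(ins J ∩ T) ∪ {π 0, π 1}`, and it
  is not `π 0 = α₀ 0` nor `π 1 = α₀ 1` by injectivity of `α₀`.
-/

open Set Metric

namespace CarT

lemma Ear_sep {π : ℝ → ℂ} (hπ : ContinuousOn π (Icc 0 1)) (hπi : InjOn π (Icc 0 1)) {δ : ℝ}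
    {ε : ℝ} (hε : 0 < ε) (hδ : 0 < δ) :
    ∃ ε₁ : ℝ, 0 < ε₁ ∧ ε₁ ≤ ε ∧ ∀ a ∈ Icc (0 : ℝ) 1, ∀ b ∈ Icc (0 : ℝ) 1,
      dist (π a) (π b) < 2 * ε₁ → |a - b| < δ := by
  have hK : IsCompact ((Icc (0 : ℝ) 1 ×ˢ Icc (0 : ℝ) 1) ∩ {p : ℝ × ℝ | δ ≤ |p.1 - p.2|}) := by
    refine (isCompact_Icc.prod isCompact_Icc).inter_right ?_
    exact isClosed_le continuous_const (continuous_abs.comp (continuous_fst.sub continuous_snd))
  rcases Set.eq_empty_or_nonempty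
    ((Icc (0 : ℝ) 1 ×ˢ Icc (0 : ℝ) 1) ∩ {p : ℝ × ℝ | δ ≤ |p.1 - p.2|}) with he | hne
  · refine ⟨ε, hε, le_rfl, fun a ha b hb _ => ?_⟩
    by_contra hc
    push Not at hc
    have : (a, b) ∈ ((Icc (0 : ℝ) 1 ×ˢ Icc (0 : ℝ) 1) ∩ {p : ℝ × ℝ | δ ≤ |p.1 - p.2|}) :=
      ⟨⟨ha, hb⟩, hc⟩
    rw [he] at this
    exact this
  · have hf : ContinuousOn (fun p : ℝ × ℝ => dist (π p.1) (π p.2))
        ((Icc (0 : ℝ) 1 ×ˢ Icc (0 : ℝ) 1) ∩ {p : ℝ × ℝ | δ ≤ |p.1 - p.2|}) := by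
      have c1 : ContinuousOn (fun p : ℝ × ℝ => π p.1)
          ((Icc (0 : ℝ) 1 ×ˢ Icc (0 : ℝ) 1) ∩ {p : ℝ × ℝ | δ ≤ |p.1 - p.2|}) :=
        hπ.comp continuousOn_fst fun p hp => hp.1.1
      have c2 : ContinuousOn (fun p : ℝ × ℝ => π p.2)
          ((Icc (0 : ℝ) 1 ×ˢ Icc (0 : ℝ) 1) ∩ {p : ℝ × ℝ | δ ≤ |p.1 - p.2|}) :=
        hπ.comp continuousOn_snd fun p hp => hp.1.2
      exact continuous_dist.comp_continuousOn (c1.prodMk c2)
    obtain ⟨⟨a₀, b₀⟩, h0, hmin⟩ := hK.exists_isMinOn hne hf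
    have hpos : 0 < dist (π a₀) (π b₀) := by
      rw [dist_pos]
      intro hc
      have h1 := hπi h0.1.1 h0.1.2 hc
      have h2 : δ ≤ |a₀ - b₀| := h0.2
      have h1' : a₀ = b₀ := h1
      rw [h1', sub_self, abs_zero] at h2
      linarith
    refine ⟨min ε (dist (π a₀) (π b₀) / 2), lt_min hε (by linarith), min_le_left _ _, ?_⟩
    intro a ha b hb hab
    by_contra hc
    push Not at hc
    have h1 : (a, b) ∈ ((Icc (0 : ℝ) 1 ×ˢ Icc (0 : ℝ) 1) ∩ {p : ℝ × ℝ | δ ≤ |p.1 - p.2|}) :=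
      ⟨⟨ha, hb⟩, hc⟩
    have h2 : dist (π a₀) (π b₀) ≤ dist (π a) (π b) := hmin h1
    have h3 := min_le_right ε (dist (π a₀) (π b₀) / 2)
    linarith

theorem ear {W T : Set ℂ} {c : ℂ → Set ℂ} (h : Sys W T c) {J : Set ℂ} (hJ : IsJordan J)
    (hJT : J ⊆ T) {π : ℝ → ℂ} (hπ : ContinuousOn π (Icc 0 1)) (hπi : InjOn π (Icc 0 1))
    (hπJ : MapsTo π (Icc 0 1) J) {ε : ℝ} (hε : 0 < ε) :
    ∃ α : ℝ → ℂ, ContinuousOn α (Icc 0 1) ∧ InjOn α (Icc 0 1) ∧ α 0 = π 0 ∧ α 1 = π 1 ∧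
      (∀ t ∈ Ioo (0 : ℝ) 1, α t ∈ ins J ∩ T) ∧
      ∀ t ∈ Icc (0 : ℝ) 1, dist (α t) (π t) < ε := by
  have m0 : (0 : ℝ) ∈ Icc (0 : ℝ) 1 := ⟨le_rfl, zero_le_one⟩
  have m1 : (1 : ℝ) ∈ Icc (0 : ℝ) 1 := ⟨zero_le_one, le_rfl⟩
  -- uniform continuity of the path
  obtain ⟨δ₀, hδ₀, hu⟩ := Metric.uniformContinuousOn_iff.1
    (isCompact_Icc.uniformContinuousOn_of_continuous hπ) (ε / 4) (by linarith)
  obtain ⟨ε₁, hε₁, hε₁', hsep⟩ := Ear_sep hπ hπi (ε := ε / 8) (by linarith) hδ₀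
  obtain ⟨γ, hγ, hγ0, hγ1, hγS, hγd⟩ := track_path h hJ hJT hπ hπi hπJ hε₁
  have h01 : γ 0 ≠ γ 1 := by
    rw [hγ0, hγ1]
    intro hc
    exact zero_ne_one (hπi m0 m1 hc)
  obtain ⟨α₀, l, hα, hαi, hl, hlm, hl0, hl1, hα0, hα1, hx⟩ := arc_extract hγ h01
  obtain ⟨δ₁, hδ₁, hv⟩ := Metric.uniformContinuousOn_iff.1
    (isCompact_Icc.uniformContinuousOn_of_continuous hα) (ε / 4) (by linarith)
  -- the number eta
  obtain ⟨η, hη0, hη1, hηδ⟩ : ∃ η : ℝ, 0 < η ∧ η < 1 ∧ η < δ₁ := by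
    refine ⟨min (1 / 2) (δ₁ / 2), lt_min (by norm_num) (by linarith), ?_, ?_⟩
    · exact (min_le_left _ _).trans_lt (by norm_num)
    · exact (min_le_right _ _).trans_lt (by linarith)
  have hlI : ∀ t ∈ Icc (0 : ℝ) 1, l t ∈ Icc (0 : ℝ) 1 := by
    intro t ht
    have e1 := hlm m0 ht ht.1
    have e2 := hlm ht m1 ht.2
    rw [hl0] at e1
    rw [hl1] at e2
    exact ⟨e1, e2⟩
  set θ : ℝ → ℝ := fun t => (1 - η) * l t + η * t with hθ
  have hθm : StrictMonoOn θ (Icc 0 1) := by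
    intro s hs t ht hst
    have e1 := hlm hs ht hst.le
    have e2 := mul_le_mul_of_nonneg_left e1 (by linarith : 0 ≤ 1 - η)
    have e3 := mul_lt_mul_of_pos_left hst hη0
    simp only [hθ]
    linarith
  have hθ0 : θ 0 = 0 := by simp only [hθ]; rw [hl0]; ring
  have hθ1 : θ 1 = 1 := by simp only [hθ]; rw [hl1]; ring
  have hθI : ∀ t ∈ Icc (0 : ℝ) 1, θ t ∈ Icc (0 : ℝ) 1 := by
    intro t ht
    have e1 := hθm.monotoneOn m0 ht ht.1
    have e2 := hθm.monotoneOn ht m1 ht.2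
    rw [hθ0] at e1
    rw [hθ1] at e2
    exact ⟨e1, e2⟩
  have hθl : ∀ t ∈ Icc (0 : ℝ) 1, |θ t - l t| < δ₁ := by
    intro t ht
    have e1 : θ t - l t = η * (t - l t) := by simp only [hθ]; ring
    have e2 := hlI t ht
    have e3 : |t - l t| ≤ 1 := by
      rw [abs_le]
      constructor <;> linarith [e2.1, e2.2, ht.1, ht.2]
    rw [e1, abs_mul, abs_of_pos hη0]
    have e4 := mul_le_mul_of_nonneg_left e3 hη0.le
    linarith
  have hθc : ContinuousOn θ (Icc 0 1) :=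
    (continuousOn_const.mul hl).add (continuousOn_const.mul continuousOn_id)
  refine ⟨fun t => α₀ (θ t), hα.comp hθc hθI, ?_, ?_, ?_, ?_, ?_⟩
  · intro s hs t ht hst
    exact hθm.injOn hs ht (hαi (hθI s hs) (hθI t ht) hst)
  · show α₀ (θ 0) = π 0
    rw [hθ0, hα0, hγ0]
  · show α₀ (θ 1) = π 1
    rw [hθ1, hα1, hγ1]
  · intro t ht
    have htI : t ∈ Icc (0 : ℝ) 1 := ⟨ht.1.le, ht.2.le⟩
    have e1 := hθm m0 htI ht.1
    have e2 := hθm htI m1 ht.2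
    rw [hθ0] at e1
    rw [hθ1] at e2
    have e3 : θ t ∈ l '' Icc 0 1 := by
      refine intermediate_value_Icc zero_le_one hl ?_
      rw [hl0, hl1]
      exact ⟨e1.le, e2.le⟩
    obtain ⟨t', ht', htl⟩ := e3
    obtain ⟨a, ha, b, hb, hab, -⟩ := hx t' ht'
    rw [htl] at hab
    have haI : a ∈ Icc (0 : ℝ) 1 := ⟨ha.1, ha.2.trans ht'.2⟩
    show α₀ (θ t) ∈ ins J ∩ T
    rcases hγS a haI with hm | hm
    · rw [← hab]
      exact hm
    · exfalso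
      rcases hm with hm | hm
      · rw [hab, ← hγ0, ← hα0] at hm
        exact e1.ne' (hαi (hθI t htI) m0 hm)
      · have hm' : γ a = π 1 := hm
        rw [hab, ← hγ1, ← hα1] at hm'
        exact e2.ne (hαi (hθI t htI) m1 hm')
  · intro t ht
    obtain ⟨a, ha, b, hb, hab, hbb⟩ := hx t ht
    have haI : a ∈ Icc (0 : ℝ) 1 := ⟨ha.1, ha.2.trans ht.2⟩
    have hbI : b ∈ Icc (0 : ℝ) 1 := ⟨ht.1.trans hb.1, hb.2⟩
    have d1 := hγd a haI
    have d2 := hγd b hbI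
    have d3 : dist (π a) (π b) < 2 * ε₁ := by
      have e1 := dist_triangle (π a) (γ a) (π b)
      have e2 := dist_triangle (γ a) (γ b) (π b)
      rw [hab, hbb, dist_self] at e2
      rw [hab] at e1
      rw [hab, dist_comm] at d1
      rw [hbb] at d2
      linarith
    have d4 := hsep a haI b hbI d3
    have d5 : dist a t < δ₀ := by
      rw [Real.dist_eq]
      have e1 : |a - t| = t - a := by rw [abs_sub_comm, abs_of_nonneg (by linarith [ha.2])]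
      have e2 : |a - b| = b - a := by rw [abs_sub_comm, abs_of_nonneg (by linarith [ha.2, hb.1])]
      rw [e1]
      rw [e2] at d4
      linarith [hb.1]
    have d6 := hu a haI t ht d5
    have d7 : dist (α₀ (θ t)) (α₀ (l t)) < ε / 4 := by
      refine hv _ (hθI t ht) _ (hlI t ht) ?_
      rw [Real.dist_eq]
      exact hθl t ht
    show dist (α₀ (θ t)) (π t) < ε
    have e1 := dist_triangle (α₀ (θ t)) (α₀ (l t)) (π t)
    have e2 := dist_triangle (α₀ (l t)) (π a) (π t)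
    rw [hab] at d1
    linarith

end CarT
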