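import Pool.Agent.CarT.LogC
import Pool.Agent.CarT.JorA

/-!
# CarT/JorC : the Jordan curve theorem, second part: the inside is connected

Let `u, v ∈ ins J` be in different components of `Jᶜ` and let `w` be a point of large norm
(`mem_out_of_norm`). Write `J = A ∪ B` (`arcs_of_isJordan`). The functions `q₁ z = (z - u)/(z - w)`,
`q₂ z = (z - v)/(z - w)` have logarithms `a₁, a₂` on `A` and `b₁, b₂` on `B` (`hasLog_arc`). At `x` and at
`y` the differences `a_i - b_i` are in `2 π i ℤ`; let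
`(a_i - b_i)(x) - (a_i - b_i)(y) = 2 π i n_i`.
The functions `n₂ a₁ - n₁ a₂` on `A` and `n₂ b₁ - n₁ b₂` on `B` are logarithms of
`q₁ ^ n₂ * q₂ ^ (-n₁)` and their difference has the same value at `x` and at `y`, `A ∩ B = {x, y}`;
subtracting this value (an element of `2 π i ℤ`) from the first one, they glue to a logarithm on
`J = A ∪ B` (closed sets). So `HasLog J (q₁ ^ n₂ * q₂ ^ (-n₁))`.
`comp_zero` with `U = connectedComponentIn Jᶜ u` (bounded, does not contain `v`, `w`, which are
not in `closure U ⊆ U ∪ J` either), `m = n₂`, `F z = (z - w) ^ (-n₂) * q₂ z ^ (-n₁)` gives `n₂ = 0`;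
`comp_zero` at `v` gives `n₁ = 0`. Then `a₁` and `b₁` differ by the same constant at `x` and `y` and glue:
`HasLog J q₁`, so by `joined_of_log` the points `u` and `w` are joined in `Jᶜ`: contradiction, since
`u ∈ ins J`, `w ∈ out J`. Hence all points of `ins J` lie in one component `U` of `Jᶜ`, which is
contained in `ins J` (`subset_ins`), so `ins J` is preconnected.
-/

open Set Metric

namespace CarT

/-- gluing two logarithms on two arcs with common ends -/
lemma glue_two {A B : Set ℂ} (hA : IsClosed A) (hB : IsClosed B) {x y : ℂ}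
    (hAB : A ∩ B = {x, y}) {f gA gB : ℂ → ℂ} (h1 : ContinuousOn gA A) (h2 : ContinuousOn gB B)
    (e1 : ∀ z ∈ A, Complex.exp (gA z) = f z) (e2 : ∀ z ∈ B, Complex.exp (gB z) = f z)
    (K : ℂ) (hK : Complex.exp K = 1) (hx : gA x = gB x + K) (hy : gA y = gB y + K) :
    HasLog (A ∪ B) f := by
  classical
  let G : ℂ → ℂ := fun z => if z ∈ A then gA z else gB z + K
  have hGA : ∀ z ∈ A, G z = gA z := fun z hz => if_pos hz
  have hGB : ∀ z ∈ B, G z = gB z + K := by
    intro z hz
    by_cases hzA : z ∈ A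
    · have h3 : z ∈ A ∩ B := ⟨hzA, hz⟩
      rw [hAB] at h3
      rw [hGA z hzA]
      rcases h3 with h3 | h3
      · rw [h3]; exact hx
      · rw [Set.mem_singleton_iff] at h3
        rw [h3]; exact hy
    · exact if_neg hzA
  have c1 : ContinuousOn G A := h1.congr hGA
  have c2 : ContinuousOn G B := (h2.add continuousOn_const).congr hGB
  refine ⟨G, c1.union_of_isClosed c2 hA hB, ?_⟩
  rintro z (hz | hz)
  · rw [hGA z hz]; exact e1 z hz
  · rw [hGB z hz, Complex.exp_add, hK, mul_one]; exact e2 z hz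

lemma mem_comp_of_joined {J : Set ℂ} {u w : ℂ} (h : JoinedIn Jᶜ u w) :
    w ∈ connectedComponentIn Jᶜ u := by
  have h1 : IsPreconnected (range h.somePath) :=
    isPreconnected_range h.somePath.continuous
  have h2 : range h.somePath ⊆ Jᶜ := by
    rintro _ ⟨t, rfl⟩
    exact h.somePath_mem t
  have hu : u ∈ range h.somePath := ⟨0, h.somePath.source⟩
  have hw : w ∈ range h.somePath := ⟨1, h.somePath.target⟩
  exact h1.subset_connectedComponentIn hu h2 hw

theorem ins_preconn {J : Set ℂ} (hJ : IsJordan J) : IsPreconnected (ins J) := by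
  have hJc := hJ.isCompact
  suffices H : ∀ u ∈ ins J, ∀ v ∈ ins J, v ∈ connectedComponentIn Jᶜ u by
    apply isPreconnected_of_forall_pair
    intro u hu v hv
    refine ⟨connectedComponentIn Jᶜ u, ?_, mem_connectedComponentIn hu.1, H u hu v hv,
      isPreconnected_connectedComponentIn⟩
    apply subset_ins isPreconnected_connectedComponentIn
    · rw [Set.disjoint_left]
      intro z hz
      exact connectedComponentIn_subset _ _ hz
    · exact ⟨u, mem_connectedComponentIn hu.1, hu⟩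
  intro u hu v hv
  by_contra hcon
  obtain ⟨A, B, x, y, hA, hB, hAB, hJ'⟩ := arcs_of_isJordan hJ
  obtain ⟨R, hR⟩ := hJc.isBounded.subset_closedBall (0 : ℂ)
  obtain ⟨w, hw⟩ : ∃ w : ℂ, R < ‖w‖ := by
    refine ⟨((|R| + 1 : ℝ) : ℂ), ?_⟩
    rw [Complex.norm_real, Real.norm_eq_abs, abs_of_pos (by positivity)]
    linarith [le_abs_self R]
  have hwo : w ∈ out J := mem_out_of_norm hR hw
  have huJ : u ∉ J := hu.1
  have hvJ : v ∉ J := hv.1
  have hwJ : w ∉ J := hwo.1
  have hAJ : A ⊆ J := hJ' ▸ subset_union_left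
  have hBJ : B ⊆ J := hJ' ▸ subset_union_right
  have hsub : ∀ {S : Set ℂ} {p : ℂ}, S ⊆ J → p ∉ J → ∀ z ∈ S, z - p ≠ 0 := by
    intro S p hS hp z hz h0
    rw [sub_eq_zero] at h0
    exact hp (h0 ▸ hS hz)
  have hq : ∀ {S : Set ℂ} {p : ℂ}, S ⊆ J → p ∉ J →
      ContinuousOn (fun z => (z - p) / (z - w)) S ∧ ∀ z ∈ S, (z - p) / (z - w) ≠ 0 := by
    intro S p hS hp
    refine ⟨ContinuousOn.div (by fun_prop) (by fun_prop) (hsub hS hwJ), fun z hz => ?_⟩
    exact div_ne_zero (hsub hS hp z hz) (hsub hS hwJ z hz)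
  obtain ⟨a1, ca1, ea1⟩ := hasLog_arc hA (hq hAJ huJ).1 (hq hAJ huJ).2
  obtain ⟨a2, ca2, ea2⟩ := hasLog_arc hA (hq hAJ hvJ).1 (hq hAJ hvJ).2
  obtain ⟨b1, cb1, eb1⟩ := hasLog_arc hB (hq hBJ huJ).1 (hq hBJ huJ).2
  obtain ⟨b2, cb2, eb2⟩ := hasLog_arc hB (hq hBJ hvJ).1 (hq hBJ hvJ).2
  have hxA := hA.left_mem
  have hyA := hA.right_mem
  have hxB := hB.left_mem
  have hyB := hB.right_mem
  obtain ⟨p1, hp1⟩ := Complex.exp_eq_exp_iff_exists_int.mp ((ea1 x hxA).trans (eb1 x hxB).symm)
  obtain ⟨p2, hp2⟩ := Complex.exp_eq_exp_iff_exists_int.mp ((ea2 x hxA).trans (eb2 x hxB).symm)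
  obtain ⟨r1, hr1⟩ := Complex.exp_eq_exp_iff_exists_int.mp ((ea1 y hyA).trans (eb1 y hyB).symm)
  obtain ⟨r2, hr2⟩ := Complex.exp_eq_exp_iff_exists_int.mp ((ea2 y hyA).trans (eb2 y hyB).symm)
  have key : ∀ c1 c2 : ℤ, c1 * (p1 - r1) + c2 * (p2 - r2) = 0 →
      HasLog J (fun z => ((z - u) / (z - w)) ^ c1 * ((z - v) / (z - w)) ^ c2) := by
    intro c1 c2 hc
    rw [← hJ']
    refine glue_two hA.isCompact.isClosed hB.isCompact.isClosed hAB
      (gA := fun z => (c1 : ℂ) * a1 z + (c2 : ℂ) * a2 z)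
      (gB := fun z => (c1 : ℂ) * b1 z + (c2 : ℂ) * b2 z)
      ((continuousOn_const.mul ca1).add (continuousOn_const.mul ca2))
      ((continuousOn_const.mul cb1).add (continuousOn_const.mul cb2)) ?_ ?_
      (((c1 * p1 + c2 * p2 : ℤ) : ℂ) * (2 * Real.pi * Complex.I)) ?_ ?_ ?_
    · intro z hz
      rw [Complex.exp_add, Complex.exp_int_mul, Complex.exp_int_mul, ea1 z hz, ea2 z hz]
    · intro z hz
      rw [Complex.exp_add, Complex.exp_int_mul, Complex.exp_int_mul, eb1 z hz, eb2 z hz]
    · exact Complex.exp_int_mul_two_pi_mul_I _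
    · rw [hp1, hp2]
      push_cast
      ring
    · rw [hr1, hr2]
      have h5 : c1 * p1 + c2 * p2 = c1 * r1 + c2 * r2 := by linear_combination hc
      rw [h5]
      push_cast
      ring
  have comp : ∀ s ∈ ins J, ∀ p : ℂ, p ∉ J → p ∉ connectedComponentIn Jᶜ s →
      ∀ z ∈ closure (connectedComponentIn Jᶜ s), z - p ≠ 0 := by
    intro s hs p hp hps z hz h0
    rw [sub_eq_zero] at h0
    subst h0
    have h1 : z ∈ connectedComponentIn Jᶜ s ∪ frontier (connectedComponentIn Jᶜ s) := by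
      rw [← closure_eq_self_union_frontier]; exact hz
    rcases h1 with h1 | h1
    · exact hps h1
    · exact hp (frontier_comp hJc s h1)
  have hwn : ∀ s ∈ ins J, w ∉ connectedComponentIn Jᶜ s := by
    intro s hs h1
    apply hwo.2
    rw [← connectedComponentIn_eq h1]
    exact hs.2
  have hvu : u ∉ connectedComponentIn Jᶜ v := by
    intro h1
    apply hcon
    rw [← connectedComponentIn_eq h1]
    exact mem_connectedComponentIn hvJ
  have hopen : ∀ s, IsOpen (connectedComponentIn Jᶜ s) :=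
    fun s => hJc.isClosed.isOpen_compl.connectedComponentIn
  have n2 : p2 - r2 = 0 := by
    have h1 := key (p2 - r2) (-(p1 - r1)) (by ring)
    refine comp_zero hJc (hopen u) hu.2 (frontier_comp hJc u) (mem_connectedComponentIn huJ)
      (p2 - r2) (fun z => (z - w) ^ (-(p2 - r2)) * ((z - v) / (z - w)) ^ (-(p1 - r1))) ?_ ?_
      (h1.congr ?_)
    · have k1 := comp u hu w hwJ (hwn u hu)
      have k2 := comp u hu v hvJ hcon
      refine ContinuousOn.mul (ContinuousOn.zpow₀ (by fun_prop) _ (fun z hz => Or.inl (k1 z hz)))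
        (ContinuousOn.zpow₀ (ContinuousOn.div (by fun_prop) (by fun_prop) k1) _
          (fun z hz => Or.inl (div_ne_zero (k2 z hz) (k1 z hz))))
    · intro z hz
      have k1 := comp u hu w hwJ (hwn u hu) z hz
      have k2 := comp u hu v hvJ hcon z hz
      exact mul_ne_zero (zpow_ne_zero _ k1) (zpow_ne_zero _ (div_ne_zero k2 k1))
    · intro z hz
      simp only
      rw [div_zpow (z - u) (z - w), zpow_neg (z - w) (p2 - r2), div_eq_mul_inv]
      ring
  have n1 : -(p1 - r1) = 0 := by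
    have h1 := key (p2 - r2) (-(p1 - r1)) (by ring)
    refine comp_zero hJc (hopen v) hv.2 (frontier_comp hJc v) (mem_connectedComponentIn hvJ)
      (-(p1 - r1)) (fun z => (z - w) ^ (p1 - r1) * ((z - u) / (z - w)) ^ (p2 - r2)) ?_ ?_
      (h1.congr ?_)
    · have k1 := comp v hv w hwJ (hwn v hv)
      have k2 := comp v hv u huJ hvu
      refine ContinuousOn.mul (ContinuousOn.zpow₀ (by fun_prop) _ (fun z hz => Or.inl (k1 z hz)))
        (ContinuousOn.zpow₀ (ContinuousOn.div (by fun_prop) (by fun_prop) k1) _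
          (fun z hz => Or.inl (div_ne_zero (k2 z hz) (k1 z hz))))
    · intro z hz
      have k1 := comp v hv w hwJ (hwn v hv) z hz
      have k2 := comp v hv u huJ hvu z hz
      exact mul_ne_zero (zpow_ne_zero _ k1) (zpow_ne_zero _ (div_ne_zero k2 k1))
    · intro z hz
      simp only
      rw [div_zpow (z - v) (z - w), zpow_neg (z - w), div_inv_eq_mul]
      ring
  have h1 := key 1 0 (by
    have : p1 - r1 = 0 := by linarith
    rw [this]; ring)
  have h2 : HasLog J (fun z => (z - u) / (z - w)) := h1.congr (fun z _ => by simp)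
  exact hwn u hu (mem_comp_of_joined (joined_of_log hJc huJ hwJ h2))

end CarT
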