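import Pool.Agent.CarT.LogC
import Pool.Agent.CarT.JorA

/-!
# CarT/JorB : the Jordan curve theorem, first part: a Jordan curve separates the plane

Write `J = A ∪ B` with arcs `A, B` from `x` to `y`, `A ∩ B = {x, y}` (`arcs_of_isJordan`). Let
`q z = (z - x) / (z - y)`. Since `x, y` are joined in `A = (Aᶜ)ᶜ`, `hasLog_of_joined` with `K = Aᶜ` gives
`HasLog Aᶜ q`, and `HasLog Bᶜ q` in the same way. If `Jᶜ = Aᶜ ∩ Bᶜ` were preconnected, `glue_open`
would give `HasLog (Aᶜ ∪ Bᶜ) q = HasLog {x, y}ᶜ q`. On the circle `sphere x r`, `r = |x - y| / 2`,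
the function `z - y` has a logarithm (`hasLog_convex` on `closedBall x r`), so `z - x = q z (z - y)` has one
there, contradiction to `no_log` (with `m = 1`). So `Jᶜ` is not preconnected. If
`ins J` were empty, `Jᶜ = out J` (`mem_cases`) would be preconnected (`out_preconn`).
-/

open Set Metric

namespace CarT

theorem ins_nonempty {J : Set ℂ} (hJ : IsJordan J) : (ins J).Nonempty := by
  obtain ⟨A, B, x, y, hA, hB, hAB, hABJ⟩ := arcs_of_isJordan hJ
  have hxy : x ≠ y := hA.ne
  have hlA : HasLog Aᶜ (fun z => (z - x) / (z - y)) :=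
    hasLog_of_joined Aᶜ (by rw [compl_compl]; exact hA.joined)
  have hlB : HasLog Bᶜ (fun z => (z - x) / (z - y)) :=
    hasLog_of_joined Bᶜ (by rw [compl_compl]; exact hB.joined)
  by_contra hne
  rw [Set.not_nonempty_iff_eq_empty] at hne
  -- the complement of the curve is its outside
  have hout : Jᶜ = out J := by
    ext z
    constructor
    · intro hz
      rcases mem_cases J z with h | h | h
      · exact (hz h).elim
      · rw [hne] at h
        exact h.elim
      · exact h
    · intro hz
      exact hz.1
  have hpre : IsPreconnected (Aᶜ ∩ Bᶜ) := by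
    rw [← compl_union, hABJ, hout]
    exact out_preconn hJ.isCompact
  have hl := glue_open hA.isCompact.isClosed.isOpen_compl hB.isCompact.isClosed.isOpen_compl hpre
    hlA hlB
  rw [← compl_inter, hAB] at hl
  -- a circle around x which does not contain y
  have hd : 0 < dist y x := dist_pos.2 hxy.symm
  set r : ℝ := dist y x / 2 with hr
  have hr0 : 0 < r := by positivity
  have hsub : sphere x r ⊆ ({x, y} : Set ℂ)ᶜ := by
    intro z hz
    rw [mem_sphere] at hz
    rw [mem_compl_iff, mem_insert_iff, mem_singleton_iff, not_or]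
    constructor
    · rintro rfl
      rw [dist_self] at hz
      linarith
    · rintro rfl
      linarith
  have h1 : HasLog (sphere x r) (fun z => (z - x) / (z - y)) := hl.mono hsub
  have hy : ∀ z ∈ closedBall x r, z - y ≠ 0 := by
    intro z hz h0
    rw [sub_eq_zero] at h0
    rw [h0, mem_closedBall] at hz
    linarith
  have h2 : HasLog (closedBall x r) (fun z => z - y) :=
    hasLog_convex (convex_closedBall x r) (continuousOn_id.sub continuousOn_const) hy
  have h3 : HasLog (sphere x r) (fun z => (z - x) ^ (1 : ℤ)) := by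
    refine (h1.mul (h2.mono sphere_subset_closedBall)).congr ?_
    intro z hz
    have hz0 := hy z (sphere_subset_closedBall hz)
    simp only [zpow_one]
    exact div_mul_cancel₀ _ hz0
  exact one_ne_zero (no_log x hr0 1 h3)

end CarT
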