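import Pool.Agent.CarT.LogC
import Pool.Agent.CarT.JorA
import Pool.Agent.CarT.JorB

/-!
# CarT/JorD : the Jordan curve theorem, third part: boundary

Every point `p ∈ J` is in the closure of the inside and of the outside. Let `U = ins J` or `out J`
(open, nonempty: `ins_nonempty`; the outside contains all points of large norm), and let
`V ≠ ∅` be the other one. Suppose `ball p r ∩ U = ∅`. By `jordan_split` there is an arc `A ⊆ J`,
`p ∉ A`, `J \ ball p r ⊆ A`. `U` is open and `frontier U ⊆ J`, `frontier U ∩ ball p r = ∅`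
(`U` does not meet the ball), so `frontier U ⊆ A`. The set `Aᶜ` is preconnected (`arc_compl`), `U ⊆ Aᶜ` is
open and relatively closed in `Aᶜ`, nonempty, so `U = Aᶜ ∋ p`: contradiction.
(For `frontier (out J) ⊆ J`: the complement of `J` is the disjoint union of the open sets
`ins J`, `out J`.)
-/

open Set Metric

namespace CarT

/-- the common argument -/
theorem jorD_key {J : Set ℂ} (hJ : IsJordan J) {U : Set ℂ} (hU : IsOpen U) (hne : U.Nonempty)
    (hd : Disjoint U J) (hfr : closure U ⊆ U ∪ J) : J ⊆ closure U := by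
  intro p hp
  by_contra hcl
  have hopen : IsOpen (closure U)ᶜ := isClosed_closure.isOpen_compl
  obtain ⟨r, hr, hball⟩ := Metric.isOpen_iff.1 hopen p hcl
  obtain ⟨A, x, y, hA, hAJ, hpA, hsub⟩ := jordan_split hJ hp hr
  obtain ⟨u, hu⟩ := hne
  have huA : u ∉ A := fun h => Set.disjoint_left.1 hd hu (hAJ h)
  obtain ⟨γ, hγ⟩ := arc_compl hA huA hpA
  have hpre : IsPreconnected (range γ) := isPreconnected_range γ.continuous
  have hsubU : range γ ⊆ U := by
    refine hpre.subset_of_closure_inter_subset hU ⟨u, ⟨0, γ.source⟩, hu⟩ ?_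
    rintro z ⟨hz, t, rfl⟩
    rcases hfr hz with h | h
    · exact h
    · exfalso
      by_cases hb : γ t ∈ ball p r
      · exact hball hb hz
      · exact hγ t (hsub ⟨h, hb⟩)
  have hpU : p ∈ U := hsubU ⟨1, γ.target⟩
  exact hcl (subset_closure hpU)

theorem jordan_closure_ins {J : Set ℂ} (hJ : IsJordan J) : J ⊆ closure (ins J) := by
  refine jorD_key hJ (isOpen_ins hJ.isCompact) (ins_nonempty hJ) ?_ (closure_ins hJ.isCompact)
  rw [Set.disjoint_left]
  exact fun z hz => hz.1

theorem jordan_closure_out {J : Set ℂ} (hJ : IsJordan J) : J ⊆ closure (out J) := by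
  have hc := hJ.isCompact
  refine jorD_key hJ (isOpen_out hc) ?_ ?_ ?_
  · obtain ⟨R, hR⟩ := hc.isBounded.subset_closedBall (0 : ℂ)
    refine ⟨((|R| + 1 : ℝ) : ℂ), mem_out_of_norm hR ?_⟩
    rw [Complex.norm_real, Real.norm_eq_abs, abs_of_nonneg (by positivity)]
    linarith [le_abs_self R]
  · rw [Set.disjoint_left]
    exact fun z hz => hz.1
  · intro z hz
    rcases mem_cases J z with h | h | h
    · exact Or.inr h
    · exfalso
      obtain ⟨w, hw1, hw2⟩ := mem_closure_iff.1 hz (ins J) (isOpen_ins hc) h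
      exact hw2.2 hw1.2
    · exact Or.inl h

end CarT
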