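import Pool.Agent.CarT.JorB
import Pool.Agent.CarT.JorC
import Pool.Agent.CarT.JorD

/-!
# CarT/Theta : the theta curve lemma

`A, B, C` are arcs from `x` to `y`, `A ∩ B = {x, y}`, and `C` without its ends is contained in
the inside of the Jordan curve `A ∪ B`. Then `A ∩ C = B ∩ C = {x, y}`, so `A ∪ C` and `B ∪ C` are
Jordan curves (`isJordan_of_arcs`). Put `J = A ∪ B`.

1. `out J ⊆ out (A ∪ C)`: `out J` is preconnected, unbounded, and disjoint from `A ∪ C`
   (`subset_out_of_unbounded`).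
2. `B \ {x, y} ⊆ out (A ∪ C)`: a point `p` of it is not in the compact set `A ∪ C`; a ball around `p` is
   disjoint from `A ∪ C` and meets `out J ⊆ out (A ∪ C)` (`jordan_closure_out`); `subset_out`.
3. So `ins (A ∪ C)` is disjoint from `out J`, from `A` and from `B`: it is contained in `ins J`
   (`mem_cases`). Symmetrically `ins (B ∪ C) ⊆ ins J` and `A \ {x, y} ⊆ out (B ∪ C)`.
4. `U = ins (A ∪ C)` is preconnected (`ins_preconn`), disjoint from `B` (it is in `ins J`) and from `C`.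
   If it meets `V = ins (B ∪ C)`, then `U ⊆ V` (`subset_ins`), so `A ⊆ closure U ⊆ closure V ⊆
   V ∪ (B ∪ C)` (`jordan_closure_ins`, `closure_ins`). A point of `A \ {x, y}` (exists: `A` is the
   image of `[0, 1]`) is in `out (B ∪ C)`: contradiction.
-/

open Set Metric

namespace CarT

/-- the outside is unbounded -/
theorem out_unbounded {J : Set ℂ} (hJ : IsCompact J) : ¬ Bornology.IsBounded (out J) := by
  intro hb
  obtain ⟨R, hR⟩ := hJ.isBounded.subset_closedBall (0 : ℂ)
  obtain ⟨R', hR'⟩ := hb.subset_closedBall (0 : ℂ)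
  have h1 : (((max R R' + |R| + |R'| + 1 : ℝ)) : ℂ) ∈ out J := by
    refine mem_out_of_norm hR ?_
    rw [Complex.norm_real, Real.norm_eq_abs]
    refine lt_of_lt_of_le ?_ (le_abs_self _)
    have := le_max_left R R'
    have := abs_nonneg R
    have := abs_nonneg R'
    linarith
  have h2 := hR' h1
  rw [mem_closedBall_zero_iff, Complex.norm_real, Real.norm_eq_abs] at h2
  have h3 := (le_abs_self _).trans h2
  have := le_max_right R R'
  have := abs_nonneg R
  have := abs_nonneg R'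
  linarith

theorem theta_inter {A B C : Set ℂ} {x y : ℂ} (hA : IsArc A x y) (hC : IsArc C x y)
    (hin : C \ {x, y} ⊆ ins (A ∪ B)) : A ∩ C = {x, y} := by
  ext p
  constructor
  · rintro ⟨h1, h2⟩
    by_contra h3
    exact (hin ⟨h2, h3⟩).1 (Or.inl h1)
  · rintro (rfl | h)
    · exact ⟨hA.left_mem, hC.left_mem⟩
    · rw [mem_singleton_iff] at h
      rw [h]
      exact ⟨hA.right_mem, hC.right_mem⟩

theorem theta_aux {A B C : Set ℂ} {x y : ℂ} (hA : IsArc A x y) (hB : IsArc B x y)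
    (hC : IsArc C x y) (hAB : A ∩ B = {x, y}) (hin : C \ {x, y} ⊆ ins (A ∪ B)) :
    IsJordan (A ∪ C) ∧ B \ {x, y} ⊆ out (A ∪ C) ∧ ins (A ∪ C) ⊆ ins (A ∪ B) := by
  have hJ : IsJordan (A ∪ B) := isJordan_of_arcs hA hB hAB
  have hJ1 : IsJordan (A ∪ C) := isJordan_of_arcs hA hC (theta_inter hA hC hin)
  have hxA := hA.left_mem
  have hyA := hA.right_mem
  have hd : Disjoint (out (A ∪ B)) (A ∪ C) := by
    rw [Set.disjoint_left]
    rintro p hp (h | h)
    · exact hp.1 (Or.inl h)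
    · by_cases h2 : p ∈ ({x, y} : Set ℂ)
      · rcases h2 with h2 | h2
        · rw [h2] at hp
          exact hp.1 (Or.inl hxA)
        · rw [mem_singleton_iff] at h2
          rw [h2] at hp
          exact hp.1 (Or.inl hyA)
      · exact hp.2 (hin ⟨h, h2⟩).2
  have hout : out (A ∪ B) ⊆ out (A ∪ C) :=
    subset_out_of_unbounded (out_preconn hJ.isCompact) hd (out_unbounded hJ.isCompact)
  have hB2 : B \ {x, y} ⊆ out (A ∪ C) := by
    rintro p ⟨hpB, hp⟩
    have hpAC : p ∉ A ∪ C := by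
      rintro (h | h)
      · exact hp (hAB ▸ ⟨h, hpB⟩)
      · exact (hin ⟨h, hp⟩).1 (Or.inr hpB)
    have hop : IsOpen (A ∪ C)ᶜ := hJ1.isCompact.isClosed.isOpen_compl
    obtain ⟨r, hr, hr2⟩ := Metric.isOpen_iff.mp hop p hpAC
    have hcl := jordan_closure_out hJ (Or.inr hpB : p ∈ A ∪ B)
    obtain ⟨z, hz, hz2⟩ := Metric.mem_closure_iff.mp hcl r hr
    refine subset_out (convex_ball p r).isPreconnected ?_ ⟨z, ?_, hout hz⟩ (mem_ball_self hr)
    · rw [Set.disjoint_left]
      exact fun q hq hq2 => hr2 hq hq2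
    · rw [mem_ball, dist_comm]
      exact hz2
  refine ⟨hJ1, hB2, ?_⟩
  intro z hz
  rcases mem_cases (A ∪ B) z with h | h | h
  · exfalso
    rcases h with h | h
    · exact hz.1 (Or.inl h)
    · by_cases h2 : z ∈ ({x, y} : Set ℂ)
      · rcases h2 with h2 | h2
        · rw [h2] at hz
          exact hz.1 (Or.inl hxA)
        · rw [mem_singleton_iff] at h2
          rw [h2] at hz
          exact hz.1 (Or.inl hyA)
      · exact (hB2 ⟨h, h2⟩).2 hz.2
  · exact h
  · exact absurd hz.2 (hout h).2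

theorem theta {A B C : Set ℂ} {x y : ℂ} (hA : IsArc A x y) (hB : IsArc B x y) (hC : IsArc C x y)
    (hAB : A ∩ B = {x, y}) (hin : C \ {x, y} ⊆ ins (A ∪ B)) :
    ins (A ∪ C) ⊆ ins (A ∪ B) ∧ ins (B ∪ C) ⊆ ins (A ∪ B) ∧
      Disjoint (ins (A ∪ C)) (ins (B ∪ C)) := by
  have hBA : B ∩ A = {x, y} := by rw [inter_comm]; exact hAB
  have hin' : C \ {x, y} ⊆ ins (B ∪ A) := by rw [union_comm]; exact hin
  obtain ⟨h1, -, h3⟩ := theta_aux hA hB hC hAB hin
  obtain ⟨k1, k2, k3⟩ := theta_aux hB hA hC hBA hin'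
  rw [union_comm B A] at k3
  refine ⟨h3, k3, ?_⟩
  by_contra hnd
  obtain ⟨z, hz1, hz2⟩ := Set.not_disjoint_iff.mp hnd
  have hUV : ins (A ∪ C) ⊆ ins (B ∪ C) := by
    refine subset_ins (ins_preconn h1) ?_ ⟨z, hz1, hz2⟩
    rw [Set.disjoint_left]
    rintro p hp (h | h)
    · exact (h3 hp).1 (Or.inr h)
    · exact hp.1 (Or.inr h)
  have hAV : A ⊆ ins (B ∪ C) ∪ (B ∪ C) := fun p hp =>
    closure_ins k1.isCompact (closure_mono hUV (jordan_closure_ins h1 (Or.inl hp)))
  obtain ⟨f, hf, hi, hfA, hfx, hfy⟩ := hA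
  have hmem : f (1 / 2) ∈ A := by
    rw [← hfA]
    exact mem_image_of_mem f (by norm_num)
  have hne : f (1 / 2) ∉ ({x, y} : Set ℂ) := by
    rintro (h | h)
    · rw [← hfx] at h
      have := hi (by norm_num) (by norm_num) h
      norm_num at this
    · rw [mem_singleton_iff, ← hfy] at h
      have := hi (by norm_num) (by norm_num) h
      norm_num at this
  have hout := k2 ⟨hmem, hne⟩
  rcases hAV hmem with h | h
  · exact hout.2 h.2
  · exact hout.1 h

end CarT
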