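import Pool.Agent.CarT.Net
import Pool.Agent.CarT.Bd
import Pool.Agent.CarT.Theta
import Pool.Agent.CarT.Ear

/-!
# CarT/CutV : cutting a face of a net by a vertical segment

`R = ((a, b), (c, e)) ∈ Q`, `a < m < b`, `P : [c, e] → bd R` continuous and injective,
`P c = (m, c)`, `P e = (m, e)`.

Let `J = φ '' bd R`, a Jordan curve (`bd_jordan`) contained in `T`. Let `α` be from `ear` for
`π t = φ (P (c + (e - c) t))` and `ε`. Define `φ' (x, y) = α ((y - c)/(e - c))` if `x = m` and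
`c ≤ y ≤ e`, and `φ' = φ` elsewhere. At the ends: `α 0 = φ (m, c)`, `α 1 = φ (m, e)`; the other points of the
segment are in `op R`, so not in `Γ` (`N.int`); hence `φ' = φ` on `Γ`.

Check of `Net` for `φ'`, `Γ' = Γ ∪ {m} × [c, e]`, `Q' = {leftR, rightR} ∪ Q.erase R`:
* `pos`, `comp` clear; `bdsub`: `bd_left`, `bd_right`.
* `int`: for `leftR`, `rightR`: their open rectangles are contained in `op R` and disjoint from the line
  `x = m`. For `R' ∈ Q`, `R' ≠ R`: `op R'` is disjoint from `Γ` and from `op R`, and the segment is contained in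
  `op R ∪ Γ`.
* `sep`: `op (leftR m R), op (rightR m R) ⊆ op R` are disjoint.
* `cont`: continuous on the closed sets `Γ` and the segment. `inj`: `φ` is injective on `Γ`, `α` on `[0,1]`, and
  `α (0,1) ⊆ ins J` is disjoint from `φ '' Γ` (`N.face`). `mapT`: `α (0,1) ⊆ T`, ends in `φ '' Γ`.
* Let `A = φ '' {p ∈ bd R | p.1 ≤ m}`, `B = φ '' {p ∈ bd R | m ≤ p.1}`, `C = α '' [0,1]`, arcs from
  `x = φ (m, c)` to `y = φ (m, e)` with `A ∩ B = {x, y}`, `A ∪ B = J`, `C \ {x, y} ⊆ ins J`. Then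
  `φ' '' bd (leftR m R) = A ∪ C` and `φ' '' bd (rightR m R) = B ∪ C`. `theta`:
  `ins (A ∪ C), ins (B ∪ C) ⊆ ins J`, disjoint.
* `face`: `φ' '' Γ' = φ '' Γ ∪ C`; `ins (A ∪ C)` is disjoint from `C` and, being in `ins J`, from
  `φ '' Γ`. For `R' ≠ R`: `ins (φ' '' bd R') = ins (φ '' bd R')` is disjoint from `φ '' Γ` and from
  `ins J ⊇ C \ {x, y}`. `disj`: the same.
* discs: `ins (A ∪ C) ⊆ ins J`, `A ⊆ J`, `C ⊆ ins J ∪ J`.
-/

open Set Metric

namespace CarT

/-- points of the segment which are not interior points of the rectangle are its ends -/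
theorem CutV_end {T : Set ℂ} {Q : Finset Rect} {Γ : Set (ℝ × ℝ)} {φ : ℝ × ℝ → ℂ}
    (N : Net T Q Γ φ) {R : Rect} (hR : R ∈ Q) {m : ℝ}
    (hm : R.1.1 < m) (hm2 : m < R.1.2) {p : ℝ × ℝ} (hp : p ∈ ({m} : Set ℝ) ×ˢ Icc R.2.1 R.2.2)
    (hΓ : p ∈ Γ) : p = (m, R.2.1) ∨ p = (m, R.2.2) := by
  obtain ⟨x, y⟩ := p
  obtain ⟨h1, h2, h3⟩ := hp
  simp only [mem_singleton_iff] at h1 h2 h3
  subst h1
  rcases eq_or_lt_of_le h2 with h | h
  · left; rw [h]
  rcases eq_or_lt_of_le h3 with h' | h'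
  · right; rw [h']
  exact absurd hΓ (Set.disjoint_left.1 (N.int R hR) ⟨⟨hm, hm2⟩, ⟨h, h'⟩⟩)

open Classical in
theorem cutV {W T : Set ℂ} {c : ℂ → Set ℂ} (h : Sys W T c) {Q : Finset Rect}
    {Γ : Set (ℝ × ℝ)} {φ : ℝ × ℝ → ℂ} (N : Net T Q Γ φ) {R : Rect} (hR : R ∈ Q) {m : ℝ}
    (hm : R.1.1 < m) (hm2 : m < R.1.2) {P : ℝ → ℝ × ℝ} (hP : ContinuousOn P (Icc R.2.1 R.2.2))
    (hPi : InjOn P (Icc R.2.1 R.2.2)) (hPb : MapsTo P (Icc R.2.1 R.2.2) (bd R))
    (hP0 : P R.2.1 = (m, R.2.1)) (hP1 : P R.2.2 = (m, R.2.2)) {ε : ℝ} (hε : 0 < ε) :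
    ∃ φ' : ℝ × ℝ → ℂ, EqOn φ' φ Γ ∧
      Net T (insert (leftR m R) (insert (rightR m R) (Q.erase R)))
        (Γ ∪ {m} ×ˢ Icc R.2.1 R.2.2) φ' ∧
      (∀ t ∈ Icc R.2.1 R.2.2, dist (φ' (m, t)) (φ (P t)) < ε) ∧
      disc φ' (leftR m R) ⊆ disc φ R ∧ disc φ' (rightR m R) ⊆ disc φ R := by
  obtain ⟨h1, h2⟩ := N.pos R hR
  have hce : 0 < R.2.2 - R.2.1 := sub_pos.2 h2
  have hbΓ : bd R ⊆ Γ := N.bdsub R hR
  -- the arc
  have hJ : IsJordan (φ '' bd R) := bd_jordan h1 h2 (N.cont.mono hbΓ) (N.inj.mono hbΓ)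
  have hJT : φ '' bd R ⊆ T := by
    rintro _ ⟨p, hp, rfl⟩
    exact N.mapT (hbΓ hp)
  have hv : ∀ t ∈ Icc (0 : ℝ) 1, R.2.1 + (R.2.2 - R.2.1) * t ∈ Icc R.2.1 R.2.2 := by
    intro t ht
    constructor
    · nlinarith [ht.1, ht.2]
    · nlinarith [ht.1, ht.2]
  have hQ : ContinuousOn (fun t : ℝ => P (R.2.1 + (R.2.2 - R.2.1) * t)) (Icc 0 1) :=
    hP.comp (by fun_prop) hv
  obtain ⟨α, hα, hαi, hα0, hα1, hαI, hαd⟩ := ear h hJ hJT
    (π := fun t => φ (P (R.2.1 + (R.2.2 - R.2.1) * t)))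
    ((N.cont.mono hbΓ).comp hQ (fun t ht => hPb (hv t ht)))
    (by
      intro s hs t ht hst
      have e1 := N.inj (hbΓ (hPb (hv s hs))) (hbΓ (hPb (hv t ht))) hst
      have e2 := hPi (hv s hs) (hv t ht) e1
      have e3 : (R.2.2 - R.2.1) * s = (R.2.2 - R.2.1) * t := by linarith
      exact mul_left_cancel₀ hce.ne' e3)
    (fun t ht => mem_image_of_mem φ (hPb (hv t ht))) hε
  simp only [mul_zero, add_zero, hP0] at hα0
  simp only [mul_one, add_sub_cancel, hP1] at hα1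
  -- the new map
  set u : ℝ → ℝ := fun y => (y - R.2.1) / (R.2.2 - R.2.1) with hu
  have hu01 : ∀ y ∈ Icc R.2.1 R.2.2, u y ∈ Icc (0 : ℝ) 1 := by
    intro y hy
    constructor
    · exact div_nonneg (by linarith [hy.1]) hce.le
    · rw [hu]
      simp only
      rw [div_le_one hce]
      linarith [hy.2]
  have huo : ∀ y, R.2.1 < y → y < R.2.2 → u y ∈ Ioo (0 : ℝ) 1 := by
    intro y hy hy'
    constructor
    · exact div_pos (by linarith) hce
    · rw [hu]
      simp only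
      rw [div_lt_one hce]
      linarith
  have huv : ∀ t, u (R.2.1 + (R.2.2 - R.2.1) * t) = t := by
    intro t
    simp only [hu, add_sub_cancel_left]
    field_simp
  have hvu : ∀ y, R.2.1 + (R.2.2 - R.2.1) * u y = y := by
    intro y
    simp only [hu]
    field_simp
    ring
  have hu0 : u R.2.1 = 0 := by simp [hu]
  have hu1 : u R.2.2 = 1 := by
    simp only [hu]
    exact div_self hce.ne'
  set S : Set (ℝ × ℝ) := ({m} : Set ℝ) ×ˢ Icc R.2.1 R.2.2 with hS
  set φ' : ℝ × ℝ → ℂ := fun p => if p ∈ S then α (u p.2) else φ p with hφ'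
  have hφS : ∀ p ∈ S, φ' p = α (u p.2) := fun p hp => if_pos hp
  have hφN : ∀ p, p ∉ S → φ' p = φ p := fun p hp => if_neg hp
  have hc0 : ((m, R.2.1) : ℝ × ℝ) ∈ S := ⟨rfl, le_rfl, h2.le⟩
  have hc1 : ((m, R.2.2) : ℝ × ℝ) ∈ S := ⟨rfl, h2.le, le_rfl⟩
  have hb0 : ((m, R.2.1) : ℝ × ℝ) ∈ bd R := by
    rw [← hP0]
    exact hPb ⟨le_rfl, h2.le⟩
  have hb1 : ((m, R.2.2) : ℝ × ℝ) ∈ bd R := by
    rw [← hP1]
    exact hPb ⟨h2.le, le_rfl⟩
  have hend : ∀ p ∈ S, p ∈ Γ → p = (m, R.2.1) ∨ p = (m, R.2.2) := fun p hp hΓ =>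
    CutV_end N hR hm hm2 hp hΓ
  have hEq : EqOn φ' φ Γ := by
    intro p hp
    by_cases hpS : p ∈ S
    · rcases hend p hpS hp with rfl | rfl
      · rw [hφS _ hpS, hu0, hα0]
      · rw [hφS _ hpS, hu1, hα1]
    · exact hφN p hpS
  -- the three arcs
  set C : Set ℂ := α '' Icc 0 1 with hC
  have hCarc : IsArc C (φ (m, R.2.1)) (φ (m, R.2.2)) := ⟨α, hα, hαi, rfl, hα0, hα1⟩
  have hCS : φ' '' S = C := by
    ext z
    constructor
    · rintro ⟨p, hp, rfl⟩
      rw [hφS p hp]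
      exact mem_image_of_mem α (hu01 p.2 hp.2)
    · rintro ⟨t, ht, rfl⟩
      refine ⟨(m, R.2.1 + (R.2.2 - R.2.1) * t), ⟨rfl, hv t ht⟩, ?_⟩
      rw [hφS (m, R.2.1 + (R.2.2 - R.2.1) * t) ⟨rfl, hv t ht⟩]
      simp only [huv]
  have hCin : C \ {φ (m, R.2.1), φ (m, R.2.2)} ⊆ ins (φ '' bd R) ∩ T := by
    rintro z ⟨⟨t, ht, rfl⟩, hz⟩
    simp only [mem_insert_iff, mem_singleton_iff, not_or] at hz
    apply hαI
    constructor
    · rcases eq_or_lt_of_le ht.1 with h0 | h0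
      · exact absurd (by rw [← h0, hα0]) hz.1
      · exact h0
    · rcases eq_or_lt_of_le ht.2 with h0 | h0
      · exact absurd (by rw [h0, hα1]) hz.2
      · exact h0
  have hA := arc_left h2 hm hm2 (N.cont.mono hbΓ) (N.inj.mono hbΓ)
  have hB := arc_right h2 hm hm2 (N.cont.mono hbΓ) (N.inj.mono hbΓ)
  have hAB := arc_inter h2 hm hm2 (N.inj.mono hbΓ)
  have hU := arc_union (R := R) m φ
  set A : Set ℂ := φ '' {p | p ∈ bd R ∧ p.1 ≤ m} with hAdef
  set B : Set ℂ := φ '' {p | p ∈ bd R ∧ m ≤ p.1} with hBdef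
  have hAJ : A ⊆ φ '' bd R := image_mono fun p hp => hp.1
  have hBJ : B ⊆ φ '' bd R := image_mono fun p hp => hp.1
  obtain ⟨th1, th2, th3⟩ := theta hA hB hCarc hAB
    (by rw [hU]; exact fun z hz => (hCin hz).1)
  rw [hU] at th1 th2
  have hCJ : C ⊆ ins (φ '' bd R) ∪ φ '' bd R := by
    intro z hz
    by_cases hz' : z ∈ ({φ (m, R.2.1), φ (m, R.2.2)} : Set ℂ)
    · right
      rcases hz' with rfl | rfl
      · exact mem_image_of_mem φ hb0
      · exact mem_image_of_mem φ hb1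
    · exact Or.inl (hCin ⟨hz, hz'⟩).1
  have hCT : C ⊆ T := by
    intro z hz
    by_cases hz' : z ∈ ({φ (m, R.2.1), φ (m, R.2.2)} : Set ℂ)
    · rcases hz' with rfl | rfl
      · exact N.mapT (hbΓ hb0)
      · exact N.mapT (hbΓ hb1)
    · exact (hCin ⟨hz, hz'⟩).2
  have hLsub : {p | p ∈ bd R ∧ p.1 ≤ m} ⊆ Γ := fun p hp => hbΓ hp.1
  have hRsub : {p | p ∈ bd R ∧ m ≤ p.1} ⊆ Γ := fun p hp => hbΓ hp.1
  have hbL : φ' '' bd (leftR m R) = A ∪ C := by
    rw [bd_left h2 hm hm2, image_union, hCS, (hEq.mono hLsub).image_eq]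
  have hbR : φ' '' bd (rightR m R) = B ∪ C := by
    rw [bd_right h2 hm hm2, image_union, hCS, (hEq.mono hRsub).image_eq]
  have hb' : ∀ R' ∈ Q, φ' '' bd R' = φ '' bd R' := fun R' hR' =>
    (hEq.mono (N.bdsub R' hR')).image_eq
  have himg : φ' '' (Γ ∪ S) = φ '' Γ ∪ C := by
    rw [image_union, hCS, hEq.image_eq]
  -- open rectangles
  have hopL : op (leftR m R) ⊆ op R := by
    rintro p ⟨⟨a1, a2⟩, a3⟩
    exact ⟨⟨a1, lt_trans a2 hm2⟩, a3⟩
  have hopR : op (rightR m R) ⊆ op R := by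
    rintro p ⟨⟨a1, a2⟩, a3⟩
    exact ⟨⟨lt_trans hm a1, a2⟩, a3⟩
  have hopS : S ⊆ op R ∪ Γ := by
    rintro p ⟨a1, a2, a3⟩
    obtain ⟨x, y⟩ := p
    simp only [mem_singleton_iff] at a1 a2 a3
    subst a1
    rcases eq_or_lt_of_le a2 with h | h
    · right; rw [← h]; exact hbΓ hb0
    rcases eq_or_lt_of_le a3 with h' | h'
    · right; rw [h']; exact hbΓ hb1
    exact Or.inl ⟨⟨hm, hm2⟩, ⟨h, h'⟩⟩
  -- disjointness of the images
  have hdL : Disjoint (ins (A ∪ C)) (φ '' Γ ∪ C) := by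
    rw [disjoint_union_right]
    exact ⟨(N.face R hR).mono_left th1,
      Set.disjoint_left.2 fun z hz hz' => hz.1 (Or.inr hz')⟩
  have hdR : Disjoint (ins (B ∪ C)) (φ '' Γ ∪ C) := by
    rw [disjoint_union_right]
    exact ⟨(N.face R hR).mono_left th2,
      Set.disjoint_left.2 fun z hz hz' => hz.1 (Or.inr hz')⟩
  have hdO : ∀ R' ∈ Q, R' ≠ R → Disjoint (ins (φ '' bd R')) (φ '' Γ ∪ C) := by
    intro R' hR' hne
    rw [disjoint_union_right]
    refine ⟨N.face R' hR', Set.disjoint_left.2 fun z hz hz' => ?_⟩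
    rcases hCJ hz' with h' | h'
    · exact Set.disjoint_left.1 (N.disj R' hR' R hR hne) hz h'
    · exact Set.disjoint_left.1 (N.face R' hR') hz (image_mono hbΓ h')
  refine ⟨φ', hEq, ?_, ?_, ?_, ?_⟩
  · refine ⟨?_, ?_, ?_, ?_, ?_, ?_, ?_, ?_, ?_, ?_⟩
    · -- pos
      intro R' hR'
      rw [Finset.mem_insert, Finset.mem_insert, Finset.mem_erase] at hR'
      rcases hR' with rfl | rfl | ⟨-, hR'⟩
      · exact ⟨hm, h2⟩
      · exact ⟨hm2, h2⟩
      · exact N.pos R' hR'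
    · exact N.comp.union (isCompact_singleton.prod isCompact_Icc)
    · -- bdsub
      intro R' hR'
      rw [Finset.mem_insert, Finset.mem_insert, Finset.mem_erase] at hR'
      rcases hR' with rfl | rfl | ⟨-, hR'⟩
      · rw [bd_left h2 hm hm2]
        exact union_subset_union hLsub le_rfl
      · rw [bd_right h2 hm hm2]
        exact union_subset_union hRsub le_rfl
      · exact (N.bdsub R' hR').trans subset_union_left
    · -- int
      intro R' hR'
      rw [Finset.mem_insert, Finset.mem_insert, Finset.mem_erase] at hR'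
      rw [disjoint_union_right]
      rcases hR' with rfl | rfl | ⟨hne, hR'⟩
      · refine ⟨(N.int R hR).mono_left hopL, Set.disjoint_left.2 fun p hp hp' => ?_⟩
        have e1 : p.1 < m := hp.1.2
        have e2 : p.1 = m := hp'.1
        exact absurd e2 e1.ne
      · refine ⟨(N.int R hR).mono_left hopR, Set.disjoint_left.2 fun p hp hp' => ?_⟩
        have e1 : m < p.1 := hp.1.1
        have e2 : p.1 = m := hp'.1
        exact absurd e2 e1.ne'
      · refine ⟨N.int R' hR', Set.disjoint_left.2 fun p hp hp' => ?_⟩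
        rcases hopS hp' with h' | h'
        · exact Set.disjoint_left.1 (N.sep R' hR' R hR hne) hp h'
        · exact Set.disjoint_left.1 (N.int R' hR') hp h'
    · -- sep
      have hLR : Disjoint (op (leftR m R)) (op (rightR m R)) :=
        Set.disjoint_left.2 fun p hp hp' => by
          have e1 : p.1 < m := hp.1.2
          have e2 : m < p.1 := hp'.1.1
          exact lt_asymm e1 e2
      intro R₁ hR₁ R₂ hR₂ hne
      rw [Finset.mem_insert, Finset.mem_insert, Finset.mem_erase] at hR₁ hR₂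
      rcases hR₁ with rfl | rfl | ⟨hne₁, hR₁⟩
      · rcases hR₂ with rfl | rfl | ⟨hne₂, hR₂⟩
        · exact absurd rfl hne
        · exact hLR
        · exact (N.sep R hR R₂ hR₂ (Ne.symm hne₂)).mono_left hopL
      · rcases hR₂ with rfl | rfl | ⟨hne₂, hR₂⟩
        · exact hLR.symm
        · exact absurd rfl hne
        · exact (N.sep R hR R₂ hR₂ (Ne.symm hne₂)).mono_left hopR
      · rcases hR₂ with rfl | rfl | ⟨hne₂, hR₂⟩
        · exact (N.sep R₁ hR₁ R hR hne₁).mono_right hopL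
        · exact (N.sep R₁ hR₁ R hR hne₁).mono_right hopR
        · exact N.sep R₁ hR₁ R₂ hR₂ hne
    · -- cont
      refine ContinuousOn.union_of_isClosed (N.cont.congr hEq) ?_ N.comp.isClosed
        (isClosed_singleton.prod isClosed_Icc)
      have hcu : ContinuousOn (fun p : ℝ × ℝ => α (u p.2)) S :=
        hα.comp (by simp only [hu]; fun_prop) fun p hp => hu01 p.2 hp.2
      exact hcu.congr hφS
    · -- inj
      have key : ∀ p ∈ Γ, ∀ q ∈ S, φ' p = φ' q → p = q := by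
        intro p hp q hq hpq
        by_cases hqΓ : q ∈ Γ
        · rw [hEq hp, hEq hqΓ] at hpq
          exact N.inj hp hqΓ hpq
        · exfalso
          have hq1 : q.1 = m := hq.1
          have e1 : q.2 ≠ R.2.1 := by
            intro h'
            apply hqΓ
            have : q = (m, R.2.1) := Prod.ext hq1 h'
            rw [this]
            exact hbΓ hb0
          have e2 : q.2 ≠ R.2.2 := by
            intro h'
            apply hqΓ
            have : q = (m, R.2.2) := Prod.ext hq1 h'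
            rw [this]
            exact hbΓ hb1
          have e3 := hαI (u q.2) (huo q.2 (lt_of_le_of_ne hq.2.1 (Ne.symm e1))
            (lt_of_le_of_ne hq.2.2 e2))
          rw [← hφS q hq, ← hpq, hEq hp] at e3
          exact Set.disjoint_left.1 (N.face R hR) e3.1 (mem_image_of_mem φ hp)
      rintro p (hp | hp) q (hq | hq) hpq
      · rw [hEq hp, hEq hq] at hpq
        exact N.inj hp hq hpq
      · exact key p hp q hq hpq
      · exact (key q hq p hp hpq.symm).symm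
      · rw [hφS p hp, hφS q hq] at hpq
        have e1 := hαi (hu01 p.2 hp.2) (hu01 q.2 hq.2) hpq
        have e2 : p.2 = q.2 := by rw [← hvu p.2, ← hvu q.2, e1]
        have e3 : p.1 = q.1 := by
          have a1 : p.1 = m := hp.1
          have a2 : q.1 = m := hq.1
          rw [a1, a2]
        exact Prod.ext e3 e2
    · -- mapT
      rintro p (hp | hp)
      · rw [hEq hp]
        exact N.mapT hp
      · exact hCT (hCS ▸ mem_image_of_mem φ' hp)
    · -- face
      intro R' hR'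
      rw [Finset.mem_insert, Finset.mem_insert, Finset.mem_erase] at hR'
      rw [himg]
      rcases hR' with rfl | rfl | ⟨hne, hR'⟩
      · rw [hbL]; exact hdL
      · rw [hbR]; exact hdR
      · rw [hb' R' hR']; exact hdO R' hR' hne
    · -- disj
      intro R₁ hR₁ R₂ hR₂ hne
      rw [Finset.mem_insert, Finset.mem_insert, Finset.mem_erase] at hR₁ hR₂
      rcases hR₁ with rfl | rfl | ⟨hne₁, hR₁⟩
      · rcases hR₂ with rfl | rfl | ⟨hne₂, hR₂⟩
        · exact absurd rfl hne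
        · rw [hbL, hbR]; exact th3
        · rw [hbL, hb' R₂ hR₂]
          exact (N.disj R hR R₂ hR₂ (Ne.symm hne₂)).mono_left th1
      · rcases hR₂ with rfl | rfl | ⟨hne₂, hR₂⟩
        · rw [hbL, hbR]; exact th3.symm
        · exact absurd rfl hne
        · rw [hbR, hb' R₂ hR₂]
          exact (N.disj R hR R₂ hR₂ (Ne.symm hne₂)).mono_left th2
      · rcases hR₂ with rfl | rfl | ⟨hne₂, hR₂⟩
        · rw [hbL, hb' R₁ hR₁]
          exact (N.disj R₁ hR₁ R hR hne₁).mono_right th1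
        · rw [hbR, hb' R₁ hR₁]
          exact (N.disj R₁ hR₁ R hR hne₁).mono_right th2
        · rw [hb' R₁ hR₁, hb' R₂ hR₂]
          exact N.disj R₁ hR₁ R₂ hR₂ hne
  · -- closeness
    intro t ht
    rw [hφS (m, t) ⟨rfl, ht⟩]
    have e1 := hαd (u t) (hu01 t ht)
    simp only [hvu] at e1
    exact e1
  · rw [disc, disc, hbL]
    exact union_subset (th1.trans subset_union_left)
      (union_subset (hAJ.trans subset_union_right) hCJ)
  · rw [disc, disc, hbR]
    exact union_subset (th2.trans subset_union_left)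
      (union_subset (hBJ.trans subset_union_right) hCJ)

end CarT
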