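import Mathlib

/-!
# CarT/Def : definitions for the Sierpinski carpet theorem (MP_efd072_an)

`d` is always a pseudometric on the plane; its classes are the sets `cls d x`.

* `Raw X d z0` is what the analysis part (folder CarA) produces from a measure orthogonal to `R(X)`.
* `Dec d` is what the topology part (folder CarT) uses: an upper semicontinuous decomposition of
  the plane into compact connected full (non separating) sets, such that connected subsets of
  `Feps d ε` lie in one class.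
-/

open Set MeasureTheory

namespace CarT

/-- the class of `x` -/
def cls (d : ℂ → ℂ → ℝ) (x : ℂ) : Set ℂ := {y | d x y = 0}

/-- the union of the classes of diameter at least `ε` -/
def Feps (d : ℂ → ℂ → ℝ) (ε : ℝ) : Set ℂ := {x | ∃ y ∈ cls d x, ∃ z ∈ cls d x, ε ≤ dist y z}

/-- the points whose class is a singleton -/
def Tr (d : ℂ → ℂ → ℝ) : Set ℂ := {x | ∀ y, d x y = 0 → y = x}

/-- saturated sets -/
def Sat (d : ℂ → ℂ → ℝ) (A : Set ℂ) : Prop := ∀ x ∈ A, cls d x ⊆ A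

/-- output of the analysis part -/
structure Raw (X : Set ℂ) (d : ℂ → ℂ → ℝ) (z0 : ℂ) : Prop where
  self : ∀ x, d x x = 0
  symm : ∀ x y, d x y = d y x
  tri : ∀ x y z, d x z ≤ d x y + d y z
  cont : Continuous (fun p : ℂ × ℂ => d p.1 p.2)
  conn : ∀ x, IsPreconnected (cls d x)
  null : ∀ (x : ℂ) (ε : ℝ), 0 < ε → volume (d x '' Feps d ε) = 0
  triv : ∀ x, x ∉ X → ∃ y, y ≠ x ∧ d x y = 0
  far : ∃ R : ℝ, ∀ x y : ℂ, R ≤ ‖x‖ → R ≤ ‖y‖ → d x y = 0
  good : z0 ∈ Tr d
  near : ∃ r : ℝ, 0 < r ∧ ∀ x y : ℂ, x ≠ z0 → dist x z0 < r → d x y = 0 →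
    dist y x ≤ dist x z0 / 2

/-- input of the topology part -/
structure Dec (d : ℂ → ℂ → ℝ) : Prop where
  self : ∀ x, d x x = 0
  symm : ∀ x y, d x y = d y x
  tri : ∀ x y z, d x z ≤ d x y + d y z
  cont : Continuous (fun p : ℂ × ℂ => d p.1 p.2)
  conn : ∀ x, IsPreconnected (cls d x)
  full : ∀ x, IsPreconnected (cls d x)ᶜ
  small : ∀ ε : ℝ, 0 < ε → ∀ K : Set ℂ, K ⊆ Feps d ε → IsPreconnected K → ∀ x ∈ K, K ⊆ cls d x
  prop : ∀ R : ℝ, ∃ R' c : ℝ, 0 < c ∧ ∀ x y : ℂ, ‖x‖ ≤ R → R' ≤ ‖y‖ → c ≤ d x y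

/-- `f` has a continuous logarithm on `A` -/
def HasLog (A : Set ℂ) (f : ℂ → ℂ) : Prop :=
  ∃ g : ℂ → ℂ, ContinuousOn g A ∧ ∀ z ∈ A, Complex.exp (g z) = f z

/-- `A` is an arc with ends `x` and `y` -/
def IsArc (A : Set ℂ) (x y : ℂ) : Prop :=
  ∃ f : ℝ → ℂ, ContinuousOn f (Icc 0 1) ∧ InjOn f (Icc 0 1) ∧ f '' (Icc 0 1) = A ∧
    f 0 = x ∧ f 1 = y

/-- `J` is a Jordan curve: the union of two arcs which have exactly their ends in common -/
def IsJordan (J : Set ℂ) : Prop :=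
  ∃ A B x y, x ≠ y ∧ IsArc A x y ∧ IsArc B x y ∧ A ∩ B = {x, y} ∧ A ∪ B = J

/-- the inside of a compact set: the union of the bounded components of its complement -/
def ins (J : Set ℂ) : Set ℂ :=
  {z | z ∉ J ∧ Bornology.IsBounded (connectedComponentIn Jᶜ z)}

/-- the outside of a compact set -/
def out (J : Set ℂ) : Set ℂ :=
  {z | z ∉ J ∧ ¬ Bornology.IsBounded (connectedComponentIn Jᶜ z)}

lemma Dec.nonneg {d : ℂ → ℂ → ℝ} (h : Dec d) (x y : ℂ) : 0 ≤ d x y := by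
  have h1 := h.tri x y x
  rw [h.self, h.symm y x] at h1
  linarith

lemma mem_cls_self {d : ℂ → ℂ → ℝ} (h : Dec d) (x : ℂ) : x ∈ cls d x := h.self x

lemma mem_Tr_iff {d : ℂ → ℂ → ℝ} (h : Dec d) (x : ℂ) : x ∈ Tr d ↔ cls d x = {x} := by
  constructor
  · intro hx
    ext y
    constructor
    · intro hy
      exact hx y hy
    · rintro rfl
      exact h.self _
  · intro hx y hy
    have : y ∈ cls d x := hy
    rw [hx] at this
    exact this

end CarT
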