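import Pool.Agent.CarT.JorA

/-!
# CarT/JorE : neighbourhoods in arcs and Jordan curves

* `jordan_nhds`: choose `p = g s ∈ J`, `p ∉ C`. Let `E = {t ∈ [s, s + 1] | g t ∈ C}`, compact, contained
  in `(s, s + 1)`; `g` is a homeomorphism of `E` onto `C` (continuous injective on a compact set), so `E`
  is preconnected (image of `C` under the inverse), so `E = [a, b]` with `s < a ≤ b < s + 1`
  (a compact preconnected nonempty set of reals is `[sInf E, sSup E]`). By compactness of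
  `[a, b]` (or continuity at `a` and `b`) there is `δ > 0` with `s < a - δ`, `b + δ < s + 1` and
  `g (a - δ, b + δ) ⊆ O`. Take `V = g '' (a - δ, b + δ)`; `J \ V = g '' [b + δ, a - δ + 1]`
  by periodicity and injectivity: compact and preconnected.
* `arc_nhds`: `C = {x}`, `x` an end: `V = f '' [0, δ)`, `A \ V = f '' [δ, 1]`.
* `arc_interior`: an arc has no interior point: if `ball p r ⊆ A`, then the set
  `E = {t ∈ [0,1] | f t ∈ ball p r}` is preconnected (homeomorphic to the ball: `f` is a homeomorphism of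
  `[0,1]` onto `A`), it is an interval with more than one point; remove a point `t0` of `E` which is
  neither the smallest nor the largest: `E \ {t0}` is not preconnected, but
  `ball p r \ {f t0}` is (punctured balls in the plane are connected: 
  `IsConnected.isConnected_compl_singleton_of_one_lt_rank`, `IsOpen.isConnected…` or
  `isPathConnected_compl_singleton…`; Mathlib: `IsPreconnected.…`/`Set.Countable.isPathConnected_compl_of_one_lt_rank`,
  `IsOpen.isPathConnected… diff countable`).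
* `arc_ne_jordan`: remove from the arc `A = f '' [0,1]` the point `f (1/2)`: the rest is not
  preconnected (`f` is a homeomorphism of `[0,1]` onto `A`); but a Jordan curve minus a point
  `g s` is `g '' (s, s + 1)`, preconnected.
-/

open Set Metric

namespace CarT

/-- the times at which an injective curve is in a preconnected subset of its trace -/
lemma preconn_times {f : ℝ → ℂ} {I : Set ℝ} (hI : IsCompact I) (hf : ContinuousOn f I)
    (hi : InjOn f I) {C : Set ℂ} (hC : IsPreconnected C) (hCI : C ⊆ f '' I) :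
    IsPreconnected {t | t ∈ I ∧ f t ∈ C} := by
  have : CompactSpace I := isCompact_iff_compactSpace.mp hI
  let F : I → ℂ := fun t => f t
  have hF : Continuous F := continuousOn_iff_continuous_domRestrict.mp hf
  have hinj : Function.Injective F := fun a b h => Subtype.ext (hi a.2 b.2 h)
  have hcl : IsClosedMap F := hF.isClosedMap
  have hsub : C ⊆ range F := by
    intro z hz
    obtain ⟨t, ht, rfl⟩ := hCI hz
    exact ⟨⟨t, ht⟩, rfl⟩
  have h1 := hC.preimage_of_isClosedMap hinj hcl hsub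
  have h2 := h1.image Subtype.val continuous_subtype_val.continuousOn
  convert h2 using 1
  ext t
  constructor
  · rintro ⟨ht, htC⟩
    exact ⟨⟨t, ht⟩, htC, rfl⟩
  · rintro ⟨⟨t', ht'⟩, hC', rfl⟩
    exact ⟨ht', hC'⟩

/-- a Jordan parametrisation is injective on every half open interval of length one -/
lemma injOn_shift {g : ℝ → ℂ} (hp : Function.Periodic g 1) (hi : InjOn g (Ico 0 1)) (s : ℝ) :
    InjOn g (Ico s (s + 1)) := by
  intro a ha b hb hab
  have fa : g (Int.fract a) = g a := by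
    have := hp.sub_zsmul_eq (x := a) ⌊a⌋
    rw [zsmul_eq_mul, mul_one] at this
    rw [← this]
    rfl
  have fb : g (Int.fract b) = g b := by
    have := hp.sub_zsmul_eq (x := b) ⌊b⌋
    rw [zsmul_eq_mul, mul_one] at this
    rw [← this]
    rfl
  have h1 : Int.fract a = Int.fract b :=
    hi ⟨Int.fract_nonneg a, Int.fract_lt_one a⟩ ⟨Int.fract_nonneg b, Int.fract_lt_one b⟩
      (by rw [fa, fb, hab])
  have h2 : a - b = ((⌊a⌋ - ⌊b⌋ : ℤ) : ℝ) := by
    have e1 := Int.fract_add_floor a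
    have e2 := Int.fract_add_floor b
    push_cast
    linarith
  have h3 : |((⌊a⌋ - ⌊b⌋ : ℤ) : ℝ)| < 1 := by
    rw [← h2, abs_lt]
    constructor
    · linarith [ha.1, hb.2]
    · linarith [ha.2, hb.1]
  have h4 : |(⌊a⌋ - ⌊b⌋ : ℤ)| < 1 := by exact_mod_cast h3
  have h5 : (⌊a⌋ - ⌊b⌋ : ℤ) = 0 := Int.abs_lt_one_iff.mp h4
  rw [h5] at h2
  simp at h2
  linarith

lemma image_shift {g : ℝ → ℂ} (hp : Function.Periodic g 1) (s : ℝ) :
    g '' (Ico s (s + 1)) = range g := by
  apply Subset.antisymm (image_subset_range _ _)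
  rintro _ ⟨t, rfl⟩
  obtain ⟨y, hy, hy'⟩ := hp.exists_mem_Ico zero_lt_one t s
  exact ⟨y, hy, hy'.symm⟩

theorem jordan_nhds {J C O : Set ℂ} (hJ : IsJordan J) (hC : IsCompact C)
    (hCc : IsPreconnected C) (hCn : C.Nonempty) (hCJ : C ⊆ J) (hne : C ≠ J) (hO : IsOpen O)
    (hCO : C ⊆ O) :
    ∃ V : Set ℂ, C ⊆ V ∧ V ⊆ J ∩ O ∧ IsPreconnected V ∧ IsCompact (J \ V) ∧
      IsPreconnected (J \ V) := by
  obtain ⟨g, hg, hp, hi, hr⟩ := hJ
  obtain ⟨p, hpJ, hpC⟩ : ∃ p ∈ J, p ∉ C := by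
    by_contra hcon
    push Not at hcon
    exact hne (Subset.antisymm hCJ hcon)
  rw [← hr] at hpJ
  obtain ⟨s, rfl⟩ := hpJ
  have his := injOn_shift hp hi s
  have hims := image_shift hp s
  set E : Set ℝ := {t | t ∈ Icc s (s + 1) ∧ g t ∈ C} with hE
  have hEc : IsCompact E := by
    have : E = Icc s (s + 1) ∩ g ⁻¹' C := rfl
    rw [this]
    exact isCompact_Icc.inter_right (hC.isClosed.preimage hg)
  have hEn : E.Nonempty := by
    obtain ⟨z, hz⟩ := hCn
    have : z ∈ range g := by rw [hr]; exact hCJ hz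
    rw [← hims] at this
    obtain ⟨t, ht, rfl⟩ := this
    exact ⟨t, ⟨ht.1, ht.2.le⟩, hz⟩
  have hEI : ∀ t ∈ E, s < t ∧ t < s + 1 := by
    rintro t ⟨⟨h1, h2⟩, h3⟩
    refine ⟨lt_of_le_of_ne h1 ?_, lt_of_le_of_ne h2 ?_⟩
    · rintro rfl
      exact hpC h3
    · rintro rfl
      rw [hp s] at h3
      exact hpC h3
  set a := sInf E
  set b := sSup E
  have haE : a ∈ E := hEc.sInf_mem hEn
  have hbE : b ∈ E := hEc.sSup_mem hEn
  have hab : ∀ t ∈ E, a ≤ t ∧ t ≤ b := fun t ht =>
    ⟨csInf_le hEc.bddBelow ht, le_csSup hEc.bddAbove ht⟩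
  have hIsub : Icc a b ⊆ Ico s (s + 1) := fun t ht =>
    ⟨(hEI a haE).1.le.trans ht.1, ht.2.trans_lt (hEI b hbE).2⟩
  have hpre : IsPreconnected {t | t ∈ Icc a b ∧ g t ∈ C} := by
    refine preconn_times isCompact_Icc hg.continuousOn (his.mono hIsub) hCc ?_
    intro z hz
    have : z ∈ range g := by rw [hr]; exact hCJ hz
    rw [← hims] at this
    obtain ⟨t, ht, rfl⟩ := this
    exact ⟨t, hab t ⟨⟨ht.1, ht.2.le⟩, hz⟩, rfl⟩
  have hIcc : ∀ t ∈ Icc a b, g t ∈ C := by
    intro t ht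
    have h1 := hpre.ordConnected.out (x := a) (y := b) ⟨⟨le_rfl, (hab a haE).2⟩, haE.2⟩
      ⟨⟨(hab a haE).2, le_rfl⟩, hbE.2⟩ ht
    exact h1.2
  have hOa : g ⁻¹' O ∈ nhds a := (hO.preimage hg).mem_nhds (hCO haE.2)
  have hOb : g ⁻¹' O ∈ nhds b := (hO.preimage hg).mem_nhds (hCO hbE.2)
  obtain ⟨d1, hd1, hd1'⟩ := Metric.mem_nhds_iff.mp hOa
  obtain ⟨d2, hd2, hd2'⟩ := Metric.mem_nhds_iff.mp hOb
  obtain ⟨δ, hδ0, hδ⟩ : ∃ δ > 0, δ < d1 ∧ δ < d2 ∧ δ < a - s ∧ δ < s + 1 - b := by
    have h1 : 0 < a - s := by linarith [(hEI a haE).1]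
    have h2 : 0 < s + 1 - b := by linarith [(hEI b hbE).2]
    refine ⟨min (min d1 d2) (min (a - s) (s + 1 - b)) / 2, by positivity, ?_, ?_, ?_, ?_⟩
    all_goals
      have h3 : min (min d1 d2) (min (a - s) (s + 1 - b)) ≤ d1 :=
        (min_le_left _ _).trans (min_le_left _ _)
      have h4 : min (min d1 d2) (min (a - s) (s + 1 - b)) ≤ d2 :=
        (min_le_left _ _).trans (min_le_right _ _)
      have h5 : min (min d1 d2) (min (a - s) (s + 1 - b)) ≤ a - s :=
        (min_le_right _ _).trans (min_le_left _ _)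
      have h6 : min (min d1 d2) (min (a - s) (s + 1 - b)) ≤ s + 1 - b :=
        (min_le_right _ _).trans (min_le_right _ _)
      linarith
  obtain ⟨h1, h2, h3, h4⟩ := hδ
  have hVO : ∀ t ∈ Ioo (a - δ) (b + δ), g t ∈ O := by
    rintro t ⟨ht1, ht2⟩
    by_cases hta : t < a
    · apply hd1'
      rw [Metric.mem_ball, Real.dist_eq, abs_lt]
      constructor <;> linarith
    · by_cases htb : b < t
      · apply hd2'
        rw [Metric.mem_ball, Real.dist_eq, abs_lt]
        constructor <;> linarith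
      · exact hCO (hIcc t ⟨not_lt.mp hta, not_lt.mp htb⟩)
  have hdiff : J \ (g '' Ioo (a - δ) (b + δ)) = g '' Icc (b + δ) (a - δ + 1) := by
    ext z
    constructor
    · rintro ⟨hzJ, hzV⟩
      rw [← hr, ← hims] at hzJ
      obtain ⟨t, ht, rfl⟩ := hzJ
      by_cases h5 : b + δ ≤ t
      · exact ⟨t, ⟨h5, by linarith [ht.2]⟩, rfl⟩
      · have h6 : t ≤ a - δ := by
          by_contra h7
          exact hzV ⟨t, ⟨not_le.mp h7, not_le.mp h5⟩, rfl⟩
        refine ⟨t + 1, ⟨by linarith [ht.1], by linarith⟩, hp t⟩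
    · rintro ⟨t, ht, rfl⟩
      refine ⟨by rw [← hr]; exact mem_range_self t, ?_⟩
      rintro ⟨t', ht', heq⟩
      have ht'2 : t' ∈ Ico s (s + 1) := ⟨by linarith [ht'.1], by linarith [ht'.2]⟩
      by_cases h5 : t < s + 1
      · have h6 : t' = t := his ht'2 ⟨by linarith [ht.1, (hab a haE).2], h5⟩ heq
        linarith [ht'.2, ht.1]
      · have h6 : g (t - 1) = g t := by
          have := hp (t - 1)
          rw [sub_add_cancel] at this
          exact this.symm
        have h7 : t' = t - 1 := his ht'2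
          ⟨by linarith, by linarith [ht.2, (hEI a haE).2]⟩ (by rw [h6]; exact heq)
        linarith [ht'.1, ht.2]
  refine ⟨g '' Ioo (a - δ) (b + δ), ?_, ?_, ?_, ?_, ?_⟩
  · intro z hz
    have : z ∈ range g := by rw [hr]; exact hCJ hz
    rw [← hims] at this
    obtain ⟨t, ht, rfl⟩ := this
    have h5 := hab t ⟨⟨ht.1, ht.2.le⟩, hz⟩
    exact ⟨t, ⟨by linarith, by linarith⟩, rfl⟩
  · rintro _ ⟨t, ht, rfl⟩
    exact ⟨by rw [← hr]; exact mem_range_self t, hVO t ht⟩
  · exact isPreconnected_Ioo.image g hg.continuousOn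
  · rw [hdiff]
    exact isCompact_Icc.image hg
  · rw [hdiff]
    exact isPreconnected_Icc.image g hg.continuousOn

theorem arc_nhds {A O : Set ℂ} {x y : ℂ} (hA : IsArc A x y) (hO : IsOpen O) (hx : x ∈ O) :
    ∃ V : Set ℂ, x ∈ V ∧ V ⊆ A ∩ O ∧ IsPreconnected V ∧ IsCompact (A \ V) ∧
      IsPreconnected (A \ V) := by
  obtain ⟨f, hf, hi, rfl, rfl, -⟩ := hA
  have h0 : f ⁻¹' O ∈ nhdsWithin 0 (Icc (0 : ℝ) 1) :=
    (hf 0 (by norm_num)) (hO.mem_nhds hx)
  obtain ⟨ε, hε, hε'⟩ := Metric.mem_nhdsWithin_iff.mp h0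
  set δ := min ε 1 / 2 with hδ
  have hδ0 : 0 < δ := by positivity
  have hδ1 : δ < ε := by
    have := min_le_left ε 1
    linarith
  have hδ2 : δ < 1 := by
    have := min_le_right ε 1
    linarith
  have hdiff : (f '' Icc 0 1) \ (f '' Ico 0 δ) = f '' Icc δ 1 := by
    ext z
    constructor
    · rintro ⟨⟨t, ht, rfl⟩, hz⟩
      refine ⟨t, ⟨?_, ht.2⟩, rfl⟩
      by_contra h
      exact hz ⟨t, ⟨ht.1, not_le.mp h⟩, rfl⟩
    · rintro ⟨t, ht, rfl⟩
      refine ⟨⟨t, ⟨hδ0.le.trans ht.1, ht.2⟩, rfl⟩, ?_⟩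
      rintro ⟨t', ht', heq⟩
      have := hi ⟨ht'.1, (ht'.2.trans hδ2).le⟩ ⟨hδ0.le.trans ht.1, ht.2⟩ heq
      rw [this] at ht'
      exact absurd ht'.2 (not_lt.mpr ht.1)
  refine ⟨f '' Ico 0 δ, ⟨0, ⟨le_rfl, hδ0⟩, rfl⟩, ?_, ?_, ?_, ?_⟩
  · rintro _ ⟨t, ht, rfl⟩
    refine ⟨⟨t, ⟨ht.1, (ht.2.trans hδ2).le⟩, rfl⟩, ?_⟩
    apply hε'
    refine ⟨?_, ⟨ht.1, (ht.2.trans hδ2).le⟩⟩
    rw [Metric.mem_ball, Real.dist_eq, sub_zero, abs_of_nonneg ht.1]
    exact ht.2.trans hδ1
  · refine isPreconnected_Ico.image f (hf.mono ?_)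
    intro t ht
    exact ⟨ht.1, (ht.2.trans hδ2).le⟩
  · rw [hdiff]
    refine isCompact_Icc.image_of_continuousOn (hf.mono ?_)
    intro t ht
    exact ⟨hδ0.le.trans ht.1, ht.2⟩
  · rw [hdiff]
    refine isPreconnected_Icc.image f (hf.mono ?_)
    intro t ht
    exact ⟨hδ0.le.trans ht.1, ht.2⟩

/-- the image of a subset of `[0, 1]` under a continuous injective map of `[0,1]` into a Jordan
curve is not the whole curve -/
theorem arc_ne_jordan {J A : Set ℂ} {x y : ℂ} (hJ : IsJordan J) (hA : IsArc A x y) : A ≠ J := by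
  rintro rfl
  obtain ⟨g, hg, hp, hig, hr⟩ := hJ
  obtain ⟨f, hf, hi, hfA, -, -⟩ := hA
  have h1 : f (1 / 2) ∈ range g := by
    rw [hr, ← hfA]
    exact ⟨1 / 2, by norm_num, rfl⟩
  obtain ⟨s, hs⟩ := h1
  have his := injOn_shift hp hig s
  have hims := image_shift hp s
  have hC : IsPreconnected (g '' Ioo s (s + 1)) := isPreconnected_Ioo.image g hg.continuousOn
  have hsub : g '' Ioo s (s + 1) ⊆ f '' Icc 0 1 := by
    rw [hfA, ← hr]
    exact image_subset_range _ _
  have h2 := preconn_times isCompact_Icc hf hi hC hsub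
  have hmem : ∀ t ∈ Icc (0 : ℝ) 1, t ≠ 1 / 2 → f t ∈ g '' Ioo s (s + 1) := by
    intro t ht hne
    have h3 : f t ∈ range g := by
      rw [hr, ← hfA]
      exact ⟨t, ht, rfl⟩
    rw [← hims] at h3
    obtain ⟨u, hu, hu'⟩ := h3
    refine ⟨u, ⟨lt_of_le_of_ne hu.1 ?_, hu.2⟩, hu'⟩
    rintro rfl
    apply hne
    exact hi ht (by norm_num) (by rw [← hu', hs])
  have h3 := h2.ordConnected.out (x := 0) (y := 1)
    ⟨by norm_num, hmem 0 (by norm_num) (by norm_num)⟩
    ⟨by norm_num, hmem 1 (by norm_num) (by norm_num)⟩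
    (show (1 / 2 : ℝ) ∈ Icc 0 1 by norm_num)
  obtain ⟨u, hu, hu'⟩ := h3.2
  have h4 := his ⟨hu.1.le, hu.2⟩ ⟨le_rfl, by linarith⟩ (hu'.trans hs.symm)
  exact absurd hu.1 (by rw [h4]; exact lt_irrefl _)

/-- a circle is a Jordan curve -/
lemma isJordan_sphere (p : ℂ) {ρ : ℝ} (hρ : 0 < ρ) : IsJordan (sphere p ρ) := by
  have hπ := Real.pi_pos
  refine ⟨fun t => circleMap p ρ (2 * Real.pi * t), ?_, ?_, ?_, ?_⟩
  · exact (continuous_circleMap p ρ).comp (by fun_prop)
  · intro t
    have h1 : 2 * Real.pi * (t + 1) = 2 * Real.pi * t + 2 * Real.pi := by ring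
    simp only
    rw [h1]
    exact periodic_circleMap p ρ _
  · intro s hs t ht hst
    have h1 := injOn_circleMap_of_abs_sub_le' (c := p) (a := 0) (b := 2 * Real.pi) hρ.ne'
      (by linarith) (x₁ := 2 * Real.pi * s) (x₂ := 2 * Real.pi * t)
      ⟨by have := hs.1; positivity, by nlinarith [hs.2]⟩
      ⟨by have := ht.1; positivity, by nlinarith [ht.2]⟩ hst
    exact mul_left_cancel₀ (by positivity) h1
  · have h1 : range (fun t : ℝ => circleMap p ρ (2 * Real.pi * t)) = range (circleMap p ρ) := by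
      ext z
      constructor
      · rintro ⟨t, rfl⟩
        exact ⟨_, rfl⟩
      · rintro ⟨t, rfl⟩
        refine ⟨t / (2 * Real.pi), ?_⟩
        simp only
        congr 1
        field_simp
    rw [h1, range_circleMap, abs_of_pos hρ]

theorem arc_interior {A : Set ℂ} {x y : ℂ} (hA : IsArc A x y) : interior A = ∅ := by
  obtain ⟨f, hf, hi, rfl, -, -⟩ := hA
  by_contra hcon
  obtain ⟨p, hp⟩ := Set.nonempty_iff_ne_empty.mpr hcon
  rw [mem_interior_iff_mem_nhds, Metric.mem_nhds_iff] at hp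
  obtain ⟨r, hr, hball⟩ := hp
  have hsub : sphere p (r / 2) ⊆ f '' Icc 0 1 := by
    intro z hz
    apply hball
    rw [mem_sphere] at hz
    rw [Metric.mem_ball, hz]
    linarith
  have hJ := isJordan_sphere p (half_pos hr)
  have hS : IsPreconnected (sphere p (r / 2)) := by
    obtain ⟨g, hg, -, -, hrg⟩ := hJ
    rw [← hrg]
    exact isPreconnected_range hg
  have h1 := preconn_times isCompact_Icc hf hi hS hsub
  set E : Set ℝ := {t | t ∈ Icc (0 : ℝ) 1 ∧ f t ∈ sphere p (r / 2)} with hE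
  have hEc : IsCompact E := by
    have h2 : IsClosed (Icc (0 : ℝ) 1 ∩ f ⁻¹' sphere p (r / 2)) :=
      hf.preimage_isClosed_of_isClosed isClosed_Icc isClosed_sphere
    exact isCompact_Icc.of_isClosed_subset h2 inter_subset_left
  have hz1 : p + (r / 2 : ℝ) ∈ sphere p (r / 2) := by
    rw [mem_sphere, Complex.dist_eq, add_sub_cancel_left, Complex.norm_real, Real.norm_eq_abs,
      abs_of_pos (by positivity)]
  have hz2 : p - (r / 2 : ℝ) ∈ sphere p (r / 2) := by
    rw [mem_sphere, Complex.dist_eq, sub_sub_cancel_left, norm_neg, Complex.norm_real,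
      Real.norm_eq_abs, abs_of_pos (by positivity)]
  obtain ⟨t1, ht1, e1⟩ := hsub hz1
  obtain ⟨t2, ht2, e2⟩ := hsub hz2
  have ht1E : t1 ∈ E := ⟨ht1, by rw [e1]; exact hz1⟩
  have ht2E : t2 ∈ E := ⟨ht2, by rw [e2]; exact hz2⟩
  have h12 : t1 ≠ t2 := by
    rintro rfl
    rw [e1] at e2
    have h3 : ((r / 2 : ℝ) : ℂ) = -((r / 2 : ℝ) : ℂ) := by linear_combination e2
    have h4 : (r / 2 : ℝ) = -(r / 2) := by exact_mod_cast h3
    linarith
  set a := sInf E
  set b := sSup E
  have haE : a ∈ E := hEc.sInf_mem ⟨t1, ht1E⟩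
  have hbE : b ∈ E := hEc.sSup_mem ⟨t1, ht1E⟩
  have hbd : ∀ t ∈ E, a ≤ t ∧ t ≤ b := fun t ht =>
    ⟨csInf_le hEc.bddBelow ht, le_csSup hEc.bddAbove ht⟩
  have hab : a < b := by
    rcases lt_or_gt_of_ne h12 with h | h
    · exact (hbd t1 ht1E).1.trans_lt (h.trans_le (hbd t2 ht2E).2)
    · exact (hbd t2 ht2E).1.trans_lt (h.trans_le (hbd t1 ht1E).2)
  have hEI : E = Icc a b := by
    apply Subset.antisymm
    · exact fun t ht => hbd t ht
    · exact h1.ordConnected.out haE hbE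
  have harc : IsArc (sphere p (r / 2)) (f a) (f b) := by
    refine ⟨fun t => f (a + (b - a) * t), ?_, ?_, ?_, ?_, ?_⟩
    · refine hf.comp (by fun_prop) ?_
      intro t ht
      have h5 : a + (b - a) * t ∈ E := by
        rw [hEI]
        constructor
        · nlinarith [ht.1]
        · nlinarith [ht.2]
      exact h5.1
    · intro s hs t ht hst
      have h5 : ∀ u ∈ Icc (0 : ℝ) 1, a + (b - a) * u ∈ Icc (0 : ℝ) 1 := by
        intro u hu
        have h6 : a + (b - a) * u ∈ E := by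
          rw [hEI]
          constructor
          · nlinarith [hu.1]
          · nlinarith [hu.2]
        exact h6.1
      have h7 := hi (h5 s hs) (h5 t ht) hst
      have h8 : (b - a) * s = (b - a) * t := by linarith
      exact mul_left_cancel₀ (by linarith : (b - a) ≠ 0) h8
    · ext z
      constructor
      · rintro ⟨t, ht, rfl⟩
        have h5 : a + (b - a) * t ∈ E := by
          rw [hEI]
          constructor
          · nlinarith [ht.1]
          · nlinarith [ht.2]
        exact h5.2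
      · intro hz
        obtain ⟨t, ht, rfl⟩ := hsub hz
        have h5 : t ∈ E := ⟨ht, hz⟩
        rw [hEI] at h5
        refine ⟨(t - a) / (b - a), ⟨?_, ?_⟩, ?_⟩
        · exact div_nonneg (by linarith [h5.1]) (by linarith)
        · rw [div_le_one (by linarith)]
          linarith [h5.2]
        · simp only
          congr 1
          have h6 : b - a ≠ 0 := by linarith
          field_simp
          ring
    · simp
    · simp
  exact arc_ne_jordan hJ harc rfl

end CarT
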