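import Pool.Agent.CarT.LogC
import Pool.Agent.CarT.JorC
import Pool.Agent.CarT.JorD
import Pool.Agent.CarT.JorE

/-!
# CarT/EarA : good neighbourhoods

* `exists_U`: `h.nbhd` gives an open saturated `G`, `C ⊆ G ⊆ O ∩ W`. `jordan_nhds` (with `G` instead of
  `O`) gives `V`, `C ⊆ V ⊆ J ∩ G`, `V` preconnected, `J \ V` compact and preconnected. Put
  `G₁ = G \ (J \ V)`: open, saturated (`sat_diff`), contains `V`. Let `U` be the component of `G₁` containing
  a point of `C`: open (`IsOpen.connectedComponentIn`), saturated (`sat_comp`), `V ⊆ U` (`V` is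
  preconnected and contained in `G₁`). `J ∩ U ⊆ J ∩ G₁ ⊆ V`, so `J \ U = J \ V`.
* `exists_U_arc`: the same with `arc_nhds` at the end `x` of the arc.
* `inter_ins_preconn`: for `x, y ∈ U ∩ ins J`: `ins J` is open (`isOpen_ins`) and preconnected
  (`ins_preconn`), so path connected, so `x, y` are joined in `ins J ⊆ Jᶜ`. `janis_open` (with `A = J`): they
  are joined in `U \ J`; the image of the path is connected, off `J` and meets `ins J`, so it is
  in `ins J` (`subset_ins`). So every two points of `U ∩ ins J` lie in a preconnected subset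
  (`isPreconnected_of_forall_pair`).
* `diff_arc_preconn`: the same with `arc_compl`: for `x, y ∈ U \ A`, joined in `Aᶜ`, so by `janis_open` in
  `U \ A`.
* `near_ins`: `jordan_closure_ins`. `near_arc`: `arc_interior`.
-/

open Set Metric

namespace CarT

/-- the common construction for `exists_U` and `exists_U_arc` -/
private theorem U_of_V {W T : Set ℂ} {c : ℂ → Set ℂ} (h : Sys W T c) {J G V O : Set ℂ}
    (hJT : J ⊆ T) (hG : IsOpen G) (hGs : IsSat c G) (hGO : G ⊆ O) (hGW : G ⊆ W)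
    (hVn : V.Nonempty) (hVJ : V ⊆ J ∩ G) (hVp : IsPreconnected V) (hc : IsCompact (J \ V))
    (hp : IsPreconnected (J \ V)) :
    ∃ U : Set ℂ, IsOpen U ∧ IsSat c U ∧ IsPreconnected U ∧ V ⊆ U ∧ U ⊆ O ∧ U ⊆ W ∧
      IsPreconnected (J \ U) := by
  obtain ⟨v, hv⟩ := hVn
  have hV1 : V ⊆ G \ (J \ V) := fun z hz => ⟨(hVJ hz).2, fun h1 => h1.2 hz⟩
  have hVU : V ⊆ connectedComponentIn (G \ (J \ V)) v := hVp.subset_connectedComponentIn hv hV1
  have hUs : connectedComponentIn (G \ (J \ V)) v ⊆ G \ (J \ V) := connectedComponentIn_subset _ _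
  have hsat : IsSat c (G \ (J \ V)) := sat_diff h hGs hGW (diff_subset.trans hJT)
  refine ⟨connectedComponentIn (G \ (J \ V)) v, (hG.sdiff hc.isClosed).connectedComponentIn,
    sat_comp h hsat (diff_subset.trans hGW) v, isPreconnected_connectedComponentIn, hVU,
    fun z hz => hGO (hUs hz).1, fun z hz => hGW (hUs hz).1, ?_⟩
  have he : J \ connectedComponentIn (G \ (J \ V)) v = J \ V := by
    ext z
    constructor
    · rintro ⟨h1, h2⟩
      exact ⟨h1, fun h3 => h2 (hVU h3)⟩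
    · rintro ⟨h1, h2⟩
      exact ⟨h1, fun h3 => (hUs h3).2 ⟨h1, h2⟩⟩
  rw [he]
  exact hp

theorem exists_U {W T : Set ℂ} {c : ℂ → Set ℂ} (h : Sys W T c) {J C O : Set ℂ}
    (hJ : IsJordan J) (hJT : J ⊆ T) (hC : IsCompact C) (hCc : IsPreconnected C)
    (hCn : C.Nonempty) (hCJ : C ⊆ J) (hne : C ≠ J) (hO : IsOpen O) (hCO : C ⊆ O) :
    ∃ U : Set ℂ, IsOpen U ∧ IsSat c U ∧ IsPreconnected U ∧ C ⊆ U ∧ U ⊆ O ∧ U ⊆ W ∧
      IsPreconnected (J \ U) := by
  obtain ⟨G, hG, hGs, hCG, hGO, hGW⟩ := h.nbhd C O hC (hCJ.trans hJT) hO hCO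
  obtain ⟨V, hCV, hVJ, hVp, hVc, hVp2⟩ := jordan_nhds hJ hC hCc hCn hCJ hne hG hCG
  obtain ⟨U, h1, h2, h3, h4, h5, h6, h7⟩ :=
    U_of_V h hJT hG hGs hGO hGW (hCn.mono hCV) hVJ hVp hVc hVp2
  exact ⟨U, h1, h2, h3, hCV.trans h4, h5, h6, h7⟩

theorem exists_U_arc {W T : Set ℂ} {c : ℂ → Set ℂ} (h : Sys W T c) {A O : Set ℂ} {x y : ℂ}
    (hA : IsArc A x y) (hAT : A ⊆ T) (hO : IsOpen O) (hx : x ∈ O) :
    ∃ U : Set ℂ, IsOpen U ∧ IsSat c U ∧ IsPreconnected U ∧ x ∈ U ∧ U ⊆ O ∧ U ⊆ W ∧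
      IsPreconnected (A \ U) := by
  obtain ⟨G, hG, hGs, hCG, hGO, hGW⟩ := h.nbhd {x} O isCompact_singleton
    (singleton_subset_iff.2 (hAT hA.left_mem)) hO (singleton_subset_iff.2 hx)
  obtain ⟨V, hCV, hVJ, hVp, hVc, hVp2⟩ := arc_nhds hA hG (hCG (mem_singleton x))
  obtain ⟨U, h1, h2, h3, h4, h5, h6, h7⟩ :=
    U_of_V h hAT hG hGs hGO hGW ⟨x, hCV⟩ hVJ hVp hVc hVp2
  exact ⟨U, h1, h2, h3, h4 hCV, h5, h6, h7⟩

theorem inter_ins_preconn {J U : Set ℂ} (hJ : IsJordan J) (hU : IsOpen U)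
    (hUb : Bornology.IsBounded U) (hUc : IsPreconnected U) (hJU : IsPreconnected (J \ U)) :
    IsPreconnected (U ∩ ins J) := by
  apply isPreconnected_of_forall_pair
  rintro x ⟨hxU, hxi⟩ y ⟨hyU, hyi⟩
  have hpc : IsPathConnected (ins J) :=
    (isOpen_ins hJ.isCompact).isConnected_iff_isPathConnected.mp ⟨⟨x, hxi⟩, ins_preconn hJ⟩
  have h1 : JoinedIn Jᶜ x y := (hpc.joinedIn x hxi y hyi).mono fun z hz => hz.1
  obtain ⟨γ, hγ⟩ := janis_open hJ.isCompact hU hUb hUc hJU hxU hyU h1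
  have hpre : IsPreconnected (range γ) := isPreconnected_range γ.continuous
  have hd : Disjoint (range γ) J := by
    rw [Set.disjoint_left]
    rintro _ ⟨t, rfl⟩ h2
    exact (hγ t).2 h2
  have hsub : range γ ⊆ ins J := subset_ins hpre hd ⟨x, ⟨0, γ.source⟩, hxi⟩
  refine ⟨range γ, ?_, ⟨0, γ.source⟩, ⟨1, γ.target⟩, hpre⟩
  rintro _ ⟨t, rfl⟩
  exact ⟨(hγ t).1, hsub ⟨t, rfl⟩⟩

theorem diff_arc_preconn {A U : Set ℂ} {x y : ℂ} (hA : IsArc A x y) (hU : IsOpen U)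
    (hUb : Bornology.IsBounded U) (hUc : IsPreconnected U) (hAU : IsPreconnected (A \ U)) :
    IsPreconnected (U \ A) := by
  apply isPreconnected_of_forall_pair
  rintro u ⟨huU, huA⟩ v ⟨hvU, hvA⟩
  obtain ⟨γ, hγ⟩ := janis_open hA.isCompact hU hUb hUc hAU huU hvU (arc_compl hA huA hvA)
  refine ⟨range γ, ?_, ⟨0, γ.source⟩, ⟨1, γ.target⟩, isPreconnected_range γ.continuous⟩
  rintro _ ⟨t, rfl⟩
  exact hγ t

theorem near_ins {J U : Set ℂ} (hJ : IsJordan J) (hU : IsOpen U) {p : ℂ} (hp : p ∈ J)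
    (hpU : p ∈ U) : (U ∩ ins J).Nonempty :=
  mem_closure_iff.1 (jordan_closure_ins hJ hp) U hU hpU

theorem near_arc {A U : Set ℂ} {x y : ℂ} (hA : IsArc A x y) (hU : IsOpen U) (hUn : U.Nonempty) :
    (U \ A).Nonempty := by
  by_contra hcon
  rw [Set.not_nonempty_iff_eq_empty, Set.diff_eq_empty] at hcon
  obtain ⟨u, hu⟩ := hUn
  have h1 : u ∈ interior A := interior_maximal hcon hU hu
  rw [arc_interior hA] at h1
  exact h1

end CarT
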