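import Pool.Agent.CarT.EarA
import Pool.Agent.CarT.Acc

/-!
# CarT/EarT : a path in the inside following an injective path in a Jordan curve

`J ⊆ T` is a Jordan curve, `π : [0,1] → J` is continuous and injective, `ε > 0`.
Let `n ≥ 2` be such that `dist (π s) (π t) < ε / 2` for `|s - t| ≤ 1 / n` (uniform continuity). For
`i < n` let `C i = π '' [i/n, (i+1)/n]` and `O i = thickening (ε/2) (C i)` (open, bounded). `C i` is an arc
(reparametrise), so `C i ≠ J` (`arc_ne_jordan`). `exists_U` gives `U i`. Put `D i = U i ∩ ins J`: open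
(`isOpen_ins`), saturated (`ins_sat`, `sat_inter`), preconnected (`inter_ins_preconn`), contained in `W`.

Points: `x 0 = π 0`, `x i = π 1` for `i ≥ n`, and for `0 < i < n` a point
`x i ∈ U (i-1) ∩ U i ∩ ins J ∩ T`: the open set `U (i-1) ∩ U i` contains `π (i/n) ∈ J`, so it meets
`ins J` (`near_ins`), and `h.dense` applies.

Let `S i = ((ins J ∩ T) ∪ {π 0, π 1}) ∩ O i` for `i < n`, `S i = {π 1}` for `i ≥ n`. Then `x i` and `x (i+1)`
are joined in `S i`:
* `0 < i`, `i + 1 < n`: both are in `D i ∩ T`, `h.path`.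
* `i = 0` (`n ≥ 2`): `access` for `D 0` at `p = π 0`, `x 1 ∈ D 0 ∩ T`, joins them in `(D 0 ∩ T) ∪ {π 0}`.
  Hypothesis of `access`: for `r > 0` use `exists_U` for `C = {π 0}` (`≠ J`, since `π 1 ∈ J`) and
  `O = ball (π 0) r ∩ U 0`; `U ∩ D 0 = U ∩ ins J` is preconnected (`inter_ins_preconn`) and
  nonempty (`near_ins`).
* `i = n - 1`: in the same way at `π 1`, reversed (`JoinedIn.symm`).
`concat_seq` gives `γ₀`; put `γ t = γ₀ (n t)`. For `t ∈ [0,1]` choose `i < n` with
`i ≤ n t ≤ i + 1`: `γ t ∈ S i ⊆ O i`, so there is `s ∈ [i/n, (i+1)/n]` with `dist (γ t) (π s) < ε/2`, and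
`dist (π s) (π t) < ε / 2`.
-/

open Set Metric

namespace CarT

theorem EarT_access {W T : Set ℂ} {c : ℂ → Set ℂ} (h : Sys W T c) {J : Set ℂ} (hJ : IsJordan J)
    (hJT : J ⊆ T) {U : Set ℂ} (hU : IsOpen U) (hUs : IsSat c U) (hUc : IsPreconnected U)
    (hUW : U ⊆ W) (hUb : Bornology.IsBounded U) (hJU : IsPreconnected (J \ U)) {p q : ℂ}
    (hp : p ∈ J) (hq : q ∈ J) (hpq : q ≠ p) (hpU : p ∈ U) {x : ℂ} (hx : x ∈ (U ∩ ins J) ∩ T) :
    JoinedIn (((U ∩ ins J) ∩ T) ∪ {p}) p x := by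
  refine access h (hU.inter (isOpen_ins hJ.isCompact))
    (sat_inter hUs (ins_sat h hJ.isCompact hJT)) (inter_subset_left.trans hUW)
    (inter_ins_preconn hJ hU hUb hUc hJU) ?_ hx
  intro r hr
  have hne : ({p} : Set ℂ) ≠ J := by
    intro h1
    rw [← h1] at hq
    exact hpq hq
  obtain ⟨U', h1, h2, h3, h4, h5, h6, h7⟩ := exists_U h hJ hJT (C := {p}) (O := ball p r ∩ U)
    isCompact_singleton isPreconnected_singleton (singleton_nonempty p)
    (singleton_subset_iff.2 hp) hne (isOpen_ball.inter hU)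
    (singleton_subset_iff.2 ⟨mem_ball_self hr, hpU⟩)
  have hpU' : p ∈ U' := h4 rfl
  have heq : U' ∩ (U ∩ ins J) = U' ∩ ins J := by
    ext z
    constructor
    · rintro ⟨z1, -, z2⟩
      exact ⟨z1, z2⟩
    · rintro ⟨z1, z2⟩
      exact ⟨z1, (h5 z1).2, z2⟩
  refine ⟨U', h1, h2, hpU', h5.trans inter_subset_left, h6, ?_, ?_⟩
  · rw [heq]
    exact inter_ins_preconn hJ h1 (hUb.subset (h5.trans inter_subset_right)) h3 h7
  · rw [heq]
    exact near_ins hJ h1 hp hpU'

/-- the vertices of the polygon of points -/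
noncomputable def EarT_x (n : ℕ) (π : ℝ → ℂ) (y : ℕ → ℂ) : ℕ → ℂ
  | 0 => π 0
  | (i + 1) => if i + 1 < n then y i else π 1

theorem track_path {W T : Set ℂ} {c : ℂ → Set ℂ} (h : Sys W T c) {J : Set ℂ} (hJ : IsJordan J)
    (hJT : J ⊆ T) {π : ℝ → ℂ} (hπ : ContinuousOn π (Icc 0 1)) (hπi : InjOn π (Icc 0 1))
    (hπJ : MapsTo π (Icc 0 1) J) {ε : ℝ} (hε : 0 < ε) :
    ∃ γ : ℝ → ℂ, ContinuousOn γ (Icc 0 1) ∧ γ 0 = π 0 ∧ γ 1 = π 1 ∧
      (∀ t ∈ Icc (0 : ℝ) 1, γ t ∈ (ins J ∩ T) ∪ {π 0, π 1}) ∧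
      ∀ t ∈ Icc (0 : ℝ) 1, dist (γ t) (π t) < ε := by
  classical
  have hJc := hJ.isCompact
  have h0J : π 0 ∈ J := hπJ ⟨le_rfl, zero_le_one⟩
  have h1J : π 1 ∈ J := hπJ ⟨zero_le_one, le_rfl⟩
  have h01 : π 0 ≠ π 1 := by
    intro h1
    have := hπi ⟨le_rfl, zero_le_one⟩ ⟨zero_le_one, le_rfl⟩ h1
    exact zero_ne_one this
  -- uniform continuity
  obtain ⟨δ, hδ, huc⟩ := Metric.uniformContinuousOn_iff.1
    (isCompact_Icc.uniformContinuousOn_of_continuous hπ) (ε / 2) (by positivity)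
  obtain ⟨m, hm⟩ := exists_nat_gt (1 / δ)
  obtain ⟨n, hn2, hnδ⟩ : ∃ n : ℕ, 2 ≤ n ∧ (1 : ℝ) / n < δ := by
    refine ⟨m + 2, by omega, ?_⟩
    rw [div_lt_iff₀ (by positivity)]
    push_cast
    rw [div_lt_iff₀ hδ] at hm
    nlinarith
  have hn0 : (0 : ℝ) < n := by
    have : 0 < n := by omega
    exact_mod_cast this
  have hIcc : ∀ i : ℕ, i < n → Icc ((i : ℝ) / n) ((i + 1 : ℝ) / n) ⊆ Icc (0 : ℝ) 1 := by
    intro i hi t ht
    refine ⟨le_trans (by positivity) ht.1, ht.2.trans ?_⟩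
    rw [div_le_one hn0]
    exact_mod_cast hi
  -- the arcs
  have hCex : ∀ i : ℕ, i < n → ∃ U : Set ℂ, IsOpen U ∧ IsSat c U ∧ IsPreconnected U ∧
      π '' Icc ((i : ℝ) / n) ((i + 1 : ℝ) / n) ⊆ U ∧
      U ⊆ thickening (ε / 2) (π '' Icc ((i : ℝ) / n) ((i + 1 : ℝ) / n)) ∧ U ⊆ W ∧
      IsPreconnected (J \ U) := by
    intro i hi
    have hle : (i : ℝ) / n ≤ (i + 1 : ℝ) / n := by
      gcongr
      linarith
    have hcont := hπ.mono (hIcc i hi)
    have harc : IsArc (π '' Icc ((i : ℝ) / n) ((i + 1 : ℝ) / n)) (π ((i : ℝ) / n))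
        (π ((i + 1 : ℝ) / n)) := by
      have hmaps : ∀ t ∈ Icc (0 : ℝ) 1, ((i : ℝ) + t) / n ∈ Icc ((i : ℝ) / n) ((i + 1 : ℝ) / n) := by
        intro t ht
        constructor
        · gcongr
          linarith [ht.1]
        · gcongr
          exact ht.2
      refine ⟨fun t => π (((i : ℝ) + t) / n), ?_, ?_, ?_, ?_, ?_⟩
      · exact hcont.comp (by fun_prop) hmaps
      · intro a ha b hb hab
        have := hπi (hIcc i hi (hmaps a ha)) (hIcc i hi (hmaps b hb)) hab
        field_simp at this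
        linarith
      · apply Subset.antisymm
        · rintro _ ⟨t, ht, rfl⟩
          exact ⟨_, hmaps t ht, rfl⟩
        · rintro _ ⟨s, hs, rfl⟩
          refine ⟨n * s - i, ⟨?_, ?_⟩, ?_⟩
          · have := hs.1
            rw [div_le_iff₀ hn0] at this
            linarith
          · have := hs.2
            rw [le_div_iff₀ hn0] at this
            linarith
          · show π (((i : ℝ) + (n * s - i)) / n) = π s
            congr 1
            field_simp
            ring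
      · show π (((i : ℝ) + 0) / n) = _
        rw [add_zero]
      · rfl
    refine exists_U h hJ hJT (isCompact_Icc.image_of_continuousOn hcont)
      (isPreconnected_Icc.image _ hcont) ⟨_, ⟨_, ⟨le_rfl, hle⟩, rfl⟩⟩ ?_
      (arc_ne_jordan hJ harc) isOpen_thickening (self_subset_thickening (by positivity) _)
    rintro _ ⟨t, ht, rfl⟩
    exact hπJ (hIcc i hi ht)
  choose! U hUo hUs hUp hCU hUO hUW hJU using hCex
  have hUb : ∀ i : ℕ, i < n → Bornology.IsBounded (U i) := by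
    intro i hi
    exact ((hJc.isBounded.subset (image_subset_iff.2 (fun t ht => hπJ (hIcc i hi ht)))).thickening
      (δ := ε / 2)).subset (hUO i hi)
  -- intermediate points
  have hyex : ∀ i : ℕ, i + 1 < n → ∃ y : ℂ, y ∈ U i ∧ y ∈ U (i + 1) ∧ y ∈ ins J ∧ y ∈ T := by
    intro i hi
    have hi0 : i < n := by omega
    have hpt : π ((i + 1 : ℝ) / n) ∈ U i ∩ U (i + 1) := by
      constructor
      · apply hCU i hi0
        refine ⟨_, ⟨?_, le_rfl⟩, rfl⟩
        gcongr
        linarith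
      · apply hCU (i + 1) hi
        refine ⟨_, ⟨?_, ?_⟩, rfl⟩
        · push_cast
          exact le_rfl
        · push_cast
          gcongr
          linarith
    have hptJ : π ((i + 1 : ℝ) / n) ∈ J := by
      apply hπJ
      apply hIcc i hi0
      refine ⟨?_, le_rfl⟩
      gcongr
      linarith
    have hn := near_ins hJ ((hUo i hi0).inter (hUo (i + 1) hi)) hptJ hpt
    obtain ⟨y, hy, hyT⟩ := h.dense ((U i ∩ U (i + 1)) ∩ ins J)
      (((hUo i hi0).inter (hUo (i + 1) hi)).inter (isOpen_ins hJc))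
      (sat_inter (sat_inter (hUs i hi0) (hUs (i + 1) hi)) (ins_sat h hJc hJT))
      (inter_subset_left.trans (inter_subset_left.trans (hUW i hi0))) hn
    exact ⟨y, hy.1.1, hy.1.2, hy.2, hyT⟩
  choose! y hy1 hy2 hy3 hy4 using hyex
  set S : ℕ → Set ℂ := fun i => if i < n then ((ins J ∩ T) ∪ {π 0, π 1}) ∩
    thickening (ε / 2) (π '' Icc ((i : ℝ) / n) ((i + 1 : ℝ) / n)) else {π 1} with hS
  have hSlt : ∀ i, i < n → S i = ((ins J ∩ T) ∪ {π 0, π 1}) ∩
      thickening (ε / 2) (π '' Icc ((i : ℝ) / n) ((i + 1 : ℝ) / n)) := fun i hi => if_pos hi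
  have hsubS : ∀ i, i < n → ((U i ∩ ins J) ∩ T) ⊆ S i := by
    intro i hi z hz
    rw [hSlt i hi]
    exact ⟨Or.inl ⟨hz.1.2, hz.2⟩, hUO i hi hz.1.1⟩
  have h0C : π 0 ∈ U 0 := by
    apply hCU 0 (by omega)
    refine ⟨0, ⟨?_, ?_⟩, rfl⟩
    · push_cast
      rw [zero_div]
    · positivity
  have hjoin : ∀ i, JoinedIn (S i) (EarT_x n π y i) (EarT_x n π y (i + 1)) := by
    intro i
    by_cases hi : i < n
    · rcases i with _ | j
      · -- first segment
        have hlt1 : 0 + 1 < n := by omega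
        have hx1 : EarT_x n π y (0 + 1) = y 0 := if_pos hlt1
        rw [hx1]
        show JoinedIn (S 0) (π 0) (y 0)
        have h1 : 0 + 1 < n := by omega
        have hacc := EarT_access h hJ hJT (hUo 0 hi) (hUs 0 hi) (hUp 0 hi) (hUW 0 hi) (hUb 0 hi)
          (hJU 0 hi) h0J h1J h01.symm h0C (x := y 0) ⟨⟨hy1 0 h1, hy3 0 h1⟩, hy4 0 h1⟩
        refine hacc.mono (union_subset (hsubS 0 hi) ?_)
        rw [singleton_subset_iff, hSlt 0 hi]
        exact ⟨Or.inr (Or.inl rfl), hUO 0 hi h0C⟩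
      · have hxj : EarT_x n π y (j + 1) = y j := if_pos hi
        rw [hxj]
        have hyD : y j ∈ (U (j + 1) ∩ ins J) ∩ T := ⟨⟨hy2 j hi, hy3 j hi⟩, hy4 j hi⟩
        by_cases hj : j + 1 + 1 < n
        · have hxj2 : EarT_x n π y (j + 1 + 1) = y (j + 1) := if_pos hj
          rw [hxj2]
          refine (h.path (U (j + 1) ∩ ins J) ((hUo _ hi).inter (isOpen_ins hJc))
            (sat_inter (hUs _ hi) (ins_sat h hJc hJT)) (inter_subset_left.trans (hUW _ hi))
            (inter_ins_preconn hJ (hUo _ hi) (hUb _ hi) (hUp _ hi) (hJU _ hi)) _ hyD _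
            ⟨⟨hy1 _ hj, hy3 _ hj⟩, hy4 _ hj⟩).mono (hsubS _ hi)
        · have hxj2 : EarT_x n π y (j + 1 + 1) = π 1 := if_neg hj
          rw [hxj2]
          have hjn : j + 1 + 1 = n := by omega
          have h1C : π 1 ∈ U (j + 1) := by
            apply hCU _ hi
            refine ⟨1, ⟨?_, ?_⟩, rfl⟩
            · rw [div_le_one hn0]
              exact_mod_cast hi.le
            · rw [le_div_iff₀ hn0, one_mul]
              rw [← hjn]
              push_cast
              exact le_rfl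
          have hacc := EarT_access h hJ hJT (hUo _ hi) (hUs _ hi) (hUp _ hi) (hUW _ hi)
            (hUb _ hi) (hJU _ hi) h1J h0J h01 h1C hyD
          refine hacc.symm.mono (union_subset (hsubS _ hi) ?_)
          rw [singleton_subset_iff, hSlt _ hi]
          exact ⟨Or.inr (Or.inr rfl), hUO _ hi h1C⟩
    · have h1 : EarT_x n π y i = π 1 := by
        rcases i with _ | j
        · omega
        · exact if_neg hi
      have h2 : EarT_x n π y (i + 1) = π 1 := if_neg (by omega)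
      rw [h1, h2]
      have : S i = {π 1} := if_neg hi
      rw [this]
      exact JoinedIn.refl rfl
  obtain ⟨γ₀, hγc, hγi, hγS⟩ := concat_seq hjoin
  have hmapn : MapsTo (fun t : ℝ => (n : ℝ) * t) (Icc 0 1) (Ici 0) := by
    intro t ht
    exact mul_nonneg hn0.le ht.1
  -- location of a parameter
  have hloc : ∀ t ∈ Icc (0 : ℝ) 1, ∃ i : ℕ, i < n ∧ (i : ℝ) ≤ n * t ∧ n * t ≤ i + 1 := by
    intro t ht
    rcases lt_or_ge t 1 with h1 | h1
    · have hnt : 0 ≤ (n : ℝ) * t := mul_nonneg hn0.le ht.1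
      refine ⟨⌊(n : ℝ) * t⌋₊, ?_, Nat.floor_le hnt, (Nat.lt_floor_add_one _).le⟩
      rw [Nat.floor_lt hnt]
      nlinarith
    · have h2 : t = 1 := le_antisymm ht.2 h1
      refine ⟨n - 1, by omega, ?_, ?_⟩
      · rw [h2, mul_one]
        exact_mod_cast Nat.sub_le n 1
      · rw [h2, mul_one]
        have : n = (n - 1) + 1 := by omega
        exact_mod_cast this.le
  refine ⟨fun t => γ₀ (n * t), ?_, ?_, ?_, ?_, ?_⟩
  · exact hγc.comp (by fun_prop) hmapn
  · show γ₀ (n * 0) = π 0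
    rw [mul_zero]
    have := hγi 0
    rw [Nat.cast_zero] at this
    rw [this]
    rfl
  · show γ₀ (n * 1) = π 1
    rw [mul_one, hγi n]
    obtain ⟨k, rfl⟩ : ∃ k, n = k + 1 := ⟨n - 1, by omega⟩
    exact if_neg (lt_irrefl _)
  · intro t ht
    obtain ⟨i, hi, hi1, hi2⟩ := hloc t ht
    have := hγS i (n * t) ⟨hi1, hi2⟩
    rw [hSlt i hi] at this
    exact this.1
  · intro t ht
    obtain ⟨i, hi, hi1, hi2⟩ := hloc t ht
    have hmem := hγS i (n * t) ⟨hi1, hi2⟩
    rw [hSlt i hi] at hmem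
    obtain ⟨z, ⟨s, hs, rfl⟩, hz⟩ := mem_thickening_iff.1 hmem.2
    have hst : dist s t < δ := by
      refine lt_of_le_of_lt ?_ hnδ
      rw [Real.dist_eq, abs_le]
      have e1 := hs.1
      have e2 := hs.2
      rw [div_le_iff₀ hn0] at e1
      rw [le_div_iff₀ hn0] at e2
      constructor
      · rw [neg_le_sub_iff_le_add]
        have : t ≤ (s * n + 1) / n := by
          rw [le_div_iff₀ hn0]
          linarith
        calc t ≤ (s * n + 1) / n := this
          _ = s + 1 / n := by field_simp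
      · rw [sub_le_iff_le_add]
        have : s ≤ (t * n + 1) / n := by
          rw [le_div_iff₀ hn0]
          linarith
        calc s ≤ (t * n + 1) / n := this
          _ = 1 / n + t := by field_simp; ring
    have hd := huc s (hIcc i hi hs) t ht hst
    calc dist (γ₀ (n * t)) (π t) ≤ dist (γ₀ (n * t)) (π s) + dist (π s) (π t) :=
          dist_triangle _ _ _
      _ < ε / 2 + ε / 2 := add_lt_add hz hd
      _ = ε := by ring

end CarT
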