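import Pool.Agent.CarT.Net
import Pool.Agent.CarT.CutV

/-!
# CarT/Swap : exchange of the coordinates, horizontal cuts

* `net_swap`: for `Γ' = Prod.swap ⁻¹' Γ`, `φ' = φ ∘ Prod.swap`, `Q' = Q.image Prod.swap` (a rectangle
  `((a,b),(c,e))` is swapped to `((c,e),(a,b))`): `bd (swap R) = Prod.swap ⁻¹' (bd R) = Prod.swap '' bd R`,
  so `φ' '' bd (swap R) = φ '' bd R`; everything is transported.
* `cutH`: apply `cutV` to the swapped net, `R.swap`, `P' = Prod.swap ∘ P`, and swap back (`φ'' = φ' ∘ swap`,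
  `(leftR m R.swap).swap = lowR m R`, `(rightR m R.swap).swap = upR m R`).
-/

open Set Metric

namespace CarT

theorem bd_swap (R : Rect) : bd R.swap = Prod.swap ⁻¹' bd R := by
  ext p
  simp only [bd, cl, op, Prod.fst_swap, Prod.snd_swap, mem_sdiff, mem_prod, mem_preimage]
  tauto

theorem image_bd_swap (φ : ℝ × ℝ → ℂ) (R : Rect) :
    (φ ∘ Prod.swap) '' bd R.swap = φ '' bd R := by
  rw [bd_swap, image_comp, image_preimage_eq _ Prod.swap_surjective]

theorem disc_swap (φ : ℝ × ℝ → ℂ) (R : Rect) : disc (φ ∘ Prod.swap) R.swap = disc φ R := by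
  unfold disc
  rw [image_bd_swap]

theorem Swap_op (R : Rect) : op R.swap = Prod.swap ⁻¹' op R := by
  ext p
  simp only [op, Prod.fst_swap, Prod.snd_swap, mem_prod, mem_preimage]
  tauto

open Classical in
theorem net_swap {T : Set ℂ} {Q : Finset Rect} {Γ : Set (ℝ × ℝ)} {φ : ℝ × ℝ → ℂ}
    (N : Net T Q Γ φ) : Net T (Q.image Prod.swap) (Prod.swap ⁻¹' Γ) (φ ∘ Prod.swap) := by
  have himg : (φ ∘ Prod.swap) '' (Prod.swap ⁻¹' Γ) = φ '' Γ := by
    rw [image_comp, image_preimage_eq _ Prod.swap_surjective]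
  refine ⟨?_, ?_, ?_, ?_, ?_, ?_, ?_, ?_, ?_, ?_⟩
  · intro R hR
    obtain ⟨S, hS, rfl⟩ := Finset.mem_image.1 hR
    exact ⟨(N.pos S hS).2, (N.pos S hS).1⟩
  · have : (Prod.swap ⁻¹' Γ : Set (ℝ × ℝ)) = Prod.swap '' Γ := by
      rw [image_swap_eq_preimage_swap]
    rw [this]
    exact N.comp.image continuous_swap
  · intro R hR
    obtain ⟨S, hS, rfl⟩ := Finset.mem_image.1 hR
    rw [bd_swap]
    exact preimage_mono (N.bdsub S hS)
  · intro R hR
    obtain ⟨S, hS, rfl⟩ := Finset.mem_image.1 hR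
    rw [Swap_op]
    exact (N.int S hS).preimage _
  · intro R hR R' hR' hne
    obtain ⟨S, hS, rfl⟩ := Finset.mem_image.1 hR
    obtain ⟨S', hS', rfl⟩ := Finset.mem_image.1 hR'
    rw [Swap_op, Swap_op]
    exact (N.sep S hS S' hS' (fun h => hne (by rw [h]))).preimage _
  · exact N.cont.comp continuous_swap.continuousOn (mapsTo_preimage _ _)
  · exact N.inj.comp Prod.swap_injective.injOn (mapsTo_preimage _ _)
  · exact N.mapT.comp (mapsTo_preimage _ _)
  · intro R hR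
    obtain ⟨S, hS, rfl⟩ := Finset.mem_image.1 hR
    rw [image_bd_swap, himg]
    exact N.face S hS
  · intro R hR R' hR' hne
    obtain ⟨S, hS, rfl⟩ := Finset.mem_image.1 hR
    obtain ⟨S', hS', rfl⟩ := Finset.mem_image.1 hR'
    rw [image_bd_swap, image_bd_swap]
    exact N.disj S hS S' hS' (fun h => hne (by rw [h]))

open Classical in
theorem cutH {W T : Set ℂ} {c : ℂ → Set ℂ} (h : Sys W T c) {Q : Finset Rect}
    {Γ : Set (ℝ × ℝ)} {φ : ℝ × ℝ → ℂ} (N : Net T Q Γ φ) {R : Rect} (hR : R ∈ Q) {m : ℝ}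
    (hm : R.2.1 < m) (hm2 : m < R.2.2) {P : ℝ → ℝ × ℝ} (hP : ContinuousOn P (Icc R.1.1 R.1.2))
    (hPi : InjOn P (Icc R.1.1 R.1.2)) (hPb : MapsTo P (Icc R.1.1 R.1.2) (bd R))
    (hP0 : P R.1.1 = (R.1.1, m)) (hP1 : P R.1.2 = (R.1.2, m)) {ε : ℝ} (hε : 0 < ε) :
    ∃ φ' : ℝ × ℝ → ℂ, EqOn φ' φ Γ ∧
      Net T (insert (lowR m R) (insert (upR m R) (Q.erase R)))
        (Γ ∪ Icc R.1.1 R.1.2 ×ˢ {m}) φ' ∧
      (∀ t ∈ Icc R.1.1 R.1.2, dist (φ' (t, m)) (φ (P t)) < ε) ∧
      disc φ' (lowR m R) ⊆ disc φ R ∧ disc φ' (upR m R) ⊆ disc φ R := by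
  have hinv : (Prod.swap ∘ Prod.swap : Rect → Rect) = id := by
    funext p
    rfl
  obtain ⟨φ₀, h1, h2, h3, h4, h5⟩ := cutV h (net_swap N) (R := R.swap)
    (Finset.mem_image_of_mem _ hR) (m := m) hm hm2 (P := Prod.swap ∘ P)
    (continuous_swap.comp_continuousOn hP) (fun a ha b hb hab =>
      hPi ha hb (Prod.swap_injective hab))
    (fun t ht => by
      rw [bd_swap, mem_preimage]
      exact hPb ht)
    (by
      show (P R.1.1).swap = (m, R.1.1)
      rw [hP0]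
      rfl)
    (by
      show (P R.1.2).swap = (m, R.1.2)
      rw [hP1]
      rfl) hε
  have h2' := net_swap h2
  have e1 : (insert (leftR m R.swap) (insert (rightR m R.swap)
      ((Q.image Prod.swap).erase R.swap))).image Prod.swap =
      insert (lowR m R) (insert (upR m R) (Q.erase R)) := by
    rw [Finset.image_insert, Finset.image_insert, Finset.image_erase Prod.swap_injective,
      Finset.image_image, hinv, Finset.image_id]
    rfl
  have e2 : (Prod.swap ⁻¹' (Prod.swap ⁻¹' Γ ∪ {m} ×ˢ Icc R.swap.2.1 R.swap.2.2) :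
      Set (ℝ × ℝ)) = Γ ∪ Icc R.1.1 R.1.2 ×ˢ {m} := by
    ext p
    simp only [mem_preimage, mem_union, Prod.swap_swap, mem_prod, Prod.fst_swap, Prod.snd_swap,
      mem_singleton_iff]
    tauto
  rw [e1, e2] at h2'
  refine ⟨φ₀ ∘ Prod.swap, ?_, h2', ?_, ?_, ?_⟩
  · intro p hp
    exact h1 (show p.swap ∈ Prod.swap ⁻¹' Γ from hp)
  · intro t ht
    exact h3 t ht
  · have e3 : lowR m R = (leftR m R.swap).swap := rfl
    rw [e3, disc_swap]
    rw [disc_swap] at h4
    exact h4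
  · have e3 : upR m R = (rightR m R.swap).swap := rfl
    rw [e3, disc_swap]
    rw [disc_swap] at h5
    exact h5

end CarT
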