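import Pool.Agent.CarT.Net
import Pool.Agent.CarT.Bd
import Pool.Agent.CarT.CutV
import Pool.Agent.CarT.Swap

/-!
# CarT/EightA : cutting a square of side 3 into three rows

`S = big x y = ((x, x+3), (y, y+3)) ∈ Q`. Work with `ε`.

1. `cutH` of `S` at `m = y + 1` with the path (for `s = t - x ∈ [0,3]`)
   `P t = (x + X s, y + Y s)`, `X s = min 3 (max (max 0 (min s (2s - 1))) (2s - 2))`,
   `Y s = max (max 0 (1 - 2s)) (2s - 5)`: for `s ∈ [0,1]` it runs down the left side from height `1` to the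
   corner and then to `(x+1, y)` (so it is in `cLL x y`), for `s ∈ [1,2]` it is `(x + s, y)`, for `s ∈ [2,3]` it
   runs to the right corner and up the right side to height `1` (in `cRL x y`). It is continuous
   and injective on `[0,3]`, with values in `bd S`. Result `φ1`.
2. `cutH` of `upR (y+1) S = ((x, x+3), (y+1, y+3))` at `m = y + 2` with the reflected path
   `P t = (x + X s, y + 3 - Y s)` (in `bd S`, heights `≥ y + 2`, also in the boundary of the upper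
   rectangle). Result `φ2`, `φ2 = φ1 = φ` on `bd S`.
The upper rectangle `R' = upR (y+1) S` is erased in the second step from
`insert (lowR ..) (insert R' (Q.erase S))`; this does not remove an element of `Q.erase S`, because
`op R' ⊆ op S` is nonempty, so `R' ∈ Q` would contradict `N.sep` (in any case the conclusion only needs the
inclusion of families, `Net.mono`). The disc of the lowest row is unchanged in step 2
(`EqOn` on its boundary).
-/

open Set Metric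

namespace CarT

private noncomputable def EightA_X (s : ℝ) : ℝ :=
  min 3 (max (max 0 (min s (2 * s - 1))) (2 * s - 2))

private noncomputable def EightA_Y (s : ℝ) : ℝ := max (max 0 (1 - 2 * s)) (2 * s - 5)

private theorem EightA_pieces {s : ℝ} (h0 : 0 ≤ s) (h3 : s ≤ 3) :
    (s ≤ 1 / 2 ∧ EightA_X s = 0 ∧ EightA_Y s = 1 - 2 * s) ∨
    (1 / 2 ≤ s ∧ s ≤ 1 ∧ EightA_X s = 2 * s - 1 ∧ EightA_Y s = 0) ∨
    (1 ≤ s ∧ s ≤ 2 ∧ EightA_X s = s ∧ EightA_Y s = 0) ∨
    (2 ≤ s ∧ s ≤ 5 / 2 ∧ EightA_X s = 2 * s - 2 ∧ EightA_Y s = 0) ∨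
    (5 / 2 ≤ s ∧ EightA_X s = 3 ∧ EightA_Y s = 2 * s - 5) := by
  unfold EightA_X EightA_Y
  rcases le_total s (1 / 2) with h | h
  · left
    refine ⟨h, ?_, ?_⟩
    · rw [min_eq_right (show 2 * s - 1 ≤ s by linarith),
        max_eq_left (show 2 * s - 1 ≤ 0 by linarith),
        max_eq_left (show 2 * s - 2 ≤ 0 by linarith), min_eq_right (by norm_num)]
    · rw [max_eq_right (show (0 : ℝ) ≤ 1 - 2 * s by linarith), max_eq_left (by linarith)]
  · right
    rcases le_total s 1 with h1 | h1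
    · left
      refine ⟨h, h1, ?_, ?_⟩
      · rw [min_eq_right (show 2 * s - 1 ≤ s by linarith),
          max_eq_right (show 0 ≤ 2 * s - 1 by linarith),
          max_eq_left (show 2 * s - 2 ≤ 2 * s - 1 by linarith), min_eq_right (by linarith)]
      · rw [max_eq_left (show 1 - 2 * s ≤ 0 by linarith), max_eq_left (by linarith)]
    · right
      rcases le_total s 2 with h2 | h2
      · left
        refine ⟨h1, h2, ?_, ?_⟩
        · rw [min_eq_left (show s ≤ 2 * s - 1 by linarith),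
            max_eq_right (show 0 ≤ s by linarith),
            max_eq_left (show 2 * s - 2 ≤ s by linarith), min_eq_right (by linarith)]
        · rw [max_eq_left (show 1 - 2 * s ≤ 0 by linarith), max_eq_left (by linarith)]
      · right
        rcases le_total s (5 / 2) with h4 | h4
        · left
          refine ⟨h2, h4, ?_, ?_⟩
          · rw [min_eq_left (show s ≤ 2 * s - 1 by linarith),
              max_eq_right (show 0 ≤ s by linarith),
              max_eq_right (show s ≤ 2 * s - 2 by linarith), min_eq_right (by linarith)]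
          · rw [max_eq_left (show 1 - 2 * s ≤ 0 by linarith), max_eq_left (by linarith)]
        · right
          refine ⟨h4, ?_, ?_⟩
          · rw [min_eq_left (show s ≤ 2 * s - 1 by linarith),
              max_eq_right (show 0 ≤ s by linarith),
              max_eq_right (show s ≤ 2 * s - 2 by linarith), min_eq_left (by linarith)]
          · rw [max_eq_left (show 1 - 2 * s ≤ 0 by linarith), max_eq_right (by linarith)]

private theorem EightA_inj {s t : ℝ} (hs0 : 0 ≤ s) (hs3 : s ≤ 3) (ht0 : 0 ≤ t) (ht3 : t ≤ 3)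
    (hX : EightA_X s = EightA_X t) (hY : EightA_Y s = EightA_Y t) : s = t := by
  rcases EightA_pieces hs0 hs3 with ⟨a1, a2, a3⟩ | ⟨a1, a4, a2, a3⟩ | ⟨a1, a4, a2, a3⟩ |
      ⟨a1, a4, a2, a3⟩ | ⟨a1, a2, a3⟩ <;>
    rcases EightA_pieces ht0 ht3 with ⟨b1, b2, b3⟩ | ⟨b1, b4, b2, b3⟩ | ⟨b1, b4, b2, b3⟩ |
      ⟨b1, b4, b2, b3⟩ | ⟨b1, b2, b3⟩ <;>
    linarith

private noncomputable def EightA_P (x h σ t : ℝ) : ℝ × ℝ :=
  (x + EightA_X (t - x), h + σ * EightA_Y (t - x))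

private theorem EightA_cont (x h σ : ℝ) : Continuous (EightA_P x h σ) := by
  unfold EightA_P EightA_X EightA_Y
  fun_prop

private theorem EightA_injOn (x h : ℝ) {σ : ℝ} (hσ : σ ≠ 0) :
    InjOn (EightA_P x h σ) (Icc x (x + 3)) := by
  intro s hs t ht hst
  unfold EightA_P at hst
  rw [Prod.mk.injEq] at hst
  have h1 : EightA_X (s - x) = EightA_X (t - x) := by linarith [hst.1]
  have h2 : EightA_Y (s - x) = EightA_Y (t - x) := by
    have h3 : σ * EightA_Y (s - x) = σ * EightA_Y (t - x) := by linarith [hst.2]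
    exact mul_left_cancel₀ hσ h3
  have h3 := EightA_inj (by linarith [hs.1]) (by linarith [hs.2]) (by linarith [ht.1])
    (by linarith [ht.2]) h1 h2
  linarith

private theorem EightA_mapsTo {x h σ c e : ℝ} (hh : h = c ∨ h = e)
    (hr : ∀ v : ℝ, 0 ≤ v → v ≤ 1 → c ≤ h + σ * v ∧ h + σ * v ≤ e) :
    MapsTo (EightA_P x h σ) (Icc x (x + 3)) (bd ((x, x + 3), (c, e))) := by
  intro t ht
  have h0 : 0 ≤ t - x := by linarith [ht.1]
  have h3 : t - x ≤ 3 := by linarith [ht.2]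
  rw [mem_bd_iff]
  unfold EightA_P cl
  simp only [mem_prod, mem_Icc]
  have h00 := hr 0 le_rfl zero_le_one
  rcases EightA_pieces h0 h3 with ⟨a1, a2, a3⟩ | ⟨a1, a4, a2, a3⟩ | ⟨a1, a4, a2, a3⟩ |
      ⟨a1, a4, a2, a3⟩ | ⟨a1, a2, a3⟩
  · have h4 := hr (1 - 2 * (t - x)) (by linarith) (by linarith)
    rw [a2, a3]
    exact ⟨⟨⟨by linarith, by linarith⟩, h4⟩, Or.inl (by ring)⟩
  · rw [a2, a3]
    refine ⟨⟨⟨by linarith, by linarith⟩, h00⟩, Or.inr (Or.inr ?_)⟩
    rcases hh with hh | hh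
    · left
      rw [hh]
      ring
    · right
      rw [hh]
      ring
  · rw [a2, a3]
    refine ⟨⟨⟨by linarith, by linarith⟩, h00⟩, Or.inr (Or.inr ?_)⟩
    rcases hh with hh | hh
    · left
      rw [hh]
      ring
    · right
      rw [hh]
      ring
  · rw [a2, a3]
    refine ⟨⟨⟨by linarith, by linarith⟩, h00⟩, Or.inr (Or.inr ?_)⟩
    rcases hh with hh | hh
    · left
      rw [hh]
      ring
    · right
      rw [hh]
      ring
  · have h4 := hr (2 * (t - x) - 5) (by linarith) (by linarith)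
    rw [a2, a3]
    exact ⟨⟨⟨by linarith, by linarith⟩, h4⟩, Or.inr (Or.inl rfl)⟩

private theorem EightA_left (x h σ : ℝ) {u : ℝ} (hu : u ∈ Icc (0 : ℝ) 1) :
    (∃ v ∈ Icc (0 : ℝ) 1, EightA_P x h σ (x + u) = (x, h + σ * v)) ∨
      (∃ v ∈ Icc (0 : ℝ) 1, EightA_P x h σ (x + u) = (x + v, h)) := by
  have e : x + u - x = u := by ring
  unfold EightA_P
  rw [e]
  obtain ⟨u0, u1⟩ := hu
  rcases EightA_pieces u0 (by linarith) with ⟨a1, a2, a3⟩ | ⟨a1, a4, a2, a3⟩ | ⟨a1, a4, a2, a3⟩ |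
      ⟨a1, a4, a2, a3⟩ | ⟨a1, a2, a3⟩
  · left
    refine ⟨1 - 2 * u, ⟨by linarith, by linarith⟩, ?_⟩
    rw [a2, a3, add_zero]
  · right
    refine ⟨2 * u - 1, ⟨by linarith, by linarith⟩, ?_⟩
    rw [a2, a3, mul_zero, add_zero]
  · right
    refine ⟨u, ⟨by linarith, by linarith⟩, ?_⟩
    rw [a2, a3, mul_zero, add_zero]
  · exfalso
    linarith
  · exfalso
    linarith

private theorem EightA_mid (x h σ : ℝ) {u : ℝ} (hu : u ∈ Icc (0 : ℝ) 1) :
    EightA_P x h σ (x + 1 + u) = (x + 1 + u, h) := by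
  have e : x + 1 + u - x = 1 + u := by ring
  unfold EightA_P
  rw [e]
  obtain ⟨u0, u1⟩ := hu
  rcases EightA_pieces (s := 1 + u) (by linarith) (by linarith) with ⟨a1, a2, a3⟩ |
      ⟨a1, a4, a2, a3⟩ | ⟨a1, a4, a2, a3⟩ | ⟨a1, a4, a2, a3⟩ | ⟨a1, a2, a3⟩
  · exfalso
    linarith
  · rw [a2, a3, mul_zero, add_zero]
    congr 1
    linarith
  · rw [a2, a3, mul_zero, add_zero]
    congr 1
    ring
  · rw [a2, a3, mul_zero, add_zero]
    congr 1
    linarith
  · exfalso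
    linarith

private theorem EightA_right (x h σ : ℝ) {u : ℝ} (hu : u ∈ Icc (0 : ℝ) 1) :
    (∃ v ∈ Icc (0 : ℝ) 1, EightA_P x h σ (x + 2 + u) = (x + 3, h + σ * v)) ∨
      (∃ v ∈ Icc (2 : ℝ) 3, EightA_P x h σ (x + 2 + u) = (x + v, h)) := by
  have e : x + 2 + u - x = 2 + u := by ring
  unfold EightA_P
  rw [e]
  obtain ⟨u0, u1⟩ := hu
  rcases EightA_pieces (s := 2 + u) (by linarith) (by linarith) with ⟨a1, a2, a3⟩ |
      ⟨a1, a4, a2, a3⟩ | ⟨a1, a4, a2, a3⟩ | ⟨a1, a4, a2, a3⟩ | ⟨a1, a2, a3⟩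
  · exfalso
    linarith
  · exfalso
    linarith
  · right
    refine ⟨2 + u, ⟨by linarith, by linarith⟩, ?_⟩
    rw [a2, a3, mul_zero, add_zero]
  · right
    refine ⟨2 * (2 + u) - 2, ⟨by linarith, by linarith⟩, ?_⟩
    rw [a2, a3, mul_zero, add_zero]
  · left
    refine ⟨2 * (2 + u) - 5, ⟨by linarith, by linarith⟩, ?_⟩
    rw [a2, a3]

private theorem EightA_start (x h σ : ℝ) : EightA_P x h σ x = (x, h + σ) := by
  unfold EightA_P
  rw [sub_self]
  rcases EightA_pieces (s := 0) le_rfl (by norm_num) with ⟨a1, a2, a3⟩ |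
      ⟨a1, a4, a2, a3⟩ | ⟨a1, a4, a2, a3⟩ | ⟨a1, a4, a2, a3⟩ | ⟨a1, a2, a3⟩
  · rw [a2, a3]
    simp
  all_goals
    exfalso
    linarith

private theorem EightA_end (x h σ : ℝ) : EightA_P x h σ (x + 3) = (x + 3, h + σ) := by
  unfold EightA_P
  have e : x + 3 - x = 3 := by ring
  rw [e]
  rcases EightA_pieces (s := 3) (by norm_num) le_rfl with ⟨a1, a2, a3⟩ |
      ⟨a1, a4, a2, a3⟩ | ⟨a1, a4, a2, a3⟩ | ⟨a1, a4, a2, a3⟩ | ⟨a1, a2, a3⟩
  pick_goal 5
  · rw [a2, a3]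
    norm_num
  all_goals
    exfalso
    linarith

private theorem EightA_disc_congr {φ φ' : ℝ × ℝ → ℂ} {R : Rect} (h : EqOn φ' φ (bd R)) :
    disc φ' R = disc φ R := by
  unfold disc
  rw [h.image_eq]

open Classical in
theorem threeRows {W T : Set ℂ} {c : ℂ → Set ℂ} (h : Sys W T c) {Q : Finset Rect}
    {Γ : Set (ℝ × ℝ)} {φ : ℝ × ℝ → ℂ} (N : Net T Q Γ φ) {x y : ℝ}
    (hS : big x y ∈ Q) {ε : ℝ} (hε : 0 < ε) :
    ∃ φ' : ℝ × ℝ → ℂ, EqOn φ' φ Γ ∧
      Net T (insert ((x, x + 3), (y, y + 1)) (insert ((x, x + 3), (y + 1, y + 1 + 1))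
        (insert ((x, x + 3), (y + 2, y + 2 + 1)) (Q.erase (big x y)))))
        (Γ ∪ (Icc x (x + 3) ×ˢ {y + 1} ∪ Icc x (x + 3) ×ˢ {y + 2})) φ' ∧
      (disc φ' ((x, x + 3), (y, y + 1)) ⊆ disc φ (big x y) ∧
        disc φ' ((x, x + 3), (y + 1, y + 1 + 1)) ⊆ disc φ (big x y) ∧
        disc φ' ((x, x + 3), (y + 2, y + 2 + 1)) ⊆ disc φ (big x y)) ∧
      (∀ u ∈ Icc (0 : ℝ) 1, Near φ φ' ε (x + u, y + 1) (cLL x y)) ∧
      (∀ u ∈ Icc (0 : ℝ) 1, dist (φ' (x + 1 + u, y + 1)) (φ (x + 1 + u, y)) < ε) ∧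
      (∀ u ∈ Icc (0 : ℝ) 1, Near φ φ' ε (x + 2 + u, y + 1) (cRL x y)) ∧
      (∀ u ∈ Icc (0 : ℝ) 1, Near φ φ' ε (x + u, y + 2) (cLU x y)) ∧
      (∀ u ∈ Icc (0 : ℝ) 1, dist (φ' (x + 1 + u, y + 2)) (φ (x + 1 + u, y + 3)) < ε) ∧
      (∀ u ∈ Icc (0 : ℝ) 1, Near φ φ' ε (x + 2 + u, y + 2) (cRU x y)) := by
  obtain ⟨p1, p2⟩ := N.pos _ hS
  have hbS : bd (big x y) ⊆ Γ := N.bdsub _ hS
  -- first cut
  obtain ⟨φ1, e1, N1, d1, c1, c2⟩ := cutH h N hS (m := y + 1) (by show y < y + 1; linarith)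
    (by show y + 1 < y + 3; linarith) (P := EightA_P x y 1) (EightA_cont x y 1).continuousOn
    (EightA_injOn x y one_ne_zero)
    (EightA_mapsTo (Or.inl rfl) fun v h0 h1 => ⟨by linarith, by linarith⟩)
    (EightA_start x y 1) (EightA_end x y 1) hε
  obtain ⟨U, hU⟩ : ∃ U : Rect, U = ((x, x + 3), (y + 1, y + 3)) := ⟨_, rfl⟩
  have hUeq : upR (y + 1) (big x y) = U := hU.symm
  obtain ⟨L, hL⟩ : ∃ L : Rect, L = ((x, x + 3), (y, y + 1)) := ⟨_, rfl⟩
  have hLeq : lowR (y + 1) (big x y) = L := hL.symm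
  rw [hUeq, hLeq] at N1
  rw [hUeq] at c2
  rw [hLeq] at c1
  have hS1 : (big x y).1.1 = x := rfl
  have hS2 : (big x y).1.2 = x + 3 := rfl
  rw [hS1, hS2] at N1 d1
  have hU1 : U ∈ insert L (insert U (Q.erase (big x y))) := by simp
  have hUS : op U ⊆ op (big x y) := by
    rw [hU]
    rintro ⟨a, b⟩ ⟨⟨h1, h2⟩, ⟨h3, h4⟩⟩
    exact ⟨⟨h1, h2⟩, ⟨by have : y + 1 < b := h3; show y < b; linarith, h4⟩⟩
  have hUn : (x + 1, y + 2) ∈ op U := by
    rw [hU]
    exact ⟨⟨by show x < x + 1; linarith, by show x + 1 < x + 3; linarith⟩,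
      ⟨by show y + 1 < y + 2; linarith, by show y + 2 < y + 3; linarith⟩⟩
  have hUQ : U ∉ Q.erase (big x y) := by
    intro hc
    rw [Finset.mem_erase] at hc
    exact Set.disjoint_left.1 (N.sep U hc.2 _ hS hc.1) hUn (hUS hUn)
  have hLU : L ≠ U := by
    rw [hL, hU]
    intro hc
    have : y = y + 1 := congrArg (fun R : Rect => R.2.1) hc
    linarith
  -- second cut
  have hUd : U.2.1 = y + 1 ∧ U.2.2 = y + 3 ∧ U.1.1 = x ∧ U.1.2 = x + 3 := by
    rw [hU]
    exact ⟨rfl, rfl, rfl, rfl⟩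
  have hmap : MapsTo (EightA_P x (y + 3) (-1)) (Icc x (x + 3)) (bd U) := by
    rw [hU]
    exact EightA_mapsTo (Or.inr rfl) fun v h0 h1 => ⟨by linarith, by linarith⟩
  obtain ⟨φ2, e2, N2, d2, c3, c4⟩ := cutH h N1 hU1 (m := y + 2) (by rw [hUd.1]; linarith)
    (by rw [hUd.2.1]; linarith) (P := EightA_P x (y + 3) (-1))
    (EightA_cont x (y + 3) (-1)).continuousOn
    (by rw [hUd.2.2.1, hUd.2.2.2]; exact EightA_injOn x (y + 3) (by norm_num))
    (by rw [hUd.2.2.1, hUd.2.2.2]; exact hmap)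
    (by rw [hUd.2.2.1, EightA_start]; congr 1; ring)
    (by rw [hUd.2.2.2, EightA_end]; congr 1; ring) hε
  rw [hUd.2.2.1, hUd.2.2.2] at N2 d2
  have hM : lowR (y + 2) U = ((x, x + 3), (y + 1, y + 1 + 1)) := by
    rw [hU]
    have : y + 1 + 1 = y + 2 := by ring
    rw [this]
    rfl
  have hT : upR (y + 2) U = ((x, x + 3), (y + 2, y + 2 + 1)) := by
    rw [hU]
    have : y + 2 + 1 = y + 3 := by ring
    rw [this]
    rfl
  rw [hM, hT] at N2
  rw [hM] at c3
  rw [hT] at c4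
  have hbS' : ∀ t ∈ Icc x (x + 3), EightA_P x (y + 3) (-1) t ∈ Γ := by
    intro t ht
    refine hbS ?_
    exact EightA_mapsTo (x := x) (h := y + 3) (σ := -1) (c := y) (e := y + 3) (Or.inr rfl)
      (fun v h0 h1 => ⟨by linarith, by linarith⟩) ht
  have k1 : ∀ t ∈ Icc x (x + 3), dist (φ2 (t, y + 1)) (φ (EightA_P x y 1 t)) < ε := by
    intro t ht
    have e3 : φ2 (t, y + 1) = φ1 (t, y + 1) :=
      e2 (show (t, y + 1) ∈ Γ ∪ Icc x (x + 3) ×ˢ {y + 1} from Or.inr ⟨ht, rfl⟩)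
    rw [e3]
    exact d1 t ht
  have k2 : ∀ t ∈ Icc x (x + 3), dist (φ2 (t, y + 2)) (φ (EightA_P x (y + 3) (-1) t)) < ε := by
    intro t ht
    rw [← e1 (hbS' t ht)]
    exact d2 t ht
  refine ⟨φ2, fun q hq => (e2 (Or.inl hq)).trans (e1 hq), ?_, ⟨?_, ?_, ?_⟩, ?_, ?_, ?_, ?_, ?_, ?_⟩
  · rw [← Set.union_assoc]
    refine N2.mono ?_
    intro R hR
    rw [Finset.mem_insert, Finset.mem_insert, Finset.mem_insert] at hR
    rw [Finset.mem_insert, Finset.mem_insert, Finset.mem_erase, Finset.mem_insert,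
      Finset.mem_insert]
    rcases hR with hR | hR | hR | hR
    · right
      right
      rw [hR, ← hL]
      exact ⟨hLU, Or.inl rfl⟩
    · exact Or.inl hR
    · exact Or.inr (Or.inl hR)
    · right
      right
      refine ⟨?_, Or.inr (Or.inr hR)⟩
      rintro rfl
      exact hUQ hR
  · rw [← hL, EightA_disc_congr (φ := φ1)]
    · exact c1
    · exact e2.mono (N1.bdsub L (by simp))
  · exact c3.trans c2
  · exact c4.trans c2
  · intro u hu
    have h1 := k1 (x + u) ⟨by linarith [hu.1], by linarith [hu.2]⟩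
    rcases EightA_left x y 1 hu with ⟨v, hv, hv'⟩ | ⟨v, hv, hv'⟩
    · refine ⟨(x, y + 1 * v), Or.inl ⟨rfl, ?_, ?_⟩, ?_⟩
      · show y ≤ y + 1 * v
        linarith [hv.1]
      · show y + 1 * v ≤ y + 1
        linarith [hv.2]
      · rw [← hv']
        exact h1
    · refine ⟨(x + v, y), Or.inr ⟨⟨?_, ?_⟩, rfl⟩, ?_⟩
      · show x ≤ x + v
        linarith [hv.1]
      · show x + v ≤ x + 1
        linarith [hv.2]
      · rw [← hv']
        exact h1
  · intro u hu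
    have h1 := k1 (x + 1 + u) ⟨by linarith [hu.1], by linarith [hu.2]⟩
    rw [EightA_mid x y 1 hu] at h1
    exact h1
  · intro u hu
    have h1 := k1 (x + 2 + u) ⟨by linarith [hu.1], by linarith [hu.2]⟩
    rcases EightA_right x y 1 hu with ⟨v, hv, hv'⟩ | ⟨v, hv, hv'⟩
    · refine ⟨(x + 3, y + 1 * v), Or.inl ⟨rfl, ?_, ?_⟩, ?_⟩
      · show y ≤ y + 1 * v
        linarith [hv.1]
      · show y + 1 * v ≤ y + 1
        linarith [hv.2]
      · rw [← hv']
        exact h1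
    · refine ⟨(x + v, y), Or.inr ⟨⟨?_, ?_⟩, rfl⟩, ?_⟩
      · show x + 2 ≤ x + v
        linarith [hv.1]
      · show x + v ≤ x + 3
        linarith [hv.2]
      · rw [← hv']
        exact h1
  · intro u hu
    have h1 := k2 (x + u) ⟨by linarith [hu.1], by linarith [hu.2]⟩
    rcases EightA_left x (y + 3) (-1) hu with ⟨v, hv, hv'⟩ | ⟨v, hv, hv'⟩
    · refine ⟨(x, y + 3 + -1 * v), Or.inl ⟨rfl, ?_, ?_⟩, ?_⟩
      · show y + 2 ≤ y + 3 + -1 * v
        linarith [hv.2]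
      · show y + 3 + -1 * v ≤ y + 3
        linarith [hv.1]
      · rw [← hv']
        exact h1
    · refine ⟨(x + v, y + 3), Or.inr ⟨⟨?_, ?_⟩, rfl⟩, ?_⟩
      · show x ≤ x + v
        linarith [hv.1]
      · show x + v ≤ x + 1
        linarith [hv.2]
      · rw [← hv']
        exact h1
  · intro u hu
    have h1 := k2 (x + 1 + u) ⟨by linarith [hu.1], by linarith [hu.2]⟩
    rw [EightA_mid x (y + 3) (-1) hu] at h1
    exact h1
  · intro u hu
    have h1 := k2 (x + 2 + u) ⟨by linarith [hu.1], by linarith [hu.2]⟩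
    rcases EightA_right x (y + 3) (-1) hu with ⟨v, hv, hv'⟩ | ⟨v, hv, hv'⟩
    · refine ⟨(x + 3, y + 3 + -1 * v), Or.inl ⟨rfl, ?_, ?_⟩, ?_⟩
      · show y + 2 ≤ y + 3 + -1 * v
        linarith [hv.2]
      · show y + 3 + -1 * v ≤ y + 3
        linarith [hv.1]
      · rw [← hv']
        exact h1
    · refine ⟨(x + v, y + 3), Or.inr ⟨⟨?_, ?_⟩, rfl⟩, ?_⟩
      · show x + 2 ≤ x + v
        linarith [hv.1]
      · show x + v ≤ x + 3
        linarith [hv.2]
      · rw [← hv']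
        exact h1

end CarT
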