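import Pool.Agent.CarT.Net
import Pool.Agent.CarT.Bd
import Pool.Agent.CarT.CutV

/-!
# CarT/Row : cutting a `3 × 1` rectangle into three unit squares

`R = ((x, x+3), (y, y+1)) ∈ Q`. First `cutV` at `m = x + 1` with
`P t = cpath (x+1) (-1) y (y+1) (t - y)` (the left part of the boundary, `cpath_left`), then `cutV` for
`rightR (x+1) R = ((x+1, x+3), (y, y+1))` at `m = x + 2` with
`P t = cpath (x+2) 1 y (y+1) (t - y)` (the right part of its boundary, contained in `bd R`, so the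
first new map agrees with `φ` there). The discs of the two right squares are contained in the
disc of `rightR (x+1) R`, which is contained in the disc of `R`; the disc of the first square
does not change in the second cut (`EqOn`).
-/

open Set Metric

namespace CarT

theorem disc_congr {φ φ' : ℝ × ℝ → ℂ} {R : Rect} (h : EqOn φ φ' (bd R)) :
    disc φ R = disc φ' R := by
  unfold disc
  rw [image_congr h]

open Classical in
theorem row {W T : Set ℂ} {c : ℂ → Set ℂ} (h : Sys W T c) {Q : Finset Rect}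
    {Γ : Set (ℝ × ℝ)} {φ : ℝ × ℝ → ℂ} (N : Net T Q Γ φ) {x y : ℝ}
    (hR : ((x, x + 3), (y, y + 1)) ∈ Q) {ε : ℝ} (hε : 0 < ε) :
    ∃ φ' : ℝ × ℝ → ℂ, EqOn φ' φ Γ ∧
      Net T (insert (sq x y) (insert (sq (x + 1) y) (insert (sq (x + 2) y)
        (Q.erase ((x, x + 3), (y, y + 1))))))
        (Γ ∪ ({x + 1} ×ˢ Icc y (y + 1) ∪ {x + 2} ×ˢ Icc y (y + 1))) φ' ∧
      (∀ u ∈ Icc (0 : ℝ) 1, dist (φ' (x + 1, y + u)) (φ (cpath (x + 1) (-1) y (y + 1) u)) < ε) ∧
      (∀ u ∈ Icc (0 : ℝ) 1, dist (φ' (x + 2, y + u)) (φ (cpath (x + 2) 1 y (y + 1) u)) < ε) ∧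
      disc φ' (sq x y) ⊆ disc φ ((x, x + 3), (y, y + 1)) ∧
      disc φ' (sq (x + 1) y) ⊆ disc φ ((x, x + 3), (y, y + 1)) ∧
      disc φ' (sq (x + 2) y) ⊆ disc φ ((x, x + 3), (y, y + 1)) := by
  obtain ⟨R, hRdef⟩ : ∃ R : Rect, R = ((x, x + 3), (y, y + 1)) := ⟨_, rfl⟩
  obtain ⟨R₁, hR₁def⟩ : ∃ R : Rect, R = ((x + 1, x + 3), (y, y + 1)) := ⟨_, rfl⟩
  rw [← hRdef] at hR ⊢
  have ha : R.1.1 = x := by rw [hRdef]
  have hb : R.1.2 = x + 3 := by rw [hRdef]
  have hc : R.2.1 = y := by rw [hRdef]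
  have he : R.2.2 = y + 1 := by rw [hRdef]
  have ha1 : R₁.1.1 = x + 1 := by rw [hR₁def]
  have hb1 : R₁.1.2 = x + 3 := by rw [hR₁def]
  have hc1 : R₁.2.1 = y := by rw [hR₁def]
  have he1 : R₁.2.2 = y + 1 := by rw [hR₁def]
  have h2 : R.2.1 < R.2.2 := by rw [hc, he]; linarith
  have h21 : R₁.2.1 < R₁.2.2 := by rw [hc1, he1]; linarith
  -- facts on the paths
  have hshift : ∀ t ∈ Icc y (y + 1), t - y ∈ Icc (0 : ℝ) 1 := fun t ht =>
    ⟨by linarith [ht.1], by linarith [ht.2]⟩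
  have hpl := cpath_left (R := R) h2 (m := x + 1) (by rw [ha]; linarith) (by rw [hb]; linarith)
  have hpr := cpath_right (R := R) h2 (m := x + 2) (by rw [ha]; linarith) (by rw [hb]; linarith)
  have hpr1 := cpath_right (R := R₁) h21 (m := x + 2) (by rw [ha1]; linarith)
    (by rw [hb1]; linarith)
  rw [ha, hc, he, show x - (x + 1) = -1 by ring] at hpl
  rw [hb, hc, he, show x + 3 - (x + 2) = 1 by ring] at hpr
  rw [hb1, hc1, he1, show x + 3 - (x + 2) = 1 by ring] at hpr1
  have hcont : ∀ m d : ℝ, ContinuousOn (fun t => cpath m d y (y + 1) (t - y)) (Icc y (y + 1)) :=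
    fun m d => ((continuous_cpath m d y (y + 1)).comp (continuous_sub_right y)).continuousOn
  have hinj : ∀ m d : ℝ, d ≠ 0 →
      InjOn (fun t => cpath m d y (y + 1) (t - y)) (Icc y (y + 1)) := by
    intro m d hd s hs t ht hst
    have := injOn_cpath (m := m) hd (show y < y + 1 by linarith) (hshift s hs) (hshift t ht) hst
    linarith
  -- the first cut
  obtain ⟨φ₁, hE1, N1, hd1, hl1, hr1⟩ := cutV h N hR (m := x + 1)
    (by rw [ha]; linarith) (by rw [hb]; linarith)
    (P := fun t => cpath (x + 1) (-1) y (y + 1) (t - y))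
    (by rw [hc, he]; exact hcont _ _) (by rw [hc, he]; exact hinj _ _ (by norm_num))
    (by
      rw [hc, he]
      intro t ht
      have : cpath (x + 1) (-1) y (y + 1) (t - y) ∈
          cpath (x + 1) (-1) y (y + 1) '' Icc 0 1 := mem_image_of_mem _ (hshift t ht)
      rw [hpl] at this
      exact this.1)
    (by rw [hc, sub_self, cpath_zero])
    (by rw [he, add_sub_cancel_left, cpath_one]) hε
  have hL1 : leftR (x + 1) R = sq x y := by
    rw [hRdef]
    rfl
  have hRR1 : rightR (x + 1) R = R₁ := by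
    rw [hRdef, hR₁def]
    rfl
  rw [hL1, hRR1] at N1
  rw [hL1] at hl1
  rw [hRR1] at hr1
  rw [hc, he] at N1 hd1
  have hR₁mem : R₁ ∈ insert (sq x y) (insert R₁ (Q.erase R)) :=
    Finset.mem_insert_of_mem (Finset.mem_insert_self _ _)
  -- the second cut
  obtain ⟨φ₂, hE2, N2, hd2, hl2, hr2⟩ := cutV h N1 hR₁mem (m := x + 2)
    (by rw [ha1]; linarith) (by rw [hb1]; linarith)
    (P := fun t => cpath (x + 2) 1 y (y + 1) (t - y))
    (by rw [hc1, he1]; exact hcont _ _) (by rw [hc1, he1]; exact hinj _ _ (by norm_num))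
    (by
      rw [hc1, he1]
      intro t ht
      have : cpath (x + 2) 1 y (y + 1) (t - y) ∈
          cpath (x + 2) 1 y (y + 1) '' Icc 0 1 := mem_image_of_mem _ (hshift t ht)
      rw [hpr1] at this
      exact this.1)
    (by rw [hc1, sub_self, cpath_zero])
    (by rw [he1, add_sub_cancel_left, cpath_one]) hε
  have hL2 : leftR (x + 2) R₁ = sq (x + 1) y := by
    rw [hR₁def]
    unfold leftR sq
    rw [show x + 1 + 1 = x + 2 by ring]
  have hRR2 : rightR (x + 2) R₁ = sq (x + 2) y := by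
    rw [hR₁def]
    unfold rightR sq
    rw [show x + 2 + 1 = x + 3 by ring]
  rw [hL2, hRR2] at N2
  rw [hL2] at hl2
  rw [hRR2] at hr2
  rw [hc1, he1] at N2 hd2
  have hne : sq x y ≠ R₁ := by
    intro hh
    have h3 : (sq x y).1.1 = R₁.1.1 := by rw [hh]
    rw [ha1] at h3
    have h4 : x = x + 1 := h3
    linarith
  have hR₁Q : R₁ ∉ Q := by
    intro hh
    have hRne : R₁ ≠ R := by
      intro h3
      have h4 : R₁.1.1 = R.1.1 := by rw [h3]
      rw [ha1, ha] at h4
      linarith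
    have h5 := N.sep R₁ hh R hR hRne
    have h6 : ((x + 2, y + 1 / 2) : ℝ × ℝ) ∈ op R₁ := by
      rw [hR₁def]
      exact ⟨⟨by simp, by simp; linarith⟩, ⟨by simp, by simp; norm_num⟩⟩
    have h7 : ((x + 2, y + 1 / 2) : ℝ × ℝ) ∈ op R := by
      rw [hRdef]
      exact ⟨⟨by simp, by simp; linarith⟩, ⟨by simp, by simp; norm_num⟩⟩
    exact Set.disjoint_left.mp h5 h6 h7
  have hsub : insert (sq x y) (insert (sq (x + 1) y) (insert (sq (x + 2) y) (Q.erase R))) ⊆
      insert (sq (x + 1) y) (insert (sq (x + 2) y)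
        ((insert (sq x y) (insert R₁ (Q.erase R))).erase R₁)) := by
    intro q hq
    rw [Finset.mem_insert, Finset.mem_insert, Finset.mem_insert] at hq
    rcases hq with hq | hq | hq | hq
    · refine Finset.mem_insert_of_mem (Finset.mem_insert_of_mem ?_)
      rw [hq]
      exact Finset.mem_erase.mpr ⟨hne, Finset.mem_insert_self _ _⟩
    · rw [hq]
      exact Finset.mem_insert_self _ _
    · rw [hq]
      exact Finset.mem_insert_of_mem (Finset.mem_insert_self _ _)
    · refine Finset.mem_insert_of_mem (Finset.mem_insert_of_mem ?_)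
      refine Finset.mem_erase.mpr ⟨?_, Finset.mem_insert_of_mem (Finset.mem_insert_of_mem hq)⟩
      rintro rfl
      exact hR₁Q (Finset.mem_of_mem_erase hq)
  have N3 := N2.mono hsub
  rw [union_assoc] at N3
  refine ⟨φ₂, ?_, N3, ?_, ?_, ?_, hl2.trans hr1, hr2.trans hr1⟩
  · intro p hp
    rw [hE2 (Or.inl hp), hE1 hp]
  · intro u hu
    have hmem : ((x + 1, y + u) : ℝ × ℝ) ∈ Γ ∪ {x + 1} ×ˢ Icc y (y + 1) :=
      Or.inr ⟨rfl, ⟨by simp [hu.1], by simp [hu.2]⟩⟩
    rw [hE2 hmem]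
    have h8 := hd1 (y + u) ⟨by linarith [hu.1], by linarith [hu.2]⟩
    rw [add_sub_cancel_left] at h8
    exact h8
  · intro u hu
    have h8 := hd2 (y + u) ⟨by linarith [hu.1], by linarith [hu.2]⟩
    rw [add_sub_cancel_left] at h8
    have h9 : cpath (x + 2) 1 y (y + 1) u ∈ cpath (x + 2) 1 y (y + 1) '' Icc 0 1 :=
      mem_image_of_mem _ hu
    rw [hpr] at h9
    rw [hE1 (N.bdsub R hR h9.1)] at h8
    exact h8
  · have h10 : EqOn φ₂ φ₁ (bd (sq x y)) :=
      hE2.mono (N1.bdsub _ (Finset.mem_insert_self _ _))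
    rw [disc_congr h10]
    exact hl1

end CarT
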