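import Pool.Agent.CarT.EightA
import Pool.Agent.CarT.Row

/-!
# CarT/EightB : subdivision of a square of side 3 into eight unit squares (and a hole)

`S = big x y = ((x, x+3), (y, y+3)) ∈ Q`, `δ = ε / 3`. Take `φ2` from `threeRows` with `δ`, then apply
`row` (with `δ`) to the rows `((x, x+3), (y, y+1))`, `((x, x+3), (y+1, y+1+1))`, `((x, x+3), (y+2, y+2+1))`.
Result `φ'`. The centre `sq (x+1) (y+1)` is dropped (`Net.mono`). The new `Γ` is
`Γ ∪ segments`; it is equal to `Γ ∪ kidsBd x y` (`bd S ⊆ Γ`; every segment is in `kidsBd x y`). The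
family contains `Q.erase S ∪ kids x y` (no element of `Q.erase S` is a row, because of `N.sep`:
the open rows are nonempty subsets of `op S`). Discs: contained in the discs of the rows (which are
unchanged by the steps for the other rows, `EqOn` on their boundaries), which are contained in
the disc of `S`.

Closeness: all segments added before are not changed by the later steps (`EqOn`).
* `low`, `up`: from `threeRows`. A point of `[x, x+1] × {y+1}` is `δ`-close to `φ` of a point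
  of `cLL x y`; similarly `[x+2, x+3] × {y+1}` (`cRL`), `[x, x+1] × {y+2}` (`cLU`), `[x+2, x+3] × {y+2}` (`cRU`).
* The rung `{x+1} × [y, y+1]` follows (`δ`-close) `cpath (x+1) (-1) y (y+1)` in the boundary of the lower row,
  consisting of `[x, x+1] × {y}`, `{x} × [y, y+1]` (both in `cLL`, where `φ2 = φ`) and `[x, x+1] × {y+1}`
  (`δ`-close to `cLL`): so it is `2 δ`-close to `cLL`. So all points of `bd (sq x y)` are `2δ`-close to
  `φ (cLL x y)`: `ll`. In the same way `rl`, `lu`, `ru`.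
* The left rung `{x+1} × [y+1, y+2]` of the middle row, at `y + 1 + v`, follows `cpath (x+1) (-1) (y+1) (y+2) v`.
  For `v = u/3` this is the point `(x + 1 - u, y + 1)`, `2 δ`-close to `cLL` in total: `ml1`. For
  `v = (1+u)/3` it is `(x, y + 1 + u)`: `ml2`. For `v = (2+u)/3` it is `(x + u, y + 2)`: `ml3`. The right rung
  similarly.
-/

open Set Metric

namespace CarT

private theorem eb_cl1_zero {u : ℝ} (h : u ≤ 0) : cl1 u = 0 := by
  unfold cl1
  rw [min_eq_left (h.trans zero_le_one), max_eq_left h]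

private theorem eb_cl1_one {u : ℝ} (h : 1 ≤ u) : cl1 u = 1 := by
  unfold cl1
  rw [min_eq_right h, max_eq_right zero_le_one]

private theorem eb_cl1_mid {u : ℝ} (h0 : 0 ≤ u) (h1 : u ≤ 1) : cl1 u = u := by
  unfold cl1
  rw [min_eq_left h1, max_eq_right h0]

private theorem eb_cpath_a (m d c e : ℝ) {u : ℝ} (h0 : 0 ≤ u) (h1 : u ≤ 1 / 3) :
    cpath m d c e u = (m + d * (3 * u), c) := by
  unfold cpath
  rw [eb_cl1_mid (u := 3 * u) (by linarith) (by linarith), eb_cl1_zero (u := 3 * u - 2) (by linarith),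
    eb_cl1_zero (u := 3 * u - 1) (by linarith), mul_zero, add_zero, sub_zero]

private theorem eb_cpath_b (m d c e : ℝ) {u : ℝ} (h0 : 1 / 3 ≤ u) (h1 : u ≤ 2 / 3) :
    cpath m d c e u = (m + d, c + (e - c) * (3 * u - 1)) := by
  unfold cpath
  rw [eb_cl1_one (u := 3 * u) (by linarith), eb_cl1_zero (u := 3 * u - 2) (by linarith),
    eb_cl1_mid (u := 3 * u - 1) (by linarith) (by linarith), sub_zero, mul_one]

private theorem eb_cpath_c (m d c e : ℝ) {u : ℝ} (h0 : 2 / 3 ≤ u) (h1 : u ≤ 1) :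
    cpath m d c e u = (m + d * (3 - 3 * u), e) := by
  unfold cpath
  rw [eb_cl1_one (u := 3 * u) (by linarith),
    eb_cl1_mid (u := 3 * u - 2) (by linarith) (by linarith),
    eb_cl1_one (u := 3 * u - 1) (by linarith)]
  congr 1
  · ring
  · ring

private theorem eb_near_mono {φ φ' : ℝ × ℝ → ℂ} {ε ε' : ℝ} {p : ℝ × ℝ} {X : Set (ℝ × ℝ)}
    (h : Near φ φ' ε p X) (h' : ε ≤ ε') : Near φ φ' ε' p X := by
  obtain ⟨q, hq, h1⟩ := h
  exact ⟨q, hq, h1.trans_le h'⟩

private theorem eb_near_trans {φ φ' : ℝ × ℝ → ℂ} {δ : ℝ} {p p' : ℝ × ℝ} {X : Set (ℝ × ℝ)}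
    (h1 : dist (φ' p) (φ' p') < δ) (h2 : Near φ φ' δ p' X) : Near φ φ' (2 * δ) p X := by
  obtain ⟨q, hq, h3⟩ := h2
  refine ⟨q, hq, ?_⟩
  have := dist_triangle (φ' p) (φ' p') (φ q)
  linarith

private theorem eb_near_of_eq {φ φ' : ℝ × ℝ → ℂ} {δ : ℝ} (hδ : 0 < δ) {p : ℝ × ℝ}
    {X : Set (ℝ × ℝ)} (hp : p ∈ X) (h : φ' p = φ p) : Near φ φ' δ p X :=
  ⟨p, hp, by rw [h, dist_self]; exact hδ⟩

private theorem eb_rung {φ φ' : ℝ × ℝ → ℂ} {δ : ℝ} {X : Set (ℝ × ℝ)} {m d c : ℝ}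
    (hr : ∀ u ∈ Icc (0 : ℝ) 1, dist (φ' (m, c + u)) (φ' (cpath m d c (c + 1) u)) < δ)
    (hb : ∀ v ∈ Icc (0 : ℝ) 1, Near φ φ' δ (m + d * v, c) X)
    (hs : ∀ v ∈ Icc (0 : ℝ) 1, Near φ φ' δ (m + d, c + v) X)
    (ht : ∀ v ∈ Icc (0 : ℝ) 1, Near φ φ' δ (m + d * v, c + 1) X) :
    ∀ u ∈ Icc (0 : ℝ) 1, Near φ φ' (2 * δ) (m, c + u) X := by
  intro u hu
  have h1 := hr u hu
  rcases le_total u (1 / 3) with a1 | a1
  · rw [eb_cpath_a m d c (c + 1) hu.1 a1] at h1
    exact eb_near_trans h1 (hb (3 * u) ⟨by linarith [hu.1], by linarith⟩)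
  rcases le_total u (2 / 3) with a2 | a2
  · rw [eb_cpath_b m d c (c + 1) a1 a2, add_sub_cancel_left, one_mul] at h1
    exact eb_near_trans h1 (hs (3 * u - 1) ⟨by linarith, by linarith⟩)
  · rw [eb_cpath_c m d c (c + 1) a2 hu.2] at h1
    exact eb_near_trans h1 (ht (3 - 3 * u) ⟨by linarith [hu.2], by linarith⟩)

private theorem eb_sq_left {φ φ' : ℝ × ℝ → ℂ} {δ : ℝ} (hδ : 0 < δ) {X : Set (ℝ × ℝ)} {a c : ℝ}
    (hr : ∀ u ∈ Icc (0 : ℝ) 1,
      dist (φ' (a + 1, c + u)) (φ' (cpath (a + 1) (-1) c (c + 1) u)) < δ)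
    (hb : ∀ v ∈ Icc (0 : ℝ) 1, Near φ φ' δ (a + v, c) X)
    (hs : ∀ v ∈ Icc (0 : ℝ) 1, Near φ φ' δ (a, c + v) X)
    (ht : ∀ v ∈ Icc (0 : ℝ) 1, Near φ φ' δ (a + v, c + 1) X) :
    ∀ p ∈ bd (sq a c), Near φ φ' (2 * δ) p X := by
  have e1 : ∀ v : ℝ, a + 1 + -1 * v = a + (1 - v) := fun v => by ring
  have hrung := eb_rung (X := X) (m := a + 1) (d := -1) (c := c) hr
    (fun v hv => by
      rw [e1]
      exact hb (1 - v) ⟨by linarith [hv.2], by linarith [hv.1]⟩)
    (fun v hv => by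
      have : a + 1 + -1 = a := by ring
      rw [this]
      exact hs v hv)
    (fun v hv => by
      rw [e1]
      exact ht (1 - v) ⟨by linarith [hv.2], by linarith [hv.1]⟩)
  rintro ⟨p1, p2⟩ hp
  rw [mem_bd_iff] at hp
  obtain ⟨⟨⟨h1, h2⟩, ⟨h3, h4⟩⟩, h5⟩ := hp
  simp only [sq] at h1 h2 h3 h4 h5
  have hm : δ ≤ 2 * δ := by linarith
  have f1 : a + (p1 - a) = p1 := by ring
  have f2 : c + (p2 - c) = p2 := by ring
  rcases h5 with h5 | h5 | h5 | h5
  · have := hs (p2 - c) ⟨by linarith, by linarith⟩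
    rw [f2] at this
    rw [h5]
    exact eb_near_mono this hm
  · have := hrung (p2 - c) ⟨by linarith, by linarith⟩
    rw [f2] at this
    rw [h5]
    exact this
  · have := hb (p1 - a) ⟨by linarith, by linarith⟩
    rw [f1] at this
    rw [h5]
    exact eb_near_mono this hm
  · have := ht (p1 - a) ⟨by linarith, by linarith⟩
    rw [f1] at this
    rw [h5]
    exact eb_near_mono this hm

private theorem eb_sq_right {φ φ' : ℝ × ℝ → ℂ} {δ : ℝ} (hδ : 0 < δ) {X : Set (ℝ × ℝ)} {a c : ℝ}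
    (hr : ∀ u ∈ Icc (0 : ℝ) 1, dist (φ' (a, c + u)) (φ' (cpath a 1 c (c + 1) u)) < δ)
    (hb : ∀ v ∈ Icc (0 : ℝ) 1, Near φ φ' δ (a + v, c) X)
    (hs : ∀ v ∈ Icc (0 : ℝ) 1, Near φ φ' δ (a + 1, c + v) X)
    (ht : ∀ v ∈ Icc (0 : ℝ) 1, Near φ φ' δ (a + v, c + 1) X) :
    ∀ p ∈ bd (sq a c), Near φ φ' (2 * δ) p X := by
  have hrung := eb_rung (X := X) (m := a) (d := 1) (c := c) hr
    (fun v hv => by rw [one_mul]; exact hb v hv) hs (fun v hv => by rw [one_mul]; exact ht v hv)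
  rintro ⟨p1, p2⟩ hp
  rw [mem_bd_iff] at hp
  obtain ⟨⟨⟨h1, h2⟩, ⟨h3, h4⟩⟩, h5⟩ := hp
  simp only [sq] at h1 h2 h3 h4 h5
  have hm : δ ≤ 2 * δ := by linarith
  have f1 : a + (p1 - a) = p1 := by ring
  have f2 : c + (p2 - c) = p2 := by ring
  rcases h5 with h5 | h5 | h5 | h5
  · have := hrung (p2 - c) ⟨by linarith, by linarith⟩
    rw [f2] at this
    rw [h5]
    exact this
  · have := hs (p2 - c) ⟨by linarith, by linarith⟩
    rw [f2] at this
    rw [h5]
    exact eb_near_mono this hm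
  · have := hb (p1 - a) ⟨by linarith, by linarith⟩
    rw [f1] at this
    rw [h5]
    exact eb_near_mono this hm
  · have := ht (p1 - a) ⟨by linarith, by linarith⟩
    rw [f1] at this
    rw [h5]
    exact eb_near_mono this hm

private theorem eb_bd {a b c e u v : ℝ} (h1 : a ≤ u) (h2 : u ≤ b) (h3 : c ≤ v) (h4 : v ≤ e)
    (h5 : u = a ∨ u = b ∨ v = c ∨ v = e) : (u, v) ∈ bd ((a, b), (c, e)) :=
  mem_bd_iff.2 ⟨⟨⟨h1, h2⟩, ⟨h3, h4⟩⟩, h5⟩

private theorem eb_disc_congr {φ φ' : ℝ × ℝ → ℂ} {R : Rect} (h : EqOn φ' φ (bd R)) :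
    disc φ' R = disc φ R := by
  unfold disc
  rw [h.image_eq]

/-- the points of `big x y` on a vertical or horizontal line of the grid -/
private def grid (x y : ℝ) : Set (ℝ × ℝ) :=
  {p | (x ≤ p.1 ∧ p.1 ≤ x + 3 ∧ y ≤ p.2 ∧ p.2 ≤ y + 3) ∧
    (p.1 = x ∨ p.1 = x + 1 ∨ p.1 = x + 2 ∨ p.1 = x + 3 ∨
      p.2 = y ∨ p.2 = y + 1 ∨ p.2 = y + 2 ∨ p.2 = y + 3)}

private theorem eb_off {P : ℕ × ℕ → Prop} (h00 : P (0, 0)) (h01 : P (0, 1)) (h02 : P (0, 2))
    (h10 : P (1, 0)) (h12 : P (1, 2)) (h20 : P (2, 0)) (h21 : P (2, 1)) (h22 : P (2, 2)) :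
    ∀ o ∈ off, P o := by
  rintro ⟨i, j⟩ ho
  rw [off, Finset.mem_erase, Finset.mem_product, Finset.mem_range, Finset.mem_range] at ho
  obtain ⟨h1, h2, h3⟩ := ho
  simp only at h2 h3
  interval_cases i <;> interval_cases j <;> first | assumption | exact absurd rfl h1

private theorem eb_mem_kidsBd {x y a b : ℝ} (o : ℕ × ℕ) (ho : o ∈ off)
    (h : (a, b) ∈ bd (sq (x + o.1) (y + o.2))) : (a, b) ∈ kidsBd x y :=
  mem_iUnion₂.2 ⟨o, ho, h⟩

private theorem eb_grid_kids (x y : ℝ) : kidsBd x y ⊆ grid x y := by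
  intro p hp
  obtain ⟨o, ho, hp⟩ := mem_iUnion₂.1 hp
  rw [off, Finset.mem_erase, Finset.mem_product, Finset.mem_range, Finset.mem_range] at ho
  obtain ⟨-, h2, h3⟩ := ho
  rw [mem_bd_iff] at hp
  obtain ⟨⟨⟨h4, h5⟩, ⟨h6, h7⟩⟩, h8⟩ := hp
  obtain ⟨i, j⟩ := o
  obtain ⟨p1, p2⟩ := p
  simp only [sq] at h2 h3 h4 h5 h6 h7 h8
  constructor
  · have hi : (i : ℝ) ≤ 2 := by exact_mod_cast Nat.lt_succ_iff.1 h2
    have hj : (j : ℝ) ≤ 2 := by exact_mod_cast Nat.lt_succ_iff.1 h3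
    have hi0 : (0 : ℝ) ≤ i := Nat.cast_nonneg i
    have hj0 : (0 : ℝ) ≤ j := Nat.cast_nonneg j
    exact ⟨by linarith, by simp only; linarith, by linarith, by simp only; linarith⟩
  · simp only
    rcases h8 with h8 | h8 | h8 | h8
    · interval_cases i
      · left; rw [h8]; norm_num
      · right; left; rw [h8]; norm_num
      · right; right; left; rw [h8]; norm_num
    · interval_cases i
      · right; left; rw [h8]; norm_num
      · right; right; left; rw [h8]; push_cast; ring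
      · right; right; right; left; rw [h8]; push_cast; ring
    · interval_cases j
      · right; right; right; right; left; rw [h8]; norm_num
      · right; right; right; right; right; left; rw [h8]; norm_num
      · right; right; right; right; right; right; left; rw [h8]; norm_num
    · interval_cases j
      · right; right; right; right; right; left; rw [h8]; norm_num
      · right; right; right; right; right; right; left; rw [h8]; push_cast; ring
      · right; right; right; right; right; right; right; rw [h8]; push_cast; ring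

/-- horizontal segments -/
private theorem eb_kids_h {x y a : ℝ} (h1 : x ≤ a) (h2 : a ≤ x + 3) :
    (a, y + 1) ∈ kidsBd x y ∧ (a, y + 2) ∈ kidsBd x y := by
  have key : ∃ i : ℕ, i < 3 ∧ x + i ≤ a ∧ a ≤ x + i + 1 := by
    rcases le_total a (x + 1) with h | h
    · exact ⟨0, by norm_num, by push_cast; linarith, by push_cast; linarith⟩
    rcases le_total a (x + 2) with h' | h'
    · exact ⟨1, by norm_num, by push_cast; linarith, by push_cast; linarith⟩
    · exact ⟨2, by norm_num, by push_cast; linarith, by push_cast; linarith⟩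
  obtain ⟨i, hi, h3, h4⟩ := key
  constructor
  · refine eb_mem_kidsBd (i, 0) ?_ ?_
    · rw [off, Finset.mem_erase, Finset.mem_product, Finset.mem_range, Finset.mem_range]
      exact ⟨fun h => by simp at h, hi, by norm_num⟩
    · refine eb_bd h3 h4 ?_ ?_ ?_
      · push_cast; linarith
      · push_cast; linarith
      · right; right; right; push_cast; ring
  · refine eb_mem_kidsBd (i, 2) ?_ ?_
    · rw [off, Finset.mem_erase, Finset.mem_product, Finset.mem_range, Finset.mem_range]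
      exact ⟨fun h => by simp at h, hi, by norm_num⟩
    · refine eb_bd h3 h4 ?_ ?_ ?_
      · push_cast; linarith
      · push_cast; linarith
      · right; right; left; push_cast; ring

/-- vertical segments -/
private theorem eb_kids_v {x y b : ℝ} (h1 : y ≤ b) (h2 : b ≤ y + 3) :
    (x + 1, b) ∈ kidsBd x y ∧ (x + 2, b) ∈ kidsBd x y := by
  have key : ∃ j : ℕ, j < 3 ∧ y + j ≤ b ∧ b ≤ y + j + 1 := by
    rcases le_total b (y + 1) with h | h
    · exact ⟨0, by norm_num, by push_cast; linarith, by push_cast; linarith⟩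
    rcases le_total b (y + 2) with h' | h'
    · exact ⟨1, by norm_num, by push_cast; linarith, by push_cast; linarith⟩
    · exact ⟨2, by norm_num, by push_cast; linarith, by push_cast; linarith⟩
  obtain ⟨j, hj, h3, h4⟩ := key
  constructor
  · refine eb_mem_kidsBd (0, j) ?_ ?_
    · rw [off, Finset.mem_erase, Finset.mem_product, Finset.mem_range, Finset.mem_range]
      exact ⟨fun h => by simp at h, by norm_num, hj⟩
    · refine eb_bd ?_ ?_ h3 h4 ?_
      · push_cast; linarith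
      · push_cast; linarith
      · right; left; push_cast; ring
  · refine eb_mem_kidsBd (2, j) ?_ ?_
    · rw [off, Finset.mem_erase, Finset.mem_product, Finset.mem_range, Finset.mem_range]
      exact ⟨fun h => by simp at h, by norm_num, hj⟩
    · refine eb_bd ?_ ?_ h3 h4 ?_
      · push_cast; linarith
      · push_cast; linarith
      · left; push_cast; ring

private theorem eb_gamma {Γ : Set (ℝ × ℝ)} {x y : ℝ} (hb : bd (big x y) ⊆ Γ) :
    (((Γ ∪ (Icc x (x + 3) ×ˢ {y + 1} ∪ Icc x (x + 3) ×ˢ {y + 2})) ∪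
        ({x + 1} ×ˢ Icc y (y + 1) ∪ {x + 2} ×ˢ Icc y (y + 1))) ∪
        ({x + 1} ×ˢ Icc (y + 1) (y + 1 + 1) ∪ {x + 2} ×ˢ Icc (y + 1) (y + 1 + 1))) ∪
        ({x + 1} ×ˢ Icc (y + 2) (y + 2 + 1) ∪ {x + 2} ×ˢ Icc (y + 2) (y + 2 + 1)) =
      Γ ∪ kidsBd x y := by
  apply Subset.antisymm
  · rintro ⟨a, b⟩ ((((h | h) | h) | h) | h)
    · exact Or.inl h
    · rcases h with ⟨h1, h2⟩ | ⟨h1, h2⟩
      · have h2' : b = y + 1 := h2
        rw [h2']
        exact Or.inr (eb_kids_h h1.1 h1.2).1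
      · have h2' : b = y + 2 := h2
        rw [h2']
        exact Or.inr (eb_kids_h h1.1 h1.2).2
    · rcases h with ⟨h1, h2, h3⟩ | ⟨h1, h2, h3⟩
      · have h1' : a = x + 1 := h1
        have h2' : y ≤ b := h2
        have h3' : b ≤ y + 1 := h3
        rw [h1']
        exact Or.inr (eb_kids_v (by linarith) (by linarith)).1
      · have h1' : a = x + 2 := h1
        have h2' : y ≤ b := h2
        have h3' : b ≤ y + 1 := h3
        rw [h1']
        exact Or.inr (eb_kids_v (by linarith) (by linarith)).2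
    · rcases h with ⟨h1, h2, h3⟩ | ⟨h1, h2, h3⟩
      · have h1' : a = x + 1 := h1
        have h2' : y + 1 ≤ b := h2
        have h3' : b ≤ y + 1 + 1 := h3
        rw [h1']
        exact Or.inr (eb_kids_v (by linarith) (by linarith)).1
      · have h1' : a = x + 2 := h1
        have h2' : y + 1 ≤ b := h2
        have h3' : b ≤ y + 1 + 1 := h3
        rw [h1']
        exact Or.inr (eb_kids_v (by linarith) (by linarith)).2
    · rcases h with ⟨h1, h2, h3⟩ | ⟨h1, h2, h3⟩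
      · have h1' : a = x + 1 := h1
        have h2' : y + 2 ≤ b := h2
        have h3' : b ≤ y + 2 + 1 := h3
        rw [h1']
        exact Or.inr (eb_kids_v (by linarith) (by linarith)).1
      · have h1' : a = x + 2 := h1
        have h2' : y + 2 ≤ b := h2
        have h3' : b ≤ y + 2 + 1 := h3
        rw [h1']
        exact Or.inr (eb_kids_v (by linarith) (by linarith)).2
  · rintro ⟨a, b⟩ (h | h)
    · exact Or.inl (Or.inl (Or.inl (Or.inl h)))
    · obtain ⟨⟨h1, h2, h3, h4⟩, h5⟩ := eb_grid_kids x y h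
      simp only at h1 h2 h3 h4 h5
      have hin : ∀ h6 : a = x ∨ a = x + 3 ∨ b = y ∨ b = y + 3, (a, b) ∈ Γ := fun h6 =>
        hb (eb_bd h1 h2 h3 h4 h6)
      have hv : ∀ h6 : a = x + 1 ∨ a = x + 2,
          (a, b) ∈ (((Γ ∪ (Icc x (x + 3) ×ˢ {y + 1} ∪ Icc x (x + 3) ×ˢ {y + 2})) ∪
          ({x + 1} ×ˢ Icc y (y + 1) ∪ {x + 2} ×ˢ Icc y (y + 1))) ∪
          ({x + 1} ×ˢ Icc (y + 1) (y + 1 + 1) ∪ {x + 2} ×ˢ Icc (y + 1) (y + 1 + 1))) ∪
          ({x + 1} ×ˢ Icc (y + 2) (y + 2 + 1) ∪ {x + 2} ×ˢ Icc (y + 2) (y + 2 + 1)) := by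
        intro h6
        rcases le_total b (y + 1) with g1 | g1
        · refine Or.inl (Or.inl (Or.inr ?_))
          rcases h6 with h6 | h6
          · exact Or.inl ⟨h6, h3, g1⟩
          · exact Or.inr ⟨h6, h3, g1⟩
        rcases le_total b (y + 2) with g2 | g2
        · have g3 : b ≤ y + 1 + 1 := by linarith
          refine Or.inl (Or.inr ?_)
          rcases h6 with h6 | h6
          · exact Or.inl ⟨h6, g1, g3⟩
          · exact Or.inr ⟨h6, g1, g3⟩
        · have g3 : b ≤ y + 2 + 1 := by linarith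
          refine Or.inr ?_
          rcases h6 with h6 | h6
          · exact Or.inl ⟨h6, g2, g3⟩
          · exact Or.inr ⟨h6, g2, g3⟩
      rcases h5 with h5 | h5 | h5 | h5 | h5 | h5 | h5 | h5
      · exact Or.inl (Or.inl (Or.inl (Or.inl (hin (Or.inl h5)))))
      · exact hv (Or.inl h5)
      · exact hv (Or.inr h5)
      · exact Or.inl (Or.inl (Or.inl (Or.inl (hin (Or.inr (Or.inl h5))))))
      · exact Or.inl (Or.inl (Or.inl (Or.inl (hin (Or.inr (Or.inr (Or.inl h5)))))))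
      · exact Or.inl (Or.inl (Or.inl (Or.inr (Or.inl ⟨⟨h1, h2⟩, h5⟩))))
      · exact Or.inl (Or.inl (Or.inl (Or.inr (Or.inr ⟨⟨h1, h2⟩, h5⟩))))
      · exact Or.inl (Or.inl (Or.inl (Or.inl (hin (Or.inr (Or.inr (Or.inr h5)))))))

private theorem eb_sq_ne {a b x c e : ℝ} : sq a b ≠ ((x, x + 3), (c, e)) := by
  intro h
  have h1 : a = x := congrArg (fun R : Rect => R.1.1) h
  have h2 : a + 1 = x + 3 := congrArg (fun R : Rect => R.1.2) h
  linarith

/-- a row is not in the net -/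
private theorem eb_row_not_mem {T : Set ℂ} {Q : Finset Rect} {Γ : Set (ℝ × ℝ)} {φ : ℝ × ℝ → ℂ}
    (N : Net T Q Γ φ) {x y c e : ℝ} (hS : big x y ∈ Q) (h1 : y ≤ c) (h2 : c < e)
    (h3 : e ≤ y + 3) (h4 : e - c < 3) {R : Rect} (hR : R ∈ Q) : R ≠ ((x, x + 3), (c, e)) := by
  rintro rfl
  have hne : ((x, x + 3), (c, e)) ≠ big x y := by
    intro h
    have g1 : c = y := congrArg (fun R : Rect => R.2.1) h
    have g2 : e = y + 3 := congrArg (fun R : Rect => R.2.2) h
    linarith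
  have hd := N.sep _ hR _ hS hne
  have m1 : (x + 1, (c + e) / 2) ∈ op ((x, x + 3), (c, e)) :=
    ⟨⟨by simp only; linarith, by simp only; linarith⟩,
      ⟨by simp only; linarith, by simp only; linarith⟩⟩
  have m2 : (x + 1, (c + e) / 2) ∈ op (big x y) :=
    ⟨⟨by simp only [big]; linarith, by simp only [big]; linarith⟩,
      ⟨by simp only [big]; linarith, by simp only [big]; linarith⟩⟩
  exact disjoint_left.1 hd m1 m2

private theorem eb_near_congr {φ φ' φ'' : ℝ × ℝ → ℂ} {δ : ℝ} {p : ℝ × ℝ} {X : Set (ℝ × ℝ)}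
    (h : φ' p = φ'' p) (hn : Near φ φ'' δ p X) : Near φ φ' δ p X := by
  obtain ⟨q, hq, h1⟩ := hn
  exact ⟨q, hq, by rw [h]; exact h1⟩

private theorem eb_cpath_left {x c e u : ℝ} (hce : c < e) (hu : u ∈ Icc (0 : ℝ) 1) :
    cpath (x + 1) (-1) c e u ∈ bd ((x, x + 3), (c, e)) := by
  have h := cpath_left (R := ((x, x + 3), (c, e))) hce (m := x + 1) (by simp only; linarith)
    (by simp only; linarith)
  have h2 : x - (x + 1) = -1 := by ring
  simp only [h2] at h
  have h3 : cpath (x + 1) (-1) c e u ∈ cpath (x + 1) (-1) c e '' Icc 0 1 := mem_image_of_mem _ hu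
  rw [h] at h3
  exact h3.1

private theorem eb_cpath_right {x c e u : ℝ} (hce : c < e) (hu : u ∈ Icc (0 : ℝ) 1) :
    cpath (x + 2) 1 c e u ∈ bd ((x, x + 3), (c, e)) := by
  have h := cpath_right (R := ((x, x + 3), (c, e))) hce (m := x + 2) (by simp only; linarith)
    (by simp only; linarith)
  have h2 : x + 3 - (x + 2) = 1 := by ring
  simp only [h2] at h
  have h3 : cpath (x + 2) 1 c e u ∈ cpath (x + 2) 1 c e '' Icc 0 1 := mem_image_of_mem _ hu
  rw [h] at h3
  exact h3.1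

open Classical in
theorem eightH {W T : Set ℂ} {c : ℂ → Set ℂ} (h : Sys W T c) {Q : Finset Rect}
    {Γ : Set (ℝ × ℝ)} {φ : ℝ × ℝ → ℂ} (N : Net T Q Γ φ) {x y : ℝ}
    (hS : big x y ∈ Q) {ε : ℝ} (hε : 0 < ε) :
    ∃ φ' : ℝ × ℝ → ℂ, EqOn φ' φ Γ ∧ Net T (Q.erase (big x y) ∪ kids x y) (Γ ∪ kidsBd x y) φ' ∧
      (∀ o ∈ off, disc φ' (sq (x + o.1) (y + o.2)) ⊆ disc φ (big x y)) ∧ HC x y φ φ' ε := by
  have hδ : 0 < ε / 3 := by positivity
  obtain ⟨φ2, e2, N2, ⟨d2l, d2m, d2u⟩, A1, A2, A3, A4, A5, A6⟩ := threeRows h N hS hδ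
  have n1 : (((x, x + 3), (y + 1, y + 1 + 1)) : Rect) ≠ ((x, x + 3), (y, y + 1)) := by
    intro hh
    have g1 : y + 1 = y := congrArg (fun R : Rect => R.2.1) hh
    linarith
  have n2 : (((x, x + 3), (y + 2, y + 2 + 1)) : Rect) ≠ ((x, x + 3), (y, y + 1)) := by
    intro hh
    have g1 : y + 2 = y := congrArg (fun R : Rect => R.2.1) hh
    linarith
  have n3 : (((x, x + 3), (y + 2, y + 2 + 1)) : Rect) ≠ ((x, x + 3), (y + 1, y + 1 + 1)) := by
    intro hh
    have g1 : y + 2 = y + 1 := congrArg (fun R : Rect => R.2.1) hh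
    linarith
  obtain ⟨φ3, e3, N3, B1, B1', d30, d31, d32⟩ :=
    row h N2 (x := x) (y := y) (Finset.mem_insert_self _ _) hδ
  obtain ⟨φ4, e4, N4, B2, B2', d40, d41, d42⟩ := row h N3 (x := x) (y := y + 1)
    (by simp only [Finset.mem_insert, Finset.mem_erase]; tauto) hδ
  obtain ⟨φ5, e5, N5, B3, B3', d50, d51, d52⟩ := row h N4 (x := x) (y := y + 2)
    (by simp only [Finset.mem_insert, Finset.mem_erase]; tauto) hδ
  have hb : bd (big x y) ⊆ Γ := N.bdsub _ hS
  have f52 : EqOn φ5 φ2 (Γ ∪ (Icc x (x + 3) ×ˢ {y + 1} ∪ Icc x (x + 3) ×ˢ {y + 2})) :=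
    fun p hp => (e5 (Or.inl (Or.inl hp))).trans ((e4 (Or.inl hp)).trans (e3 hp))
  have f42 : EqOn φ4 φ2 (Γ ∪ (Icc x (x + 3) ×ˢ {y + 1} ∪ Icc x (x + 3) ×ˢ {y + 2})) :=
    fun p hp => (e4 (Or.inl hp)).trans (e3 hp)
  have f53 : EqOn φ5 φ3 ((Γ ∪ (Icc x (x + 3) ×ˢ {y + 1} ∪ Icc x (x + 3) ×ˢ {y + 2})) ∪
      ({x + 1} ×ˢ Icc y (y + 1) ∪ {x + 2} ×ˢ Icc y (y + 1))) :=
    fun p hp => (e5 (Or.inl hp)).trans (e4 hp)
  have f50 : EqOn φ5 φ Γ := fun p hp => (f52 (Or.inl hp)).trans (e2 hp)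
  have g0 : ∀ p ∈ bd (big x y), φ5 p = φ p := fun p hp => f50 (hb hp)
  have mrl : (((x, x + 3), (y, y + 1)) : Rect) ∈ (insert ((x, x + 3), (y, y + 1))
      (insert ((x, x + 3), (y + 1, y + 1 + 1))
        (insert ((x, x + 3), (y + 2, y + 2 + 1)) (Q.erase (big x y)))) : Finset Rect) := by
    simp only [Finset.mem_insert]; tauto
  have mrm : (((x, x + 3), (y + 1, y + 1 + 1)) : Rect) ∈ (insert ((x, x + 3), (y, y + 1))
      (insert ((x, x + 3), (y + 1, y + 1 + 1))
        (insert ((x, x + 3), (y + 2, y + 2 + 1)) (Q.erase (big x y)))) : Finset Rect) := by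
    simp only [Finset.mem_insert]; tauto
  have mru : (((x, x + 3), (y + 2, y + 2 + 1)) : Rect) ∈ (insert ((x, x + 3), (y, y + 1))
      (insert ((x, x + 3), (y + 1, y + 1 + 1))
        (insert ((x, x + 3), (y + 2, y + 2 + 1)) (Q.erase (big x y)))) : Finset Rect) := by
    simp only [Finset.mem_insert]; tauto
  refine ⟨φ5, f50, ?_, ?_, ?_⟩
  · rw [← eb_gamma hb]
    refine N5.mono ?_
    intro R hR
    rw [Finset.mem_union, Finset.mem_erase] at hR
    rcases hR with ⟨h1, h2⟩ | hR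
    · have q1 : R ≠ ((x, x + 3), (y, y + 1)) :=
        eb_row_not_mem N hS le_rfl (by linarith) (by linarith) (by linarith) h2
      have q2 : R ≠ ((x, x + 3), (y + 1, y + 1 + 1)) :=
        eb_row_not_mem N hS (by linarith) (by linarith) (by linarith) (by linarith) h2
      have q3 : R ≠ ((x, x + 3), (y + 2, y + 2 + 1)) :=
        eb_row_not_mem N hS (by linarith) (by linarith) (by linarith) (by linarith) h2
      simp only [Finset.mem_insert, Finset.mem_erase]
      exact Or.inr (Or.inr (Or.inr ⟨q3, Or.inr (Or.inr (Or.inr ⟨q2, Or.inr (Or.inr (Or.inr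
        ⟨q1, Or.inr (Or.inr (Or.inr ⟨h1, h2⟩))⟩))⟩))⟩))
    · rw [kids, Finset.mem_image] at hR
      obtain ⟨o, ho, rfl⟩ := hR
      revert o
      have k : ∀ a b : ℝ, sq a b ≠ ((x, x + 3), (y + 1, y + 1 + 1)) ∧
        sq a b ≠ ((x, x + 3), (y + 2, y + 2 + 1)) := fun a b => ⟨eb_sq_ne, eb_sq_ne⟩
      apply eb_off
      · simp only [Nat.cast_zero, add_zero, Finset.mem_insert, Finset.mem_erase]
        have := k x y
        tauto
      · simp only [Nat.cast_zero, Nat.cast_one, add_zero, Finset.mem_insert, Finset.mem_erase]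
        have := k x (y + 1)
        tauto
      · simp only [Nat.cast_zero, Nat.cast_ofNat, add_zero, Finset.mem_insert, Finset.mem_erase]
        tauto
      · simp only [Nat.cast_zero, Nat.cast_one, add_zero, Finset.mem_insert, Finset.mem_erase]
        have := k (x + 1) y
        tauto
      · simp only [Nat.cast_one, Nat.cast_ofNat, Finset.mem_insert, Finset.mem_erase]
        tauto
      · simp only [Nat.cast_zero, Nat.cast_ofNat, add_zero, Finset.mem_insert, Finset.mem_erase]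
        have := k (x + 2) y
        tauto
      · simp only [Nat.cast_one, Nat.cast_ofNat, Finset.mem_insert, Finset.mem_erase]
        have := k (x + 2) (y + 1)
        tauto
      · simp only [Nat.cast_ofNat, Finset.mem_insert, Finset.mem_erase]
        tauto
  · have r1 : ∀ a : ℝ, bd (sq a y) ⊆ ((Γ ∪ (Icc x (x + 3) ×ˢ {y + 1} ∪ Icc x (x + 3) ×ˢ {y + 2})) ∪
        ({x + 1} ×ˢ Icc y (y + 1) ∪ {x + 2} ×ˢ Icc y (y + 1))) →
        disc φ3 (sq a y) ⊆ disc φ2 ((x, x + 3), (y, y + 1)) →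
        disc φ5 (sq a y) ⊆ disc φ (big x y) := by
      intro a h1 h2
      rw [eb_disc_congr (f53.mono h1)]
      exact h2.trans d2l
    have r2 : ∀ a : ℝ, bd (sq a (y + 1)) ⊆ (((Γ ∪ (Icc x (x + 3) ×ˢ {y + 1} ∪
        Icc x (x + 3) ×ˢ {y + 2})) ∪
        ({x + 1} ×ˢ Icc y (y + 1) ∪ {x + 2} ×ˢ Icc y (y + 1))) ∪
        ({x + 1} ×ˢ Icc (y + 1) (y + 1 + 1) ∪ {x + 2} ×ˢ Icc (y + 1) (y + 1 + 1))) →
        disc φ4 (sq a (y + 1)) ⊆ disc φ3 ((x, x + 3), (y + 1, y + 1 + 1)) →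
        disc φ5 (sq a (y + 1)) ⊆ disc φ (big x y) := by
      intro a h1 h2
      rw [eb_disc_congr (e5.mono h1)]
      refine h2.trans ?_
      rw [eb_disc_congr (e3.mono (N2.bdsub _ mrm))]
      exact d2m
    have r3 : ∀ a : ℝ, disc φ5 (sq a (y + 2)) ⊆ disc φ4 ((x, x + 3), (y + 2, y + 2 + 1)) →
        disc φ5 (sq a (y + 2)) ⊆ disc φ (big x y) := by
      intro a h2
      refine h2.trans ?_
      rw [eb_disc_congr (f42.mono (N2.bdsub _ mru))]
      exact d2u
    apply eb_off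
    · simp only [Nat.cast_zero, add_zero]
      exact r1 x (N3.bdsub _ (by simp only [Finset.mem_insert]; tauto)) d30
    · simp only [Nat.cast_zero, Nat.cast_one, add_zero]
      exact r2 x (N4.bdsub _ (by simp only [Finset.mem_insert]; tauto)) d40
    · simp only [Nat.cast_zero, Nat.cast_ofNat, add_zero]
      exact r3 x d50
    · simp only [Nat.cast_zero, Nat.cast_one, add_zero]
      exact r1 (x + 1) (N3.bdsub _ (by simp only [Finset.mem_insert]; tauto)) d31
    · simp only [Nat.cast_one, Nat.cast_ofNat]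
      exact r3 (x + 1) d51
    · simp only [Nat.cast_zero, Nat.cast_ofNat, add_zero]
      exact r1 (x + 2) (N3.bdsub _ (by simp only [Finset.mem_insert]; tauto)) d32
    · simp only [Nat.cast_one, Nat.cast_ofNat]
      exact r2 (x + 2) (N4.bdsub _ (by simp only [Finset.mem_insert]; tauto)) d42
    · simp only [Nat.cast_ofNat]
      exact r3 (x + 2) d52
  · -- closeness
    have hm : 2 * (ε / 3) ≤ ε := by linarith
    have hlt : ε / 3 < ε := by linarith
    have A1' : ∀ u ∈ Icc (0 : ℝ) 1, Near φ φ5 (ε / 3) (x + u, y + 1) (cLL x y) := fun u hu =>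
      eb_near_congr (f52 (Or.inr (Or.inl ⟨⟨by simp only; linarith [hu.1],
        by simp only; linarith [hu.2]⟩, rfl⟩))) (A1 u hu)
    have A3' : ∀ u ∈ Icc (0 : ℝ) 1, Near φ φ5 (ε / 3) (x + 2 + u, y + 1) (cRL x y) :=
      fun u hu => eb_near_congr (f52 (Or.inr (Or.inl ⟨⟨by simp only; linarith [hu.1],
        by simp only; linarith [hu.2]⟩, rfl⟩))) (A3 u hu)
    have A4' : ∀ u ∈ Icc (0 : ℝ) 1, Near φ φ5 (ε / 3) (x + u, y + 2) (cLU x y) := fun u hu =>
      eb_near_congr (f52 (Or.inr (Or.inr ⟨⟨by simp only; linarith [hu.1],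
        by simp only; linarith [hu.2]⟩, rfl⟩))) (A4 u hu)
    have A6' : ∀ u ∈ Icc (0 : ℝ) 1, Near φ φ5 (ε / 3) (x + 2 + u, y + 2) (cRU x y) :=
      fun u hu => eb_near_congr (f52 (Or.inr (Or.inr ⟨⟨by simp only; linarith [hu.1],
        by simp only; linarith [hu.2]⟩, rfl⟩))) (A6 u hu)
    have C1 : ∀ u ∈ Icc (0 : ℝ) 1,
        dist (φ5 (x + 1, y + u)) (φ5 (cpath (x + 1) (-1) y (y + 1) u)) < ε / 3 := by
      intro u hu
      have hp : ((x + 1, y + u) : ℝ × ℝ) ∈ ((Γ ∪ (Icc x (x + 3) ×ˢ {y + 1} ∪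
          Icc x (x + 3) ×ˢ {y + 2})) ∪ ({x + 1} ×ˢ Icc y (y + 1) ∪ {x + 2} ×ˢ Icc y (y + 1))) :=
        Or.inr (Or.inl ⟨rfl, by simp only; linarith [hu.1], by simp only; linarith [hu.2]⟩)
      rw [f52 (N2.bdsub _ mrl (eb_cpath_left (by linarith) hu)), f53 hp]
      exact B1 u hu
    have C1' : ∀ u ∈ Icc (0 : ℝ) 1,
        dist (φ5 (x + 2, y + u)) (φ5 (cpath (x + 2) 1 y (y + 1) u)) < ε / 3 := by
      intro u hu
      have hp : ((x + 2, y + u) : ℝ × ℝ) ∈ ((Γ ∪ (Icc x (x + 3) ×ˢ {y + 1} ∪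
          Icc x (x + 3) ×ˢ {y + 2})) ∪ ({x + 1} ×ˢ Icc y (y + 1) ∪ {x + 2} ×ˢ Icc y (y + 1))) :=
        Or.inr (Or.inr ⟨rfl, by simp only; linarith [hu.1], by simp only; linarith [hu.2]⟩)
      rw [f52 (N2.bdsub _ mrl (eb_cpath_right (by linarith) hu)), f53 hp]
      exact B1' u hu
    have C2 : ∀ u ∈ Icc (0 : ℝ) 1,
        dist (φ5 (x + 1, y + 1 + u)) (φ5 (cpath (x + 1) (-1) (y + 1) (y + 1 + 1) u)) < ε / 3 := by
      intro u hu
      have hp : ((x + 1, y + 1 + u) : ℝ × ℝ) ∈ (((Γ ∪ (Icc x (x + 3) ×ˢ {y + 1} ∪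
          Icc x (x + 3) ×ˢ {y + 2})) ∪ ({x + 1} ×ˢ Icc y (y + 1) ∪ {x + 2} ×ˢ Icc y (y + 1))) ∪
          ({x + 1} ×ˢ Icc (y + 1) (y + 1 + 1) ∪ {x + 2} ×ˢ Icc (y + 1) (y + 1 + 1))) :=
        Or.inr (Or.inl ⟨rfl, by simp only; linarith [hu.1], by simp only; linarith [hu.2]⟩)
      rw [f53 (Or.inl (N2.bdsub _ mrm (eb_cpath_left (by linarith) hu))), e5 hp]
      exact B2 u hu
    have C2' : ∀ u ∈ Icc (0 : ℝ) 1,
        dist (φ5 (x + 2, y + 1 + u)) (φ5 (cpath (x + 2) 1 (y + 1) (y + 1 + 1) u)) < ε / 3 := by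
      intro u hu
      have hp : ((x + 2, y + 1 + u) : ℝ × ℝ) ∈ (((Γ ∪ (Icc x (x + 3) ×ˢ {y + 1} ∪
          Icc x (x + 3) ×ˢ {y + 2})) ∪ ({x + 1} ×ˢ Icc y (y + 1) ∪ {x + 2} ×ˢ Icc y (y + 1))) ∪
          ({x + 1} ×ˢ Icc (y + 1) (y + 1 + 1) ∪ {x + 2} ×ˢ Icc (y + 1) (y + 1 + 1))) :=
        Or.inr (Or.inr ⟨rfl, by simp only; linarith [hu.1], by simp only; linarith [hu.2]⟩)
      rw [f53 (Or.inl (N2.bdsub _ mrm (eb_cpath_right (by linarith) hu))), e5 hp]
      exact B2' u hu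
    have C3 : ∀ u ∈ Icc (0 : ℝ) 1,
        dist (φ5 (x + 1, y + 2 + u)) (φ5 (cpath (x + 1) (-1) (y + 2) (y + 2 + 1) u)) < ε / 3 := by
      intro u hu
      rw [e5 (Or.inl (Or.inl (N2.bdsub _ mru (eb_cpath_left (by linarith) hu))))]
      exact B3 u hu
    have C3' : ∀ u ∈ Icc (0 : ℝ) 1,
        dist (φ5 (x + 2, y + 2 + u)) (φ5 (cpath (x + 2) 1 (y + 2) (y + 2 + 1) u)) < ε / 3 := by
      intro u hu
      rw [e5 (Or.inl (Or.inl (N2.bdsub _ mru (eb_cpath_right (by linarith) hu))))]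
      exact B3' u hu
    refine ⟨?_, ?_, ?_, ?_, ?_, ?_, ?_, ?_, ?_, ?_, ?_, ?_⟩
    · -- ll
      intro p hp
      refine eb_near_mono (eb_sq_left hδ C1 ?_ ?_ A1' p hp) hm
      · intro v hv
        exact eb_near_of_eq hδ (Or.inr ⟨⟨by simp only; linarith [hv.1],
          by simp only; linarith [hv.2]⟩, rfl⟩)
          (g0 _ (eb_bd (by linarith [hv.1]) (by linarith [hv.2]) le_rfl (by linarith)
            (Or.inr (Or.inr (Or.inl rfl)))))
      · intro v hv
        exact eb_near_of_eq hδ (Or.inl ⟨rfl, ⟨by simp only; linarith [hv.1],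
          by simp only; linarith [hv.2]⟩⟩)
          (g0 _ (eb_bd le_rfl (by linarith) (by linarith [hv.1]) (by linarith [hv.2])
            (Or.inl rfl)))
    · -- rl
      intro p hp
      have e21 : x + 2 + 1 = x + 3 := by ring
      refine eb_near_mono (eb_sq_right hδ C1' ?_ ?_ A3' p hp) hm
      · intro v hv
        exact eb_near_of_eq hδ (Or.inr ⟨⟨by simp only; linarith [hv.1],
          by simp only; linarith [hv.2]⟩, rfl⟩)
          (g0 _ (eb_bd (by linarith [hv.1]) (by linarith [hv.2]) le_rfl (by linarith)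
            (Or.inr (Or.inr (Or.inl rfl)))))
      · intro v hv
        rw [e21]
        exact eb_near_of_eq hδ (Or.inl ⟨rfl, ⟨by simp only; linarith [hv.1],
          by simp only; linarith [hv.2]⟩⟩)
          (g0 _ (eb_bd (by linarith) le_rfl (by linarith [hv.1]) (by linarith [hv.2])
            (Or.inr (Or.inl rfl))))
    · -- lu
      intro p hp
      have e21 : y + 2 + 1 = y + 3 := by ring
      refine eb_near_mono (eb_sq_left hδ C3 A4' ?_ ?_ p hp) hm
      · intro v hv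
        exact eb_near_of_eq hδ (Or.inl ⟨rfl, ⟨by simp only; linarith [hv.1],
          by simp only; linarith [hv.2]⟩⟩)
          (g0 _ (eb_bd le_rfl (by linarith) (by linarith [hv.1]) (by linarith [hv.2])
            (Or.inl rfl)))
      · intro v hv
        rw [e21]
        exact eb_near_of_eq hδ (Or.inr ⟨⟨by simp only; linarith [hv.1],
          by simp only; linarith [hv.2]⟩, rfl⟩)
          (g0 _ (eb_bd (by linarith [hv.1]) (by linarith [hv.2]) (by linarith) le_rfl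
            (Or.inr (Or.inr (Or.inr rfl)))))
    · -- ru
      intro p hp
      have e21 : y + 2 + 1 = y + 3 := by ring
      have e22 : x + 2 + 1 = x + 3 := by ring
      refine eb_near_mono (eb_sq_right hδ C3' A6' ?_ ?_ p hp) hm
      · intro v hv
        rw [e22]
        exact eb_near_of_eq hδ (Or.inl ⟨rfl, ⟨by simp only; linarith [hv.1],
          by simp only; linarith [hv.2]⟩⟩)
          (g0 _ (eb_bd (by linarith) le_rfl (by linarith [hv.1]) (by linarith [hv.2])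
            (Or.inr (Or.inl rfl))))
      · intro v hv
        rw [e21]
        exact eb_near_of_eq hδ (Or.inr ⟨⟨by simp only; linarith [hv.1],
          by simp only; linarith [hv.2]⟩, rfl⟩)
          (g0 _ (eb_bd (by linarith [hv.1]) (by linarith [hv.2]) (by linarith) le_rfl
            (Or.inr (Or.inr (Or.inr rfl)))))
    · -- low
      intro u hu
      have hp : ((x + 1 + u, y + 1) : ℝ × ℝ) ∈ (Γ ∪ (Icc x (x + 3) ×ˢ {y + 1} ∪
          Icc x (x + 3) ×ˢ {y + 2})) := Or.inr (Or.inl ⟨⟨by simp only; linarith [hu.1],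
        by simp only; linarith [hu.2]⟩, rfl⟩)
      rw [f52 hp]
      exact (A2 u hu).trans hlt
    · -- up
      intro u hu
      have hp : ((x + 1 + u, y + 2) : ℝ × ℝ) ∈ (Γ ∪ (Icc x (x + 3) ×ˢ {y + 1} ∪
          Icc x (x + 3) ×ˢ {y + 2})) := Or.inr (Or.inr ⟨⟨by simp only; linarith [hu.1],
        by simp only; linarith [hu.2]⟩, rfl⟩)
      rw [f52 hp]
      exact (A5 u hu).trans hlt
    · -- ml1
      intro u hu
      have h1 := C2 (u / 3) ⟨by linarith [hu.1], by linarith [hu.2]⟩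
      rw [eb_cpath_a _ _ _ _ (by linarith [hu.1]) (by linarith [hu.2])] at h1
      have e : x + 1 + -1 * (3 * (u / 3)) = x + (1 - u) := by ring
      rw [e] at h1
      exact eb_near_mono (eb_near_trans h1 (A1' (1 - u) ⟨by linarith [hu.2], by linarith [hu.1]⟩)) hm
    · -- ml2
      intro u hu
      have h1 := C2 ((1 + u) / 3) ⟨by linarith [hu.1], by linarith [hu.2]⟩
      rw [eb_cpath_b _ _ _ _ (by linarith [hu.1]) (by linarith [hu.2])] at h1
      have e : x + 1 + -1 = x := by ring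
      have e' : y + 1 + (y + 1 + 1 - (y + 1)) * (3 * ((1 + u) / 3) - 1) = y + 1 + u := by ring
      rw [e, e', g0 (x, y + 1 + u) (eb_bd le_rfl (by linarith) (by linarith [hu.1])
        (by linarith [hu.2]) (Or.inl rfl))] at h1
      exact h1.trans hlt
    · -- ml3
      intro u hu
      have h1 := C2 ((2 + u) / 3) ⟨by linarith [hu.1], by linarith [hu.2]⟩
      rw [eb_cpath_c _ _ _ _ (by linarith [hu.1]) (by linarith [hu.2])] at h1
      have e : x + 1 + -1 * (3 - 3 * ((2 + u) / 3)) = x + u := by ring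
      have e' : y + 1 + 1 = y + 2 := by ring
      rw [e, e'] at h1
      exact eb_near_mono (eb_near_trans h1 (A4' u hu)) hm
    · -- mr1
      intro u hu
      have h1 := C2' (u / 3) ⟨by linarith [hu.1], by linarith [hu.2]⟩
      rw [eb_cpath_a _ _ _ _ (by linarith [hu.1]) (by linarith [hu.2])] at h1
      have e : x + 2 + 1 * (3 * (u / 3)) = x + 2 + u := by ring
      rw [e] at h1
      exact eb_near_mono (eb_near_trans h1 (A3' u hu)) hm
    · -- mr2
      intro u hu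
      have h1 := C2' ((1 + u) / 3) ⟨by linarith [hu.1], by linarith [hu.2]⟩
      rw [eb_cpath_b _ _ _ _ (by linarith [hu.1]) (by linarith [hu.2])] at h1
      have e : x + 2 + 1 = x + 3 := by ring
      have e' : y + 1 + (y + 1 + 1 - (y + 1)) * (3 * ((1 + u) / 3) - 1) = y + 1 + u := by ring
      rw [e, e', g0 (x + 3, y + 1 + u) (eb_bd (by linarith) le_rfl (by linarith [hu.1])
        (by linarith [hu.2]) (Or.inr (Or.inl rfl)))] at h1
      exact h1.trans hlt
    · -- mr3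
      intro u hu
      have h1 := C2' ((2 + u) / 3) ⟨by linarith [hu.1], by linarith [hu.2]⟩
      rw [eb_cpath_c _ _ _ _ (by linarith [hu.1]) (by linarith [hu.2])] at h1
      have e : x + 2 + 1 * (3 - 3 * ((2 + u) / 3)) = x + 2 + (1 - u) := by ring
      have e' : y + 1 + 1 = y + 2 := by ring
      rw [e, e'] at h1
      exact eb_near_mono (eb_near_trans h1 (A6' (1 - u) ⟨by linarith [hu.2], by linarith [hu.1]⟩)) hm

end CarT
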