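import Pool.Agent.CarT.EightB
import Pool.Agent.CarT.Swap

/-!
# CarT/EightC : subdivision starting with vertical cuts

Apply `eightH` to the net exchanged by `net_swap` (with `x, y` exchanged) and exchange back:
`(big x y).swap = big y x`, `(sq x y).swap = sq y x`, `off` is symmetric, so
`(kids y x).image Prod.swap = kids x y` and `Prod.swap ⁻¹' kidsBd y x = kidsBd x y`;
`(Q.image swap).erase (swap R) = (Q.erase R).image swap`; `disc_swap`. `VC x y φ φ' ε` is by
definition `HC y x (φ ∘ swap) (φ' ∘ swap) ε`.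
-/

open Set Metric

namespace CarT

lemma EightC_off : off.image Prod.swap = off := by decide

lemma EightC_mem {o : ℕ × ℕ} : o.swap ∈ off ↔ o ∈ off := by
  constructor
  · intro h
    have := Finset.mem_image_of_mem Prod.swap h
    rw [EightC_off, Prod.swap_swap] at this
    exact this
  · intro h
    have := Finset.mem_image_of_mem Prod.swap h
    rwa [EightC_off] at this

lemma EightC_bd (x y : ℝ) : Prod.swap ⁻¹' kidsBd y x = kidsBd x y := by
  have key : ∀ (o : ℕ × ℕ), Prod.swap ⁻¹' bd (sq (y + o.1) (x + o.2)) =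
      bd (sq (x + o.swap.1) (y + o.swap.2)) := by
    intro o
    rw [← bd_swap]
    rfl
  ext p
  unfold kidsBd
  simp only [Set.mem_preimage, Set.mem_iUnion]
  constructor
  · rintro ⟨o, ho, hp⟩
    refine ⟨o.swap, EightC_mem.2 ho, ?_⟩
    rw [← key]
    exact hp
  · rintro ⟨o, ho, hp⟩
    refine ⟨o.swap, EightC_mem.2 ho, ?_⟩
    have e := key o.swap
    rw [Prod.swap_swap] at e
    rw [← e] at hp
    exact hp

open Classical in
lemma EightC_kids (x y : ℝ) : (kids y x).image Prod.swap = kids x y := by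
  ext R
  unfold kids
  simp only [Finset.mem_image]
  constructor
  · rintro ⟨_, ⟨o, ho, rfl⟩, rfl⟩
    exact ⟨o.swap, EightC_mem.2 ho, rfl⟩
  · rintro ⟨o, ho, rfl⟩
    exact ⟨_, ⟨o.swap, EightC_mem.2 ho, rfl⟩, rfl⟩

open Classical in
theorem eightV {W T : Set ℂ} {c : ℂ → Set ℂ} (h : Sys W T c) {Q : Finset Rect}
    {Γ : Set (ℝ × ℝ)} {φ : ℝ × ℝ → ℂ} (N : Net T Q Γ φ) {x y : ℝ}
    (hS : big x y ∈ Q) {ε : ℝ} (hε : 0 < ε) :
    ∃ φ' : ℝ × ℝ → ℂ, EqOn φ' φ Γ ∧ Net T (Q.erase (big x y) ∪ kids x y) (Γ ∪ kidsBd x y) φ' ∧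
      (∀ o ∈ off, disc φ' (sq (x + o.1) (y + o.2)) ⊆ disc φ (big x y)) ∧ VC x y φ φ' ε := by
  have N' := net_swap N
  have hS' : big y x ∈ Q.image Prod.swap := Finset.mem_image.2 ⟨big x y, hS, rfl⟩
  obtain ⟨ψ, h1, h2, h3, h4⟩ := eightH h N' hS' hε
  have hψ : (ψ ∘ Prod.swap) ∘ Prod.swap = ψ := by
    funext p
    show ψ p.swap.swap = ψ p
    rw [Prod.swap_swap]
  refine ⟨ψ ∘ Prod.swap, ?_, ?_, ?_, ?_⟩
  · intro p hp
    have e : p.swap ∈ Prod.swap ⁻¹' Γ := by
      rw [Set.mem_preimage, Prod.swap_swap]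
      exact hp
    have := h1 e
    show ψ p.swap = φ p
    rw [this]
    show φ p.swap.swap = φ p
    rw [Prod.swap_swap]
  · have N2 := net_swap h2
    have e1 : Prod.swap ⁻¹' (Prod.swap ⁻¹' Γ ∪ kidsBd y x) = Γ ∪ kidsBd x y := by
      rw [Set.preimage_union, EightC_bd]
      congr 1
    have e2 : (((Q.image Prod.swap).erase (big y x)) ∪ kids y x).image Prod.swap =
        Q.erase (big x y) ∪ kids x y := by
      rw [Finset.image_union, EightC_kids]
      congr 1
      ext R
      simp only [Finset.mem_image, Finset.mem_erase]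
      constructor
      · rintro ⟨_, ⟨hne, R', hR', rfl⟩, rfl⟩
        rw [Prod.swap_swap]
        refine ⟨fun hc => hne ?_, hR'⟩
        rw [hc]
        rfl
      · rintro ⟨hne, hR⟩
        refine ⟨R.swap, ⟨fun hc => hne ?_, R, hR, rfl⟩, Prod.swap_swap R⟩
        have := congrArg Prod.swap hc
        rw [Prod.swap_swap] at this
        rw [this]
        rfl
    rw [e1, e2] at N2
    exact N2
  · intro o ho
    have e := h3 o.swap (EightC_mem.2 ho)
    have e1 : disc (ψ ∘ Prod.swap) (sq (x + o.1) (y + o.2)) =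
        disc ψ (sq (y + o.swap.1) (x + o.swap.2)) := disc_swap ψ (sq (y + o.swap.1) (x + o.swap.2))
    have e2 : disc (φ ∘ Prod.swap) (big y x) = disc φ (big x y) := disc_swap φ (big x y)
    rw [e1, ← e2]
    exact e
  · unfold VC
    rw [hψ]
    exact h4

end CarT
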