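import Pool.Agent.CarT.EarA
import Pool.Agent.CarT.Acc
import Pool.Agent.CarT.ArcE3

/-!
# CarT/Init : there is a Jordan curve in `T`

1. `h.nonem` gives a nonempty open saturated `G₀ ⊆ W`; `h.dense` gives `x₀ ∈ G₀ ∩ T`. By `h.nbhd` for
   `C = {x₀}` and `O = G₀ ∩ ball x₀ 1` there is an open saturated bounded `G₁ ∋ x₀`; let `G` be the
   component of `x₀` in `G₁`: open, saturated (`sat_comp`), preconnected, bounded, `G ⊆ W`.
2. `x = x₀ ∈ G ∩ T`. `G \ {x}` is open, saturated (`sat_diff`), nonempty (no open set of `ℂ` is a point), so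
   it contains a point `y ∈ T` (`h.dense`). `h.path` joins `x` to `y` in `G ∩ T`; `exists_arc` gives an arc
   `A ⊆ G ∩ T` from `x` to `y`.
3. `D = G \ A` is open, saturated (`sat_diff`), preconnected (`diff_arc_preconn` with `U = G`,
   `A \ G = ∅`), nonempty (`near_arc`); let `z ∈ D ∩ T` (`h.dense`).
4. `access` at `p = x`: for `r > 0` use `exists_U_arc` with `O = G ∩ ball x r`; `U ∩ D = U \ A` is
   preconnected (`diff_arc_preconn`) and nonempty (`near_arc`). So `x` is joined to `z` in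
   `(D ∩ T) ∪ {x}`. The same at `y` (use `hA.symm`). So `x` and `y` are joined in
   `(D ∩ T) ∪ {x, y}`, and `exists_arc` gives an arc `B ⊆ (D ∩ T) ∪ {x, y}` from `x` to `y`. `A ∩ B = {x, y}`
   because `D ∩ A = ∅`. `isJordan_of_arcs`: `J = A ∪ B ⊆ T` is a Jordan curve.
-/

open Set Metric

namespace CarT

/-- accessibility of an end of an arc from its complement -/
theorem acc_end {W T : Set ℂ} {c : ℂ → Set ℂ} (h : Sys W T c) {A G : Set ℂ} {x y z : ℂ}
    (hGo : IsOpen G) (hGs : IsSat c G) (hGW : G ⊆ W) (hDc : IsPreconnected (G \ A))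
    (hA : IsArc A x y) (hAG : A ⊆ G) (hAT : A ⊆ T) (hz : z ∈ (G \ A) ∩ T) :
    JoinedIn (((G \ A) ∩ T) ∪ {x}) x z := by
  have hxA := hA.left_mem
  refine access h (hGo.sdiff hA.isCompact.isClosed) (sat_diff h hGs hGW hAT)
    (diff_subset.trans hGW) hDc ?_ hz
  intro r hr
  obtain ⟨U, hUo, hUs, hUc, hxU, hUO, hUW, hAU⟩ := exists_U_arc h (O := G ∩ ball x r) hA hAT
    (hGo.inter isOpen_ball) ⟨hAG hxA, mem_ball_self hr⟩
  have hUD : U ∩ (G \ A) = U \ A := by
    ext p
    constructor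
    · rintro ⟨h1, h2⟩
      exact ⟨h1, h2.2⟩
    · rintro ⟨h1, h2⟩
      exact ⟨h1, (hUO h1).1, h2⟩
  have hUb : Bornology.IsBounded U :=
    Metric.isBounded_ball.subset (hUO.trans inter_subset_right)
  refine ⟨U, hUo, hUs, hxU, hUO.trans inter_subset_right, hUW, ?_, ?_⟩
  · rw [hUD]
    exact diff_arc_preconn hA hUo hUb hUc hAU
  · rw [hUD]
    exact near_arc hA hUo ⟨x, hxU⟩

theorem exists_jordan {W T : Set ℂ} {c : ℂ → Set ℂ} (h : Sys W T c) :
    ∃ J : Set ℂ, IsJordan J ∧ J ⊆ T := by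
  obtain ⟨G₀, hG₀o, hG₀s, hG₀n, hG₀W⟩ := h.nonem
  obtain ⟨x, hxG₀, hxT⟩ := h.dense G₀ hG₀o hG₀s hG₀W hG₀n
  obtain ⟨G₁, hG₁o, hG₁s, hxG₁, hG₁O, hG₁W⟩ := h.nbhd {x} (G₀ ∩ ball x 1) isCompact_singleton
    (singleton_subset_iff.mpr hxT) (hG₀o.inter isOpen_ball)
    (singleton_subset_iff.mpr ⟨hxG₀, mem_ball_self one_pos⟩)
  rw [singleton_subset_iff] at hxG₁
  obtain ⟨G, hG⟩ : ∃ G, G = connectedComponentIn G₁ x := ⟨_, rfl⟩
  have hGo : IsOpen G := by rw [hG]; exact hG₁o.connectedComponentIn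
  have hGs : IsSat c G := by rw [hG]; exact sat_comp h hG₁s hG₁W x
  have hGc : IsPreconnected G := by rw [hG]; exact isPreconnected_connectedComponentIn
  have hGG₁ : G ⊆ G₁ := by rw [hG]; exact connectedComponentIn_subset _ _
  have hxG : x ∈ G := by rw [hG]; exact mem_connectedComponentIn hxG₁
  have hGW : G ⊆ W := hGG₁.trans hG₁W
  have hGb : Bornology.IsBounded G :=
    Metric.isBounded_ball.subset ((hGG₁.trans hG₁O).trans inter_subset_right)
  -- the second point
  have hne : (G \ {x}).Nonempty := by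
    obtain ⟨e, he, hball⟩ := Metric.isOpen_iff.mp hGo x hxG
    refine ⟨x + (((e / 2 : ℝ)) : ℂ), hball ?_, ?_⟩
    · rw [mem_ball, dist_eq_norm, add_sub_cancel_left, Complex.norm_real, Real.norm_eq_abs,
        abs_of_pos (by linarith)]
      linarith
    · rw [mem_singleton_iff]
      intro hh
      have h1 : (((e / 2 : ℝ)) : ℂ) = 0 := by
        have h2 := congrArg (fun w => w - x) hh
        simpa using h2
      rw [Complex.ofReal_eq_zero] at h1
      linarith
  obtain ⟨y, ⟨hyG, hyx⟩, hyT⟩ := h.dense (G \ {x}) (hGo.sdiff isClosed_singleton)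
    (sat_diff h hGs hGW (singleton_subset_iff.mpr hxT)) (diff_subset.trans hGW) hne
  rw [mem_singleton_iff] at hyx
  have hxy : x ≠ y := fun hh => hyx hh.symm
  obtain ⟨A, hA, hAGT⟩ := exists_arc (h.path G hGo hGs hGW hGc x ⟨hxG, hxT⟩ y ⟨hyG, hyT⟩) hxy
  have hAG : A ⊆ G := hAGT.trans inter_subset_left
  have hAT : A ⊆ T := hAGT.trans inter_subset_right
  -- the complement
  have hDc : IsPreconnected (G \ A) := by
    refine diff_arc_preconn hA hGo hGb hGc ?_
    rw [diff_eq_empty.mpr hAG]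
    exact isPreconnected_empty
  obtain ⟨z, hz⟩ := h.dense (G \ A) (hGo.sdiff hA.isCompact.isClosed)
    (sat_diff h hGs hGW hAT) (diff_subset.trans hGW) (near_arc hA hGo ⟨x, hxG⟩)
  have h1 := acc_end h hGo hGs hGW hDc hA hAG hAT hz
  have h2 := acc_end h hGo hGs hGW hDc hA.symm hAG hAT hz
  have h3 : JoinedIn (((G \ A) ∩ T) ∪ {x, y}) x y :=
    (h1.mono (union_subset_union_right _ (by simp))).trans
      (h2.mono (union_subset_union_right _ (by simp))).symm
  obtain ⟨B, hB, hBD⟩ := exists_arc h3 hxy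
  have hAB : A ∩ B = {x, y} := by
    ext p
    constructor
    · rintro ⟨hpA, hpB⟩
      rcases hBD hpB with hp | hp
      · exact absurd hpA hp.1.2
      · exact hp
    · rintro (rfl | hp)
      · exact ⟨hA.left_mem, hB.left_mem⟩
      · rw [mem_singleton_iff] at hp
        rw [hp]
        exact ⟨hA.right_mem, hB.right_mem⟩
  refine ⟨A ∪ B, isJordan_of_arcs hA hB hAB, union_subset hAT ?_⟩
  intro p hp
  rcases hBD hp with hp | hp | hp
  · exact hp.2
  · rw [hp]
    exact hxT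
  · rw [mem_singleton_iff] at hp
    rw [hp]
    exact hyT

end CarT
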