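import Pool.Agent.CarT.Net

/-!
# CarT/SizeA : short paths and weights

* `strict_gap`: the continuous function `dist (ψ p) (ψ q)` on the compact set `K × K` attains its
  maximum `< r` (if `K` is empty take `η = 1`).
* `sh_close`: `strict_gap` on `[0,1]`, `ε = η / 3`.
* `wt_close`: for every piece `[τ i, τ (i+1)] ⊆ [0, 1]`, `i < w`, `strict_gap`; minimum of finitely
  many `η`.
* `wt_mono`: `τ' i = τ i` for `i ≤ w` and `1` for `i > w` (`τ' i = τ (min i w)`); the new pieces are the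
  point `1`, `dist = 0 < σ`.
* `wt_two`: `s ∈ [0, τ 1]`, `t ∈ [τ 1, 1]`: `dist (f s) (f t) ≤ dist (f s) (f (τ 1)) + dist (f (τ 1)) (f t)`.
* `exists_wt`: uniform continuity, `τ i = min (i / w) 1`.
* `wt_strict`: by `wt` and uniform continuity: for each piece the maximum of `dist (f s) (f t)` is
  `< σ`, so there is `η > 0` such that `dist (f s) (f t) < σ` also for all `s, t ∈ [0,1]` within distance
  `η` from the piece. Take `τ' i = (1 - η) τ i + η (i / w)` for `i ≤ w`: strictly increasing for `i ≤ w`,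
  `|τ' i - τ i| ≤ η`, `τ' 0 = 0`, `τ' w = 1`.
* `wt_concat`: pieces `[0, 1/3]`, `[(1 + τ i)/3, (1 + τ (i+1))/3]`, `[2/3, 1]`.
-/

open Set Metric

namespace CarT

theorem strict_gap {X : Type*} [TopologicalSpace X] {K : Set X} (hK : IsCompact K) {ψ : X → ℂ}
    (hψ : ContinuousOn ψ K) {r : ℝ} (h : ∀ p ∈ K, ∀ q ∈ K, dist (ψ p) (ψ q) < r) :
    ∃ η > 0, ∀ p ∈ K, ∀ q ∈ K, dist (ψ p) (ψ q) ≤ r - η := by
  rcases K.eq_empty_or_nonempty with rfl | hne
  · exact ⟨1, one_pos, fun p hp => absurd hp (notMem_empty p)⟩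
  have hc1 : ContinuousOn (fun z : X × X => ψ z.1) (K ×ˢ K) :=
    hψ.comp continuousOn_fst fun z hz => hz.1
  have hc2 : ContinuousOn (fun z : X × X => ψ z.2) (K ×ˢ K) :=
    hψ.comp continuousOn_snd fun z hz => hz.2
  have hc : ContinuousOn (fun z : X × X => dist (ψ z.1) (ψ z.2)) (K ×ˢ K) :=
    continuous_dist.comp_continuousOn (hc1.prodMk hc2)
  obtain ⟨z, hz, hmax⟩ := (hK.prod hK).exists_isMaxOn (hne.prod hne) hc
  refine ⟨r - dist (ψ z.1) (ψ z.2), sub_pos.2 (h _ hz.1 _ hz.2), fun p hp q hq => ?_⟩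
  have h1 : dist (ψ p) (ψ q) ≤ dist (ψ z.1) (ψ z.2) :=
    hmax (show (p, q) ∈ K ×ˢ K from ⟨hp, hq⟩)
  linarith

/-- closeness on a compact set -/
theorem SizeA_close {K : Set ℝ} (hK : IsCompact K) {f : ℝ → ℂ} (hf : ContinuousOn f K) {r : ℝ}
    (h : ∀ p ∈ K, ∀ q ∈ K, dist (f p) (f q) < r) :
    ∃ ε > 0, ∀ g : ℝ → ℂ, (∀ t ∈ K, dist (g t) (f t) < ε) →
      ∀ s ∈ K, ∀ t ∈ K, dist (g s) (g t) < r := by
  obtain ⟨η, hη, h2⟩ := strict_gap hK hf h
  refine ⟨η / 3, by positivity, fun g hg s hs t ht => ?_⟩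
  have a1 := hg s hs
  have a2 := hg t ht
  have a3 := h2 s hs t ht
  have a4 := dist_triangle4 (g s) (f s) (f t) (g t)
  rw [dist_comm (f t) (g t)] at a4
  linarith

/-- a positive lower bound of finitely many positive numbers -/
theorem SizeA_min (e : ℕ → ℝ) (he : ∀ i, 0 < e i) (w : ℕ) : ∃ ε > 0, ∀ i < w, ε ≤ e i := by
  induction w with
  | zero => exact ⟨1, one_pos, fun i hi => absurd hi (Nat.not_lt_zero i)⟩
  | succ n ih =>
    obtain ⟨ε, hε, h⟩ := ih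
    refine ⟨min ε (e n), lt_min hε (he n), fun i hi => ?_⟩
    rcases Nat.lt_succ_iff_lt_or_eq.1 hi with h' | rfl
    · exact (min_le_left _ _).trans (h i h')
    · exact min_le_right _ _

/-- the pieces are in the unit interval -/
theorem SizeA_piece {τ : ℕ → ℝ} (hm : Monotone τ) (h0 : τ 0 = 0) {w : ℕ} (h1 : τ w = 1) {i : ℕ}
    (hi : i < w) : Icc (τ i) (τ (i + 1)) ⊆ Icc (0 : ℝ) 1 := by
  intro s hs
  have a1 := hm (Nat.zero_le i)
  have a2 := hm (Nat.succ_le_of_lt hi)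
  rw [h0] at a1
  rw [h1] at a2
  exact ⟨a1.trans hs.1, hs.2.trans a2⟩

theorem sh_close {σ : ℝ} {f : ℝ → ℂ} (hf : ContinuousOn f (Icc 0 1)) (h : Sh σ f) :
    ∃ ε > 0, ∀ g : ℝ → ℂ, (∀ t ∈ Icc (0 : ℝ) 1, dist (g t) (f t) < ε) → Sh σ g := by
  obtain ⟨ε, hε, h2⟩ := SizeA_close isCompact_Icc hf h
  exact ⟨ε, hε, fun g hg => h2 g hg⟩

theorem wt_close {σ : ℝ} {w : ℕ} {f : ℝ → ℂ} (hf : ContinuousOn f (Icc 0 1)) (h : Wt σ w f) :
    ∃ ε > 0, ∀ g : ℝ → ℂ, (∀ t ∈ Icc (0 : ℝ) 1, dist (g t) (f t) < ε) → Wt σ w g := by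
  obtain ⟨τ, hm, h0, h1, hτ⟩ := h
  have hex : ∀ i, ∃ ε > 0, i < w → ∀ g : ℝ → ℂ,
      (∀ t ∈ Icc (τ i) (τ (i + 1)), dist (g t) (f t) < ε) →
      ∀ s ∈ Icc (τ i) (τ (i + 1)), ∀ t ∈ Icc (τ i) (τ (i + 1)), dist (g s) (g t) < σ := by
    intro i
    by_cases hi : i < w
    · obtain ⟨ε, hε, h2⟩ := SizeA_close isCompact_Icc (hf.mono (SizeA_piece hm h0 h1 hi)) (hτ i hi)
      exact ⟨ε, hε, fun _ => h2⟩
    · exact ⟨1, one_pos, fun hi' => absurd hi' hi⟩
  choose e he h2 using hex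
  obtain ⟨ε, hε, h3⟩ := SizeA_min e he w
  refine ⟨ε, hε, fun g hg => ⟨τ, hm, h0, h1, fun i hi => h2 i hi g fun t ht => ?_⟩⟩
  exact (hg t (SizeA_piece hm h0 h1 hi ht)).trans_le (h3 i hi)

theorem ss_close {σ : ℝ} {w : ℕ} {f : ℝ → ℂ} (hf : ContinuousOn f (Icc 0 1)) (h : SS σ w f) :
    ∃ ε > 0, ∀ g : ℝ → ℂ, (∀ t ∈ Icc (0 : ℝ) 1, dist (g t) (f t) < ε) → SS σ w g := by
  rcases h with h | h
  · obtain ⟨ε, hε, h2⟩ := sh_close hf h
    exact ⟨ε, hε, fun g hg => Or.inl (h2 g hg)⟩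
  · obtain ⟨ε, hε, h2⟩ := wt_close hf h
    exact ⟨ε, hε, fun g hg => Or.inr (h2 g hg)⟩

theorem wt_mono {σ σ' : ℝ} {w w' : ℕ} {f : ℝ → ℂ} (hσ : 0 < σ) (h : Wt σ w f) (hs : σ ≤ σ')
    (hw : w ≤ w') : Wt σ' w' f := by
  obtain ⟨τ, hm, h0, h1, hτ⟩ := h
  refine ⟨fun i => τ (min i w), ?_, ?_, ?_, ?_⟩
  · intro i j hij
    exact hm (min_le_min_right w hij)
  · simp only [Nat.zero_min, h0]
  · simp only [min_eq_right hw, h1]
  · intro i _ s hs' t ht'
    by_cases hi : i < w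
    · simp only [min_eq_left hi.le, min_eq_left (Nat.succ_le_of_lt hi)] at hs' ht'
      exact (hτ i hi s hs' t ht').trans_le hs
    · push Not at hi
      have hi' : w ≤ i + 1 := by omega
      simp only [min_eq_right hi, min_eq_right hi'] at hs' ht'
      have e1 : s = t := by
        have a1 := le_antisymm hs'.1 hs'.2
        have a2 := le_antisymm ht'.1 ht'.2
        rw [← a1, ← a2]
      rw [e1, dist_self]
      exact hσ.trans_le hs

theorem wt_two {σ : ℝ} {w : ℕ} {f : ℝ → ℂ} (hσ : 0 < σ) (h : Wt σ w f) (hw : w ≤ 2) :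
    Sh (2 * σ) f := by
  obtain ⟨τ, hm, h0, h1, hτ⟩ := wt_mono hσ h le_rfl hw
  have t1 := hτ 0 (by norm_num)
  have t2 := hτ 1 (by norm_num)
  rw [h0, zero_add] at t1
  have e2 : (1 : ℕ) + 1 = 2 := rfl
  rw [e2, h1] at t2
  have m1 : (0 : ℝ) ≤ τ 1 := by
    rw [← h0]
    exact hm (Nat.zero_le 1)
  have m2 : τ 1 ≤ 1 := by
    have := hm (show 1 ≤ 2 by norm_num)
    rwa [h1] at this
  have key : ∀ s ∈ Icc (0 : ℝ) 1, ∀ t ∈ Icc (0 : ℝ) 1, s ≤ τ 1 → τ 1 ≤ t →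
      dist (f s) (f t) < 2 * σ := by
    intro s hs t ht hs1 ht1
    have a1 := t1 s ⟨hs.1, hs1⟩ (τ 1) ⟨m1, le_rfl⟩
    have a2 := t2 (τ 1) ⟨le_rfl, m2⟩ t ⟨ht1, ht.2⟩
    have a3 := dist_triangle (f s) (f (τ 1)) (f t)
    linarith
  intro s hs t ht
  rcases le_total s (τ 1) with a | a
  · rcases le_total t (τ 1) with b | b
    · have := t1 s ⟨hs.1, a⟩ t ⟨ht.1, b⟩
      linarith
    · exact key s hs t ht a b
  · rcases le_total t (τ 1) with b | b
    · rw [dist_comm]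
      exact key t ht s hs b a
    · have := t2 s ⟨a, hs.2⟩ t ⟨b, ht.2⟩
      linarith

theorem exists_wt {σ : ℝ} (hσ : 0 < σ) {f : ℝ → ℂ} (hf : ContinuousOn f (Icc 0 1)) :
    ∃ w : ℕ, Wt σ w f := by
  obtain ⟨δ, hδ, hu⟩ := Metric.uniformContinuousOn_iff.1
    (isCompact_Icc.uniformContinuousOn_of_continuous hf) σ hσ
  obtain ⟨n, hn⟩ := exists_nat_one_div_lt hδ
  have hn0 : (0 : ℝ) < (n : ℝ) + 1 := by positivity
  have hm : Monotone (fun i : ℕ => min ((i : ℝ) / ((n : ℝ) + 1)) 1) := by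
    intro i j hij
    have : (i : ℝ) ≤ j := by exact_mod_cast hij
    exact min_le_min_right 1 (by gcongr)
  have h0 : (fun i : ℕ => min ((i : ℝ) / ((n : ℝ) + 1)) 1) 0 = 0 := by simp
  have h1 : (fun i : ℕ => min ((i : ℝ) / ((n : ℝ) + 1)) 1) (n + 1) = 1 := by
    simp only [Nat.cast_add, Nat.cast_one]
    rw [div_self hn0.ne', min_self]
  refine ⟨n + 1, fun i => min ((i : ℝ) / ((n : ℝ) + 1)) 1, hm, h0, h1, ?_⟩
  intro i hi s hs t ht
  have hs1 := SizeA_piece hm h0 h1 hi hs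
  have ht1 := SizeA_piece hm h0 h1 hi ht
  refine hu s hs1 t ht1 ?_
  have hi' : (i : ℝ) + 1 ≤ (n : ℝ) + 1 := by exact_mod_cast hi
  have e1 : min ((i : ℝ) / ((n : ℝ) + 1)) 1 = (i : ℝ) / ((n : ℝ) + 1) := by
    apply min_eq_left
    rw [div_le_one hn0]
    linarith
  have e2 : min (((i + 1 : ℕ) : ℝ) / ((n : ℝ) + 1)) 1 ≤ ((i : ℝ) + 1) / ((n : ℝ) + 1) := by
    rw [Nat.cast_add, Nat.cast_one]
    exact min_le_left _ _
  have b1 := hs.1
  have b2 := hs.2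
  have b3 := ht.1
  have b4 := ht.2
  simp only at b1 b2 b3 b4
  rw [e1] at b1 b3
  have e3 : ((i : ℝ) + 1) / ((n : ℝ) + 1) = (i : ℝ) / ((n : ℝ) + 1) + 1 / ((n : ℝ) + 1) := by
    ring
  rw [Real.dist_eq, abs_lt]
  constructor <;> linarith

/-- fattening of a piece -/
theorem SizeA_fat {σ : ℝ} {f : ℝ → ℂ} (hf : ContinuousOn f (Icc 0 1)) {a b : ℝ} (hab : a ≤ b)
    (hsub : Icc a b ⊆ Icc (0 : ℝ) 1)
    (h : ∀ s ∈ Icc a b, ∀ t ∈ Icc a b, dist (f s) (f t) < σ) :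
    ∃ η > 0, ∀ s ∈ Icc (0 : ℝ) 1, ∀ t ∈ Icc (0 : ℝ) 1, a - η ≤ s → s ≤ b + η → a - η ≤ t →
      t ≤ b + η → dist (f s) (f t) < σ := by
  obtain ⟨η, hη, h2⟩ := strict_gap isCompact_Icc (hf.mono hsub) h
  obtain ⟨δ, hδ, hu⟩ := Metric.uniformContinuousOn_iff.1
    (isCompact_Icc.uniformContinuousOn_of_continuous hf) (η / 3) (by positivity)
  have hnear : ∀ s ∈ Icc (0 : ℝ) 1, a - δ / 2 ≤ s → s ≤ b + δ / 2 →
      ∃ s' ∈ Icc a b, dist (f s) (f s') < η / 3 := by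
    intro s hs h3 h4
    rcases le_total s a with c1 | c1
    · refine ⟨a, ⟨le_rfl, hab⟩, hu s hs a (hsub ⟨le_rfl, hab⟩) ?_⟩
      rw [Real.dist_eq, abs_lt]
      constructor <;> linarith
    · rcases le_total s b with c2 | c2
      · exact ⟨s, ⟨c1, c2⟩, by rw [dist_self]; positivity⟩
      · refine ⟨b, ⟨hab, le_rfl⟩, hu s hs b (hsub ⟨hab, le_rfl⟩) ?_⟩
        rw [Real.dist_eq, abs_lt]
        constructor <;> linarith
  refine ⟨δ / 2, by positivity, fun s hs t ht h3 h4 h5 h6 => ?_⟩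
  obtain ⟨s', hs', a1⟩ := hnear s hs h3 h4
  obtain ⟨t', ht', a2⟩ := hnear t ht h5 h6
  have a3 := h2 s' hs' t' ht'
  have a4 := dist_triangle4 (f s) (f s') (f t') (f t)
  rw [dist_comm (f t') (f t)] at a4
  linarith

theorem wt_strict {σ : ℝ} {w : ℕ} {f : ℝ → ℂ} (hw : 1 ≤ w) (hf : ContinuousOn f (Icc 0 1))
    (h : Wt σ w f) :
    ∃ τ : ℕ → ℝ, (∀ i < w, τ i < τ (i + 1)) ∧ τ 0 = 0 ∧ τ w = 1 ∧
      ∀ i < w, ∀ s ∈ Icc (τ i) (τ (i + 1)), ∀ t ∈ Icc (τ i) (τ (i + 1)), dist (f s) (f t) < σ := by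
  obtain ⟨τ, hm, h0, h1, hτ⟩ := h
  have hex : ∀ i, ∃ η > 0, i < w → ∀ s ∈ Icc (0 : ℝ) 1, ∀ t ∈ Icc (0 : ℝ) 1,
      τ i - η ≤ s → s ≤ τ (i + 1) + η → τ i - η ≤ t → t ≤ τ (i + 1) + η →
      dist (f s) (f t) < σ := by
    intro i
    by_cases hi : i < w
    · obtain ⟨η, hη, h2⟩ := SizeA_fat hf (hm (Nat.le_succ i)) (SizeA_piece hm h0 h1 hi) (hτ i hi)
      exact ⟨η, hη, fun _ => h2⟩
    · exact ⟨1, one_pos, fun hi' => absurd hi' hi⟩
  choose e he h2 using hex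
  obtain ⟨ε, hε, h3⟩ := SizeA_min e he w
  set η : ℝ := min ε (1 / 2) with hηdef
  have hη : 0 < η := lt_min hε (by norm_num)
  have hη1 : η ≤ 1 / 2 := min_le_right _ _
  have hηe : ∀ i < w, η ≤ e i := fun i hi => (min_le_left _ _).trans (h3 i hi)
  have hw0 : (0 : ℝ) < w := by exact_mod_cast hw
  have hτ01 : ∀ i ≤ w, τ i ∈ Icc (0 : ℝ) 1 := by
    intro i hi
    have a1 := hm (Nat.zero_le i)
    have a2 := hm hi
    rw [h0] at a1
    rw [h1] at a2
    exact ⟨a1, a2⟩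
  have hi01 : ∀ i ≤ w, (i : ℝ) / w ∈ Icc (0 : ℝ) 1 := by
    intro i hi
    have : (i : ℝ) ≤ w := by exact_mod_cast hi
    exact ⟨by positivity, (div_le_one hw0).2 this⟩
  set τ' : ℕ → ℝ := fun i => (1 - η) * τ i + η * ((i : ℝ) / w) with hτ'
  have h01 : ∀ i ≤ w, τ' i ∈ Icc (0 : ℝ) 1 := by
    intro i hi
    obtain ⟨a1, a2⟩ := hτ01 i hi
    obtain ⟨b1, b2⟩ := hi01 i hi
    constructor
    · have : 0 ≤ 1 - η := by linarith
      exact add_nonneg (mul_nonneg this a1) (mul_nonneg hη.le b1)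
    · have c1 : (1 - η) * τ i ≤ (1 - η) * 1 := mul_le_mul_of_nonneg_left a2 (by linarith)
      have c2 : η * ((i : ℝ) / w) ≤ η * 1 := mul_le_mul_of_nonneg_left b2 hη.le
      simp only [hτ']
      linarith
  have hlow : ∀ i ≤ w, τ i - η ≤ τ' i := by
    intro i hi
    obtain ⟨a1, a2⟩ := hτ01 i hi
    obtain ⟨b1, b2⟩ := hi01 i hi
    have c1 : η * τ i ≤ η * 1 := mul_le_mul_of_nonneg_left a2 hη.le
    have c2 : 0 ≤ η * ((i : ℝ) / w) := mul_nonneg hη.le b1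
    simp only [hτ']
    linarith
  have hupp : ∀ i ≤ w, τ' i ≤ τ i + η := by
    intro i hi
    obtain ⟨a1, a2⟩ := hτ01 i hi
    obtain ⟨b1, b2⟩ := hi01 i hi
    have c1 : 0 ≤ η * τ i := mul_nonneg hη.le a1
    have c2 : η * ((i : ℝ) / w) ≤ η * 1 := mul_le_mul_of_nonneg_left b2 hη.le
    simp only [hτ']
    linarith
  refine ⟨τ', ?_, ?_, ?_, ?_⟩
  · intro i _
    have a1 : 0 ≤ (1 - η) * (τ (i + 1) - τ i) :=
      mul_nonneg (by linarith) (sub_nonneg.2 (hm (Nat.le_succ i)))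
    have a2 : 0 < η * (1 / w) := by positivity
    have a3 : τ' (i + 1) - τ' i = (1 - η) * (τ (i + 1) - τ i) + η * (1 / w) := by
      simp only [hτ', Nat.cast_add, Nat.cast_one]
      ring
    linarith
  · simp only [hτ', h0, Nat.cast_zero, zero_div, mul_zero, add_zero]
  · simp only [hτ', h1, div_self hw0.ne', mul_one]
    ring
  · intro i hi s hs t ht
    have hi1 : i + 1 ≤ w := hi
    have s1 : s ∈ Icc (0 : ℝ) 1 := ⟨(h01 i hi.le).1.trans hs.1, hs.2.trans (h01 _ hi1).2⟩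
    have t1 : t ∈ Icc (0 : ℝ) 1 := ⟨(h01 i hi.le).1.trans ht.1, ht.2.trans (h01 _ hi1).2⟩
    have l1 := hlow i hi.le
    have l2 := hupp (i + 1) hi1
    have l3 := hηe i hi
    exact h2 i hi s s1 t t1 (by linarith [hs.1]) (by linarith [hs.2]) (by linarith [ht.1])
      (by linarith [ht.2])

theorem wt_concat {σ : ℝ} {w : ℕ} {f : ℝ → ℂ}
    (h1 : ∀ s ∈ Icc (0 : ℝ) (1 / 3), ∀ t ∈ Icc (0 : ℝ) (1 / 3), dist (f s) (f t) < σ)
    (h2 : Wt σ w (fun u => f ((1 + u) / 3)))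
    (h3 : ∀ s ∈ Icc (2 / 3 : ℝ) 1, ∀ t ∈ Icc (2 / 3 : ℝ) 1, dist (f s) (f t) < σ) :
    Wt σ (w + 2) f := by
  obtain ⟨τ, hm, h0, hw, hτ⟩ := h2
  have hτ0 : ∀ i, 0 ≤ τ i := fun i => by
    rw [← h0]
    exact hm (Nat.zero_le i)
  refine ⟨fun i => if i = 0 then 0 else if i ≤ w + 1 then (1 + τ (i - 1)) / 3 else 1,
    ?_, ?_, ?_, ?_⟩
  · apply monotone_nat_of_le_succ
    intro i
    by_cases hi : i = 0
    · subst hi
      simp only [if_true, zero_add, Nat.one_ne_zero, if_false]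
      split_ifs
      · have := hτ0 (1 - 1)
        linarith
      · norm_num
    · have hi1 : i + 1 ≠ 0 := Nat.succ_ne_zero i
      simp only [hi, hi1, if_false, Nat.add_sub_cancel]
      by_cases hc : i + 1 ≤ w + 1
      · have hc' : i ≤ w + 1 := by omega
        rw [if_pos hc, if_pos hc']
        have := hm (show i - 1 ≤ i by omega)
        linarith
      · rw [if_neg hc]
        split_ifs with hc'
        · have := hm (show i - 1 ≤ w by omega)
          linarith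
        · exact le_rfl
  · simp
  · simp
  · intro i hi s hs t ht
    by_cases hi0 : i = 0
    · subst hi0
      have e : (1 + τ (1 - 1)) / 3 = 1 / 3 := by
        rw [Nat.sub_self, h0, add_zero]
      simp only [if_true, zero_add, Nat.one_ne_zero, if_false, if_pos (show 1 ≤ w + 1 by omega),
        e] at hs ht
      exact h1 s hs t ht
    · have hi1 : i + 1 ≠ 0 := Nat.succ_ne_zero i
      simp only [hi0, hi1, if_false, Nat.add_sub_cancel] at hs ht
      have hc' : i ≤ w + 1 := by omega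
      rw [if_pos hc'] at hs ht
      by_cases hc : i + 1 ≤ w + 1
      · rw [if_pos hc] at hs ht
        have hiw : i - 1 < w := by omega
        have hii : i - 1 + 1 = i := by omega
        have := hτ (i - 1) hiw (3 * s - 1) (by
          rw [hii]
          constructor
          · linarith [hs.1]
          · linarith [hs.2]) (3 * t - 1) (by
          rw [hii]
          constructor
          · linarith [ht.1]
          · linarith [ht.2])
        have es : (1 + (3 * s - 1)) / 3 = s := by ring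
        have et : (1 + (3 * t - 1)) / 3 = t := by ring
        simp only [es, et] at this
        exact this
      · rw [if_neg hc] at hs ht
        have hiw : i - 1 = w := by omega
        rw [hiw, hw] at hs ht
        have e : ((1 : ℝ) + 1) / 3 = 2 / 3 := by norm_num
        rw [e] at hs ht
        exact h3 s hs t ht

/-- four short sides -/
theorem SizeA_four {σ : ℝ} {φ : ℝ × ℝ → ℂ} {x y : ℝ} (h1 : Sh (2 * σ) (vE φ x y))
    (h2 : Sh (2 * σ) (vE φ (x + 1) y)) (h3 : Sh (2 * σ) (hE φ x y))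
    (h4 : Sh (2 * σ) (hE φ x (y + 1))) : Small σ φ x y := by
  have z0 : (0 : ℝ) ∈ Icc (0 : ℝ) 1 := ⟨le_rfl, zero_le_one⟩
  have z1 : (1 : ℝ) ∈ Icc (0 : ℝ) 1 := ⟨zero_le_one, le_rfl⟩
  have hσ : 0 < σ := by
    have := h1 0 z0 0 z0
    rw [dist_self] at this
    linarith
  -- distance to the lower left corner
  have hcor : ∀ p ∈ bd (sq x y), dist (φ p) (φ (x, y)) < 4 * σ := by
    rintro ⟨p, q⟩ ⟨⟨hp1, hp2⟩, hp3⟩
    simp only [sq, mem_Icc] at hp1 hp2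
    have k1 := h3 0 z0 1 z1
    have k2 := h1 0 z0 1 z1
    simp only [hE, vE, add_zero] at k1 k2
    rw [dist_comm] at k1 k2
    by_cases c1 : p = x
    · subst c1
      have := h1 (q - y) ⟨by linarith [hp2.1], by linarith [hp2.2]⟩ 0 z0
      simp only [vE, add_sub_cancel, add_zero] at this
      linarith
    by_cases c2 : p = x + 1
    · subst c2
      have := h2 (q - y) ⟨by linarith [hp2.1], by linarith [hp2.2]⟩ 0 z0
      simp only [vE, add_sub_cancel, add_zero] at this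
      have := dist_triangle (φ (x + 1, q)) (φ (x + 1, y)) (φ (x, y))
      linarith
    by_cases c3 : q = y
    · subst c3
      have := h3 (p - x) ⟨by linarith [hp1.1], by linarith [hp1.2]⟩ 0 z0
      simp only [hE, add_sub_cancel, add_zero] at this
      linarith
    by_cases c4 : q = y + 1
    · subst c4
      have := h4 (p - x) ⟨by linarith [hp1.1], by linarith [hp1.2]⟩ 0 z0
      simp only [hE, add_sub_cancel, add_zero] at this
      have := dist_triangle (φ (p, y + 1)) (φ (x, y + 1)) (φ (x, y))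
      linarith
    exact absurd ⟨⟨lt_of_le_of_ne hp1.1 (Ne.symm c1), lt_of_le_of_ne hp1.2 c2⟩,
      ⟨lt_of_le_of_ne hp2.1 (Ne.symm c3), lt_of_le_of_ne hp2.2 c4⟩⟩ hp3
  intro p hp q hq
  have a1 := hcor p hp
  have a2 := hcor q hq
  have a3 := dist_triangle_right (φ p) (φ q) (φ (x, y))
  linarith

/-- a thin square of weight at most `2` is small -/
theorem tt_small {σ : ℝ} {w : ℕ} (hσ : 0 < σ) (hw : w ≤ 2) {φ : ℝ × ℝ → ℂ} {x y : ℝ}
    (h : TT σ w φ x y) : Small σ φ x y := by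
  have hss : ∀ f : ℝ → ℂ, SS σ w f → Sh (2 * σ) f := by
    rintro f (h | h)
    · exact h
    · exact wt_two hσ h hw
  rcases h with h | ⟨h1, h2, h3, h4⟩ | ⟨h1, h2, h3, h4⟩
  · exact h
  · exact SizeA_four h1 h2 (hss _ h3) (hss _ h4)
  · exact SizeA_four (hss _ h3) (hss _ h4) h1 h2

end CarT
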