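import Pool.Agent.CarT.Net
import Pool.Agent.CarT.SizeA

/-!
# CarT/KidsA : the types of the children, thin squares (and small squares)

`thin_kidsH`. Choose `ε ≤ σ / 4` which also works in `ss_close` for the middle thirds of the bottom
and top side (`hb.mid`, `ht.mid`; they are continuous, being parts of `φ` on the boundary).
Abbreviate: left lower third and left upper third have diameter `< σ/4` (`tiny`, using `sl`); bottom
and top first and last thirds `< σ`. So two values of `φ` on `cLL x y` have distance `< 5σ/4` (through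
the corner `(x, y)`), and two values of `φ'` at points which are `Near … cLL` have distance
`< 5σ/4 + 2ε < 2σ`. Similarly for the other three corners.
* `o = (0,0), (2,0), (0,2), (2,2)`: `Small` by `ll, rl, lu, ru`.
* `o = (1,0)`: `ThinH σ w`: the left rung `{x+1} × [y, y+1]` is in `bd (sq x y)`, the right rung
  `{x+2} × [y, y+1]` in `bd (sq (x+2) y)`: `Sh (2σ)`. Bottom side: `φ' = φ` there, `hb.mid`. Top side: `low` and
  `ss_close`. `o = (1,2)`: the same with `lu, ru, up, ht.mid`.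
* `o = (0,1)`: `Small`: every point of `bd (sq x (y+1))` is `ε`-close to a value of `φ` on
  `X = left side ∪ cLL ∪ cLU`: left side clear (`φ' = φ`); bottom side `⊆ bd (sq x y)`; top side
  `⊆ bd (sq x (y+2))`; right side by `ml1, ml2, ml3`. Two values of `φ` on `X` have distance
  `< σ + 2σ + σ = 4σ`. Total `< 4σ + 2ε < 8σ`. `o = (2,1)`: the same on the right.

`small_kids`: all points of the boundaries of the children are `ε`-close to values of `φ` on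
`bd (big x y)`; `strict_gap` gives `ε` with `r - η + 2ε < r`. Only `Small` is claimed.
-/

open Set Metric

namespace CarT

private theorem mem_bd' {a b c e : ℝ} {p : ℝ × ℝ} : p ∈ bd ((a, b), (c, e)) ↔
    (a ≤ p.1 ∧ p.1 ≤ b) ∧ (c ≤ p.2 ∧ p.2 ≤ e) ∧ (p.1 = a ∨ p.1 = b ∨ p.2 = c ∨ p.2 = e) := by
  unfold bd cl op
  simp only [mem_diff, mem_prod, mem_Icc, mem_Ioo]
  constructor
  · rintro ⟨⟨⟨h1, h2⟩, h3, h4⟩, h5⟩
    refine ⟨⟨h1, h2⟩, ⟨h3, h4⟩, ?_⟩
    by_contra h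
    push Not at h
    exact h5 ⟨⟨lt_of_le_of_ne h1 (Ne.symm h.1), lt_of_le_of_ne h2 h.2.1⟩,
      lt_of_le_of_ne h3 (Ne.symm h.2.2.1), lt_of_le_of_ne h4 h.2.2.2⟩
  · rintro ⟨⟨h1, h2⟩, ⟨h3, h4⟩, h5⟩
    refine ⟨⟨⟨h1, h2⟩, h3, h4⟩, ?_⟩
    rintro ⟨⟨h6, h7⟩, h8, h9⟩
    rcases h5 with h | h | h | h <;> linarith

private theorem mem_sq' {a c : ℝ} {p : ℝ × ℝ} : p ∈ bd (sq a c) ↔
    (a ≤ p.1 ∧ p.1 ≤ a + 1) ∧ (c ≤ p.2 ∧ p.2 ≤ c + 1) ∧
      (p.1 = a ∨ p.1 = a + 1 ∨ p.2 = c ∨ p.2 = c + 1) := mem_bd'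

private theorem mem_big' {a c : ℝ} {p : ℝ × ℝ} : p ∈ bd (big a c) ↔
    (a ≤ p.1 ∧ p.1 ≤ a + 3) ∧ (c ≤ p.2 ∧ p.2 ≤ c + 3) ∧
      (p.1 = a ∨ p.1 = a + 3 ∨ p.2 = c ∨ p.2 = c + 3) := mem_bd'

private theorem kids_of {P : ℝ → ℝ → Prop} {x y : ℝ} (h00 : P x y) (h10 : P (x + 1) y)
    (h20 : P (x + 2) y) (h01 : P x (y + 1)) (h21 : P (x + 2) (y + 1)) (h02 : P x (y + 2))
    (h12 : P (x + 1) (y + 2)) (h22 : P (x + 2) (y + 2)) :
    ∀ o ∈ off, P (x + o.1) (y + o.2) := by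
  have ho : off = {(0, 0), (1, 0), (2, 0), (0, 1), (2, 1), (0, 2), (1, 2), (2, 2)} := by decide
  intro o hmem
  rw [ho] at hmem
  simp only [Finset.mem_insert, Finset.mem_singleton] at hmem
  rcases hmem with rfl | rfl | rfl | rfl | rfl | rfl | rfl | rfl
  · simpa using h00
  · simpa using h10
  · simpa using h20
  · simpa using h01
  · simpa using h21
  · simpa using h02
  · simpa using h12
  · simpa using h22

/-- all values of `ψ` on `A` have distance `< r` -/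
private def Dm (ψ : ℝ × ℝ → ℂ) (A : Set (ℝ × ℝ)) (r : ℝ) : Prop :=
  ∀ p ∈ A, ∀ q ∈ A, dist (ψ p) (ψ q) < r

private theorem Dm.union {ψ : ℝ × ℝ → ℂ} {A B : Set (ℝ × ℝ)} {r s : ℝ} (c : ℝ × ℝ) (hcA : c ∈ A)
    (hcB : c ∈ B) (hA : Dm ψ A r) (hB : Dm ψ B s) : Dm ψ (A ∪ B) (r + s) := by
  have hr : 0 < r := by simpa using hA c hcA c hcA
  have hs : 0 < s := by simpa using hB c hcB c hcB
  rintro p (hp | hp) q (hq | hq)
  · linarith [hA p hp q hq]
  · linarith [hA p hp c hcA, hB c hcB q hq, dist_triangle (ψ p) (ψ c) (ψ q)]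
  · linarith [hB p hp c hcB, hA c hcA q hq, dist_triangle (ψ p) (ψ c) (ψ q)]
  · linarith [hB p hp q hq]

private theorem dm_vert {ψ : ℝ × ℝ → ℂ} {x y a b c e r : ℝ} (hc : c = y + a) (he : e = y + b)
    (h : ∀ s ∈ Icc a b, ∀ t ∈ Icc a b, dist (ψ (x, y + s)) (ψ (x, y + t)) < r) :
    Dm ψ ({x} ×ˢ Icc c e) r := by
  rintro ⟨p1, p2⟩ ⟨hp1, hp2⟩ ⟨q1, q2⟩ ⟨hq1, hq2⟩
  simp only [mem_singleton_iff, mem_Icc] at hp1 hp2 hq1 hq2
  have := h (p2 - y) ⟨by linarith, by linarith⟩ (q2 - y) ⟨by linarith, by linarith⟩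
  rw [add_sub_cancel, add_sub_cancel] at this
  rw [hp1, hq1]
  exact this

private theorem dm_horiz {ψ : ℝ × ℝ → ℂ} {x y a b c e r : ℝ} (hc : c = x + a) (he : e = x + b)
    (h : ∀ s ∈ Icc a b, ∀ t ∈ Icc a b, dist (ψ (x + s, y)) (ψ (x + t, y)) < r) :
    Dm ψ (Icc c e ×ˢ {y}) r := by
  rintro ⟨p1, p2⟩ ⟨hp1, hp2⟩ ⟨q1, q2⟩ ⟨hq1, hq2⟩
  simp only [mem_singleton_iff, mem_Icc] at hp1 hp2 hq1 hq2
  have := h (p1 - x) ⟨by linarith, by linarith⟩ (q1 - x) ⟨by linarith, by linarith⟩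
  rw [add_sub_cancel, add_sub_cancel] at this
  rw [hp2, hq2]
  exact this

private theorem Near.mono' {φ φ' : ℝ × ℝ → ℂ} {ε : ℝ} {p : ℝ × ℝ} {X Y : Set (ℝ × ℝ)}
    (h : Near φ φ' ε p X) (hXY : X ⊆ Y) : Near φ φ' ε p Y := by
  obtain ⟨q, hq, h1⟩ := h
  exact ⟨q, hXY hq, h1⟩

private theorem Near.dist_lt {φ φ' : ℝ × ℝ → ℂ} {ε r : ℝ} {p p' : ℝ × ℝ} {X : Set (ℝ × ℝ)}
    (hX : Dm φ X r) (h : Near φ φ' ε p X) (h' : Near φ φ' ε p' X) :
    dist (φ' p) (φ' p') < r + 2 * ε := by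
  obtain ⟨q, hq, h1⟩ := h
  obtain ⟨q', hq', h2⟩ := h'
  have := hX q hq q' hq'
  have t1 := dist_triangle4 (φ' p) (φ q) (φ q') (φ' p')
  rw [dist_comm (φ q') (φ' p')] at t1
  linarith

private theorem near_01 {φ φ' : ℝ × ℝ → ℂ} {x y ε : ℝ} (hε : 0 < ε) (he : EqOn φ' φ (bd (big x y)))
    (h : HC x y φ φ' ε) {p : ℝ × ℝ} (hp : p ∈ bd (sq x (y + 1))) :
    Near φ φ' ε p (cLL x y ∪ {x} ×ˢ Icc y (y + 3) ∪ cLU x y) := by
  obtain ⟨p1, p2⟩ := p
  rw [mem_sq'] at hp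
  simp only at hp
  obtain ⟨⟨h1, h2⟩, ⟨h3, h4⟩, h5⟩ := hp
  rcases h5 with h5 | h5 | h5 | h5
  · refine ⟨(p1, p2), Or.inl (Or.inr ⟨h5, by simp only; linarith, by simp only; linarith⟩), ?_⟩
    rw [he (mem_big'.2 ⟨⟨by simp only; linarith, by simp only; linarith⟩,
      ⟨by simp only; linarith, by simp only; linarith⟩, Or.inl h5⟩), dist_self]
    exact hε
  · rcases le_total (p2 - (y + 1)) (1 / 3) with h6 | h6
    · have h7 := h.ml1 (3 * (p2 - (y + 1))) ⟨by linarith, by linarith⟩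
      have e : ((x + 1, y + 1 + 3 * (p2 - (y + 1)) / 3) : ℝ × ℝ) = (p1, p2) :=
        Prod.ext h5.symm (by simp only; ring)
      rw [e] at h7
      exact h7.mono' (subset_union_left.trans subset_union_left)
    · rcases le_total (p2 - (y + 1)) (2 / 3) with h8 | h8
      · have h7 := h.ml2 (3 * (p2 - (y + 1)) - 1) ⟨by linarith, by linarith⟩
        have e : ((x + 1, y + 1 + (1 + (3 * (p2 - (y + 1)) - 1)) / 3) : ℝ × ℝ) = (p1, p2) :=
          Prod.ext h5.symm (by simp only; ring)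
        rw [e] at h7
        exact ⟨(x, y + 1 + (3 * (p2 - (y + 1)) - 1)),
          Or.inl (Or.inr ⟨rfl, by simp only; linarith, by simp only; linarith⟩), h7⟩
      · have h7 := h.ml3 (3 * (p2 - (y + 1)) - 2) ⟨by linarith, by linarith⟩
        have e : ((x + 1, y + 1 + (2 + (3 * (p2 - (y + 1)) - 2)) / 3) : ℝ × ℝ) = (p1, p2) :=
          Prod.ext h5.symm (by simp only; ring)
        rw [e] at h7
        exact h7.mono' subset_union_right
  · refine (h.ll (p1, p2) (mem_sq'.2 ⟨⟨h1, h2⟩, ⟨by simp only; linarith, by simp only; linarith⟩,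
      Or.inr (Or.inr (Or.inr h5))⟩)).mono' (subset_union_left.trans subset_union_left)
  · refine (h.lu (p1, p2) (mem_sq'.2 ⟨⟨h1, h2⟩, ⟨by simp only; linarith, by simp only; linarith⟩,
      Or.inr (Or.inr (Or.inl (by simp only; linarith)))⟩)).mono' subset_union_right

private theorem near_21 {φ φ' : ℝ × ℝ → ℂ} {x y ε : ℝ} (hε : 0 < ε) (he : EqOn φ' φ (bd (big x y)))
    (h : HC x y φ φ' ε) {p : ℝ × ℝ} (hp : p ∈ bd (sq (x + 2) (y + 1))) :
    Near φ φ' ε p (cRL x y ∪ {x + 3} ×ˢ Icc y (y + 3) ∪ cRU x y) := by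
  obtain ⟨p1, p2⟩ := p
  rw [mem_sq'] at hp
  simp only at hp
  obtain ⟨⟨h1, h2⟩, ⟨h3, h4⟩, h5⟩ := hp
  rcases h5 with h5 | h5 | h5 | h5
  · rcases le_total (p2 - (y + 1)) (1 / 3) with h6 | h6
    · have h7 := h.mr1 (3 * (p2 - (y + 1))) ⟨by linarith, by linarith⟩
      have e : ((x + 2, y + 1 + 3 * (p2 - (y + 1)) / 3) : ℝ × ℝ) = (p1, p2) :=
        Prod.ext h5.symm (by simp only; ring)
      rw [e] at h7
      exact h7.mono' (subset_union_left.trans subset_union_left)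
    · rcases le_total (p2 - (y + 1)) (2 / 3) with h8 | h8
      · have h7 := h.mr2 (3 * (p2 - (y + 1)) - 1) ⟨by linarith, by linarith⟩
        have e : ((x + 2, y + 1 + (1 + (3 * (p2 - (y + 1)) - 1)) / 3) : ℝ × ℝ) = (p1, p2) :=
          Prod.ext h5.symm (by simp only; ring)
        rw [e] at h7
        exact ⟨(x + 3, y + 1 + (3 * (p2 - (y + 1)) - 1)),
          Or.inl (Or.inr ⟨rfl, by simp only; linarith, by simp only; linarith⟩), h7⟩
      · have h7 := h.mr3 (3 * (p2 - (y + 1)) - 2) ⟨by linarith, by linarith⟩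
        have e : ((x + 2, y + 1 + (2 + (3 * (p2 - (y + 1)) - 2)) / 3) : ℝ × ℝ) = (p1, p2) :=
          Prod.ext h5.symm (by simp only; ring)
        rw [e] at h7
        exact h7.mono' subset_union_right
  · have h6 : p1 = x + 3 := by linarith
    refine ⟨(p1, p2), Or.inl (Or.inr ⟨h6, by simp only; linarith, by simp only; linarith⟩), ?_⟩
    rw [he (mem_big'.2 ⟨⟨by simp only; linarith, by simp only; linarith⟩,
      ⟨by simp only; linarith, by simp only; linarith⟩, Or.inr (Or.inl h6)⟩), dist_self]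
    exact hε
  · refine (h.rl (p1, p2) (mem_sq'.2 ⟨⟨h1, h2⟩, ⟨by simp only; linarith, by simp only; linarith⟩,
      Or.inr (Or.inr (Or.inr h5))⟩)).mono' (subset_union_left.trans subset_union_left)
  · refine (h.ru (p1, p2) (mem_sq'.2 ⟨⟨h1, h2⟩, ⟨by simp only; linarith, by simp only; linarith⟩,
      Or.inr (Or.inr (Or.inl (by simp only; linarith)))⟩)).mono' subset_union_right

private theorem cLL_sub {x y : ℝ} : cLL x y ⊆ bd (big x y) := by
  rintro ⟨p1, p2⟩ (⟨h1, h2, h3⟩ | ⟨⟨h1, h2⟩, h3⟩)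
  all_goals
    simp only [mem_singleton_iff] at *
    rw [mem_big']
    simp only
  · exact ⟨⟨by linarith, by linarith⟩, ⟨by linarith, by linarith⟩, Or.inl h1⟩
  · exact ⟨⟨by linarith, by linarith⟩, ⟨by linarith, by linarith⟩, Or.inr (Or.inr (Or.inl h3))⟩

private theorem cRL_sub {x y : ℝ} : cRL x y ⊆ bd (big x y) := by
  rintro ⟨p1, p2⟩ (⟨h1, h2, h3⟩ | ⟨⟨h1, h2⟩, h3⟩)
  all_goals
    simp only [mem_singleton_iff] at *
    rw [mem_big']
    simp only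
  · exact ⟨⟨by linarith, by linarith⟩, ⟨by linarith, by linarith⟩, Or.inr (Or.inl h1)⟩
  · exact ⟨⟨by linarith, by linarith⟩, ⟨by linarith, by linarith⟩, Or.inr (Or.inr (Or.inl h3))⟩

private theorem cLU_sub {x y : ℝ} : cLU x y ⊆ bd (big x y) := by
  rintro ⟨p1, p2⟩ (⟨h1, h2, h3⟩ | ⟨⟨h1, h2⟩, h3⟩)
  all_goals
    simp only [mem_singleton_iff] at *
    rw [mem_big']
    simp only
  · exact ⟨⟨by linarith, by linarith⟩, ⟨by linarith, by linarith⟩, Or.inl h1⟩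
  · exact ⟨⟨by linarith, by linarith⟩, ⟨by linarith, by linarith⟩, Or.inr (Or.inr (Or.inr h3))⟩

private theorem cRU_sub {x y : ℝ} : cRU x y ⊆ bd (big x y) := by
  rintro ⟨p1, p2⟩ (⟨h1, h2, h3⟩ | ⟨⟨h1, h2⟩, h3⟩)
  all_goals
    simp only [mem_singleton_iff] at *
    rw [mem_big']
    simp only
  · exact ⟨⟨by linarith, by linarith⟩, ⟨by linarith, by linarith⟩, Or.inr (Or.inl h1)⟩
  · exact ⟨⟨by linarith, by linarith⟩, ⟨by linarith, by linarith⟩, Or.inr (Or.inr (Or.inr h3))⟩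

private theorem near_10 {φ φ' : ℝ × ℝ → ℂ} {x y ε : ℝ} (hε : 0 < ε) (he : EqOn φ' φ (bd (big x y)))
    (h : HC x y φ φ' ε) {p : ℝ × ℝ} (hp : p ∈ bd (sq (x + 1) y)) :
    Near φ φ' ε p (bd (big x y)) := by
  obtain ⟨p1, p2⟩ := p
  rw [mem_sq'] at hp
  simp only at hp
  obtain ⟨⟨h1, h2⟩, ⟨h3, h4⟩, h5⟩ := hp
  rcases h5 with h5 | h5 | h5 | h5
  · exact (h.ll (p1, p2) (mem_sq'.2 ⟨⟨by simp only; linarith, by simp only; linarith⟩, ⟨h3, h4⟩,
      Or.inr (Or.inl h5)⟩)).mono' cLL_sub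
  · exact (h.rl (p1, p2) (mem_sq'.2 ⟨⟨by simp only; linarith, by simp only; linarith⟩, ⟨h3, h4⟩,
      Or.inl (by simp only; linarith)⟩)).mono' cRL_sub
  · have hm : (p1, p2) ∈ bd (big x y) := mem_big'.2 ⟨⟨by simp only; linarith,
      by simp only; linarith⟩, ⟨by simp only; linarith, by simp only; linarith⟩,
      Or.inr (Or.inr (Or.inl h5))⟩
    exact ⟨(p1, p2), hm, by rw [he hm, dist_self]; exact hε⟩
  · have h7 := h.low (p1 - (x + 1)) ⟨by linarith, by linarith⟩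
    have e : ((x + 1 + (p1 - (x + 1)), y + 1) : ℝ × ℝ) = (p1, p2) :=
      Prod.ext (by simp only; ring) h5.symm
    rw [e] at h7
    exact ⟨_, mem_big'.2 ⟨⟨by simp only; linarith, by simp only; linarith⟩,
      ⟨le_refl _, by simp only; linarith⟩, Or.inr (Or.inr (Or.inl rfl))⟩, h7⟩

private theorem near_12 {φ φ' : ℝ × ℝ → ℂ} {x y ε : ℝ} (hε : 0 < ε) (he : EqOn φ' φ (bd (big x y)))
    (h : HC x y φ φ' ε) {p : ℝ × ℝ} (hp : p ∈ bd (sq (x + 1) (y + 2))) :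
    Near φ φ' ε p (bd (big x y)) := by
  obtain ⟨p1, p2⟩ := p
  rw [mem_sq'] at hp
  simp only at hp
  obtain ⟨⟨h1, h2⟩, ⟨h3, h4⟩, h5⟩ := hp
  rcases h5 with h5 | h5 | h5 | h5
  · exact (h.lu (p1, p2) (mem_sq'.2 ⟨⟨by simp only; linarith, by simp only; linarith⟩, ⟨h3, h4⟩,
      Or.inr (Or.inl h5)⟩)).mono' cLU_sub
  · exact (h.ru (p1, p2) (mem_sq'.2 ⟨⟨by simp only; linarith, by simp only; linarith⟩, ⟨h3, h4⟩,
      Or.inl (by simp only; linarith)⟩)).mono' cRU_sub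
  · have h7 := h.up (p1 - (x + 1)) ⟨by linarith, by linarith⟩
    have e : ((x + 1 + (p1 - (x + 1)), y + 2) : ℝ × ℝ) = (p1, p2) :=
      Prod.ext (by simp only; ring) h5.symm
    rw [e] at h7
    exact ⟨_, mem_big'.2 ⟨⟨by simp only; linarith, by simp only; linarith⟩,
      ⟨by simp only; linarith, le_refl _⟩, Or.inr (Or.inr (Or.inr rfl))⟩, h7⟩
  · have hm : (p1, p2) ∈ bd (big x y) := mem_big'.2 ⟨⟨by simp only; linarith,
      by simp only; linarith⟩, ⟨by simp only; linarith, by simp only; linarith⟩,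
      Or.inr (Or.inr (Or.inr (by simp only; linarith)))⟩
    exact ⟨(p1, p2), hm, by rw [he hm, dist_self]; exact hε⟩

private theorem isCompact_bd' (R : Rect) : IsCompact (bd R) :=
  (isCompact_Icc.prod isCompact_Icc).diff (isOpen_Ioo.prod isOpen_Ioo)

private theorem left_sub {x y : ℝ} : ({x} ×ˢ Icc y (y + 3) : Set (ℝ × ℝ)) ⊆ bd (big x y) := by
  rintro ⟨p1, p2⟩ ⟨h1, h2, h3⟩
  simp only [mem_singleton_iff] at *
  rw [mem_big']
  simp only
  exact ⟨⟨by linarith, by linarith⟩, ⟨by linarith, by linarith⟩, Or.inl h1⟩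

private theorem right_sub {x y : ℝ} : ({x + 3} ×ˢ Icc y (y + 3) : Set (ℝ × ℝ)) ⊆ bd (big x y) := by
  rintro ⟨p1, p2⟩ ⟨h1, h2, h3⟩
  simp only [mem_singleton_iff] at *
  rw [mem_big']
  simp only
  exact ⟨⟨by linarith, by linarith⟩, ⟨by linarith, by linarith⟩, Or.inr (Or.inl h1)⟩

private theorem hmid_close {σ : ℝ} {w : ℕ} {φ : ℝ × ℝ → ℂ} {x y z : ℝ}
    (hz : z = y ∨ z = y + 3) (hc : ContinuousOn φ (bd (big x y)))
    (h : SS σ w (fun t => φ (x + (1 + t), z))) :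
    ∃ ε > 0, ∀ g : ℝ → ℂ, (∀ t ∈ Icc (0 : ℝ) 1, dist (g t) (φ (x + 1 + t, z)) < ε) →
      SS σ w g := by
  have hf : ContinuousOn (fun t => φ (x + (1 + t), z)) (Icc (0 : ℝ) 1) := by
    refine hc.comp (f := fun t : ℝ => (x + (1 + t), z)) (by fun_prop) ?_
    intro t ht
    rw [mem_big']
    simp only
    refine ⟨⟨by linarith [ht.1], by linarith [ht.2]⟩, ?_, ?_⟩
    · rcases hz with hz | hz <;> constructor <;> linarith
    · rcases hz with hz | hz
      · exact Or.inr (Or.inr (Or.inl hz))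
      · exact Or.inr (Or.inr (Or.inr hz))
  obtain ⟨ε, hε, h1⟩ := ss_close hf h
  refine ⟨ε, hε, fun g hg => h1 g fun t ht => ?_⟩
  have := hg t ht
  rwa [add_assoc] at this

theorem thin_kidsH {σ : ℝ} (hσ : 0 < σ) {w : ℕ} {φ : ℝ × ℝ → ℂ} {x y : ℝ}
    (hc : ContinuousOn φ (bd (big x y)))
    (hl : M3 σ w (fun t => φ (x, y + t))) (hr : M3 σ w (fun t => φ (x + 3, y + t)))
    (hb : M3 σ w (fun t => φ (x + t, y))) (ht : M3 σ w (fun t => φ (x + t, y + 3)))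
    (sl : ∀ s ∈ Icc (0 : ℝ) 3, ∀ t ∈ Icc (0 : ℝ) 3, dist (φ (x, y + s)) (φ (x, y + t)) < 2 * σ)
    (sr : ∀ s ∈ Icc (0 : ℝ) 3, ∀ t ∈ Icc (0 : ℝ) 3,
      dist (φ (x + 3, y + s)) (φ (x + 3, y + t)) < 2 * σ) :
    ∃ ε > 0, ∀ φ' : ℝ × ℝ → ℂ, EqOn φ' φ (bd (big x y)) → HC x y φ φ' ε →
      ∀ o ∈ off, TT σ w φ' (x + o.1) (y + o.2) := by
  have tl := hl.tiny sl
  have tr := hr.tiny sr
  have dLL : Dm φ (cLL x y) (σ / 4 + σ) :=
    Dm.union (x, y) ⟨rfl, left_mem_Icc.2 (by linarith)⟩ ⟨left_mem_Icc.2 (by linarith), rfl⟩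
      (dm_vert (by ring) (by ring) tl.1) (dm_horiz (by ring) (by ring) hb.fst)
  have dRL : Dm φ (cRL x y) (σ / 4 + σ) :=
    Dm.union (x + 3, y) ⟨rfl, left_mem_Icc.2 (by linarith)⟩ ⟨right_mem_Icc.2 (by linarith), rfl⟩
      (dm_vert (by ring) (by ring) tr.1) (dm_horiz (by ring) (by ring) hb.lst)
  have dLU : Dm φ (cLU x y) (σ / 4 + σ) :=
    Dm.union (x, y + 3) ⟨rfl, right_mem_Icc.2 (by linarith)⟩ ⟨left_mem_Icc.2 (by linarith), rfl⟩
      (dm_vert (by ring) (by ring) tl.2) (dm_horiz (by ring) (by ring) ht.fst)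
  have dRU : Dm φ (cRU x y) (σ / 4 + σ) :=
    Dm.union (x + 3, y + 3) ⟨rfl, right_mem_Icc.2 (by linarith)⟩
      ⟨right_mem_Icc.2 (by linarith), rfl⟩
      (dm_vert (by ring) (by ring) tr.2) (dm_horiz (by ring) (by ring) ht.lst)
  have dL : Dm φ ({x} ×ˢ Icc y (y + 3)) (2 * σ) := dm_vert (by ring) rfl sl
  have dR : Dm φ ({x + 3} ×ˢ Icc y (y + 3)) (2 * σ) := dm_vert (by ring) rfl sr
  have dXL : Dm φ (cLL x y ∪ {x} ×ˢ Icc y (y + 3) ∪ cLU x y) (σ / 4 + σ + 2 * σ + (σ / 4 + σ)) :=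
    Dm.union (x, y + 3) (Or.inr ⟨rfl, right_mem_Icc.2 (by linarith)⟩)
      (Or.inl ⟨rfl, right_mem_Icc.2 (by linarith)⟩)
      (Dm.union (x, y) (Or.inl ⟨rfl, left_mem_Icc.2 (by linarith)⟩)
        ⟨rfl, left_mem_Icc.2 (by linarith)⟩ dLL dL) dLU
  have dXR : Dm φ (cRL x y ∪ {x + 3} ×ˢ Icc y (y + 3) ∪ cRU x y)
      (σ / 4 + σ + 2 * σ + (σ / 4 + σ)) :=
    Dm.union (x + 3, y + 3) (Or.inr ⟨rfl, right_mem_Icc.2 (by linarith)⟩)
      (Or.inl ⟨rfl, right_mem_Icc.2 (by linarith)⟩)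
      (Dm.union (x + 3, y) (Or.inl ⟨rfl, left_mem_Icc.2 (by linarith)⟩)
        ⟨rfl, left_mem_Icc.2 (by linarith)⟩ dRL dR) dRU
  obtain ⟨ε1, hε1, c1⟩ := hmid_close (Or.inl rfl) hc hb.mid
  obtain ⟨ε2, hε2, c2⟩ := hmid_close (Or.inr rfl) hc ht.mid
  refine ⟨min (σ / 4) (min ε1 ε2), lt_min (by linarith) (lt_min hε1 hε2), ?_⟩
  intro φ' he h
  set ε := min (σ / 4) (min ε1 ε2) with hεdef
  have hε : 0 < ε := lt_min (by linarith) (lt_min hε1 hε2)
  have e0 : ε ≤ σ / 4 := min_le_left _ _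
  have e1 : ε ≤ ε1 := (min_le_right _ _).trans (min_le_left _ _)
  have e2 : ε ≤ ε2 := (min_le_right _ _).trans (min_le_right _ _)
  have kLL : Dm φ' (bd (sq x y)) (2 * σ) := fun p hp q hq => by
    linarith [Near.dist_lt dLL (h.ll p hp) (h.ll q hq)]
  have kRL : Dm φ' (bd (sq (x + 2) y)) (2 * σ) := fun p hp q hq => by
    linarith [Near.dist_lt dRL (h.rl p hp) (h.rl q hq)]
  have kLU : Dm φ' (bd (sq x (y + 2))) (2 * σ) := fun p hp q hq => by
    linarith [Near.dist_lt dLU (h.lu p hp) (h.lu q hq)]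
  have kRU : Dm φ' (bd (sq (x + 2) (y + 2))) (2 * σ) := fun p hp q hq => by
    linarith [Near.dist_lt dRU (h.ru p hp) (h.ru q hq)]
  -- vertical rungs
  have rung : ∀ {a b c : ℝ}, (c = a ∨ c = a + 1) → Dm φ' (bd (sq a b)) (2 * σ) →
      Sh (2 * σ) (vE φ' c b) := by
    intro a b c hac hd s hs t ht
    refine hd _ (mem_sq'.2 ⟨?_, ⟨by simp only; linarith [hs.1], by simp only; linarith [hs.2]⟩, ?_⟩)
      _ (mem_sq'.2 ⟨?_, ⟨by simp only; linarith [ht.1], by simp only; linarith [ht.2]⟩, ?_⟩)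
    · rcases hac with hac | hac <;> constructor <;> simp only <;> linarith
    · rcases hac with hac | hac
      · exact Or.inl hac
      · exact Or.inr (Or.inl hac)
    · rcases hac with hac | hac <;> constructor <;> simp only <;> linarith
    · rcases hac with hac | hac
      · exact Or.inl hac
      · exact Or.inr (Or.inl hac)
  refine kids_of (P := fun a b => TT σ w φ' a b) ?_ ?_ ?_ ?_ ?_ ?_ ?_ ?_
  · exact Or.inl fun p hp q hq => by linarith [kLL p hp q hq]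
  · refine Or.inr (Or.inl ⟨rung (Or.inr rfl) kLL, rung (Or.inl (by ring)) kRL,
      c1 _ fun t ht => ?_, c1 _ fun t ht => ?_⟩)
    · have hm : (x + 1 + t, y) ∈ bd (big x y) := mem_big'.2 ⟨⟨by simp only; linarith [ht.1],
        by simp only; linarith [ht.2]⟩, ⟨le_refl _, by simp only; linarith⟩,
        Or.inr (Or.inr (Or.inl rfl))⟩
      unfold hE
      rw [he hm, dist_self]
      exact hε1
    · exact (h.low t ht).trans_le e1
  · exact Or.inl fun p hp q hq => by linarith [kRL p hp q hq]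
  · exact Or.inl fun p hp q hq => by
      linarith [Near.dist_lt dXL (near_01 hε he h hp) (near_01 hε he h hq)]
  · exact Or.inl fun p hp q hq => by
      linarith [Near.dist_lt dXR (near_21 hε he h hp) (near_21 hε he h hq)]
  · exact Or.inl fun p hp q hq => by linarith [kLU p hp q hq]
  · refine Or.inr (Or.inl ⟨rung (Or.inr rfl) kLU, rung (Or.inl (by ring)) kRU,
      c2 _ fun t ht => ?_, c2 _ fun t ht => ?_⟩)
    · exact (h.up t ht).trans_le e2
    · have e : ((x + 1 + t, y + 2 + 1) : ℝ × ℝ) = (x + 1 + t, y + 3) :=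
        Prod.ext rfl (by simp only; ring)
      have hm : (x + 1 + t, y + 3) ∈ bd (big x y) := mem_big'.2 ⟨⟨by simp only; linarith [ht.1],
        by simp only; linarith [ht.2]⟩, ⟨by simp only; linarith, le_refl _⟩,
        Or.inr (Or.inr (Or.inr rfl))⟩
      unfold hE
      rw [e, he hm, dist_self]
      exact hε2
  · exact Or.inl fun p hp q hq => by linarith [kRU p hp q hq]

theorem small_kids {σ : ℝ} {w : ℕ} {φ : ℝ × ℝ → ℂ} {x y : ℝ}
    (hc : ContinuousOn φ (bd (big x y)))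
    (hs : ∀ p ∈ bd (big x y), ∀ q ∈ bd (big x y), dist (φ p) (φ q) < 8 * σ) :
    ∃ ε > 0, ∀ φ' : ℝ × ℝ → ℂ, EqOn φ' φ (bd (big x y)) → HC x y φ φ' ε →
      ∀ o ∈ off, TT σ w φ' (x + o.1) (y + o.2) := by
  obtain ⟨η, hη, hs'⟩ := strict_gap (isCompact_bd' (big x y)) hc hs
  refine ⟨η / 4, by linarith, ?_⟩
  intro φ' he h
  have hε : 0 < η / 4 := by linarith
  have hD : Dm φ (bd (big x y)) (8 * σ - η + η / 4) := fun p hp q hq => by
    linarith [hs' p hp q hq]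
  have key : ∀ {a b : ℝ}, (∀ p ∈ bd (sq a b), Near φ φ' (η / 4) p (bd (big x y))) →
      TT σ w φ' a b := fun hab => Or.inl fun p hp q hq => by
    linarith [Near.dist_lt hD (hab p hp) (hab q hq)]
  refine kids_of (P := fun a b => TT σ w φ' a b) ?_ ?_ ?_ ?_ ?_ ?_ ?_ ?_
  · exact key fun p hp => (h.ll p hp).mono' cLL_sub
  · exact key fun p hp => near_10 hε he h hp
  · exact key fun p hp => (h.rl p hp).mono' cRL_sub
  · exact key fun p hp => (near_01 hε he h hp).mono'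
      (union_subset (union_subset cLL_sub left_sub) cLU_sub)
  · exact key fun p hp => (near_21 hε he h hp).mono'
      (union_subset (union_subset cRL_sub right_sub) cRU_sub)
  · exact key fun p hp => (h.lu p hp).mono' cLU_sub
  · exact key fun p hp => near_12 hε he h hp
  · exact key fun p hp => (h.ru p hp).mono' cRU_sub

end CarT
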