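import Pool.Agent.CarT.Net
import Pool.Agent.CarT.SizeA

/-!
# CarT/KidsB : the types of the children in a first step

All four sides satisfy `M1 σ w`: end thirds `< σ/2`, middle third `Wt (σ/2) w`. So two values of
`φ` on `cLL x y` have distance `< σ` (through the corner), by `strict_gap` (compact set `cLL x y`)
`≤ σ - η`; the same for the other three corner sets. Choose `ε ≤ η / 4`, `ε ≤ σ / 4`, which also
works in `wt_close` for the four middle thirds.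
* `o = (0,0), (2,0), (0,2), (2,2)`: `Small` (`< σ + 2ε < 8σ`).
* `o = (1,0)`: `ThinH σ (w+2)`: rungs `Sh (2σ)` (`< σ + 2ε`); bottom side `Wt (σ/2) w` so
  `Wt σ (w+2)` (`wt_mono`); top side by `low` and `wt_close`. `o = (1,2)` the same.
* `o = (0,1)`: `ThinV σ (w+2)`: bottom side `[x, x+1] × {y+1} ⊆ bd (sq x y)` and top side
  `⊆ bd (sq x (y+2))` are `Sh (2σ)`; left side: `φ' = φ`, `hl.mid`, `wt_mono`. Right side
  `f v = φ' (x+1, y+1+v)`: on `[0, 1/3]` it is close to values on `cLL` (`ml1`), so two values have distance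
  `≤ σ - η + 2ε < σ`; the same on `[2/3, 1]` with `cLU` (`ml3`); the middle part
  `u ↦ f ((1+u)/3)` is close to `φ (x, y+1+u)` (`ml2`), `wt_close`, `wt_mono` (`σ/2 ≤ σ`). `wt_concat` gives
  `Wt σ (w+2)`. `o = (2,1)`: the same on the right.
-/

open Set Metric

namespace CarT

private theorem kb_mem {R : Rect} {u v : ℝ} :
    (u, v) ∈ bd R ↔ (R.1.1 ≤ u ∧ u ≤ R.1.2 ∧ R.2.1 ≤ v ∧ v ≤ R.2.2) ∧
      (u = R.1.1 ∨ u = R.1.2 ∨ v = R.2.1 ∨ v = R.2.2) := by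
  constructor
  · rintro ⟨⟨⟨h4, h5⟩, ⟨h6, h7⟩⟩, h2⟩
    refine ⟨⟨h4, h5, h6, h7⟩, ?_⟩
    by_contra h3
    push Not at h3
    exact h2 ⟨⟨lt_of_le_of_ne h4 (Ne.symm h3.1), lt_of_le_of_ne h5 h3.2.1⟩,
      ⟨lt_of_le_of_ne h6 (Ne.symm h3.2.2.1), lt_of_le_of_ne h7 h3.2.2.2⟩⟩
  · rintro ⟨⟨h4, h5, h6, h7⟩, h2⟩
    refine ⟨⟨⟨h4, h5⟩, ⟨h6, h7⟩⟩, ?_⟩
    rintro ⟨⟨h4', h5'⟩, ⟨h6', h7'⟩⟩
    rcases h2 with h2 | h2 | h2 | h2
    · exact absurd h2 h4'.ne'
    · exact absurd h2 h5'.ne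
    · exact absurd h2 h6'.ne'
    · exact absurd h2 h7'.ne

private theorem kb_sq {x y u v : ℝ} :
    (u, v) ∈ bd (sq x y) ↔ (x ≤ u ∧ u ≤ x + 1 ∧ y ≤ v ∧ v ≤ y + 1) ∧
      (u = x ∨ u = x + 1 ∨ v = y ∨ v = y + 1) := kb_mem

private theorem kb_big {x y u v : ℝ} :
    (u, v) ∈ bd (big x y) ↔ (x ≤ u ∧ u ≤ x + 3 ∧ y ≤ v ∧ v ≤ y + 3) ∧
      (u = x ∨ u = x + 3 ∨ v = y ∨ v = y + 3) := kb_mem

/-- two values on an L-shaped set -/
private theorem kb_corner {σ : ℝ} {φ : ℝ × ℝ → ℂ} {A B : Set (ℝ × ℝ)} {c : ℝ × ℝ}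
    (hA : ∀ p ∈ A, ∀ q ∈ A, dist (φ p) (φ q) < σ / 2)
    (hB : ∀ p ∈ B, ∀ q ∈ B, dist (φ p) (φ q) < σ / 2) (hcA : c ∈ A) (hcB : c ∈ B) :
    ∀ p ∈ A ∪ B, ∀ q ∈ A ∪ B, dist (φ p) (φ q) < σ := by
  have key : ∀ p ∈ A ∪ B, dist (φ p) (φ c) < σ / 2 := by
    rintro p (hp | hp)
    · exact hA p hp c hcA
    · exact hB p hp c hcB
  intro p hp q hq
  have h1 := key p hp
  have h2 := key q hq
  have h3 := dist_triangle_right (φ p) (φ q) (φ c)
  linarith

private theorem kb_near {φ φ' : ℝ × ℝ → ℂ} {ε r : ℝ} {K : Set (ℝ × ℝ)} {p q : ℝ × ℝ}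
    (hp : Near φ φ' ε p K) (hq : Near φ φ' ε q K)
    (hK : ∀ a ∈ K, ∀ b ∈ K, dist (φ a) (φ b) ≤ r) : dist (φ' p) (φ' q) < r + 2 * ε := by
  obtain ⟨a, ha, h1⟩ := hp
  obtain ⟨b, hb, h2⟩ := hq
  have h3 := hK a ha b hb
  have h4 := dist_triangle4 (φ' p) (φ a) (φ b) (φ' q)
  rw [dist_comm (φ b) (φ' q)] at h4
  linarith

theorem first_kids {σ : ℝ} (hσ : 0 < σ) {w : ℕ} {φ : ℝ × ℝ → ℂ} {x y : ℝ}
    (hc : ContinuousOn φ (bd (big x y)))
    (hl : M1 σ w (fun t => φ (x, y + t))) (hr : M1 σ w (fun t => φ (x + 3, y + t)))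
    (hb : M1 σ w (fun t => φ (x + t, y))) (ht : M1 σ w (fun t => φ (x + t, y + 3))) :
    ∃ ε > 0, ∀ φ' : ℝ × ℝ → ℂ, EqOn φ' φ (bd (big x y)) → HC x y φ φ' ε →
      ∀ o ∈ off, TT σ (w + 2) φ' (x + o.1) (y + o.2) := by
  -- the corner sets
  have vert : ∀ (a lo : ℝ), (∀ s ∈ Icc lo (lo + 1), ∀ t ∈ Icc lo (lo + 1),
      dist (φ (a, y + s)) (φ (a, y + t)) < σ / 2) →
      ∀ p ∈ ({a} : Set ℝ) ×ˢ Icc (y + lo) (y + (lo + 1)),
        ∀ q ∈ ({a} : Set ℝ) ×ˢ Icc (y + lo) (y + (lo + 1)), dist (φ p) (φ q) < σ / 2 := by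
    rintro a lo h ⟨p1, p2⟩ ⟨hp1, hp2, hp3⟩ ⟨q1, q2⟩ ⟨hq1, hq2, hq3⟩
    simp only [mem_singleton_iff] at hp1 hq1 hp2 hp3 hq2 hq3
    have := h (p2 - y) ⟨by linarith, by linarith⟩ (q2 - y) ⟨by linarith, by linarith⟩
    rw [add_sub_cancel, add_sub_cancel] at this
    rw [hp1, hq1]
    exact this
  have hori : ∀ (b lo : ℝ), (∀ s ∈ Icc lo (lo + 1), ∀ t ∈ Icc lo (lo + 1),
      dist (φ (x + s, b)) (φ (x + t, b)) < σ / 2) →
      ∀ p ∈ Icc (x + lo) (x + (lo + 1)) ×ˢ ({b} : Set ℝ),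
        ∀ q ∈ Icc (x + lo) (x + (lo + 1)) ×ˢ ({b} : Set ℝ), dist (φ p) (φ q) < σ / 2 := by
    rintro b lo h ⟨p1, p2⟩ ⟨⟨hp1, hp2⟩, hp3⟩ ⟨q1, q2⟩ ⟨⟨hq1, hq2⟩, hq3⟩
    simp only [mem_singleton_iff] at hp1 hq1 hp2 hp3 hq2 hq3
    have := h (p1 - x) ⟨by linarith, by linarith⟩ (q1 - x) ⟨by linarith, by linarith⟩
    rw [add_sub_cancel, add_sub_cancel] at this
    rw [hp3, hq3]
    exact this
  have v1 := vert x 0 (by
    rw [zero_add]
    exact hl.fst)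
  have v2 := vert x 2 (by
    have e : (2 : ℝ) + 1 = 3 := by norm_num
    rw [e]
    exact hl.lst)
  have v3 := vert (x + 3) 0 (by
    rw [zero_add]
    exact hr.fst)
  have v4 := vert (x + 3) 2 (by
    have e : (2 : ℝ) + 1 = 3 := by norm_num
    rw [e]
    exact hr.lst)
  have b1 := hori y 0 (by
    rw [zero_add]
    exact hb.fst)
  have b2 := hori y 2 (by
    have e : (2 : ℝ) + 1 = 3 := by norm_num
    rw [e]
    exact hb.lst)
  have b3 := hori (y + 3) 0 (by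
    rw [zero_add]
    exact ht.fst)
  have b4 := hori (y + 3) 2 (by
    have e : (2 : ℝ) + 1 = 3 := by norm_num
    rw [e]
    exact ht.lst)
  have e3 : (2 : ℝ) + 1 = 3 := by norm_num
  rw [zero_add, add_zero] at v1 v3 b1 b3
  rw [e3] at v2 v4 b2 b4
  have kLL := kb_corner v1 b1 (c := (x, y)) ⟨rfl, by constructor <;> simp⟩
    ⟨by constructor <;> simp, rfl⟩
  have kRL := kb_corner v3 b2 (c := (x + 3, y)) ⟨rfl, by constructor <;> simp⟩
    ⟨by constructor <;> simp; norm_num, rfl⟩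
  have kLU := kb_corner v2 b3 (c := (x, y + 3)) ⟨rfl, by constructor <;> simp; norm_num⟩
    ⟨by constructor <;> simp, rfl⟩
  have kRU := kb_corner v4 b4 (c := (x + 3, y + 3)) ⟨rfl, by constructor <;> simp; norm_num⟩
    ⟨by constructor <;> simp; norm_num, rfl⟩
  have sLL : cLL x y ⊆ bd (big x y) := by
    rintro ⟨u, v⟩ (⟨h1, h2, h3⟩ | ⟨⟨h1, h2⟩, h3⟩)
    · simp only [mem_singleton_iff] at h1 h2 h3
      exact kb_big.mpr ⟨⟨by linarith, by linarith, by linarith, by linarith⟩, Or.inl h1⟩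
    · simp only [mem_singleton_iff] at h1 h2 h3
      exact kb_big.mpr ⟨⟨by linarith, by linarith, by linarith, by linarith⟩,
        Or.inr (Or.inr (Or.inl h3))⟩
  have sRL : cRL x y ⊆ bd (big x y) := by
    rintro ⟨u, v⟩ (⟨h1, h2, h3⟩ | ⟨⟨h1, h2⟩, h3⟩)
    · simp only [mem_singleton_iff] at h1 h2 h3
      exact kb_big.mpr ⟨⟨by linarith, by linarith, by linarith, by linarith⟩, Or.inr (Or.inl h1)⟩
    · simp only [mem_singleton_iff] at h1 h2 h3
      exact kb_big.mpr ⟨⟨by linarith, by linarith, by linarith, by linarith⟩,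
        Or.inr (Or.inr (Or.inl h3))⟩
  have sLU : cLU x y ⊆ bd (big x y) := by
    rintro ⟨u, v⟩ (⟨h1, h2, h3⟩ | ⟨⟨h1, h2⟩, h3⟩)
    · simp only [mem_singleton_iff] at h1 h2 h3
      exact kb_big.mpr ⟨⟨by linarith, by linarith, by linarith, by linarith⟩, Or.inl h1⟩
    · simp only [mem_singleton_iff] at h1 h2 h3
      exact kb_big.mpr ⟨⟨by linarith, by linarith, by linarith, by linarith⟩,
        Or.inr (Or.inr (Or.inr h3))⟩
  have sRU : cRU x y ⊆ bd (big x y) := by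
    rintro ⟨u, v⟩ (⟨h1, h2, h3⟩ | ⟨⟨h1, h2⟩, h3⟩)
    · simp only [mem_singleton_iff] at h1 h2 h3
      exact kb_big.mpr ⟨⟨by linarith, by linarith, by linarith, by linarith⟩, Or.inr (Or.inl h1)⟩
    · simp only [mem_singleton_iff] at h1 h2 h3
      exact kb_big.mpr ⟨⟨by linarith, by linarith, by linarith, by linarith⟩,
        Or.inr (Or.inr (Or.inr h3))⟩
  have cpt : ∀ a b c d e f g h : ℝ, IsCompact (({a} : Set ℝ) ×ˢ Icc b c ∪ Icc d e ×ˢ ({f} : Set ℝ)) :=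
    fun a b c d e f g h =>
      (isCompact_singleton.prod isCompact_Icc).union (isCompact_Icc.prod isCompact_singleton)
  obtain ⟨η1, hη1, g1⟩ := strict_gap (cpt _ _ _ _ _ _ 0 0 : IsCompact (cLL x y)) (hc.mono sLL) kLL
  obtain ⟨η2, hη2, g2⟩ := strict_gap (cpt _ _ _ _ _ _ 0 0 : IsCompact (cRL x y)) (hc.mono sRL) kRL
  obtain ⟨η3, hη3, g3⟩ := strict_gap (cpt _ _ _ _ _ _ 0 0 : IsCompact (cLU x y)) (hc.mono sLU) kLU
  obtain ⟨η4, hη4, g4⟩ := strict_gap (cpt _ _ _ _ _ _ 0 0 : IsCompact (cRU x y)) (hc.mono sRU) kRU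
  -- the middle thirds
  have cv : ∀ a : ℝ, (a = x ∨ a = x + 3) →
      ContinuousOn (fun t => φ (a, y + (1 + t))) (Icc 0 1) := by
    intro a ha
    refine hc.comp (by fun_prop) fun t ht => ?_
    refine kb_big.mpr ⟨?_, ?_⟩
    · rcases ha with ha | ha
      · exact ⟨by linarith, by linarith, by linarith [ht.1], by linarith [ht.2]⟩
      · exact ⟨by linarith, by linarith, by linarith [ht.1], by linarith [ht.2]⟩
    · rcases ha with ha | ha
      · exact Or.inl ha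
      · exact Or.inr (Or.inl ha)
  have ch : ∀ b : ℝ, (b = y ∨ b = y + 3) →
      ContinuousOn (fun t => φ (x + (1 + t), b)) (Icc 0 1) := by
    intro b hb
    refine hc.comp (by fun_prop) fun t ht => ?_
    refine kb_big.mpr ⟨?_, ?_⟩
    · rcases hb with hb | hb
      · exact ⟨by linarith [ht.1], by linarith [ht.2], by linarith, by linarith⟩
      · exact ⟨by linarith [ht.1], by linarith [ht.2], by linarith, by linarith⟩
    · rcases hb with hb | hb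
      · exact Or.inr (Or.inr (Or.inl hb))
      · exact Or.inr (Or.inr (Or.inr hb))
  obtain ⟨δ1, hδ1, w1⟩ := wt_close (cv x (Or.inl rfl)) hl.mid
  obtain ⟨δ2, hδ2, w2⟩ := wt_close (cv (x + 3) (Or.inr rfl)) hr.mid
  obtain ⟨δ3, hδ3, w3⟩ := wt_close (ch y (Or.inl rfl)) hb.mid
  obtain ⟨δ4, hδ4, w4⟩ := wt_close (ch (y + 3) (Or.inr rfl)) ht.mid
  obtain ⟨ε, hε, i1, i2, i3, i4, i5, i6, i7, i8, i9⟩ : ∃ ε : ℝ, 0 < ε ∧ ε ≤ σ / 4 ∧ ε ≤ η1 / 4 ∧
      ε ≤ η2 / 4 ∧ ε ≤ η3 / 4 ∧ ε ≤ η4 / 4 ∧ ε ≤ δ1 ∧ ε ≤ δ2 ∧ ε ≤ δ3 ∧ ε ≤ δ4 := by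
    have hex : ∀ a b : ℝ, 0 < a → 0 < b → ∃ c, 0 < c ∧ c ≤ a ∧ c ≤ b := fun a b ha hb =>
      ⟨min a b, lt_min ha hb, min_le_left _ _, min_le_right _ _⟩
    obtain ⟨c1, p1, q1, r1⟩ := hex (σ / 4) (η1 / 4) (by linarith) (by linarith)
    obtain ⟨c2, p2, q2, r2⟩ := hex (η2 / 4) c1 (by linarith) p1
    obtain ⟨c3, p3, q3, r3⟩ := hex (η3 / 4) c2 (by linarith) p2
    obtain ⟨c4, p4, q4, r4⟩ := hex (η4 / 4) c3 (by linarith) p3
    obtain ⟨c5, p5, q5, r5⟩ := hex δ1 c4 hδ1 p4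
    obtain ⟨c6, p6, q6, r6⟩ := hex δ2 c5 hδ2 p5
    obtain ⟨c7, p7, q7, r7⟩ := hex δ3 c6 hδ3 p6
    obtain ⟨c8, p8, q8, r8⟩ := hex δ4 c7 hδ4 p7
    exact ⟨c8, p8, by linarith, by linarith, by linarith, by linarith, by linarith, by linarith,
      by linarith, by linarith, by linarith⟩
  refine ⟨ε, hε, fun φ' heq H => ?_⟩
  -- two points near a corner set
  have nLL : ∀ p q, Near φ φ' ε p (cLL x y) → Near φ φ' ε q (cLL x y) →
      dist (φ' p) (φ' q) < σ := fun p q hp hq => by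
    have := kb_near hp hq g1
    linarith
  have nRL : ∀ p q, Near φ φ' ε p (cRL x y) → Near φ φ' ε q (cRL x y) →
      dist (φ' p) (φ' q) < σ := fun p q hp hq => by
    have := kb_near hp hq g2
    linarith
  have nLU : ∀ p q, Near φ φ' ε p (cLU x y) → Near φ φ' ε q (cLU x y) →
      dist (φ' p) (φ' q) < σ := fun p q hp hq => by
    have := kb_near hp hq g3
    linarith
  have nRU : ∀ p q, Near φ φ' ε p (cRU x y) → Near φ φ' ε q (cRU x y) →
      dist (φ' p) (φ' q) < σ := fun p q hp hq => by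
    have := kb_near hp hq g4
    linarith
  have hs2 : σ / 2 ≤ σ := by linarith
  have hs0 : 0 < σ / 2 := by linarith
  -- long sides
  have lL : Wt σ (w + 2) (fun t => φ' (x, y + 1 + t)) := by
    refine wt_mono hs0 (w1 _ fun t ht => ?_) hs2 (by omega)
    have hm : (x, y + 1 + t) ∈ bd (big x y) :=
      kb_big.mpr ⟨⟨by linarith, by linarith, by linarith [ht.1], by linarith [ht.2]⟩, Or.inl rfl⟩
    rw [heq hm, ← add_assoc, dist_self]
    exact hδ1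
  have lR : Wt σ (w + 2) (fun t => φ' (x + 3, y + 1 + t)) := by
    refine wt_mono hs0 (w2 _ fun t ht => ?_) hs2 (by omega)
    have hm : (x + 3, y + 1 + t) ∈ bd (big x y) :=
      kb_big.mpr ⟨⟨by linarith, by linarith, by linarith [ht.1], by linarith [ht.2]⟩,
        Or.inr (Or.inl rfl)⟩
    rw [heq hm, ← add_assoc, dist_self]
    exact hδ2
  have lB : Wt σ (w + 2) (fun t => φ' (x + 1 + t, y)) := by
    refine wt_mono hs0 (w3 _ fun t ht => ?_) hs2 (by omega)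
    have hm : (x + 1 + t, y) ∈ bd (big x y) :=
      kb_big.mpr ⟨⟨by linarith [ht.1], by linarith [ht.2], by linarith, by linarith⟩,
        Or.inr (Or.inr (Or.inl rfl))⟩
    rw [heq hm, ← add_assoc, dist_self]
    exact hδ3
  have lT : Wt σ (w + 2) (fun t => φ' (x + 1 + t, y + 3)) := by
    refine wt_mono hs0 (w4 _ fun t ht => ?_) hs2 (by omega)
    have hm : (x + 1 + t, y + 3) ∈ bd (big x y) :=
      kb_big.mpr ⟨⟨by linarith [ht.1], by linarith [ht.2], by linarith, by linarith⟩,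
        Or.inr (Or.inr (Or.inr rfl))⟩
    rw [heq hm, ← add_assoc, dist_self]
    exact hδ4
  have lB1 : Wt σ (w + 2) (fun t => φ' (x + 1 + t, y + 1)) := by
    refine wt_mono hs0 (w3 _ fun t ht => ?_) hs2 (by omega)
    have := H.low t ht
    rw [← add_assoc]
    exact this.trans_le i8
  have lT1 : Wt σ (w + 2) (fun t => φ' (x + 1 + t, y + 2)) := by
    refine wt_mono hs0 (w4 _ fun t ht => ?_) hs2 (by omega)
    have := H.up t ht
    rw [← add_assoc]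
    exact this.trans_le i9
  have lL1 : Wt σ (w + 2) (fun t => φ' (x + 1, y + 1 + t)) := by
    refine wt_concat ?_ ?_ ?_
    · intro s hs t ht
      refine nLL _ _ ?_ ?_
      · have := H.ml1 (3 * s) ⟨by linarith [hs.1], by linarith [hs.2]⟩
        rwa [mul_div_cancel_left₀ s (by norm_num : (3 : ℝ) ≠ 0)] at this
      · have := H.ml1 (3 * t) ⟨by linarith [ht.1], by linarith [ht.2]⟩
        rwa [mul_div_cancel_left₀ t (by norm_num : (3 : ℝ) ≠ 0)] at this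
    · refine wt_mono hs0 (w1 _ fun t ht => ?_) hs2 le_rfl
      have := H.ml2 t ht
      rw [← add_assoc y 1 t]
      exact this.trans_le i6
    · intro s hs t ht
      refine nLU _ _ ?_ ?_
      · have := H.ml3 (3 * s - 2) ⟨by linarith [hs.1], by linarith [hs.2]⟩
        rwa [add_sub_cancel, mul_div_cancel_left₀ s (by norm_num : (3 : ℝ) ≠ 0)] at this
      · have := H.ml3 (3 * t - 2) ⟨by linarith [ht.1], by linarith [ht.2]⟩
        rwa [add_sub_cancel, mul_div_cancel_left₀ t (by norm_num : (3 : ℝ) ≠ 0)] at this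
  have lR1 : Wt σ (w + 2) (fun t => φ' (x + 2, y + 1 + t)) := by
    refine wt_concat ?_ ?_ ?_
    · intro s hs t ht
      refine nRL _ _ ?_ ?_
      · have := H.mr1 (3 * s) ⟨by linarith [hs.1], by linarith [hs.2]⟩
        rwa [mul_div_cancel_left₀ s (by norm_num : (3 : ℝ) ≠ 0)] at this
      · have := H.mr1 (3 * t) ⟨by linarith [ht.1], by linarith [ht.2]⟩
        rwa [mul_div_cancel_left₀ t (by norm_num : (3 : ℝ) ≠ 0)] at this
    · refine wt_mono hs0 (w2 _ fun t ht => ?_) hs2 le_rfl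
      have := H.mr2 t ht
      rw [← add_assoc y 1 t]
      exact this.trans_le i7
    · intro s hs t ht
      refine nRU _ _ ?_ ?_
      · have := H.mr3 (3 * s - 2) ⟨by linarith [hs.1], by linarith [hs.2]⟩
        rwa [add_sub_cancel, mul_div_cancel_left₀ s (by norm_num : (3 : ℝ) ≠ 0)] at this
      · have := H.mr3 (3 * t - 2) ⟨by linarith [ht.1], by linarith [ht.2]⟩
        rwa [add_sub_cancel, mul_div_cancel_left₀ t (by norm_num : (3 : ℝ) ≠ 0)] at this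
  -- memberships in the boundaries of the corner squares
  have mR : ∀ a b t : ℝ, t ∈ Icc (0 : ℝ) 1 → (a + 1, b + t) ∈ bd (sq a b) := fun a b t ht =>
    kb_sq.mpr ⟨⟨by linarith, by linarith, by linarith [ht.1], by linarith [ht.2]⟩,
      Or.inr (Or.inl rfl)⟩
  have mL : ∀ a b t : ℝ, t ∈ Icc (0 : ℝ) 1 → (a, b + t) ∈ bd (sq a b) := fun a b t ht =>
    kb_sq.mpr ⟨⟨by linarith, by linarith, by linarith [ht.1], by linarith [ht.2]⟩, Or.inl rfl⟩
  have mB : ∀ a b t : ℝ, t ∈ Icc (0 : ℝ) 1 → (a + t, b) ∈ bd (sq a b) := fun a b t ht =>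
    kb_sq.mpr ⟨⟨by linarith [ht.1], by linarith [ht.2], by linarith, by linarith⟩,
      Or.inr (Or.inr (Or.inl rfl))⟩
  have mT : ∀ a b t : ℝ, t ∈ Icc (0 : ℝ) 1 → (a + t, b + 1) ∈ bd (sq a b) := fun a b t ht =>
    kb_sq.mpr ⟨⟨by linarith [ht.1], by linarith [ht.2], by linarith, by linarith⟩,
      Or.inr (Or.inr (Or.inr rfl))⟩
  have hs22 : σ ≤ 2 * σ := by linarith
  have a11 : ∀ z : ℝ, z + 1 + 1 = z + 2 := fun z => by ring
  have a21 : ∀ z : ℝ, z + 2 + 1 = z + 3 := fun z => by ring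
  have c0 : ((0 : ℕ) : ℝ) = 0 := Nat.cast_zero
  have c1 : ((1 : ℕ) : ℝ) = 1 := Nat.cast_one
  have c2 : ((2 : ℕ) : ℝ) = 2 := by norm_num
  rintro ⟨i, j⟩ ho
  have hlist : (i = 0 ∧ j = 0) ∨ (i = 1 ∧ j = 0) ∨ (i = 2 ∧ j = 0) ∨ (i = 0 ∧ j = 1) ∨
      (i = 2 ∧ j = 1) ∨ (i = 0 ∧ j = 2) ∨ (i = 1 ∧ j = 2) ∨ (i = 2 ∧ j = 2) := by
    unfold off at ho
    rw [Finset.mem_erase, Finset.mem_product, Finset.mem_range, Finset.mem_range] at ho
    obtain ⟨h1, h2, h3⟩ := ho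
    simp only [ne_eq, Prod.mk.injEq, not_and] at h1
    simp only at h2 h3
    omega
  rcases hlist with ⟨rfl, rfl⟩ | ⟨rfl, rfl⟩ | ⟨rfl, rfl⟩ | ⟨rfl, rfl⟩ | ⟨rfl, rfl⟩ | ⟨rfl, rfl⟩ |
    ⟨rfl, rfl⟩ | ⟨rfl, rfl⟩
  · simp only [c0, add_zero]
    left
    intro p hp q hq
    have := nLL p q (H.ll p hp) (H.ll q hq)
    linarith
  · simp only [c0, c1, add_zero]
    right; left
    refine ⟨?_, ?_, Or.inr lB, Or.inr lB1⟩
    · intro s hs t ht
      exact (nLL _ _ (H.ll _ (mR x y s hs)) (H.ll _ (mR x y t ht))).trans_le hs22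
    · rw [a11]
      intro s hs t ht
      exact (nRL _ _ (H.rl _ (mL (x + 2) y s hs)) (H.rl _ (mL (x + 2) y t ht))).trans_le hs22
  · simp only [c0, c2, add_zero]
    left
    intro p hp q hq
    have := nRL p q (H.rl p hp) (H.rl q hq)
    linarith
  · simp only [c0, c1, add_zero]
    right; right
    refine ⟨?_, ?_, Or.inr lL, Or.inr lL1⟩
    · intro s hs t ht
      exact (nLL _ _ (H.ll _ (mT x y s hs)) (H.ll _ (mT x y t ht))).trans_le hs22
    · rw [a11]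
      intro s hs t ht
      exact (nLU _ _ (H.lu _ (mB x (y + 2) s hs)) (H.lu _ (mB x (y + 2) t ht))).trans_le hs22
  · simp only [c1, c2]
    right; right
    refine ⟨?_, ?_, Or.inr lR1, ?_⟩
    · intro s hs t ht
      exact (nRL _ _ (H.rl _ (mT (x + 2) y s hs)) (H.rl _ (mT (x + 2) y t ht))).trans_le hs22
    · rw [a11]
      intro s hs t ht
      exact (nRU _ _ (H.ru _ (mB (x + 2) (y + 2) s hs))
        (H.ru _ (mB (x + 2) (y + 2) t ht))).trans_le hs22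
    · rw [a21]
      exact Or.inr lR
  · simp only [c0, c2, add_zero]
    left
    intro p hp q hq
    have := nLU p q (H.lu p hp) (H.lu q hq)
    linarith
  · simp only [c1, c2]
    right; left
    refine ⟨?_, ?_, Or.inr lT1, ?_⟩
    · intro s hs t ht
      exact (nLU _ _ (H.lu _ (mR x (y + 2) s hs)) (H.lu _ (mR x (y + 2) t ht))).trans_le hs22
    · rw [a11]
      intro s hs t ht
      exact (nRU _ _ (H.ru _ (mL (x + 2) (y + 2) s hs))
        (H.ru _ (mL (x + 2) (y + 2) t ht))).trans_le hs22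
    · rw [a21]
      exact Or.inr lT
  · simp only [c2]
    left
    intro p hp q hq
    have := nRU p q (H.ru p hp) (H.ru q hq)
    linarith

end CarT
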