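import Pool.Agent.CarT.Net
import Pool.Agent.CarT.KidsA
import Pool.Agent.CarT.Swap

/-!
# CarT/KidsC : the types of the children, thin squares with short horizontal sides

Exchange of coordinates: `TT σ w (φ ∘ Prod.swap) y x ↔ TT σ w φ x y` (`Small` is symmetric, `ThinH` and
`ThinV` are exchanged: `hE (φ ∘ swap) y x = vE φ x y`). Apply `thin_kidsH` to `φ ∘ Prod.swap` at `(y, x)`;
`EqOn (φ' ∘ swap) (φ ∘ swap) (bd (big y x))` because `(big x y).swap = big y x`; `off` is symmetric.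
-/

open Set Metric

namespace CarT

theorem tt_swap {σ : ℝ} {w : ℕ} {φ : ℝ × ℝ → ℂ} {x y : ℝ}
    (h : TT σ w (φ ∘ Prod.swap) y x) : TT σ w φ x y := by
  rcases h with h | h | h
  · left
    intro p hp q hq
    have hs : ∀ r ∈ bd (sq x y), r.swap ∈ bd (sq y x) := by
      intro r hr
      have e : sq y x = (sq x y).swap := rfl
      rw [e, bd_swap, mem_preimage, Prod.swap_swap]
      exact hr
    exact h p.swap (hs p hp) q.swap (hs q hq)
  · right
    right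
    exact h
  · right
    left
    exact h

theorem thin_kidsV {σ : ℝ} (hσ : 0 < σ) {w : ℕ} {φ : ℝ × ℝ → ℂ} {x y : ℝ}
    (hc : ContinuousOn φ (bd (big x y)))
    (hl : M3 σ w (fun t => φ (x, y + t))) (hr : M3 σ w (fun t => φ (x + 3, y + t)))
    (hb : M3 σ w (fun t => φ (x + t, y))) (ht : M3 σ w (fun t => φ (x + t, y + 3)))
    (sb : ∀ s ∈ Icc (0 : ℝ) 3, ∀ t ∈ Icc (0 : ℝ) 3, dist (φ (x + s, y)) (φ (x + t, y)) < 2 * σ)
    (st : ∀ s ∈ Icc (0 : ℝ) 3, ∀ t ∈ Icc (0 : ℝ) 3,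
      dist (φ (x + s, y + 3)) (φ (x + t, y + 3)) < 2 * σ) :
    ∃ ε > 0, ∀ φ' : ℝ × ℝ → ℂ, EqOn φ' φ (bd (big x y)) → VC x y φ φ' ε →
      ∀ o ∈ off, TT σ w φ' (x + o.1) (y + o.2) := by
  have hmem : ∀ p ∈ bd (big y x), p.swap ∈ bd (big x y) := by
    intro p hp
    have e : big y x = (big x y).swap := rfl
    rw [e, bd_swap, mem_preimage] at hp
    exact hp
  obtain ⟨ε, hε, h⟩ := thin_kidsH hσ (w := w) (φ := φ ∘ Prod.swap) (x := y) (y := x)
    (hc.comp continuous_swap.continuousOn hmem) hb ht hl hr sb st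
  refine ⟨ε, hε, fun φ' hφ hV o ho => ?_⟩
  have ho' : ((o.2, o.1) : ℕ × ℕ) ∈ off := by
    simp only [off, Finset.mem_erase, Finset.mem_product, ne_eq, Prod.mk.injEq,
      Finset.mem_range] at ho ⊢
    refine ⟨fun h1 => ho.1 ?_, ho.2.2, ho.2.1⟩
    exact Prod.ext h1.2 h1.1
  exact tt_swap (h (φ' ∘ Prod.swap) (fun p hp => hφ (hmem p hp)) hV (o.2, o.1) ho')

end CarT
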