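import Pool.Agent.CarT.Sys

/-!
# CarT/LogA : continuous logarithms, basic facts

* `hasLog_of_joined` (every set `K`!): let `γ` be a path in `Kᶜ` from `x` to `y`. The map
  `H (t, z) = (z - γ t) / (z - x)` is a homotopy of maps `K → ℂ \ {0}` with `H (0, z) = 1`.
  By `Complex.isCoveringMap_exp.liftHomotopy` (Mathlib.Topology.Homotopy.Lifting, valid for every
  space `A = K`) it has a lift with value `0` at `t = 0`; the lift at `t = 1` is a logarithm of
  `(z - y) / (z - x)`, its negative is a logarithm of `(z - x) / (z - y)`.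
* `hasLog_convex`: fix `z0 ∈ K` (if `K` is empty it is trivial); `H (t, z) = f (z0 + t (z - z0))`
  is a homotopy from a constant map; `liftHomotopy` again.
* `hasLog_arc`: lift the path `t ↦ f (φ t)` (`liftPath`), where `φ : [0, 1] → A` is the
  parametrisation of the arc, and compose with the inverse of `φ` (continuous on `A`, since `φ` is a
  continuous bijection of a compact space onto the Hausdorff space `A`).
-/

open Set Metric

namespace CarT

theorem HasLog.mono {A B : Set ℂ} {f : ℂ → ℂ} (h : HasLog B f) (hAB : A ⊆ B) : HasLog A f := by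
  obtain ⟨g, hg, hg2⟩ := h
  exact ⟨g, hg.mono hAB, fun z hz => hg2 z (hAB hz)⟩

theorem HasLog.congr {A : Set ℂ} {f f' : ℂ → ℂ} (h : HasLog A f) (hf : EqOn f f' A) :
    HasLog A f' := by
  obtain ⟨g, hg, hg2⟩ := h
  exact ⟨g, hg, fun z hz => by rw [hg2 z hz, hf hz]⟩

theorem HasLog.mul {A : Set ℂ} {f f' : ℂ → ℂ} (h : HasLog A f) (h' : HasLog A f') :
    HasLog A (fun z => f z * f' z) := by
  obtain ⟨g, hg, hg2⟩ := h
  obtain ⟨g', hg', hg2'⟩ := h'
  exact ⟨fun z => g z + g' z, hg.add hg', fun z hz => by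
    rw [Complex.exp_add, hg2 z hz, hg2' z hz]⟩

theorem HasLog.inv {A : Set ℂ} {f : ℂ → ℂ} (h : HasLog A f) : HasLog A (fun z => (f z)⁻¹) := by
  obtain ⟨g, hg, hg2⟩ := h
  exact ⟨fun z => - g z, hg.neg, fun z hz => by rw [Complex.exp_neg, hg2 z hz]⟩

theorem HasLog.zpow {A : Set ℂ} {f : ℂ → ℂ} (h : HasLog A f) (m : ℤ) :
    HasLog A (fun z => (f z) ^ m) := by
  obtain ⟨g, hg, hg2⟩ := h
  refine ⟨fun z => (m : ℂ) * g z, continuousOn_const.mul hg, fun z hz => ?_⟩
  rw [Complex.exp_int_mul, hg2 z hz]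

private theorem log_of_homotopy {A : Type*} [TopologicalSpace A] {H : unitInterval × A → ℂ}
    (hH : Continuous H) (h0 : ∀ p, H p ≠ 0) (c : ℂ) (hc : ∀ a, H (0, a) = Complex.exp c) :
    ∃ g : A → ℂ, Continuous g ∧ ∀ a, Complex.exp (g a) = H (1, a) := by
  have cov := Complex.isCoveringMap_exp
  have hH' : Continuous fun p => (⟨H p, h0 p⟩ : {z : ℂ // z ≠ 0}) := hH.subtype_mk h0
  let HH : C(unitInterval × A, {z : ℂ // z ≠ 0}) := ⟨fun p => ⟨H p, h0 p⟩, hH'⟩
  let f : C(A, ℂ) := ContinuousMap.const A c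
  have H0 : ∀ a, HH (0, a) = (fun z : ℂ => (⟨_, z.exp_ne_zero⟩ : {z : ℂ // z ≠ 0})) (f a) :=
    fun a => Subtype.ext (hc a)
  let G := cov.liftHomotopy HH f H0
  refine ⟨fun a => G (1, a), G.continuous.comp (by fun_prop), fun a => ?_⟩
  have h1 := congrFun (cov.liftHomotopy_lifts HH f H0) (1, a)
  exact congrArg Subtype.val h1

private theorem hasLog_of_sub {K : Set ℂ} {f : ℂ → ℂ}
    (h : ∃ g : K → ℂ, Continuous g ∧ ∀ a, Complex.exp (g a) = f a) : HasLog K f := by
  classical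
  obtain ⟨g, hg, hg2⟩ := h
  refine ⟨fun z => if h : z ∈ K then g ⟨z, h⟩ else 0, ?_, fun z hz => ?_⟩
  · rw [continuousOn_iff_continuous_domRestrict]
    have e : K.domRestrict (fun z => if h : z ∈ K then g ⟨z, h⟩ else 0) = g := by
      funext a
      rw [Set.domRestrict_apply, dif_pos a.2]
    rw [e]
    exact hg
  · simp only
    rw [dif_pos hz]
    exact hg2 ⟨z, hz⟩

theorem hasLog_of_joined (K : Set ℂ) {x y : ℂ} (h : JoinedIn Kᶜ x y) :
    HasLog K (fun z => (z - x) / (z - y)) := by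
  have hx : x ∉ K := h.source_mem
  have hγ : ∀ t, h.somePath t ∉ K := fun t => h.somePath_mem t
  have hne : ∀ (a : K) (w : ℂ), w ∉ K → (a : ℂ) - w ≠ 0 := by
    intro a w hw h1
    rw [sub_eq_zero] at h1
    exact hw (h1 ▸ a.2)
  have key : HasLog K (fun z => (z - y) / (z - x)) := by
    apply hasLog_of_sub
    obtain ⟨g, hg, hg2⟩ := log_of_homotopy (A := K)
      (H := fun p => ((p.2 : ℂ) - h.somePath p.1) / ((p.2 : ℂ) - x)) (by
        refine Continuous.div (by fun_prop) (by fun_prop) fun p => hne p.2 x hx) (by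
        intro p
        exact div_ne_zero (hne p.2 _ (hγ p.1)) (hne p.2 x hx)) 0 (by
        intro a
        show ((a : ℂ) - h.somePath 0) / ((a : ℂ) - x) = Complex.exp 0
        rw [h.somePath.source, div_self (hne a x hx), Complex.exp_zero])
    refine ⟨g, hg, fun a => ?_⟩
    rw [hg2 a]
    show ((a : ℂ) - h.somePath 1) / ((a : ℂ) - x) = _
    rw [h.somePath.target]
  refine key.inv.congr fun z _ => ?_
  show ((z - y) / (z - x))⁻¹ = (z - x) / (z - y)
  rw [inv_div]

theorem hasLog_convex {K : Set ℂ} (hK : Convex ℝ K) {f : ℂ → ℂ} (hf : ContinuousOn f K)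
    (h0 : ∀ z ∈ K, f z ≠ 0) : HasLog K f := by
  rcases K.eq_empty_or_nonempty with rfl | ⟨z0, hz0⟩
  · exact ⟨fun _ => 0, continuousOn_const, fun z hz => absurd hz (Set.notMem_empty z)⟩
  have hmem : ∀ p : unitInterval × K, z0 + ((p.1 : ℝ) : ℝ) • ((p.2 : ℂ) - z0) ∈ K := fun p =>
    hK.add_smul_sub_mem hz0 p.2.2 p.1.2
  apply hasLog_of_sub
  obtain ⟨g, hg, hg2⟩ := log_of_homotopy (A := K)
    (H := fun p => f (z0 + ((p.1 : ℝ) : ℝ) • ((p.2 : ℂ) - z0)))
    (hf.comp_continuous (by fun_prop) hmem) (fun p => h0 _ (hmem p)) (Complex.log (f z0)) (by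
      intro a
      show f (z0 + (((0 : unitInterval) : ℝ)) • ((a : ℂ) - z0)) = _
      rw [Complex.exp_log (h0 z0 hz0), Set.Icc.coe_zero, zero_smul, add_zero])
  refine ⟨g, hg, fun a => ?_⟩
  rw [hg2 a]
  show f (z0 + (((1 : unitInterval) : ℝ)) • ((a : ℂ) - z0)) = _
  rw [Set.Icc.coe_one, one_smul, add_sub_cancel]

theorem hasLog_arc {A : Set ℂ} {x y : ℂ} (hA : IsArc A x y) {f : ℂ → ℂ} (hf : ContinuousOn f A)
    (h0 : ∀ z ∈ A, f z ≠ 0) : HasLog A f := by
  obtain ⟨φ, hφc, hφi, hφA, -, -⟩ := hA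
  have hm : ∀ t ∈ Icc (0 : ℝ) 1, φ t ∈ A := fun t ht => hφA ▸ mem_image_of_mem φ ht
  have hmul : ∀ p : unitInterval × unitInterval, (p.1 : ℝ) * (p.2 : ℝ) ∈ Icc (0 : ℝ) 1 := fun p =>
    (p.1 * p.2).2
  have hcφ : Continuous fun p : unitInterval × unitInterval => φ ((p.1 : ℝ) * (p.2 : ℝ)) :=
    hφc.comp_continuous (by fun_prop) hmul
  obtain ⟨g, hg, hg2⟩ := log_of_homotopy (A := unitInterval)
    (H := fun p => f (φ ((p.1 : ℝ) * (p.2 : ℝ))))
    (hf.comp_continuous hcφ (fun p => hm _ (hmul p))) (fun p => h0 _ (hm _ (hmul p)))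
    (Complex.log (f (φ 0))) (by
      intro a
      show f (φ (((0 : unitInterval) : ℝ) * (a : ℝ))) = _
      rw [Complex.exp_log (h0 _ (hm 0 ⟨le_refl 0, zero_le_one⟩)), Set.Icc.coe_zero, zero_mul])
  let Φ : unitInterval → A := fun t => ⟨φ t, hm t t.2⟩
  have hΦc : Continuous Φ :=
    (hφc.comp_continuous continuous_subtype_val fun t => t.2).subtype_mk _
  have hΦb : Function.Bijective Φ := by
    constructor
    · intro s t hst
      exact Subtype.ext (hφi s.2 t.2 (congrArg Subtype.val hst))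
    · rintro ⟨z, hz⟩
      rw [← hφA] at hz
      obtain ⟨t, ht, rfl⟩ := hz
      exact ⟨⟨t, ht⟩, rfl⟩
  let e : unitInterval ≃ₜ A :=
    Continuous.homeoOfEquivCompactToT2 (f := Equiv.ofBijective Φ hΦb) hΦc
  apply hasLog_of_sub
  refine ⟨fun a => g (e.symm a), hg.comp e.symm.continuous, fun a => ?_⟩
  rw [hg2]
  have h1 : Φ (e.symm a) = a := e.apply_symm_apply a
  have h2 : φ (e.symm a) = a := congrArg Subtype.val h1
  show f (φ (((1 : unitInterval) : ℝ) * ((e.symm a : unitInterval) : ℝ))) = _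
  rw [Set.Icc.coe_one, one_mul, h2]

end CarT
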