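import Pool.Agent.CarT.Sys

/-!
# CarT/OutA : inside and outside of a compact plane set

`J` is compact. Components of the open set `Jᶜ` are open (`IsOpen.connectedComponentIn`), their
frontiers are contained in `J` (a frontier point in `Jᶜ` has a ball contained in `Jᶜ` which meets the
component, so it would lie in the component). All points of norm `> R`, where `J ⊆ closedBall 0 R`,
lie in one component: `{z | R < ‖z‖}` is connected (complement of a closed ball in a real space of
dimension `2`: `isConnected_compl_closedBall…` / `isPathConnected_compl_of…`; rank `> 1`). So exactly one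
component is unbounded, `out J`; `ins J` is the union of the others.

* `ins_diam`: fix `q`; the compact set `J ∪ ins J` has a point `p` at maximal distance from `q`. If
  `p` is in the open set `ins J`, move it away from `q` a little: contradiction. So the maximum is
  attained on `J`. Apply it twice.
-/

open Set Metric

namespace CarT

namespace OutAux

theorem preconn_norm_lt (R : ℝ) : IsPreconnected {z : ℂ | R < ‖z‖} := by
  rcases lt_or_ge R 0 with hR | hR
  · have : {z : ℂ | R < ‖z‖} = univ := by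
      ext z
      simp only [mem_ofPred_eq, mem_univ, iff_true]
      exact hR.trans_le (norm_nonneg _)
    rw [this]
    exact isPreconnected_univ
  · have h1 : {z : ℂ | R < ‖z‖} = Complex.exp '' {w : ℂ | R < Real.exp w.re} := by
      ext z
      constructor
      · intro hz
        have hz' : R < ‖z‖ := hz
        have hz0 : z ≠ 0 := by
          intro h0
          rw [h0, norm_zero] at hz'
          linarith
        refine ⟨Complex.log z, ?_, Complex.exp_log hz0⟩
        show R < Real.exp (Complex.log z).re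
        rw [Complex.log_re, Real.exp_log (norm_pos_iff.2 hz0)]
        exact hz'
      · rintro ⟨w, hw, rfl⟩
        show R < ‖Complex.exp w‖
        rw [Complex.norm_exp]
        exact hw
    rw [h1]
    refine IsPreconnected.image ?_ _ Complex.continuous_exp.continuousOn
    apply Convex.isPreconnected
    have h2 : {w : ℂ | R < Real.exp w.re} = Complex.reLm ⁻¹' {x : ℝ | R < Real.exp x} := rfl
    rw [h2]
    apply Convex.linear_preimage
    rw [Real.convex_iff_isPreconnected, isPreconnected_iff_ordConnected]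
    refine ⟨fun x hx y _ z hz => ?_⟩
    exact lt_of_lt_of_le (show R < Real.exp x from hx) (Real.exp_le_exp.2 hz.1)

theorem unbdd_norm_lt (R : ℝ) : ¬ Bornology.IsBounded {z : ℂ | R < ‖z‖} := by
  intro h
  obtain ⟨C, hC⟩ := h.exists_norm_le
  have h1 : ((max R C + 1 : ℝ) : ℂ) ∈ {z : ℂ | R < ‖z‖} := by
    show R < ‖((max R C + 1 : ℝ) : ℂ)‖
    rw [Complex.norm_real, Real.norm_eq_abs]
    have := le_abs_self (max R C + 1)
    have := le_max_left R C
    linarith
  have h2 := hC _ h1
  rw [Complex.norm_real, Real.norm_eq_abs] at h2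
  have := le_abs_self (max R C + 1)
  have := le_max_right R C
  linarith

theorem exists_ball {J : Set ℂ} (hJ : IsCompact J) : ∃ R : ℝ, J ⊆ closedBall 0 R :=
  hJ.isBounded.subset_closedBall 0

theorem comp_ins {J : Set ℂ} {x y : ℂ} (hx : x ∈ ins J) (hy : y ∈ connectedComponentIn Jᶜ x) :
    y ∈ ins J := by
  refine ⟨connectedComponentIn_subset _ _ hy, ?_⟩
  rw [← connectedComponentIn_eq hy]
  exact hx.2

theorem comp_out {J : Set ℂ} {x y : ℂ} (hx : x ∈ out J) (hy : y ∈ connectedComponentIn Jᶜ x) :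
    y ∈ out J := by
  refine ⟨connectedComponentIn_subset _ _ hy, ?_⟩
  rw [← connectedComponentIn_eq hy]
  exact hx.2

theorem not_both {J : Set ℂ} {x : ℂ} (hx : x ∈ ins J) (hy : x ∈ out J) : False := hy.2 hx.2

theorem norm_lt_subset {J : Set ℂ} {R : ℝ} (hJ : J ⊆ closedBall 0 R) :
    {z : ℂ | R < ‖z‖} ⊆ Jᶜ := by
  intro z hz hzJ
  have h1 := hJ hzJ
  rw [mem_closedBall_zero_iff] at h1
  exact absurd (show R < ‖z‖ from hz) (not_lt.2 h1)

theorem out_of_norm {J : Set ℂ} {R : ℝ} (hJ : J ⊆ closedBall 0 R) {z : ℂ} (hz : R < ‖z‖) :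
    z ∈ out J := by
  refine ⟨norm_lt_subset hJ hz, fun hb => unbdd_norm_lt R (hb.subset ?_)⟩
  exact (preconn_norm_lt R).subset_connectedComponentIn hz (norm_lt_subset hJ)

end OutAux

open OutAux

theorem isOpen_ins {J : Set ℂ} (hJ : IsCompact J) : IsOpen (ins J) := by
  rw [isOpen_iff_mem_nhds]
  intro z hz
  have h1 : IsOpen (connectedComponentIn Jᶜ z) := hJ.isClosed.isOpen_compl.connectedComponentIn
  exact Filter.mem_of_superset (h1.mem_nhds (mem_connectedComponentIn hz.1))
    fun y hy => comp_ins hz hy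

theorem isOpen_out {J : Set ℂ} (hJ : IsCompact J) : IsOpen (out J) := by
  rw [isOpen_iff_mem_nhds]
  intro z hz
  have h1 : IsOpen (connectedComponentIn Jᶜ z) := hJ.isClosed.isOpen_compl.connectedComponentIn
  exact Filter.mem_of_superset (h1.mem_nhds (mem_connectedComponentIn hz.1))
    fun y hy => comp_out hz hy

theorem mem_cases (J : Set ℂ) (z : ℂ) : z ∈ J ∨ z ∈ ins J ∨ z ∈ out J := by
  by_cases h : z ∈ J
  · exact Or.inl h
  · by_cases h2 : Bornology.IsBounded (connectedComponentIn Jᶜ z)
    · exact Or.inr (Or.inl ⟨h, h2⟩)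
    · exact Or.inr (Or.inr ⟨h, h2⟩)

theorem ins_subset_ball {J : Set ℂ} {R : ℝ} (hJ : J ⊆ closedBall 0 R) :
    ins J ⊆ closedBall 0 R := by
  intro z hz
  by_contra hzR
  have hz2 : R < ‖z‖ := by
    rw [mem_closedBall_zero_iff, not_le] at hzR
    exact hzR
  exact not_both hz (out_of_norm hJ hz2)

theorem mem_out_of_norm {J : Set ℂ} {R : ℝ} (hJ : J ⊆ closedBall 0 R) {z : ℂ} (hz : R < ‖z‖) :
    z ∈ out J := by
  exact out_of_norm hJ hz

theorem out_preconn {J : Set ℂ} (hJ : IsCompact J) : IsPreconnected (out J) := by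
  obtain ⟨R, hR⟩ := exists_ball hJ
  obtain ⟨w₀, hw₀⟩ : ∃ w : ℂ, R < ‖w‖ := by
    by_contra hcon
    apply unbdd_norm_lt R
    have : {z : ℂ | R < ‖z‖} = ∅ := by
      ext z
      simp only [mem_ofPred_eq, mem_empty_iff_false, iff_false]
      exact fun h => hcon ⟨z, h⟩
    rw [this]
    exact Bornology.isBounded_empty
  have h1 : out J = connectedComponentIn Jᶜ w₀ := by
    apply Subset.antisymm
    · intro z hz
      obtain ⟨w, hw, hwR⟩ : ∃ w ∈ connectedComponentIn Jᶜ z, R < ‖w‖ := by
        by_contra hcon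
        apply hz.2
        apply (isBounded_closedBall (x := (0:ℂ)) (r := R)).subset
        intro y hy
        rw [mem_closedBall_zero_iff]
        by_contra hy2
        exact hcon ⟨y, hy, not_le.1 hy2⟩
      have h2 : w₀ ∈ connectedComponentIn Jᶜ w :=
        (preconn_norm_lt R).subset_connectedComponentIn hwR (norm_lt_subset hR) hw₀
      rw [← connectedComponentIn_eq hw] at h2
      rw [← connectedComponentIn_eq h2]
      exact mem_connectedComponentIn hz.1
    · intro z hz
      exact comp_out (out_of_norm hR hw₀) hz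
  rw [h1]
  exact isPreconnected_connectedComponentIn

/-- a preconnected set off `J` which meets the inside is contained in the inside -/
theorem subset_ins {J S : Set ℂ} (hS : IsPreconnected S) (hSJ : Disjoint S J)
    (h : (S ∩ ins J).Nonempty) : S ⊆ ins J := by
  obtain ⟨x, hxS, hx⟩ := h
  intro y hy
  exact comp_ins hx (hS.subset_connectedComponentIn hxS hSJ.subset_compl_right hy)

theorem subset_out {J S : Set ℂ} (hS : IsPreconnected S) (hSJ : Disjoint S J)
    (h : (S ∩ out J).Nonempty) : S ⊆ out J := by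
  obtain ⟨x, hxS, hx⟩ := h
  intro y hy
  exact comp_out hx (hS.subset_connectedComponentIn hxS hSJ.subset_compl_right hy)

theorem subset_out_of_unbounded {J S : Set ℂ} (hS : IsPreconnected S) (hSJ : Disjoint S J)
    (h : ¬ Bornology.IsBounded S) : S ⊆ out J := by
  intro y hy
  refine ⟨hSJ.subset_compl_right hy, fun hb => h ?_⟩
  exact hb.subset (hS.subset_connectedComponentIn hy hSJ.subset_compl_right)

theorem frontier_comp {J : Set ℂ} (hJ : IsCompact J) (z : ℂ) :
    frontier (connectedComponentIn Jᶜ z) ⊆ J := by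
  intro p hp
  by_contra hpJ
  have h1 : IsOpen (connectedComponentIn Jᶜ z) := hJ.isClosed.isOpen_compl.connectedComponentIn
  have h2 : IsOpen (connectedComponentIn Jᶜ p) := hJ.isClosed.isOpen_compl.connectedComponentIn
  have hpp : p ∈ connectedComponentIn Jᶜ p := mem_connectedComponentIn hpJ
  obtain ⟨y, hy1, hy2⟩ := mem_closure_iff.1 hp.1 _ h2 hpp
  apply hp.2
  rw [h1.interior_eq, connectedComponentIn_eq hy2, ← connectedComponentIn_eq hy1]
  exact hpp

theorem frontier_ins {J : Set ℂ} (hJ : IsCompact J) : frontier (ins J) ⊆ J := by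
  intro p hp
  rcases mem_cases J p with h | h | h
  · exact h
  · exact absurd ((isOpen_ins hJ).interior_eq.symm ▸ h) hp.2
  · obtain ⟨y, hy1, hy2⟩ := mem_closure_iff.1 hp.1 _ (isOpen_out hJ) h
    exact (not_both hy2 hy1).elim

theorem closure_ins {J : Set ℂ} (hJ : IsCompact J) : closure (ins J) ⊆ ins J ∪ J := by
  intro p hp
  by_cases h : p ∈ ins J
  · exact Or.inl h
  · right
    apply frontier_ins hJ
    exact ⟨hp, fun h2 => h (interior_subset h2)⟩

theorem isCompact_disc {J : Set ℂ} (hJ : IsCompact J) : IsCompact (ins J ∪ J) := by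
  obtain ⟨R, hR⟩ := exists_ball hJ
  apply Metric.isCompact_of_isClosed_isBounded
  · apply isClosed_of_closure_subset
    rw [closure_union, hJ.isClosed.closure_eq]
    exact union_subset (closure_ins hJ) subset_union_right
  · exact (isBounded_closedBall (x := (0:ℂ)) (r := R)).subset
      (union_subset (ins_subset_ball hR) hR)

theorem ins_diam {J : Set ℂ} (hJ : IsCompact J) {δ : ℝ} (h : ∀ p ∈ J, ∀ q ∈ J, dist p q ≤ δ) :
    ∀ p ∈ ins J ∪ J, ∀ q ∈ ins J ∪ J, dist p q ≤ δ := by
  have key : ∀ q : ℂ, ∀ p ∈ ins J ∪ J, ∃ p' ∈ J, dist p q ≤ dist p' q := by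
    intro q p hp
    obtain ⟨p₀, hp₀, hmax⟩ := (isCompact_disc hJ).exists_isMaxOn ⟨p, hp⟩
      (f := fun x : ℂ => dist x q) (by fun_prop)
    rcases hp₀ with hp₀ | hp₀
    · exfalso
      obtain ⟨v, hv⟩ : ∃ v : ℂ, ∀ t : ℝ, 0 < t → dist p₀ q < dist (p₀ + (t : ℂ) * v) q := by
        by_cases hpq : p₀ = q
        · refine ⟨1, fun t ht => ?_⟩
          rw [hpq, dist_self, dist_eq_norm, mul_one, add_sub_cancel_left, Complex.norm_real,
            Real.norm_eq_abs]
          exact abs_pos.2 ht.ne'
        · refine ⟨p₀ - q, fun t ht => ?_⟩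
          have e1 : p₀ + (t : ℂ) * (p₀ - q) - q = ((1 + t : ℝ) : ℂ) * (p₀ - q) := by
            push_cast
            ring
          rw [dist_eq_norm, dist_eq_norm, e1, norm_mul, Complex.norm_real, Real.norm_eq_abs,
            abs_of_pos (by linarith)]
          have h0 : 0 < ‖p₀ - q‖ := norm_pos_iff.2 (sub_ne_zero.2 hpq)
          nlinarith
      have hcont : Continuous (fun t : ℝ => p₀ + (t : ℂ) * v) := by fun_prop
      have hnh : (fun t : ℝ => p₀ + (t : ℂ) * v) ⁻¹' ins J ∈ nhds (0 : ℝ) := by
        apply hcont.continuousAt.preimage_mem_nhds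
        apply (isOpen_ins hJ).mem_nhds
        simpa using hp₀
      obtain ⟨ε, hε, hball⟩ := Metric.mem_nhds_iff.1 hnh
      have h1 : ε / 2 ∈ ball (0 : ℝ) ε := by
        rw [mem_ball_zero_iff, Real.norm_eq_abs, abs_of_pos (by linarith)]
        linarith
      have h2 : p₀ + ((ε / 2 : ℝ) : ℂ) * v ∈ ins J := hball h1
      have h3 := hv (ε / 2) (by linarith)
      have h4 : dist (p₀ + ((ε / 2 : ℝ) : ℂ) * v) q ≤ dist p₀ q := hmax (Or.inl h2)
      linarith
    · exact ⟨p₀, hp₀, hmax hp⟩
  intro p hp q hq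
  obtain ⟨p', hp', h1⟩ := key q p hp
  obtain ⟨q', hq', h2⟩ := key p' q hq
  rw [dist_comm q p', dist_comm q' p'] at h2
  exact (h1.trans h2).trans (h p' hp' q' hq')

/-- the inside of a compact set of one-point classes is a union of classes -/
theorem ins_sat {W T : Set ℂ} {c : ℂ → Set ℂ} (h : Sys W T c) {J : Set ℂ} (hJ : IsCompact J)
    (hJT : J ⊆ T) : IsSat c (ins J) := by
  intro x hx
  have hxW : x ∈ W := h.fullW J hJ (hJT.trans h.TW) hx
  have hd : Disjoint (c x) J := by
    rw [Set.disjoint_left]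
    intro y hy hyJ
    have h1 := h.part x hxW y hy
    rw [h.triv y (hJT hyJ)] at h1
    have h2 : x ∈ ({y} : Set ℂ) := by rw [h1]; exact h.mem x hxW
    exact hx.1 (h2 ▸ hyJ)
  exact subset_ins (h.conn x hxW) hd ⟨x, h.mem x hxW, hx⟩

/-- removing a set of one-point classes -/
theorem sat_diff {W T : Set ℂ} {c : ℂ → Set ℂ} (h : Sys W T c) {G J : Set ℂ} (hG : IsSat c G)
    (hGW : G ⊆ W) (hJT : J ⊆ T) : IsSat c (G \ J) := by
  intro x hx y hy
  refine ⟨hG x hx.1 hy, fun hyJ => hx.2 ?_⟩
  have h1 := h.part x (hGW hx.1) y hy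
  rw [h.triv y (hJT hyJ)] at h1
  have h2 : x ∈ ({y} : Set ℂ) := by rw [h1]; exact h.mem x (hGW hx.1)
  exact h2 ▸ hyJ

theorem sat_inter {c : ℂ → Set ℂ} {G G' : Set ℂ} (hG : IsSat c G) (hG' : IsSat c G') :
    IsSat c (G ∩ G') :=
  fun x hx => subset_inter (hG x hx.1) (hG' x hx.2)

theorem sat_comp {W T : Set ℂ} {c : ℂ → Set ℂ} (h : Sys W T c) {G : Set ℂ} (hG : IsSat c G)
    (hGW : G ⊆ W) (x : ℂ) : IsSat c (connectedComponentIn G x) := by
  intro y hy
  have hyG : y ∈ G := connectedComponentIn_subset _ _ hy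
  rw [connectedComponentIn_eq hy]
  exact (h.conn y (hGW hyG)).subset_connectedComponentIn (h.mem y (hGW hyG)) (hG y hyG)

end CarT
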