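import Pool.Agent.CarT.LogG
import Pool.Agent.CarT.OutA

/-!
# CarT/LogB : logarithms and bounded components of the complement

* `comp_zero`. Let `g` be the logarithm on `J`, `G` a continuous extension of `g` from the closed set
  `frontier U` to the plane (Tietze, real and imaginary part, or
  `ContinuousMap.exists_restrict_eq` for `ℂ`). Put `Φ z = exp (G z) / F z` for `z ∈ closure U` and
  `Φ z = (z - x) ^ m` for `z ∉ closure U`. The two formulas agree on `frontier U ⊆ J`, so `Φ` is
  continuous on the plane (glue on the closed sets `closure U`, `Uᶜ`), and it has no zero. By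
  `hasLog_convex` (`K = univ`) it has a continuous logarithm, so `(z - x) ^ m` has one on a circle
  around `x` outside `closure U`. `no_log`: `m = 0`.
-/

open Set Metric

namespace CarT

theorem comp_zero {J U : Set ℂ} (hJ : IsCompact J) (hU : IsOpen U) (hb : Bornology.IsBounded U)
    (hfr : frontier U ⊆ J) {x : ℂ} (hx : x ∈ U) (m : ℤ) (F : ℂ → ℂ)
    (hF : ContinuousOn F (closure U)) (h0 : ∀ z ∈ closure U, F z ≠ 0)
    (h : HasLog J (fun z => (z - x) ^ m * F z)) : m = 0 := by
  classical
  obtain ⟨g, hg, hgexp⟩ := h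
  -- extension of the logarithm
  obtain ⟨G, hG⟩ : ∃ G : C(ℂ, ℂ), ∀ z ∈ frontier U, G z = g z := by
    have hc : Continuous (fun z : frontier U => g z) :=
      continuousOn_iff_continuous_restrict.mp (hg.mono hfr)
    obtain ⟨G, hG⟩ := ContinuousMap.exists_restrict_eq (s := frontier U) isClosed_frontier
      ⟨fun z : frontier U => g z, hc⟩
    refine ⟨G, fun z hz => ?_⟩
    have := DFunLike.congr_fun hG ⟨z, hz⟩
    exact this
  set Φ : ℂ → ℂ := fun z => if z ∈ closure U then Complex.exp (G z) / F z else (z - x) ^ m with hΦ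
  have hΦ1 : ∀ z ∈ closure U, Φ z = Complex.exp (G z) / F z := fun z hz => if_pos hz
  have hΦ2 : ∀ z, z ∉ U → Φ z = (z - x) ^ m := by
    intro z hz
    by_cases hc : z ∈ closure U
    · rw [hΦ1 z hc]
      have hzf : z ∈ frontier U := by
        rw [frontier, hU.interior_eq]
        exact ⟨hc, hz⟩
      rw [hG z hzf, hgexp z (hfr hzf), mul_div_assoc, div_self (h0 z hc), mul_one]
    · exact if_neg hc
  have hc1 : ContinuousOn Φ (closure U) := by
    have : ContinuousOn (fun z => Complex.exp (G z) / F z) (closure U) :=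
      (Complex.continuous_exp.comp G.continuous).continuousOn.div hF h0
    exact this.congr hΦ1
  have hne : ∀ z, z ∉ U → z - x ≠ 0 := by
    intro z hz h0
    exact hz (by rw [sub_eq_zero.mp h0]; exact hx)
  have hc2 : ContinuousOn Φ Uᶜ := by
    have : ContinuousOn (fun z : ℂ => (z - x) ^ m) Uᶜ :=
      (continuousOn_id.sub continuousOn_const).zpow₀ m (fun z hz => Or.inl (hne z hz))
    exact this.congr (fun z hz => hΦ2 z hz)
  have hc : ContinuousOn Φ univ := by
    have h1 : closure U ∪ Uᶜ = univ := by
      rw [eq_univ_iff_forall]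
      intro z
      by_cases hz : z ∈ U
      · exact Or.inl (subset_closure hz)
      · exact Or.inr hz
    rw [← h1]
    exact hc1.union_of_isClosed hc2 isClosed_closure hU.isClosed_compl
  have hΦ0 : ∀ z ∈ univ, Φ z ≠ 0 := by
    intro z _
    by_cases hz : z ∈ closure U
    · rw [hΦ1 z hz]
      exact div_ne_zero (Complex.exp_ne_zero _) (h0 z hz)
    · have hzU : z ∉ U := fun h => hz (subset_closure h)
      rw [hΦ2 z hzU]
      exact zpow_ne_zero _ (hne z hzU)
  have hlog := hasLog_convex convex_univ hc hΦ0
  obtain ⟨R, hR, hUR⟩ : ∃ R : ℝ, 0 < R ∧ closure U ⊆ ball x R := by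
    obtain ⟨R, hR⟩ := (hb.closure).subset_ball x
    exact ⟨max R 1, by positivity, hR.trans (ball_subset_ball (le_max_left _ _))⟩
  refine no_log x hR m ?_
  refine (hlog.mono (subset_univ _)).congr ?_
  intro z hz
  refine hΦ2 z (fun hzU => ?_)
  have h1 := hUR (subset_closure hzU)
  rw [mem_ball] at h1
  rw [mem_sphere] at hz
  linarith

end CarT
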