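import Pool.Agent.CarT.LogB

/-!
# CarT/LogC : logarithms and components of the complement (Eilenberg, Janiszewski)

* `joined_of_log`. Suppose `x, y` are in different components of `Kᶜ` (components of open sets are
  path connected). At most one component is unbounded, so `U = connectedComponentIn Kᶜ x` or
  `V = connectedComponentIn Kᶜ y` is bounded (if both are unbounded both are contained in `out K`,
  which is preconnected). If `U` is bounded apply `comp_zero` with `m = 1`,
  `F z = 1 / (z - y)` (`y ∉ closure U ⊆ U ∪ K`); if `V` is bounded apply it at `y` with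
  `m = -1`, `F z = z - x`.
* `janiszewski`: `(z - x) / (z - y)` has a logarithm on `A` and on `B` (`hasLog_of_joined`), hence on
  `A ∪ B` (`glue_closed`); `joined_of_log`.
* `arc_compl`: `hasLog_arc` and `joined_of_log`.
* `janis_open`: `U` open bounded preconnected, `A` compact, `A \ U` preconnected, `x, y ∈ U` joined in
  `Aᶜ`: take `B = closedBall 0 R \ U` with `A ∪ U ⊆ ball 0 R`; `A ∩ B = A \ U`; `x, y` are joined in
  `U ⊆ Bᶜ`. By `janiszewski` they are joined in `(A ∪ B)ᶜ`; the path is connected, contained in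
  `(A ∪ B)ᶜ ⊆ U ∪ {z | R < ‖z‖}` (two disjoint open sets), so it stays in `U`.
-/

open Set Metric

namespace CarT

private theorem joinedIn_of_open {O : Set ℂ} (hO : IsOpen O) (hc : IsPreconnected O) {x y : ℂ}
    (hx : x ∈ O) (hy : y ∈ O) : JoinedIn O x y :=
  (hO.isConnected_iff_isPathConnected.mp ⟨⟨x, hx⟩, hc⟩).joinedIn x hx y hy

private theorem joinedIn_of_comp {O : Set ℂ} (hO : IsOpen O) {x y : ℂ} (hx : x ∈ O)
    (hy : y ∈ connectedComponentIn O x) : JoinedIn O x y :=
  (joinedIn_of_open hO.connectedComponentIn isPreconnected_connectedComponentIn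
    (mem_connectedComponentIn hx) hy).mono (connectedComponentIn_subset _ _)

theorem joined_of_log {K : Set ℂ} (hK : IsCompact K) {x y : ℂ} (hx : x ∉ K) (hy : y ∉ K)
    (h : HasLog K (fun z => (z - x) / (z - y))) : JoinedIn Kᶜ x y := by
  have hO : IsOpen Kᶜ := hK.isClosed.isOpen_compl
  by_cases hyU : y ∈ connectedComponentIn Kᶜ x
  · exact joinedIn_of_comp hO hx hyU
  exfalso
  have hxV : x ∉ connectedComponentIn Kᶜ y := by
    intro hxV
    apply hyU
    rw [← connectedComponentIn_eq hxV]
    exact mem_connectedComponentIn hy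
  have hcl : ∀ w z : ℂ, z ∉ K → z ∉ connectedComponentIn Kᶜ w →
      z ∉ closure (connectedComponentIn Kᶜ w) := by
    intro w z hzK hzU hz
    have h1 : z ∈ frontier (connectedComponentIn Kᶜ w) := by
      rw [frontier, hO.connectedComponentIn.interior_eq]
      exact ⟨hz, hzU⟩
    exact hzK (frontier_comp hK w h1)
  by_cases hbU : Bornology.IsBounded (connectedComponentIn Kᶜ x)
  · have hycl := hcl x y hy hyU
    have hne : ∀ z ∈ closure (connectedComponentIn Kᶜ x), z - y ≠ 0 := by
      intro z hz h0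
      exact hycl (by rw [← sub_eq_zero.mp h0]; exact hz)
    have := comp_zero hK hO.connectedComponentIn hbU (frontier_comp hK x)
      (mem_connectedComponentIn hx) (1 : ℤ) (fun z => (z - y)⁻¹)
      ((continuousOn_id.sub continuousOn_const).inv₀ hne)
      (fun z hz => inv_ne_zero (hne z hz))
      (h.congr fun z _ => by
        show (z - x) / (z - y) = (z - x) ^ (1 : ℤ) * (z - y)⁻¹
        rw [zpow_one, div_eq_mul_inv])
    exact one_ne_zero this
  by_cases hbV : Bornology.IsBounded (connectedComponentIn Kᶜ y)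
  · have hxcl := hcl y x hx hxV
    have hne : ∀ z ∈ closure (connectedComponentIn Kᶜ y), z - x ≠ 0 := by
      intro z hz h0
      exact hxcl (by rw [← sub_eq_zero.mp h0]; exact hz)
    have := comp_zero hK hO.connectedComponentIn hbV (frontier_comp hK y)
      (mem_connectedComponentIn hy) (-1 : ℤ) (fun z => z - x)
      (continuousOn_id.sub continuousOn_const) hne
      (h.congr fun z _ => by
        show (z - x) / (z - y) = (z - y) ^ (-1 : ℤ) * (z - x)
        rw [zpow_neg_one, div_eq_mul_inv, mul_comm])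
    norm_num at this
  · have h1 : x ∈ out K := ⟨hx, hbU⟩
    have h2 : y ∈ out K := ⟨hy, hbV⟩
    have h3 : out K ⊆ Kᶜ := fun z hz => hz.1
    exact hyU ((out_preconn hK).subset_connectedComponentIn h1 h3 h2)

theorem janiszewski {A B : Set ℂ} (hA : IsCompact A) (hB : IsCompact B)
    (hAB : IsPreconnected (A ∩ B)) {x y : ℂ} (h1 : JoinedIn Aᶜ x y) (h2 : JoinedIn Bᶜ x y) :
    JoinedIn (A ∪ B)ᶜ x y := by
  refine joined_of_log (hA.union hB) ?_ ?_
    (glue_closed hA.isClosed hB.isClosed hAB (hasLog_of_joined A h1) (hasLog_of_joined B h2))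
  · rintro (h | h)
    · exact h1.source_mem h
    · exact h2.source_mem h
  · rintro (h | h)
    · exact h1.target_mem h
    · exact h2.target_mem h

theorem arc_compl {A : Set ℂ} {x y : ℂ} (hA : IsArc A x y) {u v : ℂ} (hu : u ∉ A) (hv : v ∉ A) :
    JoinedIn Aᶜ u v := by
  have hAc : IsCompact A := by
    obtain ⟨f, hf, -, hfA, -, -⟩ := hA
    rw [← hfA]
    exact isCompact_Icc.image_of_continuousOn hf
  have hne : ∀ w : ℂ, w ∉ A → ∀ z ∈ A, z - w ≠ 0 := by
    intro w hw z hz h0
    exact hw (by rw [← sub_eq_zero.mp h0]; exact hz)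
  refine joined_of_log hAc hu hv (hasLog_arc hA ?_ ?_)
  · exact (continuousOn_id.sub continuousOn_const).div (continuousOn_id.sub continuousOn_const)
      (hne v hv)
  · exact fun z hz => div_ne_zero (hne u hu z hz) (hne v hv z hz)

theorem janis_open {A U : Set ℂ} (hA : IsCompact A) (hU : IsOpen U)
    (hUb : Bornology.IsBounded U) (hUc : IsPreconnected U) (hAU : IsPreconnected (A \ U))
    {x y : ℂ} (hx : x ∈ U) (hy : y ∈ U) (h : JoinedIn Aᶜ x y) : JoinedIn (U \ A) x y := by
  obtain ⟨R, hR⟩ := (hA.isBounded.union hUb).subset_closedBall 0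
  have hAR : A ⊆ closedBall 0 R := subset_union_left.trans hR
  have hUR : U ⊆ closedBall 0 R := subset_union_right.trans hR
  have hBc : IsCompact (closedBall (0 : ℂ) R \ U) := (isCompact_closedBall 0 R).diff hU
  have hAB : A ∩ (closedBall (0 : ℂ) R \ U) = A \ U := by
    ext z
    constructor
    · rintro ⟨h1, -, h2⟩
      exact ⟨h1, h2⟩
    · rintro ⟨h1, h2⟩
      exact ⟨h1, hAR h1, h2⟩
  have hj : JoinedIn (closedBall (0 : ℂ) R \ U)ᶜ x y :=
    (joinedIn_of_open hU hUc hx hy).mono fun z hz hz2 => hz2.2 hz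
  obtain ⟨γ, hγ⟩ := janiszewski hA hBc (by rw [hAB]; exact hAU) h hj
  have hrange : range γ ⊆ U ∪ (closedBall (0 : ℂ) R)ᶜ := by
    rintro _ ⟨t, rfl⟩
    by_cases h1 : γ t ∈ U
    · exact Or.inl h1
    · right
      intro h2
      exact hγ t (Or.inr ⟨h2, h1⟩)
  have hpre : IsPreconnected (range γ) := isPreconnected_range γ.continuous
  have hsub : range γ ⊆ U :=
    hpre.subset_left_of_subset_union hU isClosed_closedBall.isOpen_compl
      (Set.disjoint_left.mpr fun z h1 h2 => h2 (hUR h1)) hrange
      ⟨x, ⟨0, γ.source⟩, hx⟩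
  exact ⟨γ, fun t => ⟨hsub ⟨t, rfl⟩, fun h1 => hγ t (Or.inl h1)⟩⟩

end CarT
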