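import Pool.Agent.CarT.LogA

/-!
# CarT/LogG : gluing logarithms

* `log_diff`: two logarithms of the same function on a preconnected set differ by a constant in
  `2 π i ℤ`: the difference is continuous with values in a discrete set.
* `glue_closed`, `glue_open`: subtract the constant of `log_diff` on `A ∩ B` (if it is empty, nothing
  to do) from the second logarithm and glue with `if z ∈ A then g₁ z else g₂ z + const`
  (two closed sets / two open sets).
* `no_log`: `g (x + r exp (θ i)) - m θ i` is a continuous function of `θ ∈ [0, 2π]` whose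
  exponential is the constant `r ^ m`; so it is constant; compare `θ = 0` and `θ = 2π`.
-/

set_option linter.all false

open Set Metric

namespace CarT

theorem log_diff {S : Set ℂ} (hS : IsPreconnected S) {g g' : ℂ → ℂ} (hg : ContinuousOn g S)
    (hg' : ContinuousOn g' S) (h : ∀ z ∈ S, Complex.exp (g z) = Complex.exp (g' z)) :
    ∃ n : ℤ, ∀ z ∈ S, g z = g' z + 2 * Real.pi * Complex.I * n := by
  classical
  rcases S.eq_empty_or_nonempty with hE | ⟨z0, hz0⟩
  · exact ⟨0, fun z hz => by rw [hE] at hz; exact absurd hz (Set.notMem_empty z)⟩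
  have key : ∀ z ∈ S, ∃ n : ℤ, g z = g' z + n * (2 * Real.pi * Complex.I) := fun z hz =>
    Complex.exp_eq_exp_iff_exists_int.1 (h z hz)
  have hpi : (2 * (Real.pi : ℝ)) ≠ 0 := by positivity
  set d : ℂ → ℝ := fun z => (g z - g' z).im / (2 * Real.pi) with hd
  have hdc : ContinuousOn d S :=
    (Complex.continuous_im.comp_continuousOn (hg.sub hg')).div_const _
  have hdv : ∀ z ∈ S, ∀ n : ℤ, g z = g' z + n * (2 * Real.pi * Complex.I) → d z = n := by
    intro z hz n hn
    simp only [hd]
    rw [hn]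
    have : (g' z + n * (2 * Real.pi * Complex.I) - g' z).im = n * (2 * Real.pi) := by
      have h1 : g' z + n * (2 * Real.pi * Complex.I) - g' z
          = ((n * (2 * Real.pi) : ℝ) : ℂ) * Complex.I := by push_cast; ring
      rw [h1, Complex.im_ofReal_mul, Complex.I_im, mul_one]
    rw [this]
    field_simp
  have hmaps : MapsTo d S (range (Int.cast : ℤ → ℝ)) := by
    intro z hz
    obtain ⟨n, hn⟩ := key z hz
    exact ⟨n, (hdv z hz n hn).symm⟩
  haveI : DiscreteTopology (range (Int.cast : ℤ → ℝ)) :=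
    (Int.isClosedEmbedding_coe_real.isEmbedding.toHomeomorph).symm.isEmbedding.discreteTopology
  obtain ⟨n, hn⟩ := key z0 hz0
  refine ⟨n, fun z hz => ?_⟩
  obtain ⟨k, hk⟩ := key z hz
  have h1 : d z = d z0 := hS.constant_of_mapsTo ⟨inferInstance⟩ hdc hmaps hz hz0
  rw [hdv z hz k hk, hdv z0 hz0 n hn] at h1
  have h2 : k = n := by exact_mod_cast h1
  rw [hk, h2]
  ring

theorem exp_add_int (w : ℂ) (n : ℤ) :
    Complex.exp (w + 2 * Real.pi * Complex.I * n) = Complex.exp w := by
  have h : w + 2 * Real.pi * Complex.I * n = w + n * (2 * Real.pi * Complex.I) := by ring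
  rw [h]
  exact Complex.exp_eq_exp_iff_exists_int.2 ⟨n, rfl⟩

theorem glue_aux {A B : Set ℂ} (hAB : IsPreconnected (A ∩ B)) {f : ℂ → ℂ} (h1 : HasLog A f)
    (h2 : HasLog B f) : ∃ g : ℂ → ℂ, ContinuousOn g A ∧ ContinuousOn g B ∧
      ∀ z ∈ A ∪ B, Complex.exp (g z) = f z := by
  classical
  obtain ⟨g1, hg1, he1⟩ := h1
  obtain ⟨g2, hg2, he2⟩ := h2
  obtain ⟨n, hn⟩ := log_diff hAB (hg1.mono inter_subset_left) (hg2.mono inter_subset_right)
    (fun z hz => by rw [he1 z hz.1, he2 z hz.2])
  refine ⟨fun z => if z ∈ A then g1 z else g2 z + 2 * Real.pi * Complex.I * n, ?_, ?_, ?_⟩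
  · refine hg1.congr fun z hz => ?_
    simp only [hz, if_true]
  · refine (hg2.add (continuousOn_const (c := 2 * Real.pi * Complex.I * (n : ℂ)))).congr
      fun z hz => ?_
    by_cases hzA : z ∈ A
    · simp only [hzA, if_true]
      exact hn z ⟨hzA, hz⟩
    · simp only [hzA, if_false]
      rfl
  · intro z hz
    by_cases hzA : z ∈ A
    · simp only [hzA, if_true]
      exact he1 z hzA
    · simp only [hzA, if_false]
      rw [exp_add_int]
      exact he2 z (hz.resolve_left hzA)

theorem glue_closed {A B : Set ℂ} (hA : IsClosed A) (hB : IsClosed B)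
    (hAB : IsPreconnected (A ∩ B)) {f : ℂ → ℂ} (h1 : HasLog A f) (h2 : HasLog B f) :
    HasLog (A ∪ B) f := by
  obtain ⟨g, hgA, hgB, hg⟩ := glue_aux hAB h1 h2
  exact ⟨g, hgA.union_of_isClosed hgB hA hB, hg⟩

theorem glue_open {A B : Set ℂ} (hA : IsOpen A) (hB : IsOpen B)
    (hAB : IsPreconnected (A ∩ B)) {f : ℂ → ℂ} (h1 : HasLog A f) (h2 : HasLog B f) :
    HasLog (A ∪ B) f := by
  obtain ⟨g, hgA, hgB, hg⟩ := glue_aux hAB h1 h2
  exact ⟨g, hgA.union_of_isOpen hgB hA hB, hg⟩

theorem no_log (x : ℂ) {r : ℝ} (hr : 0 < r) (m : ℤ)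
    (h : HasLog (sphere x r) (fun z => (z - x) ^ m)) : m = 0 := by
  obtain ⟨g, hg, he⟩ := h
  have hrC : (r : ℂ) ≠ 0 := by exact_mod_cast hr.ne'
  set φ : ℂ → ℂ := fun z => x + r * Complex.exp ((z.re : ℂ) * Complex.I) with hφ
  have hφc : Continuous φ := by
    simp only [hφ]
    fun_prop
  have hφm : ∀ z, φ z ∈ sphere x r := by
    intro z
    simp only [hφ, mem_sphere, dist_eq_norm, add_sub_cancel_left, norm_mul, Complex.norm_real,
      Complex.norm_exp_ofReal_mul_I, mul_one, Real.norm_eq_abs, abs_of_pos hr]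
  have hG : ContinuousOn (fun z => g (φ z)) univ :=
    hg.comp hφc.continuousOn (fun z _ => hφm z)
  have hG' : ContinuousOn (fun z : ℂ => (m : ℂ) * ((z.re : ℂ) * Complex.I)
      + Complex.log ((r : ℂ) ^ m)) univ := by
    have : Continuous (fun z : ℂ => (m : ℂ) * ((z.re : ℂ) * Complex.I)
      + Complex.log ((r : ℂ) ^ m)) := by fun_prop
    exact this.continuousOn
  obtain ⟨n, hn⟩ := log_diff isPreconnected_univ hG hG' (by
    intro z _
    have h1 : Complex.exp (g (φ z)) = (φ z - x) ^ m := he (φ z) (hφm z)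
    have h2 : φ z - x = r * Complex.exp ((z.re : ℂ) * Complex.I) := by
      simp only [hφ, add_sub_cancel_left]
    show Complex.exp (g (φ z)) = _
    rw [h1, h2, Complex.exp_add, Complex.exp_log (zpow_ne_zero m hrC), Complex.exp_int_mul,
      mul_zpow, mul_comm])
  have e0 := hn 0 (mem_univ _)
  have e1 := hn ((2 * Real.pi : ℝ) : ℂ) (mem_univ _)
  have hφ0 : φ ((2 * Real.pi : ℝ) : ℂ) = φ 0 := by
    simp only [hφ, Complex.ofReal_re, Complex.zero_re, Complex.ofReal_zero, zero_mul,
      Complex.exp_zero]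
    push_cast
    rw [Complex.exp_two_pi_mul_I]
  simp only [hφ0, Complex.ofReal_re, Complex.zero_re, Complex.ofReal_zero, zero_mul, mul_zero]
    at e0 e1
  rw [e0] at e1
  have e2 : (m : ℂ) * (((2 * Real.pi : ℝ) : ℂ) * Complex.I) = 0 := by
    linear_combination (-1 : ℂ) * e1
  have hpi : (((2 * Real.pi : ℝ) : ℂ) * Complex.I) ≠ 0 := by
    refine mul_ne_zero ?_ Complex.I_ne_zero
    have : (2 * Real.pi : ℝ) ≠ 0 := by positivity
    exact_mod_cast this
  have e3 : (m : ℂ) = 0 := (mul_eq_zero.1 e2).resolve_right hpi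
  exact_mod_cast e3

end CarT
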