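import Pool.Agent.CarT.Net
import Pool.Agent.CarT.Bd
import Pool.Agent.CarT.EightC

/-!
# CarT/LvlA : subdivision of all squares of a level

`local_step`: `ψ` is the current map; by `HC`-congruence (`HC x y φ φ' ε` uses `φ` only at points of
`bd (big x y)`, on which `ψ = φ`) the closeness `HC x y ψ ψ' ε` of `eightH` gives `HC x y φ ψ' ε`; also
`EqOn ψ' φ (bd (big x y))` because `bd (big x y) ⊆ Γ`. In the second case use `eightV`.

`level_step`: induction over subsets `F ⊆ Good n` (`Finset.induction_on`): there is `ψ` with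
`EqOn ψ φ Γ3` (`Γ3 = ⋃ s ∈ Good n, bd (bigN s)`),
`Net T (((Good n \ F).image bigN) ∪ F.biUnion (kids of bigN s)) (Γ3 ∪ ⋃ s ∈ F, kidsBd ..) ψ` and, for all
`s ∈ F`, the discs of the children are contained in `disc φ (bigN s)` and the children have type
`TT σ w`. In the step for `s ∉ F` use `local_step`; the properties of the children of `s' ∈ F` only use
the values of `ψ` on `kidsBd s' ⊆ Γ'`, which do not change. A big square is not a unit square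
(side `3`), `bigN` is injective, so `Q.erase (bigN s)` removes exactly one element. For `F = Good n`:
the images of `kidN s o` are `sqN (kidN s o) = sq (3 s.1 + o.1) (3 s.2 + o.2)` (cast), so the family is
`(Good (n+1)).image sqN`, and `Γ3 ∪ ⋃ kidsBd = ⋃ s ∈ Good (n+1), bd (sqN s)` (`bd (bigN s) ⊆ kidsBd`: each
of the 12 unit segments of the boundary is a side of one of the eight children).
-/

open Set Metric

namespace CarT

/-- a big square is ready for a step -/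
def Ready (σ : ℝ) (w : ℕ) (φ : ℝ × ℝ → ℂ) (x y : ℝ) : Prop :=
  (∃ ε > 0, ∀ φ' : ℝ × ℝ → ℂ, EqOn φ' φ (bd (big x y)) → HC x y φ φ' ε →
      ∀ o ∈ off, TT σ w φ' (x + o.1) (y + o.2)) ∨
  (∃ ε > 0, ∀ φ' : ℝ × ℝ → ℂ, EqOn φ' φ (bd (big x y)) → VC x y φ φ' ε →
      ∀ o ∈ off, TT σ w φ' (x + o.1) (y + o.2))

theorem LvlA_mem_bd {R : Rect} {p : ℝ × ℝ} :
    p ∈ bd R ↔ (R.1.1 ≤ p.1 ∧ p.1 ≤ R.1.2 ∧ R.2.1 ≤ p.2 ∧ p.2 ≤ R.2.2) ∧
      (p.1 = R.1.1 ∨ p.1 = R.1.2 ∨ p.2 = R.2.1 ∨ p.2 = R.2.2) := by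
  rw [mem_bd_iff]
  constructor
  · rintro ⟨⟨⟨h1, h2⟩, ⟨h3, h4⟩⟩, h5⟩
    exact ⟨⟨h1, h2, h3, h4⟩, h5⟩
  · rintro ⟨⟨h1, h2, h3, h4⟩, h5⟩
    exact ⟨⟨⟨h1, h2⟩, ⟨h3, h4⟩⟩, h5⟩

theorem LvlA_mem_big {x y : ℝ} {p : ℝ × ℝ} :
    p ∈ bd (big x y) ↔ (x ≤ p.1 ∧ p.1 ≤ x + 3 ∧ y ≤ p.2 ∧ p.2 ≤ y + 3) ∧
      (p.1 = x ∨ p.1 = x + 3 ∨ p.2 = y ∨ p.2 = y + 3) := LvlA_mem_bd

theorem LvlA_mem_sq {x y : ℝ} {p : ℝ × ℝ} :
    p ∈ bd (sq x y) ↔ (x ≤ p.1 ∧ p.1 ≤ x + 1 ∧ y ≤ p.2 ∧ p.2 ≤ y + 1) ∧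
      (p.1 = x ∨ p.1 = x + 1 ∨ p.2 = y ∨ p.2 = y + 1) := LvlA_mem_bd

theorem LvlA_cLL (x y : ℝ) : cLL x y ⊆ bd (big x y) := by
  rintro p (⟨h1, h2, h3⟩ | ⟨⟨h1, h2⟩, h3⟩)
  · rw [mem_singleton_iff] at h1
    exact LvlA_mem_big.2 ⟨⟨h1.ge, by linarith, h2, by linarith⟩, Or.inl h1⟩
  · rw [mem_singleton_iff] at h3
    exact LvlA_mem_big.2 ⟨⟨h1, by linarith, h3.ge, by linarith⟩, Or.inr (Or.inr (Or.inl h3))⟩

theorem LvlA_cRL (x y : ℝ) : cRL x y ⊆ bd (big x y) := by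
  rintro p (⟨h1, h2, h3⟩ | ⟨⟨h1, h2⟩, h3⟩)
  · rw [mem_singleton_iff] at h1
    exact LvlA_mem_big.2 ⟨⟨by linarith, h1.le, h2, by linarith⟩, Or.inr (Or.inl h1)⟩
  · rw [mem_singleton_iff] at h3
    exact LvlA_mem_big.2 ⟨⟨by linarith, h2, h3.ge, by linarith⟩, Or.inr (Or.inr (Or.inl h3))⟩

theorem LvlA_cLU (x y : ℝ) : cLU x y ⊆ bd (big x y) := by
  rintro p (⟨h1, h2, h3⟩ | ⟨⟨h1, h2⟩, h3⟩)
  · rw [mem_singleton_iff] at h1
    exact LvlA_mem_big.2 ⟨⟨h1.ge, by linarith, by linarith, h3⟩, Or.inl h1⟩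
  · rw [mem_singleton_iff] at h3
    exact LvlA_mem_big.2 ⟨⟨h1, by linarith, by linarith, h3.le⟩, Or.inr (Or.inr (Or.inr h3))⟩

theorem LvlA_cRU (x y : ℝ) : cRU x y ⊆ bd (big x y) := by
  rintro p (⟨h1, h2, h3⟩ | ⟨⟨h1, h2⟩, h3⟩)
  · rw [mem_singleton_iff] at h1
    exact LvlA_mem_big.2 ⟨⟨by linarith, h1.le, by linarith, h3⟩, Or.inr (Or.inl h1)⟩
  · rw [mem_singleton_iff] at h3
    exact LvlA_mem_big.2 ⟨⟨by linarith, h2, by linarith, h3.le⟩, Or.inr (Or.inr (Or.inr h3))⟩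

theorem LvlA_near {φ ψ φ' : ℝ × ℝ → ℂ} {B X : Set (ℝ × ℝ)} (hE : EqOn ψ φ B) (hX : X ⊆ B)
    {ε : ℝ} {p : ℝ × ℝ} (h : Near ψ φ' ε p X) : Near φ φ' ε p X := by
  obtain ⟨q, hq, hd⟩ := h
  exact ⟨q, hq, by rw [← hE (hX hq)]; exact hd⟩

theorem LvlA_HC {x y : ℝ} {φ ψ φ' : ℝ × ℝ → ℂ} {ε : ℝ} (hE : EqOn ψ φ (bd (big x y)))
    (H : HC x y ψ φ' ε) : HC x y φ φ' ε where
  ll := fun p hp => LvlA_near hE (LvlA_cLL x y) (H.ll p hp)
  rl := fun p hp => LvlA_near hE (LvlA_cRL x y) (H.rl p hp)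
  lu := fun p hp => LvlA_near hE (LvlA_cLU x y) (H.lu p hp)
  ru := fun p hp => LvlA_near hE (LvlA_cRU x y) (H.ru p hp)
  low := fun u hu => by
    have hmem : (x + 1 + u, y) ∈ bd (big x y) :=
      LvlA_mem_big.2 ⟨⟨by linarith [hu.1], by linarith [hu.2], le_rfl, by linarith⟩,
        Or.inr (Or.inr (Or.inl rfl))⟩
    rw [← hE hmem]
    exact H.low u hu
  up := fun u hu => by
    have hmem : (x + 1 + u, y + 3) ∈ bd (big x y) :=
      LvlA_mem_big.2 ⟨⟨by linarith [hu.1], by linarith [hu.2], by linarith, le_rfl⟩,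
        Or.inr (Or.inr (Or.inr rfl))⟩
    rw [← hE hmem]
    exact H.up u hu
  ml1 := fun u hu => LvlA_near hE (LvlA_cLL x y) (H.ml1 u hu)
  ml2 := fun u hu => by
    have hmem : (x, y + 1 + u) ∈ bd (big x y) :=
      LvlA_mem_big.2 ⟨⟨le_rfl, by linarith, by linarith [hu.1], by linarith [hu.2]⟩, Or.inl rfl⟩
    rw [← hE hmem]
    exact H.ml2 u hu
  ml3 := fun u hu => LvlA_near hE (LvlA_cLU x y) (H.ml3 u hu)
  mr1 := fun u hu => LvlA_near hE (LvlA_cRL x y) (H.mr1 u hu)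
  mr2 := fun u hu => by
    have hmem : (x + 3, y + 1 + u) ∈ bd (big x y) :=
      LvlA_mem_big.2 ⟨⟨by linarith, le_rfl, by linarith [hu.1], by linarith [hu.2]⟩,
        Or.inr (Or.inl rfl)⟩
    rw [← hE hmem]
    exact H.mr2 u hu
  mr3 := fun u hu => LvlA_near hE (LvlA_cRU x y) (H.mr3 u hu)

theorem LvlA_VC {x y : ℝ} {φ ψ φ' : ℝ × ℝ → ℂ} {ε : ℝ} (hE : EqOn ψ φ (bd (big x y)))
    (H : VC x y ψ φ' ε) : VC x y φ φ' ε := by
  refine LvlA_HC (x := y) (y := x) ?_ H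
  intro p hp
  have hp' : p.swap ∈ bd (big x y) := by
    have h1 := LvlA_mem_big.1 hp
    refine LvlA_mem_big.2 ⟨⟨h1.1.2.2.1, h1.1.2.2.2, h1.1.1, h1.1.2.1⟩, ?_⟩
    rcases h1.2 with h | h | h | h
    · exact Or.inr (Or.inr (Or.inl h))
    · exact Or.inr (Or.inr (Or.inr h))
    · exact Or.inl h
    · exact Or.inr (Or.inl h)
  exact hE hp'

theorem LvlA_disc {φ ψ : ℝ × ℝ → ℂ} {R : Rect} (hE : EqOn ψ φ (bd R)) :
    disc ψ R = disc φ R := by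
  unfold disc
  rw [hE.image_eq]

open Classical in
theorem local_step {W T : Set ℂ} {c : ℂ → Set ℂ} (h : Sys W T c) {Q : Finset Rect}
    {Γ : Set (ℝ × ℝ)} {φ ψ : ℝ × ℝ → ℂ} (N : Net T Q Γ ψ) {x y : ℝ} (hS : big x y ∈ Q)
    (hE : EqOn ψ φ (bd (big x y))) {σ : ℝ} {w : ℕ} (hR : Ready σ w φ x y) :
    ∃ ψ' : ℝ × ℝ → ℂ, EqOn ψ' ψ Γ ∧ Net T (Q.erase (big x y) ∪ kids x y) (Γ ∪ kidsBd x y) ψ' ∧
      (∀ o ∈ off, disc ψ' (sq (x + o.1) (y + o.2)) ⊆ disc φ (big x y)) ∧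
      ∀ o ∈ off, TT σ w ψ' (x + o.1) (y + o.2) := by
  rcases hR with ⟨ε, hε, H⟩ | ⟨ε, hε, H⟩
  · obtain ⟨ψ', h1, h2, h3, h4⟩ := eightH h N hS hε
    refine ⟨ψ', h1, h2, ?_, ?_⟩
    · intro o ho
      rw [← LvlA_disc hE]
      exact h3 o ho
    · exact H ψ' (fun p hp => (h1 (N.bdsub _ hS hp)).trans (hE hp)) (LvlA_HC hE h4)
  · obtain ⟨ψ', h1, h2, h3, h4⟩ := eightV h N hS hε
    refine ⟨ψ', h1, h2, ?_, ?_⟩
    · intro o ho
      rw [← LvlA_disc hE]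
      exact h3 o ho
    · exact H ψ' (fun p hp => (h1 (N.bdsub _ hS hp)).trans (hE hp)) (LvlA_VC hE h4)

theorem LvlA_Sh {σ : ℝ} {f g : ℝ → ℂ} (hfg : EqOn f g (Icc 0 1)) (h : Sh σ f) : Sh σ g := by
  intro s hs t ht
  rw [← hfg hs, ← hfg ht]
  exact h s hs t ht

theorem LvlA_Wt {σ : ℝ} {w : ℕ} {f g : ℝ → ℂ} (hfg : EqOn f g (Icc 0 1)) (h : Wt σ w f) :
    Wt σ w g := by
  obtain ⟨τ, h1, h2, h3, h4⟩ := h
  refine ⟨τ, h1, h2, h3, ?_⟩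
  intro i hi s hs t ht
  have hsub : ∀ r ∈ Icc (τ i) (τ (i + 1)), r ∈ Icc (0 : ℝ) 1 := by
    intro r hr
    constructor
    · rw [← h2]
      exact (h1 (Nat.zero_le i)).trans hr.1
    · rw [← h3]
      exact hr.2.trans (h1 hi)
  rw [← hfg (hsub s hs), ← hfg (hsub t ht)]
  exact h4 i hi s hs t ht

theorem LvlA_SS {σ : ℝ} {w : ℕ} {f g : ℝ → ℂ} (hfg : EqOn f g (Icc 0 1)) (h : SS σ w f) :
    SS σ w g := by
  rcases h with h | h
  · exact Or.inl (LvlA_Sh hfg h)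
  · exact Or.inr (LvlA_Wt hfg h)

theorem LvlA_TT {σ : ℝ} {w : ℕ} {φ ψ : ℝ × ℝ → ℂ} {x y : ℝ} (h0 : EqOn ψ φ (bd (sq x y)))
    (h : TT σ w ψ x y) : TT σ w φ x y := by
  have e1 : EqOn (hE ψ x y) (hE φ x y) (Icc 0 1) := by
    intro t ht
    have hm : (x + t, y) ∈ bd (sq x y) :=
      LvlA_mem_sq.2 ⟨⟨by linarith [ht.1], by linarith [ht.2], le_rfl, by linarith⟩,
        Or.inr (Or.inr (Or.inl rfl))⟩
    exact h0 hm
  have e2 : EqOn (hE ψ x (y + 1)) (hE φ x (y + 1)) (Icc 0 1) := by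
    intro t ht
    have hm : (x + t, y + 1) ∈ bd (sq x y) :=
      LvlA_mem_sq.2 ⟨⟨by linarith [ht.1], by linarith [ht.2], by linarith, le_rfl⟩,
        Or.inr (Or.inr (Or.inr rfl))⟩
    exact h0 hm
  have e3 : EqOn (vE ψ x y) (vE φ x y) (Icc 0 1) := by
    intro t ht
    have hm : (x, y + t) ∈ bd (sq x y) :=
      LvlA_mem_sq.2 ⟨⟨le_rfl, by linarith, by linarith [ht.1], by linarith [ht.2]⟩, Or.inl rfl⟩
    exact h0 hm
  have e4 : EqOn (vE ψ (x + 1) y) (vE φ (x + 1) y) (Icc 0 1) := by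
    intro t ht
    have hm : (x + 1, y + t) ∈ bd (sq x y) :=
      LvlA_mem_sq.2 ⟨⟨by linarith, le_rfl, by linarith [ht.1], by linarith [ht.2]⟩,
        Or.inr (Or.inl rfl)⟩
    exact h0 hm
  rcases h with h | ⟨a1, a2, a3, a4⟩ | ⟨a1, a2, a3, a4⟩
  · refine Or.inl ?_
    intro p hp q hq
    rw [← h0 hp, ← h0 hq]
    exact h p hp q hq
  · exact Or.inr (Or.inl ⟨LvlA_Sh e3 a1, LvlA_Sh e4 a2, LvlA_SS e1 a3, LvlA_SS e2 a4⟩)
  · exact Or.inr (Or.inr ⟨LvlA_Sh e1 a1, LvlA_Sh e2 a2, LvlA_SS e3 a3, LvlA_SS e4 a4⟩)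

theorem LvlA_third (t : ℝ) (h0 : 0 ≤ t) (h3 : t ≤ 3) : ∃ i : ℕ, i < 3 ∧ (i : ℝ) ≤ t ∧
    t ≤ (i : ℝ) + 1 ∧ (t = 0 → i = 0) ∧ (t = 3 → i = 2) := by
  rcases le_or_gt t 1 with h1 | h1
  · refine ⟨0, by norm_num, by simpa using h0, by simpa using h1, fun _ => rfl, fun h => ?_⟩
    exfalso
    linarith
  · rcases le_or_gt t 2 with h2 | h2
    · refine ⟨1, by norm_num, by simpa using h1.le, by push_cast; linarith, fun h => ?_,
        fun h => ?_⟩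
      · exfalso
        linarith
      · exfalso
        linarith
    · refine ⟨2, by norm_num, by push_cast; linarith, by push_cast; linarith, fun h => ?_,
        fun _ => rfl⟩
      exfalso
      linarith

theorem LvlA_off {i j : ℕ} (hi : i < 3) (hj : j < 3) (h : (i, j) ≠ (1, 1)) : (i, j) ∈ off := by
  unfold off
  rw [Finset.mem_erase, Finset.mem_product, Finset.mem_range, Finset.mem_range]
  exact ⟨h, hi, hj⟩

theorem LvlA_big_sub (x y : ℝ) : bd (big x y) ⊆ kidsBd x y := by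
  intro p hp
  obtain ⟨⟨a1, a2, a3, a4⟩, hb⟩ := LvlA_mem_big.1 hp
  obtain ⟨i, hi, i1, i2, i3, i4⟩ := LvlA_third (p.1 - x) (by linarith) (by linarith)
  obtain ⟨j, hj, j1, j2, j3, j4⟩ := LvlA_third (p.2 - y) (by linarith) (by linarith)
  have key : (i, j) ≠ (1, 1) → (p.1 = x + (i : ℝ) ∨ p.1 = x + (i : ℝ) + 1 ∨ p.2 = y + (j : ℝ) ∨
      p.2 = y + (j : ℝ) + 1) → p ∈ kidsBd x y := by
    intro hne hbd
    unfold kidsBd
    rw [mem_iUnion₂]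
    exact ⟨(i, j), LvlA_off hi hj hne, LvlA_mem_sq.2 ⟨⟨by linarith, by linarith, by linarith,
      by linarith⟩, hbd⟩⟩
  rcases hb with h | h | h | h
  · have e : i = 0 := i3 (by linarith)
    refine key (by rw [e]; simp) (Or.inl ?_)
    rw [e, h]
    push_cast
    ring
  · have e : i = 2 := i4 (by linarith)
    refine key (by rw [e]; simp) (Or.inr (Or.inl ?_))
    rw [e, h]
    push_cast
    ring
  · have e : j = 0 := j3 (by linarith)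
    refine key (by rw [e]; simp) (Or.inr (Or.inr (Or.inl ?_)))
    rw [e, h]
    push_cast
    ring
  · have e : j = 2 := j4 (by linarith)
    refine key (by rw [e]; simp) (Or.inr (Or.inr (Or.inr ?_)))
    rw [e, h]
    push_cast
    ring

theorem LvlA_bigN_inj {s s' : ℕ × ℕ} (h : bigN s = bigN s') : s = s' := by
  have h1 : (3 : ℝ) * (s.1 : ℝ) = 3 * (s'.1 : ℝ) := congrArg (fun R : Rect => R.1.1) h
  have h2 : (3 : ℝ) * (s.2 : ℝ) = 3 * (s'.2 : ℝ) := congrArg (fun R : Rect => R.2.1) h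
  have h3 : (s.1 : ℝ) = (s'.1 : ℝ) := by linarith
  have h4 : (s.2 : ℝ) = (s'.2 : ℝ) := by linarith
  exact Prod.ext (by exact_mod_cast h3) (by exact_mod_cast h4)

theorem LvlA_sq_ne (a b x y : ℝ) : sq a b ≠ big x y := by
  intro h
  have h1 : a = x := congrArg (fun R : Rect => R.1.1) h
  have h2 : a + 1 = x + 3 := congrArg (fun R : Rect => R.1.2) h
  linarith

open Classical in
theorem LvlA_ind {W T : Set ℂ} {c : ℂ → Set ℂ} (h : Sys W T c) {n : ℕ} {φ : ℝ × ℝ → ℂ}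
    (N : LevelNet3 T n φ) {σ : ℝ} {w : ℕ}
    (hR : ∀ s ∈ Good n, Ready σ w φ (3 * (s.1 : ℝ)) (3 * (s.2 : ℝ))) (F : Finset (ℕ × ℕ)) :
    F ⊆ Good n → ∃ ψ : ℝ × ℝ → ℂ, EqOn ψ φ (⋃ s ∈ Good n, bd (bigN s)) ∧
      Net T ((Good n \ F).image bigN ∪
          F.biUnion (fun s => kids (3 * (s.1 : ℝ)) (3 * (s.2 : ℝ))))
        ((⋃ s ∈ Good n, bd (bigN s)) ∪ ⋃ s ∈ F, kidsBd (3 * (s.1 : ℝ)) (3 * (s.2 : ℝ))) ψ ∧
      (∀ s ∈ F, ∀ o ∈ off, disc ψ (sq (3 * (s.1 : ℝ) + o.1) (3 * (s.2 : ℝ) + o.2)) ⊆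
        disc φ (bigN s)) ∧
      ∀ s ∈ F, ∀ o ∈ off, TT σ w ψ (3 * (s.1 : ℝ) + o.1) (3 * (s.2 : ℝ) + o.2) := by
  induction F using Finset.induction_on with
  | empty =>
    intro _
    refine ⟨φ, fun _ _ => rfl, ?_, ?_, ?_⟩
    · have e1 : (Good n \ ∅).image bigN ∪
          (∅ : Finset (ℕ × ℕ)).biUnion (fun s => kids (3 * (s.1 : ℝ)) (3 * (s.2 : ℝ))) =
          (Good n).image bigN := by
        rw [Finset.sdiff_empty, Finset.biUnion_empty, Finset.union_empty]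
      have e2 : ((⋃ s ∈ Good n, bd (bigN s)) ∪
          ⋃ s ∈ (∅ : Finset (ℕ × ℕ)), kidsBd (3 * (s.1 : ℝ)) (3 * (s.2 : ℝ))) =
          ⋃ s ∈ Good n, bd (bigN s) := by
        simp
      rw [e1, e2]
      exact N
    · intro s hs
      simp at hs
    · intro s hs
      simp at hs
  | insert s F hsF ih =>
    intro hsub
    have hsG : s ∈ Good n := hsub (Finset.mem_insert_self s F)
    have hFG : F ⊆ Good n := (Finset.subset_insert s F).trans hsub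
    obtain ⟨ψ, h1, h2, h3, h4⟩ := ih hFG
    have hbdG : bd (bigN s) ⊆ ⋃ s ∈ Good n, bd (bigN s) := by
      intro p hp
      exact mem_iUnion₂.2 ⟨s, hsG, hp⟩
    have hbigQ : bigN s ∈ (Good n \ F).image bigN ∪
        F.biUnion (fun s => kids (3 * (s.1 : ℝ)) (3 * (s.2 : ℝ))) :=
      Finset.mem_union_left _ (Finset.mem_image_of_mem _ (Finset.mem_sdiff.2 ⟨hsG, hsF⟩))
    obtain ⟨ψ', g1, g2, g3, g4⟩ := local_step h h2 (x := 3 * (s.1 : ℝ)) (y := 3 * (s.2 : ℝ))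
      hbigQ (fun p hp => h1 (hbdG hp)) (hR s hsG)
    -- the values on the old children are unchanged
    have hold : ∀ s' ∈ F, ∀ o ∈ off,
        EqOn ψ' ψ (bd (sq (3 * (s'.1 : ℝ) + o.1) (3 * (s'.2 : ℝ) + o.2))) := by
      intro s' hs' o ho p hp
      refine g1 (Or.inr (mem_iUnion₂.2 ⟨s', hs', ?_⟩))
      exact mem_iUnion₂.2 ⟨o, ho, hp⟩
    refine ⟨ψ', fun p hp => (g1 (Or.inl hp)).trans (h1 hp), ?_, ?_, ?_⟩
    · have e2 : ((⋃ s ∈ Good n, bd (bigN s)) ∪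
          ⋃ r ∈ insert s F, kidsBd (3 * (r.1 : ℝ)) (3 * (r.2 : ℝ))) =
          ((⋃ s ∈ Good n, bd (bigN s)) ∪ ⋃ s ∈ F, kidsBd (3 * (s.1 : ℝ)) (3 * (s.2 : ℝ))) ∪
            kidsBd (3 * (s.1 : ℝ)) (3 * (s.2 : ℝ)) := by
        rw [Finset.set_biUnion_insert, union_comm (kidsBd _ _), union_assoc]
      rw [e2]
      refine g2.mono ?_
      intro R hR'
      rw [Finset.mem_union] at hR' ⊢
      rcases hR' with hR' | hR'
      · obtain ⟨s', hs', rfl⟩ := Finset.mem_image.1 hR'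
        rw [Finset.mem_sdiff, Finset.mem_insert, not_or] at hs'
        left
        refine Finset.mem_erase.2 ⟨fun hc => hs'.2.1 (LvlA_bigN_inj hc), ?_⟩
        exact Finset.mem_union_left _
          (Finset.mem_image_of_mem _ (Finset.mem_sdiff.2 ⟨hs'.1, hs'.2.2⟩))
      · obtain ⟨s', hs', hRk⟩ := Finset.mem_biUnion.1 hR'
        rcases Finset.mem_insert.1 hs' with rfl | hs'
        · exact Or.inr hRk
        · left
          refine Finset.mem_erase.2 ⟨?_, Finset.mem_union_right _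
            (Finset.mem_biUnion.2 ⟨s', hs', hRk⟩)⟩
          obtain ⟨o, -, rfl⟩ := Finset.mem_image.1 hRk
          exact LvlA_sq_ne _ _ _ _
    · intro s' hs' o ho
      rcases Finset.mem_insert.1 hs' with rfl | hs'
      · exact g3 o ho
      · rw [LvlA_disc (hold s' hs' o ho)]
        exact h3 s' hs' o ho
    · intro s' hs' o ho
      rcases Finset.mem_insert.1 hs' with rfl | hs'
      · exact g4 o ho
      · exact LvlA_TT (fun p hp => (hold s' hs' o ho hp).symm) (h4 s' hs' o ho)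

theorem LvlA_sqN_kid (s o : ℕ × ℕ) :
    sqN (kidN s o) = sq (3 * (s.1 : ℝ) + o.1) (3 * (s.2 : ℝ) + o.2) := by
  unfold sqN kidN
  push_cast
  rfl

theorem LvlA_mem_good {n : ℕ} {t : ℕ × ℕ} :
    t ∈ Good (n + 1) ↔ ∃ s ∈ Good n, ∃ o ∈ off, kidN s o = t := by
  show t ∈ (Good n).biUnion (fun s => off.image (kidN s)) ↔ _
  rw [Finset.mem_biUnion]
  constructor
  · rintro ⟨s, hs, ht⟩
    obtain ⟨o, ho, h⟩ := Finset.mem_image.1 ht
    exact ⟨s, hs, o, ho, h⟩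
  · rintro ⟨s, hs, o, ho, h⟩
    exact ⟨s, hs, Finset.mem_image.2 ⟨o, ho, h⟩⟩

theorem level_step {W T : Set ℂ} {c : ℂ → Set ℂ} (h : Sys W T c) {n : ℕ} {φ : ℝ × ℝ → ℂ}
    (N : LevelNet3 T n φ) {σ : ℝ} {w : ℕ}
    (hR : ∀ s ∈ Good n, Ready σ w φ (3 * (s.1 : ℝ)) (3 * (s.2 : ℝ))) :
    ∃ φ' : ℝ × ℝ → ℂ, LevelNet T (n + 1) φ' ∧
      (∀ s ∈ Good n, ∀ o ∈ off, disc φ' (sqN (kidN s o)) ⊆ disc φ (bigN s)) ∧
      ∀ s ∈ Good (n + 1), TT σ w φ' (s.1 : ℝ) (s.2 : ℝ) := by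
  classical
  obtain ⟨ψ, h1, h2, h3, h4⟩ := LvlA_ind h N hR (Good n) (Finset.Subset.refl _)
  refine ⟨ψ, ?_, ?_, ?_⟩
  · have e2 : ((⋃ s ∈ Good n, bd (bigN s)) ∪
        ⋃ s ∈ Good n, kidsBd (3 * (s.1 : ℝ)) (3 * (s.2 : ℝ))) =
        ⋃ s ∈ Good (n + 1), bd (sqN s) := by
      ext p
      constructor
      · intro hp
        have hk : p ∈ ⋃ s ∈ Good n, kidsBd (3 * (s.1 : ℝ)) (3 * (s.2 : ℝ)) := by
          rcases hp with hp | hp
          · obtain ⟨s, hs, hp⟩ := mem_iUnion₂.1 hp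
            exact mem_iUnion₂.2 ⟨s, hs, LvlA_big_sub _ _ hp⟩
          · exact hp
        obtain ⟨s, hs, hp⟩ := mem_iUnion₂.1 hk
        obtain ⟨o, ho, hp⟩ := mem_iUnion₂.1 hp
        refine mem_iUnion₂.2 ⟨kidN s o, LvlA_mem_good.2 ⟨s, hs, o, ho, rfl⟩, ?_⟩
        rw [LvlA_sqN_kid]
        exact hp
      · intro hp
        obtain ⟨t, ht, hp⟩ := mem_iUnion₂.1 hp
        obtain ⟨s, hs, o, ho, rfl⟩ := LvlA_mem_good.1 ht
        rw [LvlA_sqN_kid] at hp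
        exact Or.inr (mem_iUnion₂.2 ⟨s, hs, mem_iUnion₂.2 ⟨o, ho, hp⟩⟩)
    rw [e2] at h2
    unfold LevelNet
    refine h2.mono ?_
    intro R hRm
    obtain ⟨t, ht, rfl⟩ := Finset.mem_image.1 hRm
    obtain ⟨s, hs, o, ho, rfl⟩ := LvlA_mem_good.1 ht
    refine Finset.mem_union_right _ (Finset.mem_biUnion.2 ⟨s, hs, ?_⟩)
    unfold kids
    rw [LvlA_sqN_kid]
    exact Finset.mem_image.2 ⟨o, ho, rfl⟩
  · intro s hs o ho
    rw [LvlA_sqN_kid]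
    exact h3 s hs o ho
  · intro t ht
    obtain ⟨s, hs, o, ho, rfl⟩ := LvlA_mem_good.1 ht
    have h5 := h4 s hs o ho
    have e1 : ((kidN s o).1 : ℝ) = 3 * (s.1 : ℝ) + o.1 := by
      unfold kidN
      push_cast
      rfl
    have e3 : ((kidN s o).2 : ℝ) = 3 * (s.2 : ℝ) + o.2 := by
      unfold kidN
      push_cast
      rfl
    rw [e1, e3]
    exact h5

end CarT
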