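import Pool.Agent.CarT.Net
import Pool.Agent.CarT.SizeA

/-!
# CarT/Marks : choice of the marks on an edge

`um m` maps `[0, 1]` onto `[0, α]`, `[1, 2]` onto `[α, β]`, `[2, 3]` onto `[β, 1]`, linearly, where
`m = (α, β)`.

* `marks_thin`. Case 1: `Sh (2σ) f`. By continuity at `0` and `1` there are `0 < α < β < 1` such that
  `dist (f s) (f t) < σ / 4` on `[0, α]` and on `[β, 1]`. `mid`: `Sh (2σ)` is inherited.
  Case 2: not `Sh (2σ) f`, so `Wt σ (w+2) f`; take the strict partition `τ` of `wt_strict` and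
  `α = τ 1`, `β = τ (w+1)`; `α < β` because `w ≥ 1`. `fst` and `lst` are the first and last piece.
  `tiny`: its hypothesis says `Sh (2σ) f` (`um m` is onto `[0,1]`), which is false. `mid`: `Wt σ w` with the
  partition `i ↦ (τ (i+1) - α) / (β - α)` for `i ≤ w`, constant `1` afterwards.
* `marks_first`: choose `0 < α < β < 1` with `dist (f s) (f t) < σ / 2` on `[0, α]` and on `[β, 1]`;
  `exists_wt` for the middle part, `wt_mono` for larger weights.
-/

open Set Metric

namespace CarT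

private theorem mk_cl1_mem (u : ℝ) : 0 ≤ cl1 u ∧ cl1 u ≤ 1 :=
  ⟨le_max_left _ _, max_le zero_le_one (min_le_right _ _)⟩

private theorem mk_cl1_id {u : ℝ} (h0 : 0 ≤ u) (h1 : u ≤ 1) : cl1 u = u := by
  unfold cl1
  rw [min_eq_left h1, max_eq_right h0]

private theorem mk_cl1_zero {u : ℝ} (h : u ≤ 0) : cl1 u = 0 := by
  unfold cl1
  rw [min_eq_left (by linarith), max_eq_left h]

private theorem mk_cl1_one {u : ℝ} (h : 1 ≤ u) : cl1 u = 1 := by
  unfold cl1
  rw [min_eq_right h, max_eq_right zero_le_one]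

private theorem mk_fst (m : ℝ × ℝ) {t : ℝ} (h0 : 0 ≤ t) (h1 : t ≤ 1) : um m t = m.1 * t := by
  unfold um
  rw [mk_cl1_id h0 h1, mk_cl1_zero (by linarith), mk_cl1_zero (by linarith)]
  ring

private theorem mk_mid (m : ℝ × ℝ) {t : ℝ} (h0 : 0 ≤ t) (h1 : t ≤ 1) :
    um m (1 + t) = m.1 + (m.2 - m.1) * t := by
  unfold um
  rw [mk_cl1_one (by linarith), mk_cl1_id (u := 1 + t - 1) (by linarith) (by linarith),
    mk_cl1_zero (by linarith)]
  ring

private theorem mk_lst (m : ℝ × ℝ) {t : ℝ} (h0 : 2 ≤ t) (h1 : t ≤ 3) :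
    um m t = m.2 + (1 - m.2) * (t - 2) := by
  unfold um
  rw [mk_cl1_one (by linarith), mk_cl1_one (by linarith),
    mk_cl1_id (u := t - 2) (by linarith) (by linarith)]
  ring

theorem um_mem {m : ℝ × ℝ} (hm : Adm m) {t : ℝ} : um m t ∈ Icc (0 : ℝ) 1 := by
  obtain ⟨h0, h1, h2⟩ := hm
  have a1 := mk_cl1_mem t
  have a2 := mk_cl1_mem (t - 1)
  have a3 := mk_cl1_mem (t - 2)
  unfold um
  constructor
  · have b1 := mul_nonneg h0.le a1.1
    have b2 := mul_nonneg (sub_nonneg.2 h1.le) a2.1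
    have b3 := mul_nonneg (sub_nonneg.2 h2.le) a3.1
    linarith
  · have b1 := mul_le_mul_of_nonneg_left a1.2 h0.le
    have b2 := mul_le_mul_of_nonneg_left a2.2 (sub_nonneg.2 h1.le)
    have b3 := mul_le_mul_of_nonneg_left a3.2 (sub_nonneg.2 h2.le)
    linarith

theorem continuous_um (m : ℝ × ℝ) : Continuous (um m) := by
  unfold um cl1
  fun_prop

private theorem mk_ends {f : ℝ → ℂ} (hf : ContinuousOn f (Icc 0 1)) {ε : ℝ} (hε : 0 < ε) :
    ∃ m : ℝ × ℝ, Adm m ∧
      (∀ s ∈ Icc (0 : ℝ) m.1, ∀ t ∈ Icc (0 : ℝ) m.1, dist (f s) (f t) < ε) ∧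
      (∀ s ∈ Icc m.2 (1 : ℝ), ∀ t ∈ Icc m.2 (1 : ℝ), dist (f s) (f t) < ε) := by
  have hε2 : 0 < ε / 2 := by linarith
  obtain ⟨δ, hδ, h1⟩ := Metric.continuousOn_iff.1 hf 0 (by constructor <;> norm_num) (ε / 2) hε2
  obtain ⟨δ', hδ', h2⟩ := Metric.continuousOn_iff.1 hf 1 (by constructor <;> norm_num) (ε / 2) hε2
  have hmin : 0 < min (δ / 2) (1 / 4) := by positivity
  have hmin' : 0 < min (δ' / 2) (1 / 4) := by positivity
  have a1 := min_le_left (δ / 2) (1 / 4)
  have a2 := min_le_right (δ / 2) (1 / 4)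
  have a3 := min_le_left (δ' / 2) (1 / 4)
  have a4 := min_le_right (δ' / 2) (1 / 4)
  refine ⟨(min (δ / 2) (1 / 4), 1 - min (δ' / 2) (1 / 4)), ⟨hmin, ?_, ?_⟩, ?_, ?_⟩
  · simp only
    linarith
  · simp only
    linarith
  · intro s hs t ht
    simp only [mem_Icc] at hs ht
    have b1 := h1 s ⟨hs.1, by linarith [hs.2]⟩ (by
      rw [Real.dist_eq, sub_zero, abs_of_nonneg hs.1]; linarith [hs.2])
    have b2 := h1 t ⟨ht.1, by linarith [ht.2]⟩ (by
      rw [Real.dist_eq, sub_zero, abs_of_nonneg ht.1]; linarith [ht.2])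
    have b3 := dist_triangle_right (f s) (f t) (f 0)
    linarith
  · intro s hs t ht
    simp only [mem_Icc] at hs ht
    have b1 := h2 s ⟨by linarith [hs.1], hs.2⟩ (by
      rw [Real.dist_eq, abs_of_nonpos (by linarith [hs.2])]; linarith [hs.1])
    have b2 := h2 t ⟨by linarith [ht.1], ht.2⟩ (by
      rw [Real.dist_eq, abs_of_nonpos (by linarith [ht.2])]; linarith [ht.1])
    have b3 := dist_triangle_right (f s) (f t) (f 1)
    linarith

private theorem mk_fst_mem {m : ℝ × ℝ} (hm : Adm m) {t : ℝ} (ht : t ∈ Icc (0 : ℝ) 1) :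
    um m t ∈ Icc (0 : ℝ) m.1 := by
  rw [mk_fst m ht.1 ht.2]
  have h0 := hm.1
  constructor
  · exact mul_nonneg h0.le ht.1
  · have := mul_le_mul_of_nonneg_left ht.2 h0.le
    linarith

private theorem mk_lst_mem {m : ℝ × ℝ} (hm : Adm m) {t : ℝ} (ht : t ∈ Icc (2 : ℝ) 3) :
    um m t ∈ Icc m.2 (1 : ℝ) := by
  rw [mk_lst m ht.1 ht.2]
  have h0 := hm.2.2
  have h1 : 0 ≤ t - 2 := by linarith [ht.1]
  have h2 : t - 2 ≤ 1 := by linarith [ht.2]
  constructor
  · have := mul_nonneg (sub_nonneg.2 h0.le) h1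
    linarith
  · have := mul_le_mul_of_nonneg_left h2 (sub_nonneg.2 h0.le)
    linarith

private theorem mk_surj {m : ℝ × ℝ} (hm : Adm m) {x : ℝ} (hx : x ∈ Icc (0 : ℝ) 1) :
    ∃ t ∈ Icc (0 : ℝ) 3, um m t = x := by
  obtain ⟨h0, h1, h2⟩ := hm
  rcases le_total x m.1 with h | h
  · have ht1 : x / m.1 ≤ 1 := by rw [div_le_one h0]; exact h
    have ht0 : 0 ≤ x / m.1 := div_nonneg hx.1 h0.le
    refine ⟨x / m.1, ⟨ht0, by linarith⟩, ?_⟩
    rw [mk_fst m ht0 ht1]
    field_simp
  · rcases le_total x m.2 with h' | h'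
    · have hp : 0 < m.2 - m.1 := by linarith
      have ht1 : (x - m.1) / (m.2 - m.1) ≤ 1 := by rw [div_le_one hp]; linarith
      have ht0 : 0 ≤ (x - m.1) / (m.2 - m.1) := div_nonneg (by linarith) hp.le
      refine ⟨1 + (x - m.1) / (m.2 - m.1), ⟨by linarith, by linarith⟩, ?_⟩
      rw [mk_mid m ht0 ht1]
      field_simp
      ring
    · have hp : 0 < 1 - m.2 := by linarith
      have ht1 : (x - m.2) / (1 - m.2) ≤ 1 := by rw [div_le_one hp]; linarith [hx.2]
      have ht0 : 0 ≤ (x - m.2) / (1 - m.2) := div_nonneg (by linarith) hp.le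
      refine ⟨2 + (x - m.2) / (1 - m.2), ⟨by linarith, by linarith⟩, ?_⟩
      rw [mk_lst m (by linarith) (by linarith)]
      field_simp
      ring

theorem marks_thin {σ : ℝ} (hσ : 0 < σ) {w : ℕ} (hw : 1 ≤ w) {f : ℝ → ℂ}
    (hf : ContinuousOn f (Icc 0 1)) (h : SS σ (w + 2) f) :
    ∃ m : ℝ × ℝ, Adm m ∧ M3 σ w (fun t => f (um m t)) := by
  by_cases hS : Sh (2 * σ) f
  · obtain ⟨m, hm, h1, h2⟩ := mk_ends hf (ε := σ / 4) (by linarith)
    refine ⟨m, hm, ?_, ?_, ?_, ?_⟩
    · intro s hs t ht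
      have := h1 _ (mk_fst_mem hm hs) _ (mk_fst_mem hm ht)
      linarith
    · intro s hs t ht
      have := h2 _ (mk_lst_mem hm hs) _ (mk_lst_mem hm ht)
      linarith
    · intro _
      exact ⟨fun s hs t ht => h1 _ (mk_fst_mem hm hs) _ (mk_fst_mem hm ht),
        fun s hs t ht => h2 _ (mk_lst_mem hm hs) _ (mk_lst_mem hm ht)⟩
    · left
      intro s _ t _
      exact hS _ (um_mem hm) _ (um_mem hm)
  · have hW : Wt σ (w + 2) f := by
      rcases h with h | h
      · exact absurd h hS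
      · exact h
    obtain ⟨τ, hτ, hτ0, hτ1, hd⟩ := wt_strict (by omega) hf hW
    have hmono : ∀ j, j ≤ w + 2 → ∀ i, i ≤ j → τ i ≤ τ j := by
      intro j
      induction j with
      | zero =>
        intro _ i hi
        have : i = 0 := by omega
        rw [this]
      | succ j ih =>
        intro hj i hi
        rcases Nat.lt_or_ge i (j + 1) with h1 | h1
        · exact (ih (by omega) i (by omega)).trans (hτ j (by omega)).le
        · have : i = j + 1 := by omega
          rw [this]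
    have hα : 0 < τ 1 := by
      have := hτ 0 (by omega)
      rw [hτ0] at this
      simpa using this
    have hβ : τ (w + 1) < 1 := by
      have := hτ (w + 1) (by omega)
      rw [show w + 1 + 1 = w + 2 by ring, hτ1] at this
      exact this
    have hαβ : τ 1 < τ (w + 1) := by
      have h1 := hτ 1 (by omega)
      have h2 := hmono (w + 1) (by omega) (1 + 1) (by omega)
      linarith
    have hm : Adm (τ 1, τ (w + 1)) := ⟨hα, hαβ, hβ⟩
    have hp : 0 < τ (w + 1) - τ 1 := by linarith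
    refine ⟨(τ 1, τ (w + 1)), hm, ?_, ?_, ?_, ?_⟩
    · intro s hs t ht
      have h1 := mk_fst_mem hm hs
      have h2 := mk_fst_mem hm ht
      refine hd 0 (by omega) _ ?_ _ ?_
      · rw [hτ0]; simpa using h1
      · rw [hτ0]; simpa using h2
    · intro s hs t ht
      have h1 := mk_lst_mem hm hs
      have h2 := mk_lst_mem hm ht
      refine hd (w + 1) (by omega) _ ?_ _ ?_
      · rw [show w + 1 + 1 = w + 2 by ring, hτ1]; exact h1
      · rw [show w + 1 + 1 = w + 2 by ring, hτ1]; exact h2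
    · intro hc
      exfalso
      apply hS
      intro x hx y hy
      obtain ⟨s, hs, hsx⟩ := mk_surj hm hx
      obtain ⟨t, ht, hty⟩ := mk_surj hm hy
      rw [← hsx, ← hty]
      exact hc s hs t ht
    · right
      refine ⟨fun i => (τ (min i w + 1) - τ 1) / (τ (w + 1) - τ 1), ?_, ?_, ?_, ?_⟩
      · intro i j hij
        apply div_le_div_of_nonneg_right _ hp.le
        have := hmono (min j w + 1) (by omega) (min i w + 1) (by omega)
        linarith
      · simp
      · simp only [min_self]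
        exact div_self hp.ne'
      · intro i hi
        have e1 : min i w = i := by omega
        have e2 : min (i + 1) w = i + 1 := by omega
        simp only [e1, e2]
        have hlo : 0 ≤ (τ (i + 1) - τ 1) / (τ (w + 1) - τ 1) := by
          apply div_nonneg _ hp.le
          have := hmono (i + 1) (by omega) 1 (by omega)
          linarith
        have hhi : (τ (i + 1 + 1) - τ 1) / (τ (w + 1) - τ 1) ≤ 1 := by
          rw [div_le_one hp]
          have := hmono (w + 1) (by omega) (i + 1 + 1) (by omega)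
          linarith
        have key : ∀ s ∈ Icc ((τ (i + 1) - τ 1) / (τ (w + 1) - τ 1))
            ((τ (i + 1 + 1) - τ 1) / (τ (w + 1) - τ 1)),
            um (τ 1, τ (w + 1)) (1 + s) ∈ Icc (τ (i + 1)) (τ (i + 1 + 1)) := by
          intro s hs
          rw [mk_mid _ (hlo.trans hs.1) (hs.2.trans hhi)]
          have h1 := hs.1
          have h2 := hs.2
          rw [div_le_iff₀ hp] at h1
          rw [le_div_iff₀ hp] at h2
          constructor
          · simp only
            linarith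
          · simp only
            linarith
        intro s hs t ht
        exact hd (i + 1) (by omega) _ (key s hs) _ (key t ht)

theorem marks_first {σ : ℝ} (hσ : 0 < σ) {f : ℝ → ℂ} (hf : ContinuousOn f (Icc 0 1)) :
    ∃ (m : ℝ × ℝ) (w : ℕ), Adm m ∧ ∀ w' ≥ w, M1 σ w' (fun t => f (um m t)) := by
  obtain ⟨m, hm, h1, h2⟩ := mk_ends hf (ε := σ / 2) (by linarith)
  have hc : ContinuousOn (fun t => f (um m (1 + t))) (Icc 0 1) := by
    apply Continuous.continuousOn
    refine hf.comp_continuous ((continuous_um m).comp (by fun_prop)) ?_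
    intro t
    exact um_mem hm
  obtain ⟨w, hw⟩ := exists_wt (σ := σ / 2) (by linarith) hc
  refine ⟨m, w, hm, ?_⟩
  intro w' hw'
  refine ⟨?_, ?_, ?_⟩
  · intro s hs t ht
    exact h1 _ (mk_fst_mem hm hs) _ (mk_fst_mem hm ht)
  · intro s hs t ht
    exact h2 _ (mk_lst_mem hm hs) _ (mk_lst_mem hm ht)
  · exact wt_mono (by linarith) hw le_rfl hw'

end CarT
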