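import Pool.Agent.CarT.Net
import Pool.Agent.CarT.Bd

/-!
# CarT/Rep : reparametrisation of the edges of a level net and scaling by 3

Given admissible marks `mH i j` for the horizontal edge from `(i, j)` to `(i+1, j)` and `mV i j`
for the vertical edge from `(i, j)` to `(i, j+1)`, define a map `H : ℝ × ℝ → ℝ × ℝ` (used for
nonnegative coordinates): with `i = ⌊x / 3⌋₊`, `j = ⌊y / 3⌋₊`,
`H (x, y) = (if y = 3 j then i + um (mH i j) (x - 3 i) else x / 3,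
             if x = 3 i then j + um (mV i j) (y - 3 j) else y / 3)`.
`um m` is continuous, strictly increasing on `[0,3]`, `um m 0 = 0`, `um m 3 = 1`.
* On the closed edge `[3i, 3i+3] × {3j}` one has `H (3 i + t, 3 j) = (i + um (mH i j) t, j)` for
  `t ∈ [0, 3]` (at `t = 3` the floor is `i + 1`, and both expressions are `i + 1`; the second
  coordinate: if `x` is a multiple of `3` it is `j + um _ 0 = j`, otherwise `3 j / 3 = j`). Similarly
  on `{3i} × [3j, 3j+3]`: `H (3 i, 3 j + t) = (i, j + um (mV i j) t)`. So `H` is continuous on every closed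
  edge and on their finite unions.
* `H` maps `bd (bigN s)` onto `bd (sqN s)` (each side onto the corresponding side), and
  `Γ3 = ⋃ s ∈ Good n, bd (bigN s)` onto `Γ = ⋃ s ∈ Good n, bd (sqN s)`.
* `H` is injective on `Γ3` (all points lie on lines `x ∈ 3 ℕ` or `y ∈ 3 ℕ`): let `H p = H q = (X, Y)`, `p, q`
  on edges. If `X` and `Y` are integers then `p = (3X, 3Y) = q` (`um m t` is `0` or `1` only at the ends). If
  `X` is not an integer then both points are on horizontal edges, `Y` is an integer, both have second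
  coordinate `3 Y` and the same `i`, and `um` is strictly increasing. Similarly if `Y` is not an integer.
Put `φ3 = φ ∘ H`. Then `φ3 '' bd (bigN s) = φ '' bd (sqN s)` and `φ3 '' Γ3 = φ '' Γ`, so all conditions
of `Net` for `φ3` follow from those for `φ`; the conditions on rectangles (`pos`, `int`, `sep`,
`bdsub`) are scaled versions of the ones for unit squares: different `s` have disjoint open squares,
`op (bigN s)` is disjoint from all edges (`bigN` is injective; `3 i < x < 3 i + 3` is not on a vertical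
line `x ∈ 3 ℕ`).
-/

open Set Metric

namespace CarT

private theorem rp_zero {u : ℝ} (h : u ≤ 0) : cl1 u = 0 := by
  unfold cl1
  rw [min_eq_left (h.trans zero_le_one), max_eq_left h]

private theorem rp_one {u : ℝ} (h : 1 ≤ u) : cl1 u = 1 := by
  unfold cl1
  rw [min_eq_right h, max_eq_right zero_le_one]

private theorem rp_mid {u : ℝ} (h0 : 0 ≤ u) (h1 : u ≤ 1) : cl1 u = u := by
  unfold cl1
  rw [min_eq_left h1, max_eq_right h0]

private theorem rp_cont : Continuous cl1 :=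
  continuous_const.max (continuous_id.min continuous_const)

private theorem rp_mono {u v : ℝ} (h : u ≤ v) : cl1 u ≤ cl1 v :=
  max_le_max le_rfl (min_le_min h le_rfl)

private theorem rp_lt {u v : ℝ} (h0 : 0 ≤ u) (h1 : u < 1) (h : u < v) : cl1 u < cl1 v := by
  rw [rp_mid h0 h1.le]
  rcases le_total v 1 with h2 | h2
  · rw [rp_mid (h0.trans h.le) h2]
    exact h
  · rw [rp_one h2]
    exact h1

theorem um_zero (m : ℝ × ℝ) : um m 0 = 0 := by
  unfold um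
  rw [rp_zero le_rfl, rp_zero (by norm_num), rp_zero (by norm_num)]
  ring

theorem um_three (m : ℝ × ℝ) : um m 3 = 1 := by
  unfold um
  rw [rp_one (by norm_num), rp_one (by norm_num), rp_one (by norm_num)]
  ring

theorem continuous_um (m : ℝ × ℝ) : Continuous (um m) := by
  unfold um
  have h1 : Continuous fun t : ℝ => cl1 (t - 1) := rp_cont.comp (continuous_id.sub continuous_const)
  have h2 : Continuous fun t : ℝ => cl1 (t - 2) := rp_cont.comp (continuous_id.sub continuous_const)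
  exact ((continuous_const.mul rp_cont).add (continuous_const.mul h1)).add (continuous_const.mul h2)

theorem um_lt {m : ℝ × ℝ} (hm : Adm m) {s t : ℝ} (hs : 0 ≤ s) (hst : s < t) (ht : t ≤ 3) :
    um m s < um m t := by
  obtain ⟨a1, a2, a3⟩ := hm
  have b1 : 0 < m.2 - m.1 := by linarith
  have b2 : 0 < 1 - m.2 := by linarith
  have c1 : m.1 * cl1 s ≤ m.1 * cl1 t := mul_le_mul_of_nonneg_left (rp_mono hst.le) a1.le
  have c2 : (m.2 - m.1) * cl1 (s - 1) ≤ (m.2 - m.1) * cl1 (t - 1) :=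
    mul_le_mul_of_nonneg_left (rp_mono (by linarith)) b1.le
  have c3 : (1 - m.2) * cl1 (s - 2) ≤ (1 - m.2) * cl1 (t - 2) :=
    mul_le_mul_of_nonneg_left (rp_mono (by linarith)) b2.le
  unfold um
  rcases lt_or_ge s 1 with h1 | h1
  · have := mul_lt_mul_of_pos_left (rp_lt hs h1 hst) a1
    linarith
  rcases lt_or_ge s 2 with h2 | h2
  · have := mul_lt_mul_of_pos_left (rp_lt (u := s - 1) (v := t - 1) (by linarith) (by linarith)
      (by linarith)) b1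
    linarith
  · have := mul_lt_mul_of_pos_left (rp_lt (u := s - 2) (v := t - 2) (by linarith) (by linarith)
      (by linarith)) b2
    linarith

theorem um_inj {m : ℝ × ℝ} (hm : Adm m) {s t : ℝ} (hs : s ∈ Icc (0 : ℝ) 3)
    (ht : t ∈ Icc (0 : ℝ) 3) (h : um m s = um m t) : s = t := by
  rcases lt_trichotomy s t with h1 | h1 | h1
  · exact absurd h (um_lt hm hs.1 h1 ht.2).ne
  · exact h1
  · exact absurd h (um_lt hm ht.1 h1 hs.2).ne'

theorem um_nonneg {m : ℝ × ℝ} (hm : Adm m) {t : ℝ} (ht : t ∈ Icc (0 : ℝ) 3) : 0 ≤ um m t := by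
  rcases eq_or_lt_of_le ht.1 with h | h
  · rw [← h, um_zero]
  · have := um_lt hm le_rfl h ht.2
    rw [um_zero] at this
    exact this.le

theorem um_le_one {m : ℝ × ℝ} (hm : Adm m) {t : ℝ} (ht : t ∈ Icc (0 : ℝ) 3) : um m t ≤ 1 := by
  rcases eq_or_lt_of_le ht.2 with h | h
  · rw [h, um_three]
  · have := um_lt hm ht.1 h le_rfl
    rw [um_three] at this
    exact this.le

theorem um_eq_zero {m : ℝ × ℝ} (hm : Adm m) {t : ℝ} (ht : t ∈ Icc (0 : ℝ) 3)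
    (h : um m t = 0) : t = 0 :=
  um_inj hm ht ⟨le_rfl, by norm_num⟩ (by rw [h, um_zero])

theorem um_eq_one {m : ℝ × ℝ} (hm : Adm m) {t : ℝ} (ht : t ∈ Icc (0 : ℝ) 3)
    (h : um m t = 1) : t = 3 :=
  um_inj hm ht ⟨by norm_num, le_rfl⟩ (by rw [h, um_three])

theorem um_surj (m : ℝ × ℝ) {v : ℝ} (hv : v ∈ Icc (0 : ℝ) 1) :
    ∃ t ∈ Icc (0 : ℝ) 3, um m t = v := by
  have h := intermediate_value_Icc (by norm_num : (0 : ℝ) ≤ 3) (continuous_um m).continuousOn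
  rw [um_zero, um_three] at h
  exact h hv

/-- an integer value is taken only at the ends -/
theorem um_int {m : ℝ × ℝ} (hm : Adm m) {t : ℝ} (ht : t ∈ Icc (0 : ℝ) 3) {i k : ℕ}
    (h : (i : ℝ) + um m t = k) : 3 * (i : ℝ) + t = 3 * (k : ℝ) := by
  have h0 := um_nonneg hm ht
  have h1 := um_le_one hm ht
  have h2 : i ≤ k := by
    have : (i : ℝ) ≤ k := by linarith
    exact_mod_cast this
  have h3 : k ≤ i + 1 := by
    have : (k : ℝ) ≤ (i : ℝ) + 1 := by linarith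
    exact_mod_cast this
  rcases Nat.lt_or_ge i k with h4 | h4
  · have h5 : k = i + 1 := by omega
    subst h5
    push_cast at h ⊢
    have h6 := um_eq_one hm ht (by linarith)
    rw [h6]
    ring
  · have h5 : k = i := by omega
    subst h5
    have h6 := um_eq_zero hm ht (by linarith)
    rw [h6]
    ring

/-- two equal values on the same line -/
theorem um_line {m : ℕ → ℝ × ℝ} (hm : ∀ i, Adm (m i)) {t t' : ℝ} (ht : t ∈ Icc (0 : ℝ) 3)
    (ht' : t' ∈ Icc (0 : ℝ) 3) {i i' : ℕ}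
    (h : (i : ℝ) + um (m i) t = (i' : ℝ) + um (m i') t') :
    3 * (i : ℝ) + t = 3 * (i' : ℝ) + t' := by
  have h0 := um_nonneg (hm i) ht
  have h1 := um_le_one (hm i) ht
  have h0' := um_nonneg (hm i') ht'
  have h1' := um_le_one (hm i') ht'
  rcases Nat.lt_trichotomy i i' with h4 | h4 | h4
  · have h3 : (i' : ℝ) ≤ (i : ℝ) + 1 := by linarith
    have h3' : i' ≤ i + 1 := by exact_mod_cast h3
    have h5 : i' = i + 1 := by omega
    have h6 : (i' : ℝ) = (i : ℝ) + 1 := by rw [h5]; push_cast; ring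
    have h7 := um_eq_one (hm i) ht (by linarith)
    have h8 := um_eq_zero (hm i') ht' (by linarith)
    rw [h6, h7, h8]
    ring
  · subst h4
    have h7 := um_inj (hm i) ht ht' (by linarith)
    rw [h7]
  · have h3 : (i : ℝ) ≤ (i' : ℝ) + 1 := by linarith
    have h3' : i ≤ i' + 1 := by exact_mod_cast h3
    have h5 : i = i' + 1 := by omega
    have h6 : (i : ℝ) = (i' : ℝ) + 1 := by rw [h5]; push_cast; ring
    have h7 := um_eq_one (hm i') ht' (by linarith)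
    have h8 := um_eq_zero (hm i) ht (by linarith)
    rw [h6, h7, h8]
    ring

open Classical in
/-- the reparametrisation -/
private noncomputable def rpH (mH mV : ℕ → ℕ → ℝ × ℝ) (p : ℝ × ℝ) : ℝ × ℝ :=
  (if p.2 = 3 * ((⌊p.2 / 3⌋₊ : ℕ) : ℝ) then
      ((⌊p.1 / 3⌋₊ : ℕ) : ℝ) + um (mH ⌊p.1 / 3⌋₊ ⌊p.2 / 3⌋₊) (p.1 - 3 * ((⌊p.1 / 3⌋₊ : ℕ) : ℝ))
    else p.1 / 3,
   if p.1 = 3 * ((⌊p.1 / 3⌋₊ : ℕ) : ℝ) then
      ((⌊p.2 / 3⌋₊ : ℕ) : ℝ) + um (mV ⌊p.1 / 3⌋₊ ⌊p.2 / 3⌋₊) (p.2 - 3 * ((⌊p.2 / 3⌋₊ : ℕ) : ℝ))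
    else p.2 / 3)

private theorem rp_floor (i : ℕ) {t : ℝ} (h0 : 0 ≤ t) (h1 : t < 3) :
    ⌊(3 * (i : ℝ) + t) / 3⌋₊ = i := by
  rw [Nat.floor_eq_iff (by positivity)]
  constructor
  · rw [le_div_iff₀ (by norm_num)]
    linarith
  · rw [div_lt_iff₀ (by norm_num)]
    linarith

private theorem rp_floor0 (i : ℕ) : ⌊(3 * (i : ℝ)) / 3⌋₊ = i := by
  have := rp_floor i le_rfl (by norm_num : (0 : ℝ) < 3)
  rwa [add_zero] at this

private theorem rpH_h (mH mV : ℕ → ℕ → ℝ × ℝ) (i j : ℕ) {t : ℝ} (ht : t ∈ Icc (0 : ℝ) 3) :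
    rpH mH mV (3 * (i : ℝ) + t, 3 * (j : ℝ)) = ((i : ℝ) + um (mH i j) t, (j : ℝ)) := by
  have key : ∀ (i : ℕ) {t : ℝ}, 0 ≤ t → t < 3 →
      rpH mH mV (3 * (i : ℝ) + t, 3 * (j : ℝ)) = ((i : ℝ) + um (mH i j) t, (j : ℝ)) := by
    intro i t h0 h1
    unfold rpH
    simp only
    rw [rp_floor i h0 h1, rp_floor0, if_pos rfl, add_sub_cancel_left, sub_self, um_zero]
    congr 1
    split_ifs
    · ring
    · ring
  rcases eq_or_lt_of_le ht.2 with h | h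
  · have h2 := key (i + 1) le_rfl (by norm_num : (0 : ℝ) < 3)
    rw [um_zero] at h2
    rw [h, um_three]
    push_cast at h2
    rw [show 3 * (i : ℝ) + 3 = 3 * ((i : ℝ) + 1) + 0 by ring, h2]
    congr 1
    ring
  · exact key i ht.1 h

private theorem rpH_v (mH mV : ℕ → ℕ → ℝ × ℝ) (i j : ℕ) {t : ℝ} (ht : t ∈ Icc (0 : ℝ) 3) :
    rpH mH mV (3 * (i : ℝ), 3 * (j : ℝ) + t) = ((i : ℝ), (j : ℝ) + um (mV i j) t) := by
  have key : ∀ (j : ℕ) {t : ℝ}, 0 ≤ t → t < 3 →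
      rpH mH mV (3 * (i : ℝ), 3 * (j : ℝ) + t) = ((i : ℝ), (j : ℝ) + um (mV i j) t) := by
    intro j t h0 h1
    unfold rpH
    simp only
    rw [rp_floor j h0 h1, rp_floor0, if_pos rfl, add_sub_cancel_left, sub_self, um_zero]
    congr 1
    split_ifs
    · ring
    · ring
  rcases eq_or_lt_of_le ht.2 with h | h
  · have h2 := key (j + 1) le_rfl (by norm_num : (0 : ℝ) < 3)
    rw [um_zero] at h2
    rw [h, um_three]
    push_cast at h2
    rw [show 3 * (j : ℝ) + 3 = 3 * ((j : ℝ) + 1) + 0 by ring, h2]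
    congr 1
    ring
  · exact key j ht.1 h

/-- the boundary of a big square -/
private theorem mem_bd_big {s : ℕ × ℕ} {p : ℝ × ℝ} :
    p ∈ bd (bigN s) ↔ ∃ t ∈ Icc (0 : ℝ) 3,
      p = (3 * (s.1 : ℝ) + t, 3 * (s.2 : ℝ)) ∨
      p = (3 * (s.1 : ℝ) + t, 3 * ((s.2 + 1 : ℕ) : ℝ)) ∨
      p = (3 * (s.1 : ℝ), 3 * (s.2 : ℝ) + t) ∨
      p = (3 * ((s.1 + 1 : ℕ) : ℝ), 3 * (s.2 : ℝ) + t) := by
  obtain ⟨x, y⟩ := p
  rw [mem_bd_iff]
  simp only [bigN, big, cl, Set.mem_prod, Set.mem_Icc, Prod.mk.injEq]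
  push_cast
  constructor
  · rintro ⟨⟨⟨h1, h2⟩, ⟨h3, h4⟩⟩, h | h | h | h⟩
    · exact ⟨y - 3 * s.2, ⟨by linarith, by linarith⟩,
        Or.inr (Or.inr (Or.inl ⟨h, by ring⟩))⟩
    · exact ⟨y - 3 * s.2, ⟨by linarith, by linarith⟩,
        Or.inr (Or.inr (Or.inr ⟨by rw [h]; ring, by ring⟩))⟩
    · exact ⟨x - 3 * s.1, ⟨by linarith, by linarith⟩, Or.inl ⟨by ring, h⟩⟩
    · exact ⟨x - 3 * s.1, ⟨by linarith, by linarith⟩,
        Or.inr (Or.inl ⟨by ring, by rw [h]; ring⟩)⟩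
  · rintro ⟨t, ⟨h0, h1⟩, (⟨hx, hy⟩ | ⟨hx, hy⟩ | ⟨hx, hy⟩ | ⟨hx, hy⟩)⟩
    · exact ⟨⟨⟨by linarith, by linarith⟩, ⟨by linarith, by linarith⟩⟩,
        Or.inr (Or.inr (Or.inl hy))⟩
    · exact ⟨⟨⟨by linarith, by linarith⟩, ⟨by linarith, by linarith⟩⟩,
        Or.inr (Or.inr (Or.inr (by linarith)))⟩
    · exact ⟨⟨⟨by linarith, by linarith⟩, ⟨by linarith, by linarith⟩⟩, Or.inl hx⟩
    · exact ⟨⟨⟨by linarith, by linarith⟩, ⟨by linarith, by linarith⟩⟩,
        Or.inr (Or.inl (by linarith))⟩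

/-- the boundary of a unit square -/
private theorem mem_bd_sq {s : ℕ × ℕ} {p : ℝ × ℝ} :
    p ∈ bd (sqN s) ↔ ∃ t ∈ Icc (0 : ℝ) 1,
      p = ((s.1 : ℝ) + t, (s.2 : ℝ)) ∨
      p = ((s.1 : ℝ) + t, ((s.2 + 1 : ℕ) : ℝ)) ∨
      p = ((s.1 : ℝ), (s.2 : ℝ) + t) ∨
      p = (((s.1 + 1 : ℕ) : ℝ), (s.2 : ℝ) + t) := by
  obtain ⟨x, y⟩ := p
  rw [mem_bd_iff]
  simp only [sqN, sq, cl, Set.mem_prod, Set.mem_Icc, Prod.mk.injEq]
  push_cast
  constructor
  · rintro ⟨⟨⟨h1, h2⟩, ⟨h3, h4⟩⟩, h | h | h | h⟩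
    · exact ⟨y - s.2, ⟨by linarith, by linarith⟩,
        Or.inr (Or.inr (Or.inl ⟨h, by ring⟩))⟩
    · exact ⟨y - s.2, ⟨by linarith, by linarith⟩,
        Or.inr (Or.inr (Or.inr ⟨by rw [h], by ring⟩))⟩
    · exact ⟨x - s.1, ⟨by linarith, by linarith⟩, Or.inl ⟨by ring, h⟩⟩
    · exact ⟨x - s.1, ⟨by linarith, by linarith⟩,
        Or.inr (Or.inl ⟨by ring, by rw [h]⟩)⟩
  · rintro ⟨t, ⟨h0, h1⟩, (⟨hx, hy⟩ | ⟨hx, hy⟩ | ⟨hx, hy⟩ | ⟨hx, hy⟩)⟩
    · exact ⟨⟨⟨by linarith, by linarith⟩, ⟨by linarith, by linarith⟩⟩,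
        Or.inr (Or.inr (Or.inl hy))⟩
    · exact ⟨⟨⟨by linarith, by linarith⟩, ⟨by linarith, by linarith⟩⟩,
        Or.inr (Or.inr (Or.inr (by linarith)))⟩
    · exact ⟨⟨⟨by linarith, by linarith⟩, ⟨by linarith, by linarith⟩⟩, Or.inl hx⟩
    · exact ⟨⟨⟨by linarith, by linarith⟩, ⟨by linarith, by linarith⟩⟩,
        Or.inr (Or.inl (by linarith))⟩

private theorem rpH_image (mH mV : ℕ → ℕ → ℝ × ℝ)
    (hH : ∀ i j, Adm (mH i j)) (hV : ∀ i j, Adm (mV i j)) (s : ℕ × ℕ) :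
    rpH mH mV '' bd (bigN s) = bd (sqN s) := by
  ext q
  rw [mem_bd_sq]
  constructor
  · rintro ⟨p, hp, rfl⟩
    obtain ⟨t, ht, (rfl | rfl | rfl | rfl)⟩ := mem_bd_big.1 hp
    · exact ⟨um (mH s.1 s.2) t, ⟨um_nonneg (hH _ _) ht, um_le_one (hH _ _) ht⟩,
        Or.inl (rpH_h mH mV _ _ ht)⟩
    · exact ⟨um (mH s.1 (s.2 + 1)) t, ⟨um_nonneg (hH _ _) ht, um_le_one (hH _ _) ht⟩,
        Or.inr (Or.inl (rpH_h mH mV _ _ ht))⟩
    · exact ⟨um (mV s.1 s.2) t, ⟨um_nonneg (hV _ _) ht, um_le_one (hV _ _) ht⟩,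
        Or.inr (Or.inr (Or.inl (rpH_v mH mV _ _ ht)))⟩
    · exact ⟨um (mV (s.1 + 1) s.2) t, ⟨um_nonneg (hV _ _) ht, um_le_one (hV _ _) ht⟩,
        Or.inr (Or.inr (Or.inr (rpH_v mH mV _ _ ht)))⟩
  · rintro ⟨v, hv, (rfl | rfl | rfl | rfl)⟩
    · obtain ⟨t, ht, rfl⟩ := um_surj (mH s.1 s.2) hv
      exact ⟨_, mem_bd_big.2 ⟨t, ht, Or.inl rfl⟩, rpH_h mH mV _ _ ht⟩
    · obtain ⟨t, ht, rfl⟩ := um_surj (mH s.1 (s.2 + 1)) hv
      exact ⟨_, mem_bd_big.2 ⟨t, ht, Or.inr (Or.inl rfl)⟩, rpH_h mH mV _ _ ht⟩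
    · obtain ⟨t, ht, rfl⟩ := um_surj (mV s.1 s.2) hv
      exact ⟨_, mem_bd_big.2 ⟨t, ht, Or.inr (Or.inr (Or.inl rfl))⟩, rpH_v mH mV _ _ ht⟩
    · obtain ⟨t, ht, rfl⟩ := um_surj (mV (s.1 + 1) s.2) hv
      exact ⟨_, mem_bd_big.2 ⟨t, ht, Or.inr (Or.inr (Or.inr rfl))⟩, rpH_v mH mV _ _ ht⟩

/-- the points on edges -/
private def OnE (p : ℝ × ℝ) : Prop :=
  ∃ i j : ℕ, ∃ t ∈ Icc (0 : ℝ) 3,
    p = (3 * (i : ℝ) + t, 3 * (j : ℝ)) ∨ p = (3 * (i : ℝ), 3 * (j : ℝ) + t)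

private theorem onE_of_mem {s : ℕ × ℕ} {p : ℝ × ℝ} (hp : p ∈ bd (bigN s)) : OnE p := by
  obtain ⟨t, ht, (h | h | h | h)⟩ := mem_bd_big.1 hp
  · exact ⟨_, _, t, ht, Or.inl h⟩
  · exact ⟨_, _, t, ht, Or.inl h⟩
  · exact ⟨_, _, t, ht, Or.inr h⟩
  · exact ⟨_, _, t, ht, Or.inr h⟩

private theorem rpH_inj (mH mV : ℕ → ℕ → ℝ × ℝ)
    (hH : ∀ i j, Adm (mH i j)) (hV : ∀ i j, Adm (mV i j)) {p q : ℝ × ℝ} (hp : OnE p) (hq : OnE q)
    (h : rpH mH mV p = rpH mH mV q) : p = q := by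
  obtain ⟨i, j, t, ht, (rfl | rfl)⟩ := hp
  · obtain ⟨i', j', t', ht', (rfl | rfl)⟩ := hq
    · rw [rpH_h mH mV _ _ ht, rpH_h mH mV _ _ ht', Prod.mk.injEq] at h
      have h2 : j = j' := by exact_mod_cast h.2
      subst h2
      rw [um_line (m := fun i => mH i j) (fun i => hH i j) ht ht' h.1]
    · rw [rpH_h mH mV _ _ ht, rpH_v mH mV _ _ ht', Prod.mk.injEq] at h
      rw [um_int (hH _ _) ht h.1, um_int (hV _ _) ht' h.2.symm]
  · obtain ⟨i', j', t', ht', (rfl | rfl)⟩ := hq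
    · rw [rpH_v mH mV _ _ ht, rpH_h mH mV _ _ ht', Prod.mk.injEq] at h
      rw [um_int (hH _ _) ht' h.1.symm, um_int (hV _ _) ht h.2]
    · rw [rpH_v mH mV _ _ ht, rpH_v mH mV _ _ ht', Prod.mk.injEq] at h
      have h1 : i = i' := by exact_mod_cast h.1
      subst h1
      rw [um_line (m := fun j => mV i j) (fun j => hV i j) ht ht' h.2]

private theorem rpH_cont (mH mV : ℕ → ℕ → ℝ × ℝ) (s : ℕ × ℕ) :
    ContinuousOn (rpH mH mV) (bd (bigN s)) := by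
  have hh : ∀ i j : ℕ, ContinuousOn (rpH mH mV)
      (Icc (3 * (i : ℝ)) (3 * (i : ℝ) + 3) ×ˢ {3 * (j : ℝ)}) := by
    intro i j
    have h1 : Continuous fun p : ℝ × ℝ => ((i : ℝ) + um (mH i j) (p.1 - 3 * (i : ℝ)), (j : ℝ)) :=
      (continuous_const.add ((continuous_um _).comp (continuous_fst.sub continuous_const))).prodMk
        continuous_const
    refine h1.continuousOn.congr ?_
    rintro ⟨x, y⟩ ⟨⟨hx1, hx2⟩, hy⟩
    simp only [mem_singleton_iff] at hx1 hx2 hy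
    have h2 := rpH_h mH mV i j (t := x - 3 * (i : ℝ)) ⟨by linarith, by linarith⟩
    rw [add_sub_cancel] at h2
    rw [hy]
    exact h2
  have hv : ∀ i j : ℕ, ContinuousOn (rpH mH mV)
      ({3 * (i : ℝ)} ×ˢ Icc (3 * (j : ℝ)) (3 * (j : ℝ) + 3)) := by
    intro i j
    have h1 : Continuous fun p : ℝ × ℝ => ((i : ℝ), (j : ℝ) + um (mV i j) (p.2 - 3 * (j : ℝ))) :=
      continuous_const.prodMk
        (continuous_const.add ((continuous_um _).comp (continuous_snd.sub continuous_const)))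
    refine h1.continuousOn.congr ?_
    rintro ⟨x, y⟩ ⟨hx, ⟨hy1, hy2⟩⟩
    simp only [mem_singleton_iff] at hx hy1 hy2
    have h2 := rpH_v mH mV i j (t := y - 3 * (j : ℝ)) ⟨by linarith, by linarith⟩
    rw [add_sub_cancel] at h2
    rw [hx]
    exact h2
  have ch : ∀ i j : ℕ, IsClosed
      (Icc (3 * (i : ℝ)) (3 * (i : ℝ) + 3) ×ˢ ({3 * (j : ℝ)} : Set ℝ)) :=
    fun i j => isClosed_Icc.prod isClosed_singleton
  have cv : ∀ i j : ℕ, IsClosed
      (({3 * (i : ℝ)} : Set ℝ) ×ˢ Icc (3 * (j : ℝ)) (3 * (j : ℝ) + 3)) :=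
    fun i j => isClosed_singleton.prod isClosed_Icc
  have hall := (((hh s.1 s.2).union_of_isClosed (hh s.1 (s.2 + 1)) (ch _ _)
    (ch _ _)).union_of_isClosed (hv s.1 s.2) ((ch _ _).union (ch _ _)) (cv _ _)).union_of_isClosed
    (hv (s.1 + 1) s.2) (((ch _ _).union (ch _ _)).union (cv _ _)) (cv _ _)
  refine hall.mono ?_
  intro p hp
  obtain ⟨t, ⟨h0, h1⟩, (rfl | rfl | rfl | rfl)⟩ := mem_bd_big.1 hp
  · exact Or.inl (Or.inl (Or.inl ⟨⟨by simp only; linarith, by simp only; linarith⟩, rfl⟩))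
  · exact Or.inl (Or.inl (Or.inr ⟨⟨by simp only; linarith, by simp only; linarith⟩, rfl⟩))
  · exact Or.inl (Or.inr ⟨rfl, ⟨by simp only; linarith, by simp only; linarith⟩⟩)
  · exact Or.inr ⟨rfl, ⟨by simp only; linarith, by simp only; linarith⟩⟩

private theorem rpH_contG (mH mV : ℕ → ℕ → ℝ × ℝ) (G : Finset (ℕ × ℕ)) :
    ContinuousOn (rpH mH mV) (⋃ s ∈ G, bd (bigN s)) := by
  classical
  induction G using Finset.induction_on with
  | empty => simp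
  | insert a G _ ih =>
    rw [Finset.set_biUnion_insert]
    exact (rpH_cont mH mV a).union_of_isClosed ih (isCompact_bd _).isClosed
      (G.isCompact_biUnion fun s _ => isCompact_bd _).isClosed

private theorem rp_eq_of_lt {a b : ℕ} {x : ℝ} (h1 : 3 * (a : ℝ) < x) (h2 : x < 3 * (a : ℝ) + 3)
    (h3 : 3 * (b : ℝ) < x) (h4 : x < 3 * (b : ℝ) + 3) : a = b := by
  have h5 : (a : ℝ) < (b : ℝ) + 1 := by linarith
  have h6 : (b : ℝ) < (a : ℝ) + 1 := by linarith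
  have h5' : a < b + 1 := by exact_mod_cast h5
  have h6' : b < a + 1 := by exact_mod_cast h6
  omega

private theorem rp_not {a b : ℕ} (h1 : 3 * (a : ℝ) < 3 * (b : ℝ))
    (h2 : 3 * (b : ℝ) < 3 * (a : ℝ) + 3) : False := by
  have h5 : (a : ℝ) < (b : ℝ) := by linarith
  have h6 : (b : ℝ) < (a : ℝ) + 1 := by linarith
  have h5' : a < b := by exact_mod_cast h5
  have h6' : b < a + 1 := by exact_mod_cast h6
  omega

private theorem op_big_iff {s : ℕ × ℕ} {x y : ℝ} : (x, y) ∈ op (bigN s) ↔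
    (3 * (s.1 : ℝ) < x ∧ x < 3 * (s.1 : ℝ) + 3) ∧ (3 * (s.2 : ℝ) < y ∧ y < 3 * (s.2 : ℝ) + 3) :=
  Iff.rfl

theorem reparam {T : Set ℂ} {n : ℕ} {φ : ℝ × ℝ → ℂ} (N : LevelNet T n φ)
    (mH mV : ℕ → ℕ → ℝ × ℝ) (hH : ∀ i j, Adm (mH i j)) (hV : ∀ i j, Adm (mV i j)) :
    ∃ φ3 : ℝ × ℝ → ℂ, LevelNet3 T n φ3 ∧
      (∀ s ∈ Good n, φ3 '' bd (bigN s) = φ '' bd (sqN s)) ∧
      ∀ s ∈ Good n, ∀ t ∈ Icc (0 : ℝ) 3,
        φ3 (3 * (s.1 : ℝ) + t, 3 * (s.2 : ℝ)) = φ (s.1 + um (mH s.1 s.2) t, s.2) ∧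
        φ3 (3 * (s.1 : ℝ) + t, 3 * (s.2 : ℝ) + 3) = φ (s.1 + um (mH s.1 (s.2 + 1)) t, s.2 + 1) ∧
        φ3 (3 * (s.1 : ℝ), 3 * (s.2 : ℝ) + t) = φ (s.1, s.2 + um (mV s.1 s.2) t) ∧
        φ3 (3 * (s.1 : ℝ) + 3, 3 * (s.2 : ℝ) + t) = φ (s.1 + 1, s.2 + um (mV (s.1 + 1) s.2) t) := by
  classical
  have himg : ∀ s ∈ Good n, (φ ∘ rpH mH mV) '' bd (bigN s) = φ '' bd (sqN s) := by
    intro s _
    rw [image_comp, rpH_image mH mV hH hV]
  have hG : (φ ∘ rpH mH mV) '' (⋃ s ∈ Good n, bd (bigN s)) = φ '' (⋃ s ∈ Good n, bd (sqN s)) := by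
    rw [image_comp, image_iUnion₂]
    congr 1
    exact iUnion₂_congr fun s _ => rpH_image mH mV hH hV s
  have hmaps : MapsTo (rpH mH mV) (⋃ s ∈ Good n, bd (bigN s)) (⋃ s ∈ Good n, bd (sqN s)) := by
    intro p hp
    rw [mem_iUnion₂] at hp ⊢
    obtain ⟨s, hs, hp⟩ := hp
    exact ⟨s, hs, by rw [← rpH_image mH mV hH hV s]; exact mem_image_of_mem _ hp⟩
  refine ⟨φ ∘ rpH mH mV, ?_, himg, ?_⟩
  · exact {
      pos := by
        intro R hR
        obtain ⟨s, hs, rfl⟩ := Finset.mem_image.1 hR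
        refine ⟨?_, ?_⟩
        · change 3 * (s.1 : ℝ) < 3 * (s.1 : ℝ) + 3
          linarith
        · change 3 * (s.2 : ℝ) < 3 * (s.2 : ℝ) + 3
          linarith
      comp := (Good n).isCompact_biUnion fun s _ => isCompact_bd _
      bdsub := by
        intro R hR
        obtain ⟨s, hs, rfl⟩ := Finset.mem_image.1 hR
        exact subset_biUnion_of_mem (u := fun s => bd (bigN s)) (Finset.mem_coe.2 hs)
      int := by
        intro R hR
        obtain ⟨s, hs, rfl⟩ := Finset.mem_image.1 hR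
        rw [disjoint_left]
        rintro ⟨x, y⟩ hp hq
        obtain ⟨⟨h1, h2⟩, ⟨h3, h4⟩⟩ := op_big_iff.1 hp
        obtain ⟨s', hs', hq⟩ := mem_iUnion₂.1 hq
        obtain ⟨i, j, t, ht, (h | h)⟩ := onE_of_mem hq
        · rw [Prod.mk.injEq] at h
          rw [h.2] at h3 h4
          exact rp_not h3 h4
        · rw [Prod.mk.injEq] at h
          rw [h.1] at h1 h2
          exact rp_not h1 h2
      sep := by
        intro R hR R' hR' hne
        obtain ⟨s, hs, rfl⟩ := Finset.mem_image.1 hR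
        obtain ⟨s', hs', rfl⟩ := Finset.mem_image.1 hR'
        rw [disjoint_left]
        rintro ⟨x, y⟩ hp hq
        obtain ⟨⟨h1, h2⟩, ⟨h3, h4⟩⟩ := op_big_iff.1 hp
        obtain ⟨⟨h5, h6⟩, ⟨h7, h8⟩⟩ := op_big_iff.1 hq
        apply hne
        rw [Prod.ext (rp_eq_of_lt h1 h2 h5 h6) (rp_eq_of_lt h3 h4 h7 h8)]
      cont := N.cont.comp (rpH_contG mH mV _) hmaps
      inj := by
        intro p hp q hq hpq
        obtain ⟨s, hs, hp'⟩ := mem_iUnion₂.1 hp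
        obtain ⟨s', hs', hq'⟩ := mem_iUnion₂.1 hq
        exact rpH_inj mH mV hH hV (onE_of_mem hp') (onE_of_mem hq')
          (N.inj (hmaps hp) (hmaps hq) hpq)
      mapT := N.mapT.comp hmaps
      face := by
        intro R hR
        obtain ⟨s, hs, rfl⟩ := Finset.mem_image.1 hR
        rw [himg s hs, hG]
        exact N.face _ (Finset.mem_image_of_mem _ hs)
      disj := by
        intro R hR R' hR' hne
        obtain ⟨s, hs, rfl⟩ := Finset.mem_image.1 hR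
        obtain ⟨s', hs', rfl⟩ := Finset.mem_image.1 hR'
        rw [himg s hs, himg s' hs']
        refine N.disj _ (Finset.mem_image_of_mem _ hs) _ (Finset.mem_image_of_mem _ hs') ?_
        intro he
        apply hne
        have h1 : (s.1 : ℝ) = (s'.1 : ℝ) := congrArg (fun R : Rect => R.1.1) he
        have h2 : (s.2 : ℝ) = (s'.2 : ℝ) := congrArg (fun R : Rect => R.2.1) he
        rw [Prod.ext (Nat.cast_injective h1) (Nat.cast_injective h2)] }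
  · intro s _ t ht
    have e1 : (3 : ℝ) * (s.2 : ℝ) + 3 = 3 * ((s.2 + 1 : ℕ) : ℝ) := by push_cast; ring
    have e2 : (3 : ℝ) * (s.1 : ℝ) + 3 = 3 * ((s.1 + 1 : ℕ) : ℝ) := by push_cast; ring
    refine ⟨?_, ?_, ?_, ?_⟩
    · rw [Function.comp_apply, rpH_h mH mV _ _ ht]
    · rw [Function.comp_apply, e1, rpH_h mH mV _ _ ht]
      push_cast
      rfl
    · rw [Function.comp_apply, rpH_v mH mV _ _ ht]
    · rw [Function.comp_apply, e2, rpH_v mH mV _ _ ht]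
      push_cast
      rfl

end CarT
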