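import Pool.Agent.CarT.LvlA
import Pool.Agent.CarT.Rep
import Pool.Agent.CarT.Marks
import Pool.Agent.CarT.KidsA
import Pool.Agent.CarT.KidsB
import Pool.Agent.CarT.KidsC

/-!
# CarT/LvlB : one step of the subdivision of a level net

`thin_step`. For every horizontal edge `f = hE φ i j` choose marks `mH i j`: if `f` is continuous on
`[0,1]` and `SS σ (w+2) f`, those of `marks_thin`, otherwise `(1/3, 2/3)`; the same for `mV i j` and
`vE φ i j`. `reparam` gives `φ3`. Every side of every `s ∈ Good n` is contained in `bd (sqN s) ⊆ Γ`, so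
it is continuous. Check `Ready σ w φ3` for `s`:
* `Small σ φ`: two points of `bd (bigN s)` have values in `φ '' bd (sqN s)`; `small_kids` (left case).
* `ThinH σ (w+2) φ`: all four sides satisfy `SS σ (w+2)` (the short ones by the first alternative), so
  `M3 σ w` for the four sides of `bigN s` by `marks_thin` and the formulas of `reparam`; `sl, sr` from
  `Sh (2σ)` and `um_mem`. `thin_kidsH` (left case).
* `ThinV`: `thin_kidsV` (right case).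
`level_step` gives the result; `disc φ3 (bigN s) = disc φ (sqN s)` because the images of the boundaries are
equal.

`first_step`. For every edge which is continuous choose marks and a weight by `marks_first`; let `w` be
the maximum of the weights over the finitely many sides of the squares of `Good n`. `first_kids`
gives `Ready σ (w + 2) φ3` for all `s`.
-/

open Set Metric

namespace CarT

private theorem Sh_congr {σ : ℝ} {f g : ℝ → ℂ} (h : ∀ t ∈ Icc (0 : ℝ) 1, f t = g t) (hf : Sh σ f) :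
    Sh σ g := by
  intro s hs t ht
  rw [← h s hs, ← h t ht]
  exact hf s hs t ht

private theorem Wt_congr {σ : ℝ} {w : ℕ} {f g : ℝ → ℂ} (h : ∀ t ∈ Icc (0 : ℝ) 1, f t = g t)
    (hf : Wt σ w f) : Wt σ w g := by
  obtain ⟨τ, h1, h2, h3, h4⟩ := hf
  refine ⟨τ, h1, h2, h3, fun i hi s hs t ht => ?_⟩
  have key : ∀ u ∈ Icc (τ i) (τ (i + 1)), u ∈ Icc (0 : ℝ) 1 := by
    intro u hu
    refine ⟨?_, ?_⟩
    · rw [← h2]
      exact (h1 (Nat.zero_le i)).trans hu.1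
    · rw [← h3]
      exact hu.2.trans (h1 hi)
  rw [← h s (key s hs), ← h t (key t ht)]
  exact h4 i hi s hs t ht

private theorem SS_congr {σ : ℝ} {w : ℕ} {f g : ℝ → ℂ} (h : ∀ t ∈ Icc (0 : ℝ) 1, f t = g t)
    (hf : SS σ w f) : SS σ w g :=
  hf.imp (Sh_congr h) (Wt_congr h)

private theorem M3_congr {σ : ℝ} {w : ℕ} {f g : ℝ → ℂ} (h : ∀ t ∈ Icc (0 : ℝ) 3, f t = g t)
    (hf : M3 σ w f) : M3 σ w g := by
  have e1 : ∀ t ∈ Icc (0 : ℝ) 1, t ∈ Icc (0 : ℝ) 3 := fun t ht => ⟨ht.1, by linarith [ht.2]⟩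
  have e2 : ∀ t ∈ Icc (2 : ℝ) 3, t ∈ Icc (0 : ℝ) 3 := fun t ht => ⟨by linarith [ht.1], ht.2⟩
  refine ⟨?_, ?_, ?_, ?_⟩
  · intro s hs t ht
    rw [← h s (e1 s hs), ← h t (e1 t ht)]
    exact hf.fst s hs t ht
  · intro s hs t ht
    rw [← h s (e2 s hs), ← h t (e2 t ht)]
    exact hf.lst s hs t ht
  · intro hg
    have h1 := hf.tiny (fun s hs t ht => by
      rw [h s hs, h t ht]
      exact hg s hs t ht)
    refine ⟨fun s hs t ht => ?_, fun s hs t ht => ?_⟩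
    · rw [← h s (e1 s hs), ← h t (e1 t ht)]
      exact h1.1 s hs t ht
    · rw [← h s (e2 s hs), ← h t (e2 t ht)]
      exact h1.2 s hs t ht
  · exact SS_congr (fun t ht => h (1 + t) ⟨by linarith [ht.1], by linarith [ht.2]⟩) hf.mid

private theorem M1_congr {σ : ℝ} {w : ℕ} {f g : ℝ → ℂ} (h : ∀ t ∈ Icc (0 : ℝ) 3, f t = g t)
    (hf : M1 σ w f) : M1 σ w g := by
  have e1 : ∀ t ∈ Icc (0 : ℝ) 1, t ∈ Icc (0 : ℝ) 3 := fun t ht => ⟨ht.1, by linarith [ht.2]⟩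
  have e2 : ∀ t ∈ Icc (2 : ℝ) 3, t ∈ Icc (0 : ℝ) 3 := fun t ht => ⟨by linarith [ht.1], ht.2⟩
  refine ⟨?_, ?_, ?_⟩
  · intro s hs t ht
    rw [← h s (e1 s hs), ← h t (e1 t ht)]
    exact hf.fst s hs t ht
  · intro s hs t ht
    rw [← h s (e2 s hs), ← h t (e2 t ht)]
    exact hf.lst s hs t ht
  · exact Wt_congr (fun t ht => h (1 + t) ⟨by linarith [ht.1], by linarith [ht.2]⟩) hf.mid

private theorem cont_sides {φ : ℝ × ℝ → ℂ} {x y : ℝ} (hc : ContinuousOn φ (bd (sq x y))) :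
    ContinuousOn (hE φ x y) (Icc 0 1) ∧ ContinuousOn (hE φ x (y + 1)) (Icc 0 1) ∧
      ContinuousOn (vE φ x y) (Icc 0 1) ∧ ContinuousOn (vE φ (x + 1) y) (Icc 0 1) := by
  have key : ∀ a b : ℝ, x ≤ a → a ≤ x + 1 → y ≤ b → b ≤ y + 1 →
      (a = x ∨ a = x + 1 ∨ b = y ∨ b = y + 1) → ((a, b) : ℝ × ℝ) ∈ bd (sq x y) := by
    intro a b h1 h2 h3 h4 h5
    rw [mem_bd_iff]
    exact ⟨⟨⟨h1, h2⟩, ⟨h3, h4⟩⟩, h5⟩
  refine ⟨?_, ?_, ?_, ?_⟩
  · refine hc.comp (f := fun t : ℝ => ((x + t, y) : ℝ × ℝ)) (by fun_prop) fun t ht => ?_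
    exact key (x + t) y (by linarith [ht.1]) (by linarith [ht.2]) le_rfl (by linarith)
      (Or.inr (Or.inr (Or.inl rfl)))
  · refine hc.comp (f := fun t : ℝ => ((x + t, y + 1) : ℝ × ℝ)) (by fun_prop) fun t ht => ?_
    exact key (x + t) (y + 1) (by linarith [ht.1]) (by linarith [ht.2]) (by linarith) le_rfl
      (Or.inr (Or.inr (Or.inr rfl)))
  · refine hc.comp (f := fun t : ℝ => ((x, y + t) : ℝ × ℝ)) (by fun_prop) fun t ht => ?_
    exact key x (y + t) le_rfl (by linarith) (by linarith [ht.1]) (by linarith [ht.2])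
      (Or.inl rfl)
  · refine hc.comp (f := fun t : ℝ => ((x + 1, y + t) : ℝ × ℝ)) (by fun_prop) fun t ht => ?_
    exact key (x + 1) (y + t) (by linarith) le_rfl (by linarith [ht.1]) (by linarith [ht.2])
      (Or.inr (Or.inl rfl))

private theorem cont_sq {T : Set ℂ} {n : ℕ} {φ : ℝ × ℝ → ℂ} (N : LevelNet T n φ) {s : ℕ × ℕ}
    (hs : s ∈ Good n) : ContinuousOn φ (bd (sq (s.1 : ℝ) (s.2 : ℝ))) :=
  N.cont.mono (subset_biUnion_of_mem (u := fun s : ℕ × ℕ => bd (sqN s)) hs)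

private theorem cont_big {T : Set ℂ} {n : ℕ} {φ : ℝ × ℝ → ℂ} (N : LevelNet3 T n φ) {s : ℕ × ℕ}
    (hs : s ∈ Good n) : ContinuousOn φ (bd (big (3 * (s.1 : ℝ)) (3 * (s.2 : ℝ)))) :=
  N.cont.mono (subset_biUnion_of_mem (u := fun s : ℕ × ℕ => bd (bigN s)) hs)

private theorem nested_of {n : ℕ} {φ φ3 φ' : ℝ × ℝ → ℂ}
    (h1 : ∀ s ∈ Good n, φ3 '' bd (bigN s) = φ '' bd (sqN s))
    (h2 : ∀ s ∈ Good n, ∀ o ∈ off, disc φ' (sqN (kidN s o)) ⊆ disc φ3 (bigN s)) :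
    Nested n φ φ' := by
  intro s hs o ho
  have h3 := h2 s hs o ho
  unfold disc at h3 ⊢
  rwa [h1 s hs] at h3

theorem thin_step {W T : Set ℂ} {c : ℂ → Set ℂ} (h : Sys W T c) {n : ℕ} {φ : ℝ × ℝ → ℂ}
    (N : LevelNet T n φ) {σ : ℝ} (hσ : 0 < σ) {w : ℕ} (hw : 1 ≤ w)
    (hT : ∀ s ∈ Good n, TT σ (w + 2) φ (s.1 : ℝ) (s.2 : ℝ)) :
    ∃ φ' : ℝ × ℝ → ℂ, LevelNet T (n + 1) φ' ∧ Nested n φ φ' ∧
      ∀ s ∈ Good (n + 1), TT σ w φ' (s.1 : ℝ) (s.2 : ℝ) := by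
  have hex : ∀ f : ℝ → ℂ, ∃ m : ℝ × ℝ, Adm m ∧
      (ContinuousOn f (Icc 0 1) → SS σ (w + 2) f → M3 σ w (fun t => f (um m t))) := by
    intro f
    by_cases hf : ContinuousOn f (Icc 0 1) ∧ SS σ (w + 2) f
    · obtain ⟨m, hm1, hm2⟩ := marks_thin hσ hw hf.1 hf.2
      exact ⟨m, hm1, fun _ _ => hm2⟩
    · refine ⟨(1 / 3, 2 / 3), ⟨by norm_num, by norm_num, by norm_num⟩, fun h1 h2 => ?_⟩
      exact absurd ⟨h1, h2⟩ hf
  choose m hm1 hm2 using hex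
  obtain ⟨φ3, N3, him, hφ3⟩ := reparam N (fun i j => m (hE φ i j)) (fun i j => m (vE φ i j))
    (fun i j => hm1 _) (fun i j => hm1 _)
  have hready : ∀ s ∈ Good n, Ready σ w φ3 (3 * (s.1 : ℝ)) (3 * (s.2 : ℝ)) := by
    intro s hs
    have hc := cont_big N3 hs
    obtain ⟨c1, c2, c3, c4⟩ := cont_sides (cont_sq N hs)
    have hform := hφ3 s hs
    -- the sides
    have fb : ∀ t ∈ Icc (0 : ℝ) 3, hE φ s.1 s.2 (um (m (hE φ s.1 s.2)) t) =
        φ3 (3 * (s.1 : ℝ) + t, 3 * (s.2 : ℝ)) := fun t ht => (hform t ht).1.symm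
    have ft : ∀ t ∈ Icc (0 : ℝ) 3, hE φ s.1 ((s.2 : ℝ) + 1) (um (m (hE φ s.1 ((s.2 : ℝ) + 1))) t) =
        φ3 (3 * (s.1 : ℝ) + t, 3 * (s.2 : ℝ) + 3) := by
      intro t ht
      have h1 := (hform t ht).2.1.symm
      simp only [Nat.cast_add, Nat.cast_one] at h1
      exact h1
    have fl : ∀ t ∈ Icc (0 : ℝ) 3, vE φ s.1 s.2 (um (m (vE φ s.1 s.2)) t) =
        φ3 (3 * (s.1 : ℝ), 3 * (s.2 : ℝ) + t) := fun t ht => (hform t ht).2.2.1.symm
    have fr : ∀ t ∈ Icc (0 : ℝ) 3, vE φ ((s.1 : ℝ) + 1) s.2 (um (m (vE φ ((s.1 : ℝ) + 1) s.2)) t) =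
        φ3 (3 * (s.1 : ℝ) + 3, 3 * (s.2 : ℝ) + t) := by
      intro t ht
      have h1 := (hform t ht).2.2.2.symm
      simp only [Nat.cast_add, Nat.cast_one] at h1
      exact h1
    rcases hT s hs with h1 | h1 | h1
    · refine Or.inl (small_kids (w := w) hc ?_)
      intro p hp q hq
      have hp' : φ3 p ∈ φ '' bd (sqN s) := by
        rw [← him s hs]
        exact mem_image_of_mem _ hp
      have hq' : φ3 q ∈ φ '' bd (sqN s) := by
        rw [← him s hs]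
        exact mem_image_of_mem _ hq
      obtain ⟨p', hp1, hp2⟩ := hp'
      obtain ⟨q', hq1, hq2⟩ := hq'
      rw [← hp2, ← hq2]
      exact h1 p' hp1 q' hq1
    · obtain ⟨a1, a2, a3, a4⟩ := h1
      refine Or.inl (thin_kidsH hσ hc (M3_congr fl (hm2 _ c3 (Or.inl a1)))
        (M3_congr fr (hm2 _ c4 (Or.inl a2))) (M3_congr fb (hm2 _ c1 a3))
        (M3_congr ft (hm2 _ c2 a4)) ?_ ?_)
      · intro u hu v hv
        rw [← fl u hu, ← fl v hv]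
        exact a1 _ (um_mem (hm1 _)) _ (um_mem (hm1 _))
      · intro u hu v hv
        rw [← fr u hu, ← fr v hv]
        exact a2 _ (um_mem (hm1 _)) _ (um_mem (hm1 _))
    · obtain ⟨a1, a2, a3, a4⟩ := h1
      refine Or.inr (thin_kidsV hσ hc (M3_congr fl (hm2 _ c3 a3))
        (M3_congr fr (hm2 _ c4 a4)) (M3_congr fb (hm2 _ c1 (Or.inl a1)))
        (M3_congr ft (hm2 _ c2 (Or.inl a2))) ?_ ?_)
      · intro u hu v hv
        rw [← fb u hu, ← fb v hv]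
        exact a1 _ (um_mem (hm1 _)) _ (um_mem (hm1 _))
      · intro u hu v hv
        rw [← ft u hu, ← ft v hv]
        exact a2 _ (um_mem (hm1 _)) _ (um_mem (hm1 _))
  obtain ⟨φ', N', hd, htt⟩ := level_step h N3 hready
  exact ⟨φ', N', nested_of him hd, htt⟩

theorem first_step {W T : Set ℂ} {c : ℂ → Set ℂ} (h : Sys W T c) {n : ℕ} {φ : ℝ × ℝ → ℂ}
    (N : LevelNet T n φ) {σ : ℝ} (hσ : 0 < σ) :
    ∃ (φ' : ℝ × ℝ → ℂ) (w : ℕ), LevelNet T (n + 1) φ' ∧ Nested n φ φ' ∧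
      ∀ s ∈ Good (n + 1), TT σ w φ' (s.1 : ℝ) (s.2 : ℝ) := by
  have hex : ∀ f : ℝ → ℂ, ∃ (m : ℝ × ℝ) (w : ℕ), Adm m ∧
      (ContinuousOn f (Icc 0 1) → ∀ w' ≥ w, M1 σ w' (fun t => f (um m t))) := by
    intro f
    by_cases hf : ContinuousOn f (Icc 0 1)
    · obtain ⟨m, w, hm1, hm2⟩ := marks_first hσ hf
      exact ⟨m, w, hm1, fun _ => hm2⟩
    · refine ⟨(1 / 3, 2 / 3), 0, ⟨by norm_num, by norm_num, by norm_num⟩, fun h1 => ?_⟩
      exact absurd h1 hf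
  choose m ww hm1 hm2 using hex
  obtain ⟨φ3, N3, him, hφ3⟩ := reparam N (fun i j => m (hE φ i j)) (fun i j => m (vE φ i j))
    (fun i j => hm1 _) (fun i j => hm1 _)
  set w : ℕ := ∑ s ∈ Good n, (ww (hE φ s.1 s.2) + ww (hE φ s.1 ((s.2 : ℝ) + 1)) +
    ww (vE φ s.1 s.2) + ww (vE φ ((s.1 : ℝ) + 1) s.2)) with hwdef
  have hready : ∀ s ∈ Good n, Ready σ (w + 2) φ3 (3 * (s.1 : ℝ)) (3 * (s.2 : ℝ)) := by
    intro s hs
    have hc := cont_big N3 hs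
    obtain ⟨c1, c2, c3, c4⟩ := cont_sides (cont_sq N hs)
    have hform := hφ3 s hs
    have hle : ww (hE φ s.1 s.2) + ww (hE φ s.1 ((s.2 : ℝ) + 1)) +
        ww (vE φ s.1 s.2) + ww (vE φ ((s.1 : ℝ) + 1) s.2) ≤ w := by
      rw [hwdef]
      exact Finset.single_le_sum (f := fun s : ℕ × ℕ => ww (hE φ s.1 s.2) +
        ww (hE φ s.1 ((s.2 : ℝ) + 1)) + ww (vE φ s.1 s.2) + ww (vE φ ((s.1 : ℝ) + 1) s.2))
        (fun _ _ => Nat.zero_le _) hs
    have fb : ∀ t ∈ Icc (0 : ℝ) 3, hE φ s.1 s.2 (um (m (hE φ s.1 s.2)) t) =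
        φ3 (3 * (s.1 : ℝ) + t, 3 * (s.2 : ℝ)) := fun t ht => (hform t ht).1.symm
    have ft : ∀ t ∈ Icc (0 : ℝ) 3, hE φ s.1 ((s.2 : ℝ) + 1) (um (m (hE φ s.1 ((s.2 : ℝ) + 1))) t) =
        φ3 (3 * (s.1 : ℝ) + t, 3 * (s.2 : ℝ) + 3) := by
      intro t ht
      have h1 := (hform t ht).2.1.symm
      simp only [Nat.cast_add, Nat.cast_one] at h1
      exact h1
    have fl : ∀ t ∈ Icc (0 : ℝ) 3, vE φ s.1 s.2 (um (m (vE φ s.1 s.2)) t) =
        φ3 (3 * (s.1 : ℝ), 3 * (s.2 : ℝ) + t) := fun t ht => (hform t ht).2.2.1.symm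
    have fr : ∀ t ∈ Icc (0 : ℝ) 3, vE φ ((s.1 : ℝ) + 1) s.2 (um (m (vE φ ((s.1 : ℝ) + 1) s.2)) t) =
        φ3 (3 * (s.1 : ℝ) + 3, 3 * (s.2 : ℝ) + t) := by
      intro t ht
      have h1 := (hform t ht).2.2.2.symm
      simp only [Nat.cast_add, Nat.cast_one] at h1
      exact h1
    exact Or.inl (first_kids hσ hc (M1_congr fl (hm2 _ c3 w (by omega)))
      (M1_congr fr (hm2 _ c4 w (by omega))) (M1_congr fb (hm2 _ c1 w (by omega)))
      (M1_congr ft (hm2 _ c2 w (by omega))))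
  obtain ⟨φ', N', hd, htt⟩ := level_step h N3 hready
  exact ⟨φ', w + 2, N', nested_of him hd, htt⟩

end CarT
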