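import Pool.Agent.CarT.LvlB
import Pool.Agent.CarT.JorA
import Pool.Agent.CarT.OutA

/-!
# CarT/LvlC : the starting net and the sequence of nets

* `level_zero`: `arcs_of_isJordan`: `J = A ∪ B`, arcs from `x` to `y`, `A ∩ B = {x, y}`, parametrised by
  `f`, `g` on `[0,1]`. `Good 0 = {(0,0)}`, `Γ = bd (sq 0 0)`. Put
  `φ (a, b) = f ((a + b)/2)` if `b ≤ a`, `g ((a + b)/2)` otherwise. On the lower right half
  `{p ∈ bd | p.2 ≤ p.1}` (bottom and right side) the map `(a + b)/2` is a bijection onto `[0,1]`, the same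
  for the upper left half (left and top side); the two closed halves meet in `(0,0)` and `(1,1)`, where
  the formulas agree. So `φ` is continuous and injective on `bd (sq 0 0)` with image `J`.
  `face`: `ins J` is disjoint from `J`.
* `exists_seq`: states `(φ, m, w)` at level `n` with `LevelNet T n φ` and
  `∀ s ∈ Good n, TT ((1/2)^m) w φ s`. Start: `first_step` with `σ = 1` from `level_zero` (so start the
  sequence at level `1`, or start at level `0` with any `w` such that ...: simplest: state at level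
  `n + 1`, and put `φ 0` = the map of `level_zero`). Step: if `w ≥ 3`, `thin_step` with `w = (w - 2) + 2`,
  `w - 2 ≥ 1`: new state `(φ', m, w - 2)`; if `w ≤ 2`: `first_step` with `σ = (1/2)^(m+1)`: new state
  `(φ', m + 1, w')`. The number `m` becomes arbitrarily large (strong induction on `w`: from a state
  `(φ, m, w)` one reaches a state with `m + 1`). When `w ≤ 2`, all squares are small (`tt_small`):
  two points of `φ '' bd (sqN s)` have distance `< 8 (1/2)^m`, hence two points of `disc φ (sqN s)` have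
  distance `≤ 8 (1/2)^m` (`ins_diam`).
-/

open Set Metric

namespace CarT

private theorem LvlC_bd {p : ℝ × ℝ} (hp : p ∈ bd (sqN (0, 0))) :
    (0 ≤ p.1 ∧ p.1 ≤ 1 ∧ 0 ≤ p.2 ∧ p.2 ≤ 1) ∧ (p.1 = 0 ∨ p.1 = 1 ∨ p.2 = 0 ∨ p.2 = 1) := by
  rw [mem_bd_iff] at hp
  unfold sqN sq cl at hp
  simp only [Nat.cast_zero, zero_add, mem_prod, mem_Icc] at hp
  exact ⟨⟨hp.1.1.1, hp.1.1.2, hp.1.2.1, hp.1.2.2⟩, hp.2⟩

private theorem LvlC_low {p : ℝ × ℝ} (hp : p ∈ bd (sqN (0, 0))) (h : p.2 ≤ p.1) :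
    p.2 = 0 ∨ p.1 = 1 := by
  obtain ⟨⟨h1, h2, h3, h4⟩, h5⟩ := LvlC_bd hp
  rcases h5 with h5 | h5 | h5 | h5
  · left
    linarith
  · right
    exact h5
  · left
    exact h5
  · right
    linarith

private theorem LvlC_up {p : ℝ × ℝ} (hp : p ∈ bd (sqN (0, 0))) (h : p.1 ≤ p.2) :
    p.1 = 0 ∨ p.2 = 1 := by
  obtain ⟨⟨h1, h2, h3, h4⟩, h5⟩ := LvlC_bd hp
  rcases h5 with h5 | h5 | h5 | h5
  · left
    exact h5
  · right
    linarith
  · left
    linarith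
  · right
    exact h5

private theorem LvlC_inj_low {p q : ℝ × ℝ} (hp : p ∈ bd (sqN (0, 0))) (hq : q ∈ bd (sqN (0, 0)))
    (hp2 : p.2 ≤ p.1) (hq2 : q.2 ≤ q.1) (h : (p.1 + p.2) / 2 = (q.1 + q.2) / 2) : p = q := by
  obtain ⟨⟨h1, h2, h3, h4⟩, -⟩ := LvlC_bd hp
  obtain ⟨⟨k1, k2, k3, k4⟩, -⟩ := LvlC_bd hq
  rcases LvlC_low hp hp2 with a | a <;> rcases LvlC_low hq hq2 with b | b <;>
    exact Prod.ext (by linarith) (by linarith)

private theorem LvlC_inj_up {p q : ℝ × ℝ} (hp : p ∈ bd (sqN (0, 0))) (hq : q ∈ bd (sqN (0, 0)))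
    (hp2 : p.1 ≤ p.2) (hq2 : q.1 ≤ q.2) (h : (p.1 + p.2) / 2 = (q.1 + q.2) / 2) : p = q := by
  obtain ⟨⟨h1, h2, h3, h4⟩, -⟩ := LvlC_bd hp
  obtain ⟨⟨k1, k2, k3, k4⟩, -⟩ := LvlC_bd hq
  rcases LvlC_up hp hp2 with a | a <;> rcases LvlC_up hq hq2 with b | b <;>
    exact Prod.ext (by linarith) (by linarith)

theorem level_zero {T : Set ℂ} {J : Set ℂ} (hJ : IsJordan J) (hJT : J ⊆ T) :
    ∃ φ : ℝ × ℝ → ℂ, LevelNet T 0 φ := by
  classical
  obtain ⟨A, B, x, y, ⟨f, hf, hfi, hfA, hf0, hf1⟩, ⟨g, hg, hgi, hgB, hg0, hg1⟩, hAB, hABJ⟩ :=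
    arcs_of_isJordan hJ
  obtain ⟨φ, hφ⟩ : ∃ φ : ℝ × ℝ → ℂ, φ = fun p =>
      if p.2 ≤ p.1 then f ((p.1 + p.2) / 2) else g ((p.1 + p.2) / 2) := ⟨_, rfl⟩
  obtain ⟨K, hK⟩ : ∃ K : Set (ℝ × ℝ), K = bd (sqN (0, 0)) := ⟨_, rfl⟩
  have hh : ∀ p ∈ K, (p.1 + p.2) / 2 ∈ Icc (0 : ℝ) 1 := by
    intro p hp
    rw [hK] at hp
    obtain ⟨⟨h1, h2, h3, h4⟩, -⟩ := LvlC_bd hp
    exact ⟨by linarith, by linarith⟩
  have hlow : ∀ p ∈ K, p.2 ≤ p.1 → φ p = f ((p.1 + p.2) / 2) := by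
    intro p _ h
    rw [hφ]
    exact if_pos h
  have hup : ∀ p ∈ K, p.1 ≤ p.2 → φ p = g ((p.1 + p.2) / 2) := by
    intro p hp h
    rcases eq_or_lt_of_le h with h1 | h1
    · rw [hlow p hp h1.ge]
      rw [hK] at hp
      obtain ⟨-, h5⟩ := LvlC_bd hp
      have h6 : (p.1 + p.2) / 2 = 0 ∨ (p.1 + p.2) / 2 = 1 := by
        rcases h5 with h5 | h5 | h5 | h5
        · left
          linarith
        · right
          linarith
        · left
          linarith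
        · right
          linarith
      rcases h6 with h6 | h6
      · rw [h6, hf0, hg0]
      · rw [h6, hf1, hg1]
    · rw [hφ]
      exact if_neg (not_le.2 h1)
  have hfm : ∀ t ∈ Icc (0 : ℝ) 1, f t ∈ A := fun t ht => by
    rw [← hfA]
    exact mem_image_of_mem f ht
  have hgm : ∀ t ∈ Icc (0 : ℝ) 1, g t ∈ B := fun t ht => by
    rw [← hgB]
    exact mem_image_of_mem g ht
  have h01 : (0 : ℝ) ∈ Icc (0 : ℝ) 1 := ⟨le_rfl, zero_le_one⟩
  have h11 : (1 : ℝ) ∈ Icc (0 : ℝ) 1 := ⟨zero_le_one, le_rfl⟩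
  have hcross : ∀ p ∈ K, ∀ q ∈ K, p.2 ≤ p.1 → q.1 ≤ q.2 → φ p = φ q → p = q := by
    intro p hp q hq h1 h2 h
    rw [hlow p hp h1, hup q hq h2] at h
    have h3 : f ((p.1 + p.2) / 2) ∈ A ∩ B := ⟨hfm _ (hh p hp), h ▸ hgm _ (hh q hq)⟩
    rw [hAB] at h3
    rw [hK] at hp hq
    obtain ⟨⟨a1, a2, a3, a4⟩, -⟩ := LvlC_bd hp
    obtain ⟨⟨b1, b2, b3, b4⟩, -⟩ := LvlC_bd hq
    rw [← hK] at hp hq
    rcases h3 with h3 | h3
    · have h4 : (p.1 + p.2) / 2 = 0 := hfi (hh p hp) h01 (by rw [h3, hf0])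
      have h5 : (q.1 + q.2) / 2 = 0 := hgi (hh q hq) h01 (by rw [← h, h3, hg0])
      exact Prod.ext (by linarith) (by linarith)
    · have h3' : f ((p.1 + p.2) / 2) = y := h3
      have h4 : (p.1 + p.2) / 2 = 1 := hfi (hh p hp) h11 (by rw [h3', hf1])
      have h5 : (q.1 + q.2) / 2 = 1 := hgi (hh q hq) h11 (by rw [← h, h3', hg1])
      exact Prod.ext (by linarith) (by linarith)
  have hinj : InjOn φ K := by
    intro p hp q hq h
    rcases le_total p.2 p.1 with h1 | h1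
    · rcases le_total q.2 q.1 with h2 | h2
      · have h' := h
        rw [hlow p hp h1, hlow q hq h2] at h'
        exact LvlC_inj_low (hK ▸ hp) (hK ▸ hq) h1 h2 (hfi (hh p hp) (hh q hq) h')
      · exact hcross p hp q hq h1 h2 h
    · rcases le_total q.2 q.1 with h2 | h2
      · exact (hcross q hq p hp h2 h1 h.symm).symm
      · have h' := h
        rw [hup p hp h1, hup q hq h2] at h'
        exact LvlC_inj_up (hK ▸ hp) (hK ▸ hq) h1 h2 (hgi (hh p hp) (hh q hq) h')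
  have hKc : IsCompact K := by
    rw [hK]
    exact isCompact_bd _
  have hc1 : ContinuousOn φ (K ∩ {p | p.2 ≤ p.1}) := by
    have h1 : ContinuousOn (fun p : ℝ × ℝ => f ((p.1 + p.2) / 2)) (K ∩ {p | p.2 ≤ p.1}) :=
      hf.comp (by fun_prop) fun p hp => hh p hp.1
    exact h1.congr fun p hp => hlow p hp.1 hp.2
  have hc2 : ContinuousOn φ (K ∩ {p | p.1 ≤ p.2}) := by
    have h1 : ContinuousOn (fun p : ℝ × ℝ => g ((p.1 + p.2) / 2)) (K ∩ {p | p.1 ≤ p.2}) :=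
      hg.comp (by fun_prop) fun p hp => hh p hp.1
    exact h1.congr fun p hp => hup p hp.1 hp.2
  have hcont : ContinuousOn φ K := by
    have h1 : K = (K ∩ {p | p.2 ≤ p.1}) ∪ (K ∩ {p | p.1 ≤ p.2}) := by
      ext p
      constructor
      · intro hp
        rcases le_total p.2 p.1 with h | h
        · exact Or.inl ⟨hp, h⟩
        · exact Or.inr ⟨hp, h⟩
      · rintro (hp | hp)
        · exact hp.1
        · exact hp.1
    rw [h1]
    exact hc1.union_of_isClosed hc2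
      (hKc.isClosed.inter (isClosed_le continuous_snd continuous_fst))
      (hKc.isClosed.inter (isClosed_le continuous_fst continuous_snd))
  have hT : MapsTo φ K T := by
    intro p hp
    refine hJT ?_
    rw [← hABJ]
    rcases le_total p.2 p.1 with h | h
    · left
      rw [hlow p hp h]
      exact hfm _ (hh p hp)
    · right
      rw [hup p hp h]
      exact hgm _ (hh p hp)
  have hΓ : (⋃ s ∈ Good 0, bd (sqN s)) = K := by
    rw [hK]
    simp [Good]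
  have hQ : ∀ R ∈ (Good 0).image sqN, R = sqN (0, 0) := by
    intro R hR
    simpa [Good] using hR
  refine ⟨φ, ?_⟩
  unfold LevelNet
  rw [hΓ]
  refine ⟨?_, hKc, ?_, ?_, ?_, hcont, hinj, hT, ?_, ?_⟩
  · intro R hR
    rw [hQ R hR]
    unfold sqN sq
    constructor <;> simp
  · intro R hR
    rw [hQ R hR, hK]
  · intro R hR
    rw [hQ R hR, hK]
    unfold bd
    exact disjoint_sdiff_right
  · intro R hR R' hR' hne
    exact absurd ((hQ R hR).trans (hQ R' hR').symm) hne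
  · intro R hR
    rw [hQ R hR, hK]
    rw [Set.disjoint_left]
    intro z hz
    exact hz.1
  · intro R hR R' hR' hne
    exact absurd ((hQ R hR).trans (hQ R' hR').symm) hne

/-- the states at level `n + 1` -/
private def LvlC_P (T : Set ℂ) (n : ℕ) (a : (ℝ × ℝ → ℂ) × ℕ × ℕ) : Prop :=
  LevelNet T (n + 1) a.1 ∧
    ∀ s ∈ Good (n + 1), TT ((1 / 2) ^ a.2.1) a.2.2 a.1 (s.1 : ℝ) (s.2 : ℝ)

private theorem LvlC_step {W T : Set ℂ} {c : ℂ → Set ℂ} (h : Sys W T c) {n : ℕ}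
    (a : (ℝ × ℝ → ℂ) × ℕ × ℕ) (ha : LvlC_P T n a) :
    ∃ b : (ℝ × ℝ → ℂ) × ℕ × ℕ, LvlC_P T (n + 1) b ∧ Nested (n + 1) a.1 b.1 ∧
      (3 ≤ a.2.2 → b.2.1 = a.2.1 ∧ b.2.2 = a.2.2 - 2) ∧ (a.2.2 ≤ 2 → b.2.1 = a.2.1 + 1) := by
  obtain ⟨φ, m, w⟩ := a
  obtain ⟨h1, h2⟩ := ha
  rcases Nat.lt_or_ge w 3 with hw | hw
  · obtain ⟨φ', w', k1, k2, k3⟩ := first_step h h1 (σ := (1 / 2) ^ (m + 1)) (by positivity)
    refine ⟨(φ', m + 1, w'), ⟨k1, k3⟩, k2, fun h3 => ?_, fun _ => rfl⟩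
    exfalso
    have : 3 ≤ w := h3
    omega
  · obtain ⟨v, rfl⟩ : ∃ v, w = v + 2 := ⟨w - 2, by omega⟩
    obtain ⟨φ', k1, k2, k3⟩ := thin_step h h1 (σ := (1 / 2) ^ m) (by positivity) (w := v)
      (by omega) h2
    refine ⟨(φ', m, v), ⟨k1, k3⟩, k2, fun h3 => ⟨rfl, by simp⟩, fun h3 => ?_⟩
    exfalso
    have : v + 2 ≤ 2 := h3
    omega

theorem exists_seq {W T : Set ℂ} {c : ℂ → Set ℂ} (h : Sys W T c) {J : Set ℂ} (hJ : IsJordan J)
    (hJT : J ⊆ T) :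
    ∃ φ : ℕ → ℝ × ℝ → ℂ, (∀ n, LevelNet T n (φ n)) ∧ (∀ n, Nested n (φ n) (φ (n + 1))) ∧
      ∀ ε > 0, ∃ n, ∀ s ∈ Good n, ∀ p ∈ disc (φ n) (sqN s), ∀ q ∈ disc (φ n) (sqN s),
        dist p q < ε := by
  classical
  obtain ⟨φ0, h0⟩ := level_zero hJ hJT
  obtain ⟨φ1, w1, k1, k2, k3⟩ := first_step h h0 (σ := (1 / 2) ^ 0) (by positivity)
  have hP1 : LvlC_P T 0 (φ1, 0, w1) := ⟨k1, k3⟩
  have hstep := fun (n : ℕ) (a : {a : (ℝ × ℝ → ℂ) × ℕ × ℕ // LvlC_P T n a}) =>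
    LvlC_step h (n := n) a.1 a.2
  choose F hF using hstep
  let S : ∀ n : ℕ, {a : (ℝ × ℝ → ℂ) × ℕ × ℕ // LvlC_P T n a} := fun n =>
    Nat.rec (motive := fun n => {a : (ℝ × ℝ → ℂ) × ℕ × ℕ // LvlC_P T n a}) ⟨(φ1, 0, w1), hP1⟩
      (fun n a => ⟨F n a, (hF n a).1⟩) n
  have hS0 : (S 0).1 = (φ1, 0, w1) := rfl
  have hSs : ∀ n, (S (n + 1)).1 = F n (S n) := fun n => rfl
  let φ : ℕ → ℝ × ℝ → ℂ := fun n => Nat.casesOn n φ0 fun n => (S n).1.1
  have hφ0 : φ 0 = φ0 := rfl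
  have hφs : ∀ n, φ (n + 1) = (S n).1.1 := fun n => rfl
  have hlev : ∀ n, LevelNet T n (φ n) := by
    intro n
    cases n with
    | zero => exact h0
    | succ n => exact (S n).2.1
  refine ⟨φ, hlev, ?_, ?_⟩
  · intro n
    cases n with
    | zero => exact k2
    | succ n =>
      rw [hφs, hφs, hSs]
      exact (hF n (S n)).2.1
  · -- the numbers
    have hreach : ∀ w n, (S n).1.2.2 ≤ w →
        ∃ n', (S n').1.2.1 = (S n).1.2.1 ∧ (S n').1.2.2 ≤ 2 := by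
      intro w
      induction w using Nat.strong_induction_on with
      | _ w ih =>
        intro n hn
        rcases Nat.lt_or_ge (S n).1.2.2 3 with h3 | h3
        · exact ⟨n, rfl, by omega⟩
        · obtain ⟨e1, e2⟩ := (hF n (S n)).2.2.1 h3
          rw [← hSs] at e1 e2
          obtain ⟨n', e3, e4⟩ := ih ((S n).1.2.2 - 2) (by omega) (n + 1) (by omega)
          exact ⟨n', e3.trans e1, e4⟩
    have hM : ∀ M : ℕ, ∃ n, (S n).1.2.1 = M ∧ (S n).1.2.2 ≤ 2 := by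
      intro M
      induction M with
      | zero =>
        obtain ⟨n', e1, e2⟩ := hreach _ 0 le_rfl
        exact ⟨n', e1, e2⟩
      | succ M ih =>
        obtain ⟨n, e1, e2⟩ := ih
        have e3 := (hF n (S n)).2.2.2 e2
        rw [← hSs] at e3
        obtain ⟨n', e4, e5⟩ := hreach _ (n + 1) le_rfl
        exact ⟨n', by rw [e4, e3, e1], e5⟩
    intro ε hε
    obtain ⟨M, hMε⟩ := exists_pow_lt_of_lt_one (show (0 : ℝ) < ε / 8 by positivity)
      (by norm_num : (1 / 2 : ℝ) < 1)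
    obtain ⟨n, e1, e2⟩ := hM M
    refine ⟨n + 1, ?_⟩
    intro s hs p hp q hq
    have hN := hlev (n + 1)
    have h3 := (S n).2.2 s hs
    rw [e1] at h3
    have h4 := tt_small (by positivity) e2 h3
    have h5 : bd (sqN s) ⊆ ⋃ s ∈ Good (n + 1), bd (sqN s) :=
      hN.bdsub (sqN s) (Finset.mem_image_of_mem _ hs)
    have h6 : IsCompact (φ (n + 1) '' bd (sqN s)) :=
      (isCompact_bd _).image_of_continuousOn (hN.cont.mono h5)
    have h7 := ins_diam h6 (δ := 8 * (1 / 2) ^ M) (by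
      rintro _ ⟨p', hp', rfl⟩ _ ⟨q', hq', rfl⟩
      exact (h4 p' hp' q' hq').le) p hp q hq
    linarith

end CarT
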