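import Pool.Agent.CarT.Net
import Pool.Agent.CarT.CellB
import Pool.Agent.CarT.LvlC
import Pool.Agent.CarT.Init
import Pool.Agent.CarT.Bd
import Pool.Agent.CarT.JorB
import Pool.Agent.CarT.JorC

/-!
# CarT/Main : embedding of the standard Sierpinski carpet into `T`

`exists_jordan` gives `J ⊆ T`; `exists_seq` gives the nets `φ n`. Put `D n s = disc (φ n) (sqN s)`.
* compact: `isCompact_disc`; nonempty: contains `φ n '' bd (sqN s)`.
* nested: `Nested`. `hmeet`: `adj_bd`: a common point `v` of the boundaries, `φ n v` is in both discs.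
* `hdisj`: `s ≠ t` (equal squares are adjacent); `ins`'s are disjoint by `N.disj` (`sqN` is injective);
  `ins (φ '' bd (sqN s))` is disjoint from `φ '' Γ ⊇ φ '' bd (sqN t)` by `N.face`; the images of the
  boundaries are disjoint by `N.inj` and `not_adj_bd`.
* `hdiam` from `exists_seq`.
`carpet_of_cells` gives `f`. It remains: `z = f p ∈ T`. Suppose not. For every `n` there is
`s ∈ Good n` with `z ∈ disc (φ n) (sqN s)`, and `z ∉ φ n '' bd (sqN s) ⊆ T`, so `z ∈ ins (φ n '' bd (sqN s))`,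
in particular `z ∈ W` (`fullW`). By `nontriv` there is `y ∈ c z`, `y ≠ z`. The inside of the Jordan curve
`φ n '' bd (sqN s) ⊆ T` is saturated (`ins_sat`), so `y` is in it, and
`dist y z < ε` for the `n` belonging to `ε` in `hdiam`. With `ε = dist y z` this is a contradiction.
-/

open Set Metric

namespace CarT

lemma Main_inj {s t : ℕ × ℕ} (h : sqN s = sqN t) : s = t := by
  have h1 : (s.1 : ℝ) = t.1 := congrArg (fun R : Rect => R.1.1) h
  have h2 : (s.2 : ℝ) = t.2 := congrArg (fun R : Rect => R.2.1) h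
  exact Prod.ext (by exact_mod_cast h1) (by exact_mod_cast h2)

theorem carpet_in_T {W T : Set ℂ} {c : ℂ → Set ℂ} (h : Sys W T c) :
    ∃ f : ℝ × ℝ → ℂ, ContinuousOn f Carpet ∧ InjOn f Carpet ∧ MapsTo f Carpet T := by
  classical
  obtain ⟨J, hJ, hJT⟩ := exists_jordan h
  obtain ⟨φ, hL, hN, hd⟩ := exists_seq h hJ hJT
  have hmem : ∀ n, ∀ s ∈ Good n, sqN s ∈ (Good n).image sqN := fun n s hs =>
    Finset.mem_image_of_mem _ hs
  have hb : ∀ n, ∀ s ∈ Good n, bd (sqN s) ⊆ ⋃ s ∈ Good n, bd (sqN s) := fun n s hs =>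
    (hL n).bdsub _ (Finset.mem_image_of_mem _ hs)
  have hcpt : ∀ n, ∀ s ∈ Good n, IsCompact (φ n '' bd (sqN s)) := fun n s hs =>
    (isCompact_bd _).image_of_continuousOn ((hL n).cont.mono (hb n s hs))
  have hbT : ∀ n, ∀ s ∈ Good n, φ n '' bd (sqN s) ⊆ T := by
    rintro n s hs _ ⟨v, hv, rfl⟩
    exact (hL n).mapT (hb n s hs hv)
  have hbne : ∀ s : ℕ × ℕ, (bd (sqN s)).Nonempty := by
    intro s
    refine ⟨((s.1 : ℝ), (s.2 : ℝ)), mem_bd_iff.2 ⟨⟨⟨le_rfl, ?_⟩, ⟨le_rfl, ?_⟩⟩, Or.inl rfl⟩⟩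
    · show (s.1 : ℝ) ≤ s.1 + 1
      linarith
    · show (s.2 : ℝ) ≤ s.2 + 1
      linarith
  obtain ⟨f, f1, f2, f3⟩ := carpet_of_cells (D := fun n s => disc (φ n) (sqN s))
    (fun n s hs => isCompact_disc (hcpt n s hs))
    (fun n s hs => ((hbne s).image _).mono subset_union_right)
    (fun n s hs o ho => hN n s hs o ho)
    (fun n s hs t ht hst => by
      obtain ⟨v, hv1, hv2⟩ := adj_bd hst
      exact ⟨φ n v, Or.inr ⟨v, hv1, rfl⟩, Or.inr ⟨v, hv2, rfl⟩⟩)
    (fun n s hs t ht hst => by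
      have hdj := not_adj_bd hst
      have hne : sqN s ≠ sqN t := by
        intro hc
        rw [hc] at hdj
        obtain ⟨v, hv⟩ := hbne t
        exact Set.disjoint_left.1 hdj hv hv
      have N := hL n
      have e1 := N.disj _ (Finset.mem_image_of_mem _ hs) _ (Finset.mem_image_of_mem _ ht) hne
      have e2 := (N.face _ (Finset.mem_image_of_mem _ hs)).mono_right
        (image_mono (hb n t ht) : φ n '' bd (sqN t) ⊆ _)
      have e3 := (N.face _ (Finset.mem_image_of_mem _ ht)).mono_right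
        (image_mono (hb n s hs) : φ n '' bd (sqN s) ⊆ _)
      have e4 : Disjoint (φ n '' bd (sqN s)) (φ n '' bd (sqN t)) := by
        rw [Set.disjoint_left]
        rintro _ ⟨v, hv, rfl⟩ ⟨v', hv', he⟩
        have := N.inj (hb n t ht hv') (hb n s hs hv) he
        rw [this] at hv'
        exact Set.disjoint_left.1 hdj hv hv'
      show Disjoint (ins (φ n '' bd (sqN s)) ∪ φ n '' bd (sqN s))
        (ins (φ n '' bd (sqN t)) ∪ φ n '' bd (sqN t))
      rw [Set.disjoint_union_left, Set.disjoint_union_right, Set.disjoint_union_right]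
      exact ⟨⟨e1, e2⟩, e3.symm, e4⟩)
    hd
  refine ⟨f, f1, f2, fun p hp => ?_⟩
  by_contra hz
  have hins : ∀ n, ∃ s ∈ Good n, f p ∈ ins (φ n '' bd (sqN s)) := by
    intro n
    obtain ⟨s, hs, hps⟩ := f3 p hp n
    rcases hps with hps | hps
    · exact ⟨s, hs, hps⟩
    · exact absurd (hbT n s hs hps) hz
  have hW : f p ∈ W := by
    obtain ⟨s, hs, hps⟩ := hins 0
    exact h.fullW _ (hcpt 0 s hs) ((hbT 0 s hs).trans h.TW) hps
  obtain ⟨y, hy, hyz⟩ := h.nontriv _ hW hz
  have hε : 0 < dist y (f p) := dist_pos.2 hyz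
  obtain ⟨n, hn⟩ := hd _ hε
  obtain ⟨s, hs, hps⟩ := hins n
  have hys : y ∈ ins (φ n '' bd (sqN s)) := ins_sat h (hcpt n s hs) (hbT n s hs) _ hps hy
  exact lt_irrefl _ (hn s hs y (Or.inl hys) (f p) (Or.inl hps))

/-- the carpet as a subspace -/
theorem carpet_homeo {f : ℝ × ℝ → ℂ} (hf : ContinuousOn f Carpet) (hi : InjOn f Carpet) :
    Nonempty (↥(f '' Carpet) ≃ₜ ↥Carpet) := by
  haveI : CompactSpace ↥Carpet := isCompact_iff_compactSpace.1 isCompact_Carpet
  have hc : Continuous (Equiv.Set.imageOfInjOn f Carpet hi) :=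
    Continuous.subtype_mk (continuousOn_iff_continuous_domRestrict.1 hf) _
  exact ⟨(hc.homeoOfEquivCompactToT2).symm⟩

end CarT
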