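import Pool.Agent.CarT.Sys

/-!
# CarT/Net : nets of rectangles mapped into `T`

All definitions used for the subdivision: rectangles, nets, closeness, sizes, levels.
-/

open Set Metric

namespace CarT

/-- the rectangle `[a, b] × [c, e]` is coded by `((a, b), (c, e))` -/
abbrev Rect := (ℝ × ℝ) × (ℝ × ℝ)

/-- the closed rectangle -/
def cl (R : Rect) : Set (ℝ × ℝ) := Icc R.1.1 R.1.2 ×ˢ Icc R.2.1 R.2.2

/-- the open rectangle -/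
def op (R : Rect) : Set (ℝ × ℝ) := Ioo R.1.1 R.1.2 ×ˢ Ioo R.2.1 R.2.2

/-- the boundary of the rectangle -/
def bd (R : Rect) : Set (ℝ × ℝ) := cl R \ op R

/-- the closed disc bounded by the image of the boundary of the rectangle -/
def disc (φ : ℝ × ℝ → ℂ) (R : Rect) : Set ℂ := ins (φ '' bd R) ∪ φ '' bd R

/-- `φ` maps `Γ` homeomorphically into `T`; the rectangles of `Q` are faces of `Γ` and their images
are faces of the image -/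
structure Net (T : Set ℂ) (Q : Finset Rect) (Γ : Set (ℝ × ℝ)) (φ : ℝ × ℝ → ℂ) : Prop where
  pos : ∀ R ∈ Q, R.1.1 < R.1.2 ∧ R.2.1 < R.2.2
  comp : IsCompact Γ
  bdsub : ∀ R ∈ Q, bd R ⊆ Γ
  int : ∀ R ∈ Q, Disjoint (op R) Γ
  sep : ∀ R ∈ Q, ∀ R' ∈ Q, R ≠ R' → Disjoint (op R) (op R')
  cont : ContinuousOn φ Γ
  inj : InjOn φ Γ
  mapT : MapsTo φ Γ T
  face : ∀ R ∈ Q, Disjoint (ins (φ '' bd R)) (φ '' Γ)
  disj : ∀ R ∈ Q, ∀ R' ∈ Q, R ≠ R' → Disjoint (ins (φ '' bd R)) (ins (φ '' bd R'))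

theorem Net.mono {T : Set ℂ} {Q Q' : Finset Rect} {Γ : Set (ℝ × ℝ)} {φ : ℝ × ℝ → ℂ}
    (N : Net T Q Γ φ) (h : Q' ⊆ Q) : Net T Q' Γ φ where
  pos := fun R hR => N.pos R (h hR)
  comp := N.comp
  bdsub := fun R hR => N.bdsub R (h hR)
  int := fun R hR => N.int R (h hR)
  sep := fun R hR R' hR' => N.sep R (h hR) R' (h hR')
  cont := N.cont
  inj := N.inj
  mapT := N.mapT
  face := fun R hR => N.face R (h hR)
  disj := fun R hR R' hR' => N.disj R (h hR) R' (h hR')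

/-- clamping to `[0, 1]` -/
noncomputable def cl1 (u : ℝ) : ℝ := max 0 (min u 1)

/-- the path from `(m, c)` along the boundary of the rectangle between the lines `x = m` and
`x = m + d` to `(m, e)`, parametrised by `[0, 1]`; the middle third is the far vertical side -/
noncomputable def cpath (m d c e u : ℝ) : ℝ × ℝ :=
  (m + d * (cl1 (3 * u) - cl1 (3 * u - 2)), c + (e - c) * cl1 (3 * u - 1))

/-- left part of a rectangle -/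
def leftR (m : ℝ) (R : Rect) : Rect := ((R.1.1, m), R.2)
/-- right part of a rectangle -/
def rightR (m : ℝ) (R : Rect) : Rect := ((m, R.1.2), R.2)
/-- lower part of a rectangle -/
def lowR (m : ℝ) (R : Rect) : Rect := (R.1, (R.2.1, m))
/-- upper part of a rectangle -/
def upR (m : ℝ) (R : Rect) : Rect := (R.1, (m, R.2.2))

/-- the unit square with lower left corner `(x, y)` -/
def sq (x y : ℝ) : Rect := ((x, x + 1), (y, y + 1))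

/-- the square of side `3` with lower left corner `(x, y)` -/
def big (x y : ℝ) : Rect := ((x, x + 3), (y, y + 3))

/-- the positions `{0,1,2}² \ {(1,1)}` -/
def off : Finset (ℕ × ℕ) := ((Finset.range 3) ×ˢ (Finset.range 3)).erase (1, 1)

open Classical in
/-- the eight unit squares in `big x y` -/
noncomputable def kids (x y : ℝ) : Finset Rect :=
  off.image (fun o => sq (x + o.1) (y + o.2))

/-- the union of the boundaries of the eight unit squares in `big x y` -/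
def kidsBd (x y : ℝ) : Set (ℝ × ℝ) := ⋃ o ∈ off, bd (sq (x + o.1) (y + o.2))

/-- the corner parts of the boundary of `big x y` (`l`eft/`r`ight, `l`ower/`u`pper) -/
def cLL (x y : ℝ) : Set (ℝ × ℝ) := {x} ×ˢ Icc y (y + 1) ∪ Icc x (x + 1) ×ˢ {y}
@[inherit_doc cLL]
def cRL (x y : ℝ) : Set (ℝ × ℝ) := {x + 3} ×ˢ Icc y (y + 1) ∪ Icc (x + 2) (x + 3) ×ˢ {y}
@[inherit_doc cLL]
def cLU (x y : ℝ) : Set (ℝ × ℝ) := {x} ×ˢ Icc (y + 2) (y + 3) ∪ Icc x (x + 1) ×ˢ {y + 3}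
@[inherit_doc cLL]
def cRU (x y : ℝ) : Set (ℝ × ℝ) := {x + 3} ×ˢ Icc (y + 2) (y + 3) ∪ Icc (x + 2) (x + 3) ×ˢ {y + 3}

/-- `φ' p` is `ε`-close to a value of `φ` on `X` -/
def Near (φ φ' : ℝ × ℝ → ℂ) (ε : ℝ) (p : ℝ × ℝ) (X : Set (ℝ × ℝ)) : Prop :=
  ∃ q ∈ X, dist (φ' p) (φ q) < ε

/-- the closeness conditions for a subdivision of `big x y` which starts with horizontal cuts -/
structure HC (x y : ℝ) (φ φ' : ℝ × ℝ → ℂ) (ε : ℝ) : Prop where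
  ll : ∀ p ∈ bd (sq x y), Near φ φ' ε p (cLL x y)
  rl : ∀ p ∈ bd (sq (x + 2) y), Near φ φ' ε p (cRL x y)
  lu : ∀ p ∈ bd (sq x (y + 2)), Near φ φ' ε p (cLU x y)
  ru : ∀ p ∈ bd (sq (x + 2) (y + 2)), Near φ φ' ε p (cRU x y)
  low : ∀ u ∈ Icc (0 : ℝ) 1, dist (φ' (x + 1 + u, y + 1)) (φ (x + 1 + u, y)) < ε
  up : ∀ u ∈ Icc (0 : ℝ) 1, dist (φ' (x + 1 + u, y + 2)) (φ (x + 1 + u, y + 3)) < ε
  ml1 : ∀ u ∈ Icc (0 : ℝ) 1, Near φ φ' ε (x + 1, y + 1 + u / 3) (cLL x y)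
  ml2 : ∀ u ∈ Icc (0 : ℝ) 1, dist (φ' (x + 1, y + 1 + (1 + u) / 3)) (φ (x, y + 1 + u)) < ε
  ml3 : ∀ u ∈ Icc (0 : ℝ) 1, Near φ φ' ε (x + 1, y + 1 + (2 + u) / 3) (cLU x y)
  mr1 : ∀ u ∈ Icc (0 : ℝ) 1, Near φ φ' ε (x + 2, y + 1 + u / 3) (cRL x y)
  mr2 : ∀ u ∈ Icc (0 : ℝ) 1, dist (φ' (x + 2, y + 1 + (1 + u) / 3)) (φ (x + 3, y + 1 + u)) < ε
  mr3 : ∀ u ∈ Icc (0 : ℝ) 1, Near φ φ' ε (x + 2, y + 1 + (2 + u) / 3) (cRU x y)

/-- closeness for a subdivision which starts with vertical cuts -/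
def VC (x y : ℝ) (φ φ' : ℝ × ℝ → ℂ) (ε : ℝ) : Prop :=
  HC y x (φ ∘ Prod.swap) (φ' ∘ Prod.swap) ε

/-- short paths (parametrised by `[0,1]`) -/
def Sh (σ : ℝ) (f : ℝ → ℂ) : Prop :=
  ∀ s ∈ Icc (0 : ℝ) 1, ∀ t ∈ Icc (0 : ℝ) 1, dist (f s) (f t) < σ

/-- paths which are the union of `w` short pieces -/
def Wt (σ : ℝ) (w : ℕ) (f : ℝ → ℂ) : Prop :=
  ∃ τ : ℕ → ℝ, Monotone τ ∧ τ 0 = 0 ∧ τ w = 1 ∧
    ∀ i < w, ∀ s ∈ Icc (τ i) (τ (i + 1)), ∀ t ∈ Icc (τ i) (τ (i + 1)), dist (f s) (f t) < σ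

/-- short or of weight `w` -/
def SS (σ : ℝ) (w : ℕ) (f : ℝ → ℂ) : Prop := Sh (2 * σ) f ∨ Wt σ w f

/-- horizontal unit edge -/
def hE (φ : ℝ × ℝ → ℂ) (x y : ℝ) : ℝ → ℂ := fun t => φ (x + t, y)
/-- vertical unit edge -/
def vE (φ : ℝ × ℝ → ℂ) (x y : ℝ) : ℝ → ℂ := fun t => φ (x, y + t)

/-- small squares -/
def Small (σ : ℝ) (φ : ℝ × ℝ → ℂ) (x y : ℝ) : Prop :=
  ∀ p ∈ bd (sq x y), ∀ q ∈ bd (sq x y), dist (φ p) (φ q) < 8 * σ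

/-- thin squares, short vertical sides -/
def ThinH (σ : ℝ) (w : ℕ) (φ : ℝ × ℝ → ℂ) (x y : ℝ) : Prop :=
  Sh (2 * σ) (vE φ x y) ∧ Sh (2 * σ) (vE φ (x + 1) y) ∧ SS σ w (hE φ x y) ∧
    SS σ w (hE φ x (y + 1))

/-- thin squares, short horizontal sides -/
def ThinV (σ : ℝ) (w : ℕ) (φ : ℝ × ℝ → ℂ) (x y : ℝ) : Prop :=
  Sh (2 * σ) (hE φ x y) ∧ Sh (2 * σ) (hE φ x (y + 1)) ∧ SS σ w (vE φ x y) ∧
    SS σ w (vE φ (x + 1) y)

/-- the three types of squares -/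
def TT (σ : ℝ) (w : ℕ) (φ : ℝ × ℝ → ℂ) (x y : ℝ) : Prop :=
  Small σ φ x y ∨ ThinH σ w φ x y ∨ ThinV σ w φ x y

/-- the piecewise linear map `[0, 3] → [0, 1]` with `0, 1, 2, 3 ↦ 0, α, β, 1` -/
noncomputable def um (m : ℝ × ℝ) (t : ℝ) : ℝ :=
  m.1 * cl1 t + (m.2 - m.1) * cl1 (t - 1) + (1 - m.2) * cl1 (t - 2)

/-- admissible marks -/
def Adm (m : ℝ × ℝ) : Prop := 0 < m.1 ∧ m.1 < m.2 ∧ m.2 < 1

/-- sides (parametrised by `[0,3]`) prepared for a step in a thin net -/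
structure M3 (σ : ℝ) (w : ℕ) (f : ℝ → ℂ) : Prop where
  fst : ∀ s ∈ Icc (0 : ℝ) 1, ∀ t ∈ Icc (0 : ℝ) 1, dist (f s) (f t) < σ
  lst : ∀ s ∈ Icc (2 : ℝ) 3, ∀ t ∈ Icc (2 : ℝ) 3, dist (f s) (f t) < σ
  tiny : (∀ s ∈ Icc (0 : ℝ) 3, ∀ t ∈ Icc (0 : ℝ) 3, dist (f s) (f t) < 2 * σ) →
    (∀ s ∈ Icc (0 : ℝ) 1, ∀ t ∈ Icc (0 : ℝ) 1, dist (f s) (f t) < σ / 4) ∧
    (∀ s ∈ Icc (2 : ℝ) 3, ∀ t ∈ Icc (2 : ℝ) 3, dist (f s) (f t) < σ / 4)
  mid : SS σ w (fun t => f (1 + t))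

/-- sides (parametrised by `[0,3]`) prepared for a first step -/
structure M1 (σ : ℝ) (w : ℕ) (f : ℝ → ℂ) : Prop where
  fst : ∀ s ∈ Icc (0 : ℝ) 1, ∀ t ∈ Icc (0 : ℝ) 1, dist (f s) (f t) < σ / 2
  lst : ∀ s ∈ Icc (2 : ℝ) 3, ∀ t ∈ Icc (2 : ℝ) 3, dist (f s) (f t) < σ / 2
  mid : Wt (σ / 2) w (fun t => f (1 + t))

/-- the eight children of the square with index `s` -/
def kidN (s o : ℕ × ℕ) : ℕ × ℕ := (3 * s.1 + o.1, 3 * s.2 + o.2)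

/-- the indices of the squares of level `n` of the carpet -/
def Good : ℕ → Finset (ℕ × ℕ)
  | 0 => {(0, 0)}
  | n + 1 => (Good n).biUnion (fun s => off.image (kidN s))

/-- the unit square with index `s` -/
def sqN (s : ℕ × ℕ) : Rect := sq (s.1 : ℝ) (s.2 : ℝ)

/-- the square of side `3` with index `s` -/
def bigN (s : ℕ × ℕ) : Rect := big (3 * (s.1 : ℝ)) (3 * (s.2 : ℝ))

open Classical in
/-- a net of level `n` -/
def LevelNet (T : Set ℂ) (n : ℕ) (φ : ℝ × ℝ → ℂ) : Prop :=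
  Net T ((Good n).image sqN) (⋃ s ∈ Good n, bd (sqN s)) φ

open Classical in
/-- a net of level `n`, scaled by `3` -/
def LevelNet3 (T : Set ℂ) (n : ℕ) (φ : ℝ × ℝ → ℂ) : Prop :=
  Net T ((Good n).image bigN) (⋃ s ∈ Good n, bd (bigN s)) φ

/-- the discs of the next level are contained in the discs of their parents -/
def Nested (n : ℕ) (φ φ' : ℝ × ℝ → ℂ) : Prop :=
  ∀ s ∈ Good n, ∀ o ∈ off, disc φ' (sqN (kidN s o)) ⊆ disc φ (sqN s)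

end CarT
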