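import Mathlib

/-!
# CarT/Sys : the abstract interface for the embedding of the carpet (MP_efd072_an)

`W` is an open subset of the plane (a disc), `c x` is the class of the point `x` in an
upper semicontinuous decomposition of `W` into connected sets, `T` is the set of the points of `W`
with a one-point class. `Sys W T c` lists the properties which are used for the construction of
a Sierpinski carpet in `T`.
-/

open Set Metric

namespace CarT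

/-- `G` is a union of classes -/
def IsSat (c : ℂ → Set ℂ) (G : Set ℂ) : Prop := ∀ x ∈ G, c x ⊆ G

/-- `A` is an arc with ends `x` and `y` -/
def IsArc (A : Set ℂ) (x y : ℂ) : Prop :=
  ∃ f : ℝ → ℂ, ContinuousOn f (Icc 0 1) ∧ InjOn f (Icc 0 1) ∧ f '' (Icc 0 1) = A ∧
    f 0 = x ∧ f 1 = y

/-- `J` is a Jordan curve: a closed curve of period `1` without double points -/
def IsJordan (J : Set ℂ) : Prop :=
  ∃ g : ℝ → ℂ, Continuous g ∧ Function.Periodic g 1 ∧ InjOn g (Ico 0 1) ∧ range g = J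

/-- `f` has a continuous logarithm on `A` -/
def HasLog (A : Set ℂ) (f : ℂ → ℂ) : Prop :=
  ∃ g : ℂ → ℂ, ContinuousOn g A ∧ ∀ z ∈ A, Complex.exp (g z) = f z

/-- the inside of a compact set: the union of the bounded components of its complement -/
def ins (J : Set ℂ) : Set ℂ :=
  {z | z ∉ J ∧ Bornology.IsBounded (connectedComponentIn Jᶜ z)}

/-- the outside of a compact set -/
def out (J : Set ℂ) : Set ℂ :=
  {z | z ∉ J ∧ ¬ Bornology.IsBounded (connectedComponentIn Jᶜ z)}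

/-- the interface -/
structure Sys (W T : Set ℂ) (c : ℂ → Set ℂ) : Prop where
  openW : IsOpen W
  fullW : ∀ J : Set ℂ, IsCompact J → J ⊆ W → ins J ⊆ W
  TW : T ⊆ W
  mem : ∀ x ∈ W, x ∈ c x
  conn : ∀ x ∈ W, IsPreconnected (c x)
  part : ∀ x ∈ W, ∀ y ∈ c x, c y = c x
  triv : ∀ x ∈ T, c x = {x}
  nontriv : ∀ x ∈ W, x ∉ T → ∃ y ∈ c x, y ≠ x
  nbhd : ∀ C O : Set ℂ, IsCompact C → C ⊆ T → IsOpen O → C ⊆ O →
    ∃ G : Set ℂ, IsOpen G ∧ IsSat c G ∧ C ⊆ G ∧ G ⊆ O ∧ G ⊆ W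
  nonem : ∃ G : Set ℂ, IsOpen G ∧ IsSat c G ∧ G.Nonempty ∧ G ⊆ W
  dense : ∀ G : Set ℂ, IsOpen G → IsSat c G → G ⊆ W → G.Nonempty → (G ∩ T).Nonempty
  path : ∀ G : Set ℂ, IsOpen G → IsSat c G → G ⊆ W → IsPreconnected G →
    ∀ x ∈ G ∩ T, ∀ y ∈ G ∩ T, JoinedIn (G ∩ T) x y

/-- the standard Sierpinski carpet (the set of the frozen statement) -/
def Carpet : Set (ℝ × ℝ) :=
  {p : ℝ × ℝ | p.1 ∈ Set.Icc (0:ℝ) 1 ∧ p.2 ∈ Set.Icc (0:ℝ) 1 ∧
    ∀ n a b : ℕ, p ∉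
      Set.Ioo ((3 * (a:ℝ) + 1) / 3 ^ (n + 1)) ((3 * (a:ℝ) + 2) / 3 ^ (n + 1)) ×ˢ
      Set.Ioo ((3 * (b:ℝ) + 1) / 3 ^ (n + 1)) ((3 * (b:ℝ) + 2) / 3 ^ (n + 1))}

end CarT
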